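import Pool.Agent.Work.MP_c51bc2_nt_lb.Interface

/-!
# Block BLA (helper10): statement (A)
-/

open Finset Complex MeasureTheory

namespace HZS

theorem BLA_a {κ W : ℝ} (hκ : 0 < κ) (hW : 0 < W) (h1 : 1 / (5 * κ ^ 2) ≤ W)
    (h2 : W ≤ 1 / κ ^ 2) : W ^ (-(1 / 4) : ℝ) ≤ 2 * κ ^ (1 / 2 : ℝ) ∧
      κ * W ^ (1 / 4 : ℝ) ≤ κ ^ (1 / 2 : ℝ) := by
  obtain ⟨k, hk⟩ : ∃ k : ℝ, k = κ ^ (1 / 2 : ℝ) := ⟨_, rfl⟩
  obtain ⟨w, hw⟩ : ∃ w : ℝ, w = W ^ (1 / 4 : ℝ) := ⟨_, rfl⟩
  have hk0 : 0 < k := by rw [hk]; exact Real.rpow_pos_of_pos hκ _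
  have hw0 : 0 < w := by rw [hw]; exact Real.rpow_pos_of_pos hW _
  have hk2 : k ^ 2 = κ := by
    rw [hk, ← Real.rpow_natCast, ← Real.rpow_mul hκ.le]
    norm_num
  have hw4 : w ^ 4 = W := by
    rw [hw, ← Real.rpow_natCast, ← Real.rpow_mul hW.le]
    norm_num
  rw [Real.rpow_neg hW.le, ← hw, ← hk]
  have hkw : 0 < k * w := mul_pos hk0 hw0
  constructor
  · have h3 : 1 ≤ 5 * (k * w) ^ 4 := by
      rw [div_le_iff₀ (by positivity)] at h1
      calc (1 : ℝ) ≤ W * (5 * κ ^ 2) := h1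
        _ = 5 * (k * w) ^ 4 := by rw [← hw4, ← hk2]; ring
    have h4 : 1 ≤ 2 * k * w := by
      by_contra hc
      push Not at hc
      have h5 : k * w < 1 / 2 := by linarith
      have h6 : (k * w) ^ 4 < (1 / 2) ^ 4 := pow_lt_pow_left₀ h5 hkw.le (by norm_num)
      norm_num at h6
      linarith
    rw [inv_le_iff_one_le_mul₀ hw0]
    exact h4
  · have h3 : (k * w) ^ 4 ≤ 1 := by
      rw [le_div_iff₀ (by positivity)] at h2
      calc (k * w) ^ 4 = W * κ ^ 2 := by rw [← hw4, ← hk2]; ring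
        _ ≤ 1 := h2
    have h4 : k * w ≤ 1 := (pow_le_one_iff_of_nonneg hkw.le (by norm_num)).mp h3
    calc κ * w = k * (k * w) := by rw [← hk2]; ring
      _ ≤ k * 1 := mul_le_mul_of_nonneg_left h4 hk0.le
      _ = k := mul_one k

theorem BLA_b {L W : ℝ} (hL : 0 < L) (hW : 0 < W) : 1 / (W / L) * (W / L) ^ (3 / 4 : ℝ) =
    L ^ (1 / 4 : ℝ) * W ^ (-(1 / 4) : ℝ) := by
  have hx : 0 < W / L := div_pos hW hL
  have h1 : 1 / (W / L) * (W / L) ^ (3 / 4 : ℝ) = (W / L) ^ (-(1 / 4) : ℝ) := by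
    have h2 : (W / L) ^ (3 / 4 - 1 : ℝ) = (W / L) ^ (3 / 4 : ℝ) / (W / L) :=
      Real.rpow_sub_one hx.ne' _
    have h3 : (-(1 / 4) : ℝ) = 3 / 4 - 1 := by norm_num
    rw [h3, h2]
    ring
  rw [h1, Real.div_rpow hW.le hL.le, Real.rpow_neg hL.le, div_inv_eq_mul, mul_comm]

/-- the sizes of `κ` and `log T` -/
theorem BLA_c {κ L : ℝ} (hL : 0 < L) (hκ : 0 < κ) (h : L ^ (-(1 / 2) : ℝ) ≤ κ) :
    1 ≤ L ^ (1 / 4 : ℝ) * κ ^ (1 / 2 : ℝ) ∧ 1 / κ ^ 2 ≤ L := by
  obtain ⟨k, hk⟩ : ∃ k : ℝ, k = κ ^ (1 / 2 : ℝ) := ⟨_, rfl⟩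
  obtain ⟨m, hm⟩ : ∃ m : ℝ, m = L ^ (1 / 4 : ℝ) := ⟨_, rfl⟩
  have hk0 : 0 < k := by rw [hk]; exact Real.rpow_pos_of_pos hκ _
  have hm0 : 0 < m := by rw [hm]; exact Real.rpow_pos_of_pos hL _
  have hk2 : k ^ 2 = κ := by
    rw [hk, ← Real.rpow_natCast, ← Real.rpow_mul hκ.le]
    norm_num
  have hm2 : m ^ 2 = L ^ (1 / 2 : ℝ) := by
    rw [hm, ← Real.rpow_natCast, ← Real.rpow_mul hL.le]
    norm_num
  have hm4 : m ^ 4 = L := by
    rw [hm, ← Real.rpow_natCast, ← Real.rpow_mul hL.le]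
    norm_num
  have h1 : 1 ≤ (m * k) ^ 2 := by
    rw [Real.rpow_neg hL.le, ← hm2, inv_le_iff_one_le_mul₀ (by positivity)] at h
    calc (1 : ℝ) ≤ κ * m ^ 2 := h
      _ = (m * k) ^ 2 := by rw [← hk2]; ring
  have hmk : 0 < m * k := mul_pos hm0 hk0
  have h2 : 1 ≤ m * k := by nlinarith
  rw [← hk, ← hm]
  refine ⟨h2, ?_⟩
  rw [div_le_iff₀ (by positivity)]
  calc (1 : ℝ) ≤ ((m * k) ^ 2) ^ 2 := by nlinarith
    _ = L * κ ^ 2 := by rw [← hm4, ← hk2]; ring

theorem p_BLA (hPAR : Stmt_PARs) (hFIN : Stmt_FINAs) (hLBF : Stmt_LBFs) (hZB : Stmt_ZBs)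
    (hZC : Stmt_ZC) (hMES : Stmt_MES) (hOFF : Stmt_OFF) (hDEV : Stmt_DEV) (hTRV : Stmt_TRV)
    (hWIN : Stmt_WIN) : Stmt_BLA := by
  intro δ hδ hδ1
  obtain ⟨Wa, L0, hWa, hL0, hPAR⟩ := hPAR δ hδ hδ1
  obtain ⟨C1, T1, Wb, hC1, hT1, hWb, hFIN⟩ := hFIN δ hδ hδ1
  obtain ⟨c, T2, hc, hT2, hLBF⟩ := hLBF δ hδ hδ1
  obtain ⟨C3, T3, hC3, hT3, hZB⟩ := hZB
  obtain ⟨C4, T4, hC4, hT4, hOFF⟩ := hOFF δ hδ hδ1
  obtain ⟨C5, T5, hC5, hT5, hDEV⟩ := hDEV δ hδ hδ1
  obtain ⟨C6, T6, hC6, hT6, hTRV⟩ := hTRV δ hδ hδ1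
  have hW10 : 0 < Wa + Wb := by linarith
  refine ⟨(Wa + Wb) ^ (1 / 4 : ℝ) + 4 + (2 * C1 + 8 * C4 + C6 + C3 + 2 * C5) / c,
    T1 + T2 + T3 + T4 + T5 + T6 + Real.exp (L0 + 5 * (Wa + Wb)), ?_, ?_, ?_⟩
  · have h1 : 0 < (Wa + Wb) ^ (1 / 4 : ℝ) := Real.rpow_pos_of_pos hW10 _
    positivity
  · have := Real.exp_pos (L0 + 5 * (Wa + Wb))
    linarith
  intro T H κ F hT hAdm hκ hκ1 hF1 hF2
  have hexp := Real.exp_pos (L0 + 5 * (Wa + Wb))
  have hT0 : 1 < T := by linarith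
  have hTp : 0 < T := by linarith
  have hlog : L0 + 5 * (Wa + Wb) ≤ Real.log T := by
    rw [Real.le_log_iff_exp_le hTp]
    linarith
  have hL : 0 < Real.log T := by linarith
  have hκ0 : 0 < κ := lt_of_lt_of_le (Real.rpow_pos_of_pos hL _) hκ
  have hsq : Real.sqrt T ≤ H := by
    refine le_trans ?_ hAdm.1
    rw [Real.sqrt_eq_rpow]
    exact Real.rpow_le_rpow_of_exponent_le hT0.le (by linarith)
  have hH : 0 < H := lt_of_lt_of_le (Real.sqrt_pos.mpr hTp) hsq
  have hHT : H ≤ T := hAdm.2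
  have hTH : T ≤ T + H := by linarith
  have hZabs : Continuous fun t => |Z t| := hZC.abs
  have hFc : Continuous F := by
    refine (LipschitzWith.of_dist_le_mul (K := Real.toNNReal κ) fun x y => ?_).continuous
    rw [Real.coe_toNNReal κ hκ0.le, Real.dist_eq, Real.dist_eq]
    exact hF2 x y
  obtain ⟨I, hI⟩ : ∃ I : ℝ, I = ∫ t in T..(T + H), |Z t| := ⟨_, rfl⟩
  have hI0 : 0 ≤ I := by
    rw [hI]
    exact intervalIntegral.integral_nonneg hTH fun t _ => abs_nonneg _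
  have hLB : c * H * Real.log T ^ (1 / 4 : ℝ) ≤ I := by
    rw [hI]
    exact hLBF T H (by linarith) hAdm
  obtain ⟨k, hk⟩ : ∃ k : ℝ, k = κ ^ (1 / 2 : ℝ) := ⟨_, rfl⟩
  have hk0 : 0 < k := by rw [hk]; exact Real.rpow_pos_of_pos hκ0 _
  have htriv : |∫ t in T..(T + H), Z t * F (Real.log |Z t|)| ≤ I := by
    rw [hI, ← Real.norm_eq_abs]
    refine intervalIntegral.norm_integral_le_of_norm_le hTH
      (Filter.Eventually.of_forall fun t _ => ?_) (hZabs.intervalIntegrable _ _)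
    rw [Real.norm_eq_abs, abs_mul]
    calc |Z t| * |F (Real.log |Z t|)| ≤ |Z t| * 1 :=
          mul_le_mul_of_nonneg_left (hF1 _) (abs_nonneg _)
      _ = |Z t| := mul_one _
  rw [← hI, ← hk]
  have hq0 : 0 ≤ (2 * C1 + 8 * C4 + C6 + C3 + 2 * C5) / c := by positivity
  by_cases hcase : 1 / κ ^ 2 < Wa + Wb
  · -- the trivial bound
    have h1 : 1 ≤ (Wa + Wb) ^ (1 / 4 : ℝ) * k := by
      obtain ⟨w, hw⟩ : ∃ w : ℝ, w = (Wa + Wb) ^ (1 / 4 : ℝ) := ⟨_, rfl⟩
      have hw0 : 0 < w := by rw [hw]; exact Real.rpow_pos_of_pos hW10 _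
      have hw4 : w ^ 4 = Wa + Wb := by
        rw [hw, ← Real.rpow_natCast, ← Real.rpow_mul hW10.le]
        norm_num
      have hk2 : k ^ 2 = κ := by
        rw [hk, ← Real.rpow_natCast, ← Real.rpow_mul hκ0.le]
        norm_num
      rw [← hw]
      rw [div_lt_iff₀ (by positivity)] at hcase
      have h2 : 1 < (w * k) ^ 4 := by
        calc (1 : ℝ) < (Wa + Wb) * κ ^ 2 := hcase
          _ = (w * k) ^ 4 := by rw [← hw4, ← hk2]; ring
      by_contra hcon
      push Not at hcon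
      have h3 : (w * k) ^ 4 ≤ 1 := pow_le_one₀ (mul_pos hw0 hk0).le hcon.le
      linarith
    refine htriv.trans ?_
    calc I ≤ ((Wa + Wb) ^ (1 / 4 : ℝ) * k) * I := le_mul_of_one_le_left hI0 h1
      _ ≤ ((Wa + Wb) ^ (1 / 4 : ℝ) + 4 + (2 * C1 + 8 * C4 + C6 + C3 + 2 * C5) / c) * k * I := by
          refine mul_le_mul_of_nonneg_right (mul_le_mul_of_nonneg_right ?_ hk0.le) hI0
          linarith
  · push Not at hcase
    obtain ⟨hc1, hc2⟩ := BLA_c hL hκ0 hκ
    obtain ⟨W, hW⟩ : ∃ W : ℝ, W = min (1 / κ ^ 2) (Real.log T / 5) := ⟨_, rfl⟩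
    have hW1 : Wa + Wb ≤ W := by
      rw [hW]
      exact le_min hcase (by linarith)
    have hW2 : W ≤ Real.log T / 5 := by rw [hW]; exact min_le_right _ _
    have hW3 : W ≤ 1 / κ ^ 2 := by rw [hW]; exact min_le_left _ _
    have hW4 : 1 / (5 * κ ^ 2) ≤ W := by
      rw [hW]
      have h1 : 0 < 1 / κ ^ 2 := by positivity
      have h2 : 1 / (5 * κ ^ 2) = 1 / κ ^ 2 / 5 := by field_simp
      rw [h2]
      exact le_min (by linarith) (by linarith)
    have hWp : 0 < W := by linarith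
    have hW8 : 8 ≤ W := by linarith
    obtain ⟨hp1, hp2⟩ := BLA_a hκ0 hWp hW4 hW3
    rw [← hk] at hp1 hp2 hc1
    obtain ⟨R, X, lam, hch, hsh, hxR, hsum⟩ := hPAR (Real.log T) W (by linarith) (by linarith) hW2
    have hLC : IsLC δ T W R X lam := ⟨hch, hsh, hxR, hW8, hW2, hsum⟩
    obtain ⟨hg1, hP1, hg2⟩ := hMES X lam R
    obtain ⟨h, hh⟩ : ∃ h : ℝ, h = W / Real.log T := ⟨_, rfl⟩
    have hh0 : 0 < h := by rw [hh]; exact div_pos hWp hL
    have hh5 : h ≤ 1 / 5 := by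
      rw [hh, div_le_iff₀ hL]
      linarith
    -- the pieces
    obtain ⟨A, hA⟩ : ∃ A : ℝ, A = H * Real.log T ^ (1 / 4 : ℝ) := ⟨_, rfl⟩
    have hA0 : 0 < A := by rw [hA]; exact mul_pos hH (Real.rpow_pos_of_pos hL _)
    have hcA : c * A ≤ I := by rw [hA]; linarith
    have hw3 : W ^ (-(3 / 4) : ℝ) ≤ W ^ (-(1 / 4) : ℝ) :=
      Real.rpow_le_rpow_of_exponent_le (by linarith) (by norm_num)
    have hwn : 0 < W ^ (-(1 / 4) : ℝ) := Real.rpow_pos_of_pos hWp _
    have hwp : 0 < W ^ (1 / 4 : ℝ) := Real.rpow_pos_of_pos hWp _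
    have hoff : ∫ t in T..(T + H), (1 - gd X lam R t) * |Z t| ≤ C4 * A * (2 * k) := by
      refine (hOFF T H W R X lam (by linarith) hAdm hLC).trans ?_
      have h1 : C4 * H * Real.log T ^ (1 / 4 : ℝ) * W ^ (-(3 / 4) : ℝ) =
          C4 * A * W ^ (-(3 / 4) : ℝ) := by rw [hA]; ring
      rw [h1]
      exact mul_le_mul_of_nonneg_left (hw3.trans hp1) (by positivity)
    have hdev : ∫ t in T..(T + H), gd X lam R t * (|Z t| * |Real.log |Z t| - PR X R t|) ≤
        4 * W ^ (1 / 4 : ℝ) * I + C5 * A * (2 * k) := by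
      refine (hDEV T H W R X lam (by linarith) hAdm hLC).trans ?_
      rw [← hI]
      have h1 : C5 * H * Real.log T ^ (1 / 4 : ℝ) * W ^ (-(1 / 4) : ℝ) =
          C5 * A * W ^ (-(1 / 4) : ℝ) := by rw [hA]; ring
      rw [h1]
      have h2 : Real.log W ≤ 4 * W ^ (1 / 4 : ℝ) := by
        have := Real.log_le_rpow_div hWp.le (by norm_num : (0 : ℝ) < 1 / 4)
        linarith
      exact add_le_add (mul_le_mul_of_nonneg_right h2 hI0)
        (mul_le_mul_of_nonneg_left hp1 (by positivity))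
    have hfin : 1 / h * (∫ t in T..(T + H), |∫ u in t..(t + h), Z u|) ≤ C1 * A * (2 * k) := by
      have h1 : ∫ t in T..(T + H), |∫ u in t..(t + h), Z u| ≤ C1 * H * h ^ (3 / 4 : ℝ) := by
        refine hFIN T H h (by linarith) hAdm ?_ hh5
        rw [hh]
        exact div_le_div_of_nonneg_right (by linarith) hL.le
      have h2 : 1 / h * (C1 * H * h ^ (3 / 4 : ℝ)) = C1 * A * W ^ (-(1 / 4) : ℝ) := by
        have h3 := BLA_b hL hWp
        rw [← hh] at h3
        calc 1 / h * (C1 * H * h ^ (3 / 4 : ℝ)) = C1 * H * (1 / h * h ^ (3 / 4 : ℝ)) := by ring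
          _ = C1 * A * W ^ (-(1 / 4) : ℝ) := by rw [h3, hA]; ring
      calc 1 / h * (∫ t in T..(T + H), |∫ u in t..(t + h), Z u|)
          ≤ 1 / h * (C1 * H * h ^ (3 / 4 : ℝ)) := mul_le_mul_of_nonneg_left h1 (by positivity)
        _ = C1 * A * W ^ (-(1 / 4) : ℝ) := h2
        _ ≤ C1 * A * (2 * k) := mul_le_mul_of_nonneg_left hp1 (by positivity)
    have hwin := hWIN Z (PR X R) F (gd X lam R) T H h κ
      (C6 * H * Real.log T ^ (1 / 4 : ℝ) * W ^ (1 / 4 : ℝ)) (C3 * Real.sqrt T) hZC hP1 hg1 hg2 hH hh0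
      hκ0.le hF1 hF2 (by
        intro t ht
        refine hZB T t (by linarith) ?_ ?_
        · linarith [ht.1]
        · linarith [ht.2]) (by
        intro v hv
        refine hTRV T H W v R X lam (by linarith) hAdm hLC hv.1 ?_
        rw [← hh]
        exact hv.2)
    have htr : κ * (C6 * H * Real.log T ^ (1 / 4 : ℝ) * W ^ (1 / 4 : ℝ)) ≤ C6 * A * k := by
      calc κ * (C6 * H * Real.log T ^ (1 / 4 : ℝ) * W ^ (1 / 4 : ℝ)) =
            C6 * A * (κ * W ^ (1 / 4 : ℝ)) := by rw [hA]; ring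
        _ ≤ C6 * A * k := mul_le_mul_of_nonneg_left hp2 (by positivity)
    have hS : 2 * h * (C3 * Real.sqrt T) ≤ C3 * A * k := by
      have h1 : H ≤ A * k := by
        calc H = H * 1 := (mul_one H).symm
          _ ≤ H * (Real.log T ^ (1 / 4 : ℝ) * k) := mul_le_mul_of_nonneg_left hc1 hH.le
          _ = A * k := by rw [hA]; ring
      calc 2 * h * (C3 * Real.sqrt T) ≤ 1 * (C3 * Real.sqrt T) :=
            mul_le_mul_of_nonneg_right (by linarith) (by positivity)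
        _ ≤ C3 * (A * k) := by
            rw [one_mul]
            exact mul_le_mul_of_nonneg_left (hsq.trans h1) hC3.le
        _ = C3 * A * k := by ring
    -- integrability
    have hgb : ∀ t, |gd X lam R t| ≤ 1 := by
      intro t
      rcases hg2 t with h0 | h0
      · rw [h0]; simp
      · rw [h0]; simp
    have hf1 : IntervalIntegrable (fun t => Z t * F (Real.log |Z t|)) volume T (T + H) := by
      refine (hZabs.intervalIntegrable T (T + H)).mono_fun ?_ ?_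
      · have hm : Measurable fun t => Z t * F (Real.log |Z t|) :=
          hZC.measurable.mul (hFc.measurable.comp (Real.measurable_log.comp hZabs.measurable))
        exact hm.aestronglyMeasurable
      · refine Filter.Eventually.of_forall fun t => ?_
        change ‖Z t * F (Real.log |Z t|)‖ ≤ ‖(|Z t|)‖
        rw [Real.norm_eq_abs, Real.norm_eq_abs, abs_mul, abs_abs]
        calc |Z t| * |F (Real.log |Z t|)| ≤ |Z t| * 1 :=
              mul_le_mul_of_nonneg_left (hF1 _) (abs_nonneg _)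
          _ = |Z t| := mul_one _
    have hf2 : IntervalIntegrable (fun t => Z t * F (PR X R t)) volume T (T + H) :=
      (hZC.mul (hFc.comp hP1)).intervalIntegrable _ _
    have hf3 : IntervalIntegrable (fun t => (1 - gd X lam R t) * |Z t|) volume T (T + H) := by
      refine ((continuous_const.mul hZabs : Continuous fun t => (2 : ℝ) * |Z t|).intervalIntegrable
        T (T + H)).mono_fun ((measurable_const.sub hg1).mul
          hZabs.measurable).aestronglyMeasurable ?_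
      refine Filter.Eventually.of_forall fun t => ?_
      change ‖(1 - gd X lam R t) * |Z t|‖ ≤ ‖(2 : ℝ) * |Z t|‖
      rw [Real.norm_eq_abs, Real.norm_eq_abs, abs_mul, abs_mul, abs_abs]
      refine mul_le_mul_of_nonneg_right ?_ (abs_nonneg _)
      have := abs_sub (1 : ℝ) (gd X lam R t)
      have h1 := hgb t
      rw [abs_one] at this
      rw [abs_two]
      linarith
    have hf4 : IntervalIntegrable (fun t => gd X lam R t *
        (|Z t| * |Real.log |Z t| - PR X R t|)) volume T (T + H) := by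
      have hzl : Continuous fun t => |Z t| * Real.log |Z t| := Real.continuous_mul_log.comp hZabs
      refine ((hzl.abs.add (hZabs.mul hP1.abs)).intervalIntegrable T (T + H)).mono_fun
        (hg1.mul (hZabs.measurable.mul ((Real.measurable_log.comp hZabs.measurable).sub
          hP1.measurable).abs)).aestronglyMeasurable ?_
      refine Filter.Eventually.of_forall fun t => ?_
      change ‖gd X lam R t * (|Z t| * |Real.log |Z t| - PR X R t|)‖ ≤
        ‖abs (|Z t| * Real.log |Z t|) + |Z t| * |PR X R t|‖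
      have h1 : 0 ≤ abs (|Z t| * Real.log |Z t|) + |Z t| * |PR X R t| := by positivity
      rw [Real.norm_eq_abs, Real.norm_eq_abs, abs_of_nonneg h1, abs_mul, abs_mul, abs_abs, abs_abs,
        abs_mul, abs_abs]
      calc |gd X lam R t| * (|Z t| * |Real.log |Z t| - PR X R t|)
          ≤ 1 * (|Z t| * |Real.log |Z t| - PR X R t|) :=
            mul_le_mul_of_nonneg_right (hgb t) (by positivity)
        _ ≤ |Z t| * (abs (Real.log |Z t|) + |PR X R t|) := by
            rw [one_mul]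
            exact mul_le_mul_of_nonneg_left (abs_sub _ _) (abs_nonneg _)
        _ = |Z t| * abs (Real.log |Z t|) + |Z t| * |PR X R t| := by ring
    -- the comparison
    have hdiff : |∫ t in T..(T + H), (Z t * F (Real.log |Z t|) - Z t * F (PR X R t))| ≤
        ∫ t in T..(T + H), (2 * ((1 - gd X lam R t) * |Z t|) +
          κ * (gd X lam R t * (|Z t| * |Real.log |Z t| - PR X R t|))) := by
      rw [← Real.norm_eq_abs]
      refine intervalIntegral.norm_integral_le_of_norm_le hTH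
        (Filter.Eventually.of_forall fun t _ => ?_) ((hf3.const_mul 2).add (hf4.const_mul κ))
      rw [Real.norm_eq_abs, ← mul_sub, abs_mul]
      rcases hg2 t with h0 | h0
      · rw [h0]
        have h1 := abs_sub (F (Real.log |Z t|)) (F (PR X R t))
        have h2 := hF1 (Real.log |Z t|)
        have h3 := hF1 (PR X R t)
        have h4 : |Z t| * |F (Real.log |Z t|) - F (PR X R t)| ≤ |Z t| * 2 :=
          mul_le_mul_of_nonneg_left (by linarith) (abs_nonneg _)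
        linarith
      · rw [h0]
        have h4 : |Z t| * |F (Real.log |Z t|) - F (PR X R t)| ≤
            |Z t| * (κ * |Real.log |Z t| - PR X R t|) :=
          mul_le_mul_of_nonneg_left (hF2 _ _) (abs_nonneg _)
        linarith
    rw [intervalIntegral.integral_sub hf1 hf2,
      intervalIntegral.integral_add (hf3.const_mul 2) (hf4.const_mul κ),
      intervalIntegral.integral_const_mul, intervalIntegral.integral_const_mul] at hdiff
    have hκd : κ * (∫ t in T..(T + H), gd X lam R t * (|Z t| * |Real.log |Z t| - PR X R t|)) ≤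
        4 * k * I + C5 * A * (2 * k) := by
      calc κ * (∫ t in T..(T + H), gd X lam R t * (|Z t| * |Real.log |Z t| - PR X R t|))
          ≤ κ * (4 * W ^ (1 / 4 : ℝ) * I + C5 * A * (2 * k)) :=
            mul_le_mul_of_nonneg_left hdev hκ0.le
        _ = 4 * (κ * W ^ (1 / 4 : ℝ)) * I + κ * (C5 * A * (2 * k)) := by ring
        _ ≤ 4 * k * I + 1 * (C5 * A * (2 * k)) := by
            refine add_le_add (mul_le_mul_of_nonneg_right
              (mul_le_mul_of_nonneg_left hp2 (by norm_num)) hI0) ?_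
            exact mul_le_mul_of_nonneg_right hκ1 (by positivity)
        _ = 4 * k * I + C5 * A * (2 * k) := by rw [one_mul]
    obtain ⟨Q, hQ⟩ : ∃ Q : ℝ, Q = ∫ t in T..(T + H), Z t * F (Real.log |Z t|) := ⟨_, rfl⟩
    obtain ⟨Q', hQ'⟩ : ∃ Q' : ℝ, Q' = ∫ t in T..(T + H), Z t * F (PR X R t) := ⟨_, rfl⟩
    rw [← hQ, ← hQ'] at hdiff
    rw [← hQ'] at hwin
    rw [← hQ]
    have htot : |Q| ≤ A * k * (2 * C1 + 8 * C4 + C6 + C3 + 2 * C5) + 4 * k * I := by
      have h1 : |Q| ≤ |Q'| + |Q - Q'| := by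
        have := abs_add_le Q' (Q - Q')
        rwa [add_sub_cancel] at this
      linarith [h1, hdiff, hwin, hfin, hoff, htr, hS, hκd]
    have hAI : A ≤ I / c := by
      rw [le_div_iff₀ hc]
      linarith
    have hw10 : 0 < (Wa + Wb) ^ (1 / 4 : ℝ) := Real.rpow_pos_of_pos hW10 _
    calc |Q| ≤ A * k * (2 * C1 + 8 * C4 + C6 + C3 + 2 * C5) + 4 * k * I := htot
      _ ≤ I / c * k * (2 * C1 + 8 * C4 + C6 + C3 + 2 * C5) + 4 * k * I := by
          refine add_le_add_left (mul_le_mul_of_nonneg_right (mul_le_mul_of_nonneg_right hAI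
            hk0.le) (by positivity)) _
      _ = (4 + (2 * C1 + 8 * C4 + C6 + C3 + 2 * C5) / c) * k * I := by ring
      _ ≤ ((Wa + Wb) ^ (1 / 4 : ℝ) + 4 + (2 * C1 + 8 * C4 + C6 + C3 + 2 * C5) / c) * k * I := by
          refine mul_le_mul_of_nonneg_right (mul_le_mul_of_nonneg_right ?_ hk0.le) hI0
          linarith

end HZS
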