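import Pool.Agent.Work.MP_c51bc2_nt_lb.Interface

/-!
# Block CH1 (typed by helper35): one factor of the characteristic function
-/

open Finset Complex MeasureTheory

namespace HZS

theorem CH1_cos1 : ∫ θ in (0 : ℝ)..1, Real.cos (2 * Real.pi * θ) = 0 := by
  have hpi : (2 * Real.pi) ≠ 0 := by positivity
  rw [intervalIntegral.integral_comp_mul_left (fun x => Real.cos x) hpi, integral_cos]
  simp

theorem CH1_cos2 : ∫ θ in (0 : ℝ)..1, Real.cos (2 * Real.pi * θ) ^ 2 = 1 / 2 := by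
  have hpi : (2 * Real.pi) ≠ 0 := by positivity
  rw [intervalIntegral.integral_comp_mul_left (fun x => Real.cos x ^ 2) hpi, integral_cos_sq]
  simp only [mul_one, mul_zero, Real.sin_two_pi, Real.sin_zero, zero_add, sub_zero, smul_eq_mul]
  field_simp

theorem CH1_cos3 : ∫ θ in (0 : ℝ)..1, Real.cos (2 * Real.pi * θ) ^ 3 = 0 := by
  have hpi : (2 * Real.pi) ≠ 0 := by positivity
  rw [intervalIntegral.integral_comp_mul_left (fun x => Real.cos x ^ 3) hpi,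
    integral_cos_pow_three]
  simp

theorem CH1_int (w : ℂ) : ∫ θ in (0 : ℝ)..1,
    (1 + w * ((Real.cos (2 * Real.pi * θ) : ℝ) : ℂ) +
      w ^ 2 / 2 * ((Real.cos (2 * Real.pi * θ) ^ 2 : ℝ) : ℂ) +
      w ^ 3 / 6 * ((Real.cos (2 * Real.pi * θ) ^ 3 : ℝ) : ℂ)) = 1 + w ^ 2 / 4 := by
  have c1 : Continuous fun θ : ℝ => Real.cos (2 * Real.pi * θ) := by fun_prop
  have i0 : IntervalIntegrable (fun _ : ℝ => (1 : ℂ)) volume 0 1 :=
    continuous_const.intervalIntegrable _ _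
  have i1 : IntervalIntegrable (fun θ : ℝ => w * ((Real.cos (2 * Real.pi * θ) : ℝ) : ℂ))
      volume 0 1 :=
    (continuous_const.mul (Complex.continuous_ofReal.comp c1)).intervalIntegrable _ _
  have i2 : IntervalIntegrable
      (fun θ : ℝ => w ^ 2 / 2 * ((Real.cos (2 * Real.pi * θ) ^ 2 : ℝ) : ℂ)) volume 0 1 :=
    (continuous_const.mul (Complex.continuous_ofReal.comp (c1.pow 2))).intervalIntegrable _ _
  have i3 : IntervalIntegrable
      (fun θ : ℝ => w ^ 3 / 6 * ((Real.cos (2 * Real.pi * θ) ^ 3 : ℝ) : ℂ)) volume 0 1 :=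
    (continuous_const.mul (Complex.continuous_ofReal.comp (c1.pow 3))).intervalIntegrable _ _
  rw [intervalIntegral.integral_add ((i0.add i1).add i2) i3,
    intervalIntegral.integral_add (i0.add i1) i2, intervalIntegral.integral_add i0 i1,
    intervalIntegral.integral_const_mul, intervalIntegral.integral_const_mul,
    intervalIntegral.integral_const_mul, intervalIntegral.integral_ofReal,
    intervalIntegral.integral_ofReal, intervalIntegral.integral_ofReal, CH1_cos1, CH1_cos2,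
    CH1_cos3, intervalIntegral.integral_const]
  push_cast
  simp only [sub_zero, one_smul, mul_zero, add_zero]
  ring

theorem CH1_exp (u : ℂ) (hu : ‖u‖ ≤ 1) :
    ‖cexp u - (1 + u + u ^ 2 / 2 + u ^ 3 / 6)‖ ≤ 5 / 96 * ‖u‖ ^ 4 := by
  have h := Complex.exp_bound hu (n := 4) (by norm_num)
  have e : ∑ m ∈ range 4, u ^ m / (m.factorial : ℂ) = 1 + u + u ^ 2 / 2 + u ^ 3 / 6 := by
    simp only [Finset.sum_range_succ, Finset.sum_range_zero, Nat.factorial]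
    push_cast
    ring
  rw [e] at h
  refine h.trans (le_of_eq ?_)
  simp only [Nat.factorial]
  push_cast
  ring

theorem CH1_norm (a b : ℝ) (ha : 1 ≤ a) : ‖((a : ℂ) + b * I)‖ ≤ a + b ^ 2 / 2 := by
  rw [Complex.norm_add_mul_I]
  apply Real.sqrt_le_iff.2
  constructor
  · positivity
  · nlinarith [sq_nonneg (b ^ 2), mul_nonneg (sub_nonneg.2 ha) (sq_nonneg b)]

theorem p_CH1 : Stmt_CH1 := by
  intro p ξ hp hξ
  have hpR : (100 : ℝ) < p := by exact_mod_cast hp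
  have hp0 : (0 : ℝ) < p := by linarith
  have hsq : 0 < Real.sqrt p := Real.sqrt_pos.2 hp0
  have hsqC : ((Real.sqrt p : ℝ) : ℂ) ^ 2 = (p : ℂ) := by
    have h := Real.sq_sqrt hp0.le
    exact_mod_cast h
  have hξ2 : ξ ^ 2 ≤ 1 := by
    have h := abs_le.1 hξ
    nlinarith
  set w : ℂ := (1 + ξ * I) * (((Real.sqrt p)⁻¹ : ℝ) : ℂ) with hw
  have hw2 : ‖w‖ ^ 2 = (1 + ξ ^ 2) / p := by
    rw [hw, norm_mul, mul_pow, Complex.norm_real, Real.norm_eq_abs, sq_abs, inv_pow,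
      Real.sq_sqrt hp0.le]
    have h1 : ‖(1 + ξ * I : ℂ)‖ ^ 2 = 1 + ξ ^ 2 := by
      rw [← Complex.normSq_eq_norm_sq]
      simp [Complex.normSq_apply]
      ring
    rw [h1]
    ring
  have hwsq : w ^ 2 = (((1 - ξ ^ 2) / p : ℝ) : ℂ) + ((2 * ξ / p : ℝ) : ℂ) * I := by
    have hI : I ^ 2 = -1 := Complex.I_sq
    have e1 : ((((Real.sqrt p)⁻¹ : ℝ) : ℂ)) ^ 2 = ((p : ℂ))⁻¹ := by
      push_cast
      rw [inv_pow, hsqC]
    rw [hw, mul_pow, e1]
    push_cast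
    have e2 : (1 + (ξ : ℂ) * I) ^ 2 = 1 - (ξ : ℂ) ^ 2 + 2 * ξ * I := by
      linear_combination (ξ : ℂ) ^ 2 * hI
    rw [e2]
    ring
  have hw1 : ‖w‖ ≤ 1 := by
    have h1 : ‖w‖ ^ 2 ≤ 1 := by
      rw [hw2, div_le_one hp0]
      linarith
    nlinarith [norm_nonneg w]
  have hw4 : ‖w‖ ^ 4 ≤ 4 / (p : ℝ) ^ 2 := by
    have h1 : ‖w‖ ^ 2 ≤ 2 / p := by
      rw [hw2]
      apply div_le_div_of_nonneg_right _ hp0.le
      linarith
    calc ‖w‖ ^ 4 = (‖w‖ ^ 2) ^ 2 := by ring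
      _ ≤ (2 / (p : ℝ)) ^ 2 := pow_le_pow_left₀ (sq_nonneg _) h1 2
      _ = 4 / (p : ℝ) ^ 2 := by
        rw [div_pow]
        norm_num
  rw [← intervalIntegral.integral_of_le zero_le_one]
  -- the integrand
  have hint : ∀ θ : ℝ, cexp ((1 + ξ * I) *
      (((Real.sqrt p)⁻¹ * Real.cos (2 * Real.pi * θ) : ℝ) : ℂ)) =
      cexp (w * ((Real.cos (2 * Real.pi * θ) : ℝ) : ℂ)) := by
    intro θ
    congr 1
    rw [hw]
    push_cast
    ring
  simp only [hint]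
  have hcont : Continuous fun θ : ℝ => Real.cos (2 * Real.pi * θ) := by fun_prop
  have hc1 : Continuous fun θ : ℝ => cexp (w * ((Real.cos (2 * Real.pi * θ) : ℝ) : ℂ)) :=
    Complex.continuous_exp.comp (continuous_const.mul (Complex.continuous_ofReal.comp hcont))
  have hc2 : Continuous fun θ : ℝ => (1 + w * ((Real.cos (2 * Real.pi * θ) : ℝ) : ℂ) +
      w ^ 2 / 2 * ((Real.cos (2 * Real.pi * θ) ^ 2 : ℝ) : ℂ) +
      w ^ 3 / 6 * ((Real.cos (2 * Real.pi * θ) ^ 3 : ℝ) : ℂ)) :=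
    ((continuous_const.add (continuous_const.mul (Complex.continuous_ofReal.comp hcont))).add
      (continuous_const.mul (Complex.continuous_ofReal.comp (hcont.pow 2)))).add
      (continuous_const.mul (Complex.continuous_ofReal.comp (hcont.pow 3)))
  have hsplit : ∫ θ in (0 : ℝ)..1, cexp (w * ((Real.cos (2 * Real.pi * θ) : ℝ) : ℂ)) =
      (1 + w ^ 2 / 4) + ∫ θ in (0 : ℝ)..1,
        (cexp (w * ((Real.cos (2 * Real.pi * θ) : ℝ) : ℂ)) -
        (1 + w * ((Real.cos (2 * Real.pi * θ) : ℝ) : ℂ) +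
      w ^ 2 / 2 * ((Real.cos (2 * Real.pi * θ) ^ 2 : ℝ) : ℂ) +
      w ^ 3 / 6 * ((Real.cos (2 * Real.pi * θ) ^ 3 : ℝ) : ℂ))) := by
    rw [intervalIntegral.integral_sub (hc1.intervalIntegrable _ _) (hc2.intervalIntegrable _ _),
      CH1_int]
    ring
  rw [hsplit]
  have hrem : ‖∫ θ in (0 : ℝ)..1, (cexp (w * ((Real.cos (2 * Real.pi * θ) : ℝ) : ℂ)) -
        (1 + w * ((Real.cos (2 * Real.pi * θ) : ℝ) : ℂ) +
      w ^ 2 / 2 * ((Real.cos (2 * Real.pi * θ) ^ 2 : ℝ) : ℂ) +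
      w ^ 3 / 6 * ((Real.cos (2 * Real.pi * θ) ^ 3 : ℝ) : ℂ)))‖ ≤
      5 / 96 * ‖w‖ ^ 4 * |(1 : ℝ) - 0| := by
    apply intervalIntegral.norm_integral_le_of_norm_le_const
    intro θ _
    have hcos := Real.abs_cos_le_one (2 * Real.pi * θ)
    have hle : ‖w * ((Real.cos (2 * Real.pi * θ) : ℝ) : ℂ)‖ ≤ ‖w‖ := by
      rw [norm_mul, Complex.norm_real, Real.norm_eq_abs]
      exact mul_le_of_le_one_right (norm_nonneg _) hcos
    have h := CH1_exp (w * ((Real.cos (2 * Real.pi * θ) : ℝ) : ℂ)) (hle.trans hw1)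
    have e : (1 + w * ((Real.cos (2 * Real.pi * θ) : ℝ) : ℂ) +
        w ^ 2 / 2 * ((Real.cos (2 * Real.pi * θ) ^ 2 : ℝ) : ℂ) +
        w ^ 3 / 6 * ((Real.cos (2 * Real.pi * θ) ^ 3 : ℝ) : ℂ)) =
        1 + (w * ((Real.cos (2 * Real.pi * θ) : ℝ) : ℂ)) +
        (w * ((Real.cos (2 * Real.pi * θ) : ℝ) : ℂ)) ^ 2 / 2 +
        (w * ((Real.cos (2 * Real.pi * θ) : ℝ) : ℂ)) ^ 3 / 6 := by
      push_cast
      ring
    rw [e]
    refine h.trans ?_
    apply mul_le_mul_of_nonneg_left _ (by norm_num)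
    exact pow_le_pow_left₀ (norm_nonneg _) hle 4
  rw [sub_zero, abs_one, mul_one] at hrem
  have hmain : ‖1 + w ^ 2 / 4‖ ≤ (1 + (1 - ξ ^ 2) / (4 * p)) + (ξ / (2 * p)) ^ 2 / 2 := by
    have e : 1 + w ^ 2 / 4 = ((1 + (1 - ξ ^ 2) / (4 * p) : ℝ) : ℂ) +
        ((ξ / (2 * p) : ℝ) : ℂ) * I := by
      rw [hwsq]
      push_cast
      have hpC : (p : ℂ) ≠ 0 := by exact_mod_cast hp0.ne'
      field_simp
      ring
    rw [e]
    apply CH1_norm
    have : 0 ≤ (1 - ξ ^ 2) / (4 * p) := div_nonneg (by linarith) (by positivity)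
    linarith
  have hb : (ξ / (2 * p)) ^ 2 / 2 ≤ 1 / 8 * (1 / (p : ℝ) ^ 2) := by
    have e : (ξ / (2 * p)) ^ 2 / 2 = ξ ^ 2 * (1 / 8 * (1 / (p : ℝ) ^ 2)) := by
      field_simp
      ring
    rw [e]
    exact mul_le_of_le_one_left (by positivity) hξ2
  have hq : 4 / (p : ℝ) ^ 2 = 4 * (1 / (p : ℝ) ^ 2) := by ring
  have hq0 : 0 ≤ 1 / (p : ℝ) ^ 2 := by positivity
  have htot : ‖(1 + w ^ 2 / 4) + ∫ θ in (0 : ℝ)..1,
        (cexp (w * ((Real.cos (2 * Real.pi * θ) : ℝ) : ℂ)) -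
        (1 + w * ((Real.cos (2 * Real.pi * θ) : ℝ) : ℂ) +
      w ^ 2 / 2 * ((Real.cos (2 * Real.pi * θ) ^ 2 : ℝ) : ℂ) +
      w ^ 3 / 6 * ((Real.cos (2 * Real.pi * θ) ^ 3 : ℝ) : ℂ)))‖ ≤
      (1 - ξ ^ 2) / (4 * p) + 1 / (p : ℝ) ^ 2 + 1 := by
    refine (norm_add_le _ _).trans ?_
    rw [hq] at hw4
    linarith
  exact htot.trans (Real.add_one_le_exp _)

end HZS
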