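import Pool.Agent.Work.MP_c51bc2_nt_lb.Interface

open Finset Complex MeasureTheory

namespace HZS

noncomputable section

theorem CHF_re (P : Finset ℕ) (θ : P → ℝ) :
    (TP P θ).re = ∑ p : P, (Real.sqrt ((p : ℕ) : ℝ))⁻¹ * Real.cos (2 * Real.pi * θ p) := by
  unfold TP
  rw [Complex.re_sum]
  refine Finset.sum_congr rfl fun p _ => ?_
  rw [Complex.re_ofReal_mul, Complex.exp_ofReal_mul_I_re]

theorem CHF_tel (N : ℕ) :
    ∑ n ∈ Finset.Ico 101 (101 + N), (1 : ℝ) / (n : ℝ) ^ 2 ≤ 1 / 100 - 1 / (100 + N : ℝ) := by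
  induction N with
  | zero => simp
  | succ N ih =>
    rw [show 101 + (N + 1) = (101 + N) + 1 by ring, Finset.sum_Ico_succ_top (by omega)]
    have hN : (0 : ℝ) ≤ N := Nat.cast_nonneg N
    have h1 : (1 : ℝ) / ((101 + N : ℕ) : ℝ) ^ 2 ≤ 1 / (100 + N : ℝ) - 1 / (101 + N : ℝ) := by
      push_cast
      rw [div_sub_div _ _ (by positivity) (by positivity), div_le_div_iff₀ (by positivity)
        (by positivity)]
      nlinarith
    have h2 : (100 + ((N + 1 : ℕ) : ℝ)) = 101 + N := by push_cast; ring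
    rw [h2]
    linarith

theorem CHF_sum (P : Finset ℕ) (h : ∀ p ∈ P, 100 < p) :
    ∑ p ∈ P, (1 : ℝ) / (p : ℝ) ^ 2 ≤ 1 / 100 := by
  have hsub : P ⊆ Finset.Ico 101 (101 + (P.sup id + 1)) := by
    intro p hp
    have h1 := h p hp
    have h2 : p ≤ P.sup id := Finset.le_sup (f := id) hp
    rw [Finset.mem_Ico]
    omega
  have h1 := Finset.sum_le_sum_of_subset_of_nonneg (f := fun n : ℕ => (1 : ℝ) / (n : ℝ) ^ 2) hsub
    (fun i _ _ => by positivity)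
  have h2 := CHF_tel (P.sup id + 1)
  have h3 : (0 : ℝ) ≤ 1 / (100 + ((P.sup id + 1 : ℕ) : ℝ)) := by positivity
  linarith

theorem p_CHF (hCH1 : Stmt_CH1) : Stmt_CHF := by
  intro P hP ξ hξ
  have h1 : (fun θ : P → ℝ => cexp ((1 + ξ * I) * (((TP P θ).re : ℝ) : ℂ))) =
      fun θ : P → ℝ => ∏ p : P, cexp ((1 + ξ * I) *
        (((Real.sqrt ((p : ℕ) : ℝ))⁻¹ * Real.cos (2 * Real.pi * θ p) : ℝ) : ℂ)) := by
    funext θ
    rw [CHF_re, ← Complex.exp_sum, Complex.ofReal_sum, Finset.mul_sum]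
  rw [h1, tor, integral_fintype_prod_eq_prod (ι := P) (E := fun _ => ℝ) (fun (p : P) (x : ℝ) =>
    cexp ((1 + ξ * I) * (((Real.sqrt ((p : ℕ) : ℝ))⁻¹ * Real.cos (2 * Real.pi * x) : ℝ) : ℂ))),
    norm_prod]
  have h2 : ∏ p : P, ‖∫ x in Set.Ioc (0 : ℝ) 1, cexp ((1 + ξ * I) *
      (((Real.sqrt ((p : ℕ) : ℝ))⁻¹ * Real.cos (2 * Real.pi * x) : ℝ) : ℂ))‖ ≤
      ∏ p : P, Real.exp ((1 - ξ ^ 2) / (4 * ((p : ℕ) : ℝ)) + 1 / (((p : ℕ) : ℝ)) ^ 2) :=
    Finset.prod_le_prod (fun _ _ => norm_nonneg _) fun p _ => hCH1 p ξ (hP p p.2).2 hξ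
  refine h2.trans ?_
  rw [← Real.exp_sum, Finset.sum_add_distrib]
  have h3 : ∑ p : P, (1 - ξ ^ 2) / (4 * ((p : ℕ) : ℝ)) = (1 - ξ ^ 2) / 4 * VV P := by
    rw [VV, Finset.mul_sum, ← Finset.sum_coe_sort P (fun p : ℕ => (1 - ξ ^ 2) / 4 * (1 / (p : ℝ)))]
    refine Finset.sum_congr rfl fun p _ => ?_
    have hp : (((p : ℕ) : ℝ)) ≠ 0 := by
      have := (hP p p.2).2
      positivity
    field_simp
  have h4 : ∑ p : P, 1 / (((p : ℕ) : ℝ)) ^ 2 ≤ 1 / 100 := by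
    rw [Finset.sum_coe_sort P (fun p : ℕ => 1 / ((p : ℝ)) ^ 2)]
    exact CHF_sum P fun p hp => (hP p hp).2
  rw [h3, Real.exp_add, mul_comm]
  refine mul_le_mul_of_nonneg_right ?_ (Real.exp_pos _).le
  have h5 : Real.exp (1 / 100) ≤ 2 := by
    have h6 : Real.exp (1 / 100) ≤ Real.exp (Real.log 2) := by
      apply Real.exp_le_exp.mpr
      have := Real.log_two_gt_d9
      linarith
    rwa [Real.exp_log (by norm_num)] at h6
  exact (Real.exp_le_exp.mpr h4).trans h5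

end

end HZS
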