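import Pool.Agent.Work.MP_c51bc2_nt_lb.Interface

/-! # Block CSI: Cauchy-Schwarz with an indicator function (MP_c51bc2_nt, THEOREM LB) -/

open Finset Complex MeasureTheory

namespace HZS

theorem CSI_int {a b : ℝ} {s F : ℝ → ℝ} (hs : Measurable s) (h01 : ∀ t, s t = 0 ∨ s t = 1)
    (hF : Continuous F) : IntervalIntegrable (fun t => s t * F t) volume a b := by
  have h1 : IntervalIntegrable F volume a b := hF.intervalIntegrable a b
  have hb : ∀ t, ‖s t‖ ≤ 1 := by
    intro t
    rcases h01 t with h | h <;> rw [h] <;> simp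
  constructor
  · exact h1.1.bdd_mul hs.aestronglyMeasurable (Filter.Eventually.of_forall hb)
  · exact h1.2.bdd_mul hs.aestronglyMeasurable (Filter.Eventually.of_forall hb)

theorem p_CSI : Stmt_CSI := by
  intro a b A B f g s hab hf hg hs h01 hA hB hfA hgB
  have i1 : IntervalIntegrable (fun t => s t * f t ^ 2) volume a b :=
    CSI_int hs h01 (hf.pow 2)
  have i2 : IntervalIntegrable (fun t => s t * (|f t| * |g t|)) volume a b :=
    CSI_int hs h01 (hf.abs.mul hg.abs)
  have i3 : IntervalIntegrable (fun t => s t * g t ^ 2) volume a b :=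
    CSI_int hs h01 (hg.pow 2)
  have i4 : IntervalIntegrable (fun t => f t ^ 2) volume a b :=
    (hf.pow 2).intervalIntegrable a b
  have hs0 : ∀ t, 0 ≤ s t := by
    intro t
    rcases h01 t with h | h <;> rw [h]
    exact zero_le_one
  have hs1 : ∀ t, s t ≤ 1 := by
    intro t
    rcases h01 t with h | h <;> rw [h]
    exact zero_le_one
  set P : ℝ := ∫ t in a..b, s t * f t ^ 2 with hP
  set I : ℝ := ∫ t in a..b, s t * (|f t| * |g t|) with hI
  set Q : ℝ := ∫ t in a..b, s t * g t ^ 2 with hQ
  have hquad : ∀ x : ℝ, 0 ≤ P * (x * x) + (-2 * I) * x + Q := by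
    intro x
    have e : P * (x * x) + (-2 * I) * x + Q =
        ∫ t in a..b, ((x * x) * (s t * f t ^ 2) - (2 * x) * (s t * (|f t| * |g t|)) +
          s t * g t ^ 2) := by
      rw [intervalIntegral.integral_add ((i1.const_mul _).sub (i2.const_mul _)) i3,
        intervalIntegral.integral_sub (i1.const_mul _) (i2.const_mul _),
        intervalIntegral.integral_const_mul, intervalIntegral.integral_const_mul,
        ← hP, ← hI, ← hQ]
      ring
    rw [e]
    refine intervalIntegral.integral_nonneg hab fun t _ => ?_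
    have h1 : (x * x) * (s t * f t ^ 2) - (2 * x) * (s t * (|f t| * |g t|)) + s t * g t ^ 2 =
        s t * (x * |f t| - |g t|) ^ 2 := by
      rw [← sq_abs (f t), ← sq_abs (g t)]
      ring
    rw [h1]
    exact mul_nonneg (hs0 t) (sq_nonneg _)
  have hdisc := discrim_le_zero hquad
  have hI2 : I ^ 2 ≤ P * Q := by
    have : discrim P (-2 * I) Q = 4 * (I ^ 2 - P * Q) := by
      unfold discrim
      ring
    rw [this] at hdisc
    linarith
  have hP0 : 0 ≤ P := intervalIntegral.integral_nonneg hab fun t _ =>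
    mul_nonneg (hs0 t) (sq_nonneg _)
  have hQ0 : 0 ≤ Q := intervalIntegral.integral_nonneg hab fun t _ =>
    mul_nonneg (hs0 t) (sq_nonneg _)
  have hPA : P ≤ A := by
    refine le_trans (intervalIntegral.integral_mono_on hab i1 i4 fun t _ => ?_) hfA
    exact mul_le_of_le_one_left (sq_nonneg _) (hs1 t)
  refine Real.le_sqrt_of_sq_le (hI2.trans ?_)
  exact mul_le_mul hPA hgB hQ0 hA

end HZS
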