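import Pool.Agent.Work.MP_c51bc2_nt_lb.Interface
import Pool.Agent.Work.MP_c51bc2_nt.B_MAIN

open Finset Complex MeasureTheory

namespace HZS

theorem DEV_abs (s u : ℝ) : |u| ≤ s + Real.exp (-s) * (Real.exp u + Real.exp (-u)) := by
  have h1 : |u| - s ≤ Real.exp (|u| - s) := by
    have := Real.add_one_le_exp (|u| - s)
    linarith
  have h2 : Real.exp (|u| - s) = Real.exp (-s) * Real.exp |u| := by
    rw [← Real.exp_add]; congr 1; ring
  have h3 : Real.exp |u| ≤ Real.exp u + Real.exp (-u) := by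
    rcases abs_cases u with ⟨h, _⟩ | ⟨h, _⟩
    · rw [h]; linarith [Real.exp_pos (-u)]
    · rw [h]; linarith [Real.exp_pos u]
  have h4 := mul_le_mul_of_nonneg_left h3 (Real.exp_pos (-s)).le
  linarith

theorem DEV_pt (z P m n W : ℝ) (hz : 0 ≤ z) (hW : 1 ≤ W) (h1 : Real.exp P ≤ 4 * n)
    (h2 : Real.exp (-P) ≤ 4 * m) :
    z * |Real.log z - P| ≤ Real.log W * z + 4 / W * (z ^ 2 * m + n) := by
  have hn : 0 ≤ n := by linarith [Real.exp_pos P]
  have hm : 0 ≤ m := by linarith [Real.exp_pos (-P)]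
  have hl : 0 ≤ Real.log W := Real.log_nonneg hW
  have hW0 : 0 < W := by linarith
  rcases hz.eq_or_lt with h | h
  · rw [← h]
    simp only [zero_mul, mul_zero, zero_add]
    positivity
  · have h3 := DEV_abs (Real.log W) (Real.log z - P)
    have h4 : Real.exp (-(Real.log W)) = 1 / W := by
      rw [Real.exp_neg, Real.exp_log hW0, one_div]
    have h5 : Real.exp (Real.log z - P) = z * Real.exp (-P) := by
      rw [sub_eq_add_neg, Real.exp_add, Real.exp_log h]
    have h6 : Real.exp (-(Real.log z - P)) = Real.exp P / z := by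
      rw [neg_sub, Real.exp_sub, Real.exp_log h]
    rw [h4, h5, h6] at h3
    have h7 := mul_le_mul_of_nonneg_left h3 hz
    have h8 : z * (Real.log W + 1 / W * (z * Real.exp (-P) + Real.exp P / z)) =
        Real.log W * z + 1 / W * (z ^ 2 * Real.exp (-P) + Real.exp P) := by
      field_simp
    rw [h8] at h7
    have h9 : z ^ 2 * Real.exp (-P) + Real.exp P ≤ 4 * (z ^ 2 * m + n) := by
      have := mul_le_mul_of_nonneg_left h2 (sq_nonneg z)
      linarith
    have h10 := mul_le_mul_of_nonneg_left h9 (show 0 ≤ 1 / W by positivity)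
    have h11 : 1 / W * (4 * (z ^ 2 * m + n)) = 4 / W * (z ^ 2 * m + n) := by ring
    linarith

theorem p_DEV (hTWN : Stmt_TWN) (hGDM : Stmt_GDM) (hMES : Stmt_MES) (hZC : Stmt_ZC) : Stmt_DEV := by
  intro δ hδ hδ'
  obtain ⟨C, T0, hC, hT0, hmain⟩ := hTWN δ hδ hδ'
  refine ⟨8 * C, T0, by positivity, hT0, ?_⟩
  intro T H W R X lam hT hA hL
  obtain ⟨h1, h2⟩ := hmain T H W R X lam hT hA hL
  obtain ⟨hm1, hm2, hm3⟩ := hMES X lam R
  have hG := hGDM (Real.log T) R X lam hL.chain
  have hT1 : 1 < T := lt_of_lt_of_le hT0 hT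
  have hH : 0 < H := lt_of_lt_of_le (Real.rpow_pos_of_pos (by linarith) _) hA.1
  have hW : 8 ≤ W := hL.w8
  have hW0 : 0 < W := by linarith
  have hlogT : 0 < Real.log T := Real.log_pos hT1
  have hTH : T ≤ T + H := by linarith
  have cZ : Continuous fun t => |Z t| := (show Continuous Z from hZC).abs
  have cM : Continuous fun t => ‖MM X lam (range R) t‖ ^ 2 :=
    ((MAINx.cont_MM X lam (range R)).norm).pow 2
  have cN : Continuous fun t => ‖NN X lam (range R) t‖ ^ 2 :=
    ((MAINx.cont_NN X lam (range R)).norm).pow 2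
  have cF : Continuous fun t => |Z t| * |Real.log |Z t| - PR X R t| := by
    have h3 : (fun t => |Z t| * |Real.log |Z t| - PR X R t|) =
        fun t => |(|Z t| * Real.log |Z t|) - |Z t| * PR X R t| := by
      funext t
      rw [← mul_sub, abs_mul, abs_abs]
    rw [h3]
    exact ((Real.continuous_mul_log.comp cZ).sub (cZ.mul hm2)).abs
  have iL : IntervalIntegrable
      (fun t => gd X lam R t * (|Z t| * |Real.log |Z t| - PR X R t|)) volume T (T + H) := by
    rw [intervalIntegrable_iff_integrableOn_Ioc_of_le hTH]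
    have h4 : IntegrableOn (fun t => |Z t| * |Real.log |Z t| - PR X R t|)
        (Set.Ioc T (T + H)) volume :=
      (intervalIntegrable_iff_integrableOn_Ioc_of_le hTH).1 (cF.intervalIntegrable T (T + H))
    refine Integrable.bdd_mul (c := 1) h4 hm1.aestronglyMeasurable ?_
    refine Filter.Eventually.of_forall fun t => ?_
    rcases hm3 t with h | h <;> simp [h]
  have cA : Continuous fun t => |Z t| ^ 2 * ‖MM X lam (range R) t‖ ^ 2 := (cZ.pow 2).mul cM
  have cR : Continuous fun t => Real.log W * |Z t| +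
      4 / W * (|Z t| ^ 2 * ‖MM X lam (range R) t‖ ^ 2 + ‖NN X lam (range R) t‖ ^ 2) :=
    (continuous_const.mul cZ).add (continuous_const.mul (cA.add cN))
  have hle : ∫ t in T..(T + H), gd X lam R t * (|Z t| * |Real.log |Z t| - PR X R t|) ≤
      ∫ t in T..(T + H), (Real.log W * |Z t| +
        4 / W * (|Z t| ^ 2 * ‖MM X lam (range R) t‖ ^ 2 + ‖NN X lam (range R) t‖ ^ 2)) := by
    apply intervalIntegral.integral_mono_on hTH iL (cR.intervalIntegrable _ _)
    intro t _
    by_cases hg : Good X lam R t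
    · have h5 := (hG t).1 hg
      have h6 := DEV_pt |Z t| (PR X R t) (‖MM X lam (range R) t‖ ^ 2)
        (‖NN X lam (range R) t‖ ^ 2) W (abs_nonneg _) (by linarith) h5.1 h5.2
      have h7 : gd X lam R t = 1 := by unfold gd; rw [if_pos hg]
      rw [h7, one_mul]
      exact h6
    · have h7 : gd X lam R t = 0 := by unfold gd; rw [if_neg hg]
      rw [h7, zero_mul]
      have h8 : 0 ≤ Real.log W := Real.log_nonneg (by linarith)
      positivity
  have e1 : ∫ t in T..(T + H), (Real.log W * |Z t| +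
        4 / W * (|Z t| ^ 2 * ‖MM X lam (range R) t‖ ^ 2 + ‖NN X lam (range R) t‖ ^ 2)) =
      Real.log W * (∫ t in T..(T + H), |Z t|) +
        4 / W * ((∫ t in T..(T + H), |Z t| ^ 2 * ‖MM X lam (range R) t‖ ^ 2) +
          ∫ t in T..(T + H), ‖NN X lam (range R) t‖ ^ 2) := by
    have i1 : IntervalIntegrable (fun t => Real.log W * |Z t|) volume T (T + H) :=
      (continuous_const.mul cZ).intervalIntegrable _ _
    have i2 : IntervalIntegrable (fun t => 4 / W * (|Z t| ^ 2 * ‖MM X lam (range R) t‖ ^ 2 +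
        ‖NN X lam (range R) t‖ ^ 2)) volume T (T + H) :=
      (continuous_const.mul (cA.add cN)).intervalIntegrable _ _
    have i3 : IntervalIntegrable (fun t => |Z t| ^ 2 * ‖MM X lam (range R) t‖ ^ 2) volume T
        (T + H) := cA.intervalIntegrable _ _
    have i4 : IntervalIntegrable (fun t => ‖NN X lam (range R) t‖ ^ 2) volume T (T + H) :=
      cN.intervalIntegrable _ _
    rw [intervalIntegral.integral_add i1 i2, intervalIntegral.integral_const_mul,
      intervalIntegral.integral_const_mul, intervalIntegral.integral_add i3 i4]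
  rw [e1] at hle
  have h9 : 4 / W * ((∫ t in T..(T + H), |Z t| ^ 2 * ‖MM X lam (range R) t‖ ^ 2) +
      ∫ t in T..(T + H), ‖NN X lam (range R) t‖ ^ 2) ≤
      8 * C * H * Real.log T ^ (1 / 4 : ℝ) * W ^ (-(1 / 4) : ℝ) := by
    have a1 : 0 ≤ C * H * Real.log T ^ (1 / 4 : ℝ) := by positivity
    have a2 : W ^ (3 / 4 : ℝ) = W * W ^ (-(1 / 4) : ℝ) := by
      have := Real.rpow_one_add' hW0.le (show (1 : ℝ) + (-(1 / 4)) ≠ 0 by norm_num)
      rw [← this]
      norm_num
    have a3 : 0 < W ^ (-(1 / 4) : ℝ) := Real.rpow_pos_of_pos hW0 _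
    rw [a2] at h1
    calc 4 / W * ((∫ t in T..(T + H), |Z t| ^ 2 * ‖MM X lam (range R) t‖ ^ 2) +
        ∫ t in T..(T + H), ‖NN X lam (range R) t‖ ^ 2)
        ≤ 4 / W * (C * H * Real.log T ^ (1 / 4 : ℝ) * (W * W ^ (-(1 / 4) : ℝ)) +
          C * H * Real.log T ^ (1 / 4 : ℝ) * W ^ (-(1 / 4) : ℝ)) :=
          mul_le_mul_of_nonneg_left (add_le_add h1 h2) (by positivity)
      _ = C * H * Real.log T ^ (1 / 4 : ℝ) * W ^ (-(1 / 4) : ℝ) * (4 + 4 / W) := by
          field_simp
      _ ≤ C * H * Real.log T ^ (1 / 4 : ℝ) * W ^ (-(1 / 4) : ℝ) * 8 := by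
          refine mul_le_mul_of_nonneg_left ?_ (by positivity)
          have : 4 / W ≤ 4 := by
            rw [div_le_iff₀ hW0]; linarith
          linarith
      _ = 8 * C * H * Real.log T ^ (1 / 4 : ℝ) * W ^ (-(1 / 4) : ℝ) := by ring
  linarith

end HZS
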