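import Pool.Agent.Work.MP_c51bc2_nt_lb.Interface

open Finset Complex MeasureTheory

set_option autoImplicit false

namespace HZS

theorem ERB_X_ge {L : ℝ} {R : ℕ} {X lam : ℕ → ℝ} (hc : IsChain L R X lam) :
    ∀ i : ℕ, i ≤ R → 100 ≤ X i := by
  intro i
  induction i with
  | zero => intro _; rw [hc.x0]
  | succ n ih =>
    intro h
    have h1 := ih (by omega)
    have h2 := hc.mono n (by omega)
    linarith

theorem ERB_K_le {lam : ℕ → ℝ} {i : ℕ} (h : 1 ≤ lam i) : (KK lam i : ℝ) ≤ 51 * lam i := by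
  unfold KK
  have := Nat.ceil_lt_add_one (show 0 ≤ 50 * lam i by linarith)
  linarith

theorem ERB_sum {X : ℕ → ℝ} (h0 : X 0 = 100) (h1 : 100 ≤ X 1) :
    1 + ∑ p ∈ PB X 0, (Real.sqrt p)⁻¹ ≤ X 1 := by
  have h2 : ∀ p ∈ PB X 0, (Real.sqrt (p : ℝ))⁻¹ ≤ 1 / 10 := by
    intro p hp
    unfold PB at hp
    rw [mem_filter, h0] at hp
    have h3 : (10 : ℝ) ≤ Real.sqrt (p : ℝ) := by
      rw [show (10 : ℝ) = Real.sqrt 100 by
        rw [show (100 : ℝ) = 10 ^ 2 by norm_num, Real.sqrt_sq (by norm_num)]]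
      exact Real.sqrt_le_sqrt hp.2.2.le
    rw [one_div]
    exact inv_anti₀ (by norm_num) h3
  have h4 : ∑ p ∈ PB X 0, (Real.sqrt (p : ℝ))⁻¹ ≤ ((PB X 0).card : ℝ) * (1 / 10) := by
    have := Finset.sum_le_card_nsmul (PB X 0) (fun p : ℕ => (Real.sqrt (p : ℝ))⁻¹) (1 / 10) h2
    rwa [nsmul_eq_mul] at this
  have h5 : ((PB X 0).card : ℝ) ≤ X 1 := by
    have h6 : (PB X 0).card ≤ ⌊X 1⌋₊ := by
      unfold PB
      refine (card_filter_le _ _).trans ?_
      rw [Nat.card_Icc]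
      simp
    have h7 : ((⌊X 1⌋₊ : ℕ) : ℝ) ≤ X 1 := Nat.floor_le (by linarith)
    have h8 : ((PB X 0).card : ℝ) ≤ ((⌊X 1⌋₊ : ℕ) : ℝ) := by exact_mod_cast h6
    linarith
  linarith

theorem ERB_fin (δ L l S a : ℝ) (hδ : 0 < δ) (hl : 3060 ≤ l) (hL : L = Real.exp l)
    (hS : S ≤ 51 * (δ * L / 100)) (ha : a ≤ 3 / 2 + 10 * l) :
    a + (1 + ((1 + S) + 5 * (51 * l) * (L / l ^ 2)) + 2 * (5 * (51 * l)) * (L / l ^ 2) +
      2 * (1 + S)) ≤ (1 / 2 + 4 * δ) * L - l := by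
  have hl0 : 0 < l := by linarith
  have h1 : l ^ 2 / 2 ≤ L := by
    rw [hL]
    have := Real.quadratic_le_exp_of_nonneg hl0.le
    linarith
  have hL0 : 0 < L := by rw [hL]; exact Real.exp_pos _
  have e1 : l * (L / l ^ 2) = L / l := by
    field_simp
  have h2 : L / l ≤ L / 3060 := div_le_div_of_nonneg_left hL0.le (by norm_num) hl
  have h3 : 1530 * l ≤ L := by nlinarith
  have h4 : 0 ≤ δ * L := by positivity
  have e2 : a + (1 + ((1 + S) + 5 * (51 * l) * (L / l ^ 2)) + 2 * (5 * (51 * l)) * (L / l ^ 2) +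
      2 * (1 + S)) = a + 4 + 3 * S + 765 * (l * (L / l ^ 2)) := by ring
  rw [e2, e1]
  nlinarith

theorem p_ERB : Stmt_ERB := by
  intro δ hδ hδ'
  refine ⟨Real.exp (Real.exp 3060), ?_, ?_⟩
  · have := Real.add_one_lt_exp (show Real.exp 3060 ≠ 0 from (Real.exp_pos _).ne')
    have := Real.exp_pos 3060
    linarith
  intro T H W x η R Y X lam hT hadm hlb hx hη hY
  have hT0 : 0 < T := lt_of_lt_of_le (Real.exp_pos _) hT
  have hL1 : Real.exp 3060 ≤ Real.log T := by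
    rw [Real.le_log_iff_exp_le hT0]
    exact hT
  have hL0 : 0 < Real.log T := lt_of_lt_of_le (Real.exp_pos _) hL1
  have hl : 3060 ≤ ell T := by
    unfold ell
    rw [Real.le_log_iff_exp_le hL0]
    exact hL1
  have hl0 : 0 < ell T := by linarith
  have hLl : Real.log T = Real.exp (ell T) := by
    unfold ell
    rw [Real.exp_log hL0]
  have hc := hlb.lc.chain
  have hR := hlb.R2
  have hx1 : 100 ≤ X 1 := ERB_X_ge hc 1 (by omega)
  have hK : (KK lam 0 : ℝ) ≤ 51 * ell T := by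
    have := ERB_K_le (hc.lam1 0 (by omega))
    rwa [hlb.lam0] at this
  -- the sum
  set S : ℝ := ∑ i ∈ range R, (KK lam i : ℝ) * Real.log (X (i + 1)) with hSdef
  have hlog : ∀ i ∈ range R, 0 ≤ Real.log (X (i + 1)) := by
    intro i hi
    have := ERB_X_ge hc (i + 1) (by have := mem_range.1 hi; omega)
    exact Real.log_nonneg (by linarith)
  have hS0 : 0 ≤ S := sum_nonneg fun i hi => mul_nonneg (Nat.cast_nonneg _) (hlog i hi)
  have hS : S ≤ 51 * (δ * Real.log T / 100) := by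
    have h1 : S ≤ ∑ i ∈ range R, 51 * (lam i * Real.log (X (i + 1))) := by
      refine sum_le_sum fun i hi => ?_
      have := mul_le_mul_of_nonneg_right (ERB_K_le (hc.lam1 i (mem_range.1 hi))) (hlog i hi)
      linarith
    rw [← mul_sum] at h1
    have h2 := hlb.lc.sh
    unfold Sh at h2
    linarith
  have hYle : (Y : ℝ) ≤ Real.exp (1 + S) := by
    have h1 : (Y : ℝ) < Real.exp S + 1 := by
      rw [hY]
      exact Nat.ceil_lt_add_one (Real.exp_pos _).le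
    have h2 : 1 ≤ Real.exp S := Real.one_le_exp hS0
    have h3 : 2 ≤ Real.exp 1 := by
      have := Real.add_one_le_exp (1 : ℝ)
      linarith
    rw [Real.exp_add]
    nlinarith
  set q : ℝ := Real.log T / ell T ^ 2 with hq
  have hq0 : 0 ≤ q := by positivity
  have hf1 : ((⌊X 1⌋₊ : ℕ) : ℝ) ^ (5 * KK lam 0) ≤ Real.exp (5 * (51 * ell T) * q) := by
    have h1 : ((⌊X 1⌋₊ : ℕ) : ℝ) ≤ Real.exp q := by
      rw [← hlb.x1]
      exact Nat.floor_le (by linarith)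
    calc ((⌊X 1⌋₊ : ℕ) : ℝ) ^ (5 * KK lam 0) ≤ (Real.exp q) ^ (5 * KK lam 0) :=
          pow_le_pow_left₀ (Nat.cast_nonneg _) h1 _
      _ = Real.exp ((5 * KK lam 0 : ℕ) * q) := by rw [Real.exp_nat_mul]
      _ ≤ _ := by
          apply Real.exp_le_exp.2
          push_cast
          have := mul_le_mul_of_nonneg_right hK hq0
          linarith
  have hf2 : (1 + ∑ p ∈ PB X 0, (Real.sqrt (p : ℝ))⁻¹) ^ (2 * (5 * KK lam 0)) ≤
      Real.exp (2 * (5 * (51 * ell T)) * q) := by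
    have h1 := ERB_sum hc.x0 hx1
    rw [hlb.x1] at h1
    have h0 : 0 ≤ 1 + ∑ p ∈ PB X 0, (Real.sqrt (p : ℝ))⁻¹ := by
      have : 0 ≤ ∑ p ∈ PB X 0, (Real.sqrt (p : ℝ))⁻¹ :=
        sum_nonneg fun p _ => inv_nonneg.2 (Real.sqrt_nonneg _)
      linarith
    calc _ ≤ (Real.exp q) ^ (2 * (5 * KK lam 0)) := pow_le_pow_left₀ h0 h1 _
      _ = Real.exp ((2 * (5 * KK lam 0) : ℕ) * q) := by rw [Real.exp_nat_mul]
      _ ≤ _ := by
          apply Real.exp_le_exp.2
          push_cast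
          have := mul_le_mul_of_nonneg_right hK hq0
          linarith
  have hf3 : (2 : ℝ) ≤ Real.exp 1 := by
    have := Real.add_one_le_exp (1 : ℝ)
    linarith
  have ha : 1 + 2 * (1 + |x|) / η ≤ 3 / 2 + 10 * ell T := by
    have h1 : 2 * (1 + |x|) / η ≤ 2 * (1 + |x|) / 4 :=
      div_le_div_of_nonneg_left (by have := abs_nonneg x; linarith) (by norm_num) hη
    linarith
  have hpart : 2 * ((Y * ⌊X 1⌋₊ ^ (5 * KK lam 0) : ℕ) : ℝ) *
      (1 + ∑ p ∈ PB X 0, (Real.sqrt (p : ℝ))⁻¹) ^ (2 * (5 * KK lam 0)) * (Y : ℝ) ^ 2 ≤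
      Real.exp (1 + ((1 + S) + 5 * (51 * ell T) * q) + 2 * (5 * (51 * ell T)) * q +
        2 * (1 + S)) := by
    have hY2 : (Y : ℝ) ^ 2 ≤ Real.exp (2 * (1 + S)) := by
      have e : Real.exp (2 * (1 + S)) = Real.exp (1 + S) ^ 2 := by
        rw [← Real.exp_nat_mul]
        norm_num
      rw [e]
      exact pow_le_pow_left₀ (Nat.cast_nonneg _) hYle 2
    have hA : ((Y * ⌊X 1⌋₊ ^ (5 * KK lam 0) : ℕ) : ℝ) ≤
        Real.exp ((1 + S) + 5 * (51 * ell T) * q) := by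
      rw [Real.exp_add]
      push_cast
      exact mul_le_mul hYle hf1 (by positivity) (Real.exp_pos _).le
    rw [Real.exp_add, Real.exp_add, Real.exp_add]
    have h0 : 0 ≤ 1 + ∑ p ∈ PB X 0, (Real.sqrt (p : ℝ))⁻¹ := by
      have : 0 ≤ ∑ p ∈ PB X 0, (Real.sqrt (p : ℝ))⁻¹ :=
        sum_nonneg fun p _ => inv_nonneg.2 (Real.sqrt_nonneg _)
      linarith
    refine mul_le_mul (mul_le_mul (mul_le_mul hf3 hA (Nat.cast_nonneg _) (Real.exp_pos _).le) hf2
      (pow_nonneg h0 _) ?_) hY2 (by positivity) ?_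
    · exact (mul_pos (Real.exp_pos _) (Real.exp_pos _)).le
    · exact (mul_pos (mul_pos (Real.exp_pos _) (Real.exp_pos _)) (Real.exp_pos _)).le
  have hright : Real.exp ((1 / 2 + 4 * δ) * Real.log T - ell T) ≤ H / Real.log T := by
    rw [Real.exp_sub, ← hLl]
    apply div_le_div_of_nonneg_right _ hL0.le
    have h1 := hadm.1
    rw [Real.rpow_def_of_pos hT0, mul_comm] at h1
    exact h1
  refine le_trans ?_ hright
  have hfin := ERB_fin δ (Real.log T) (ell T) S (1 + 2 * (1 + |x|) / η) hδ hl hLl hS ha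
  refine le_trans ?_ (Real.exp_le_exp.2 hfin)
  refine (mul_le_mul_of_nonneg_left hpart (Real.exp_pos _).le).trans ?_
  rw [← Real.exp_add]

end HZS
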