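import Pool.Agent.Work.MP_c51bc2_nt_lb.Interface

/-!
# MP_c51bc2_nt, THEOREM LB, block EXM: exponential moments of the random sum
-/

set_option autoImplicit false

open Finset Complex MeasureTheory

namespace HZS

theorem EXM_exp_le (c u : ℝ) (hu : |u| ≤ 1) :
    Real.exp (c * u) ≤ Real.cosh c + u * Real.sinh c := by
  have h1 := abs_le.1 hu
  have h2 := convexOn_exp.2 (Set.mem_univ c) (Set.mem_univ (-c))
    (show (0 : ℝ) ≤ (1 + u) / 2 by linarith [h1.1])
    (show (0 : ℝ) ≤ (1 - u) / 2 by linarith [h1.2]) (by ring)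
  have h3 : ((1 + u) / 2) • c + ((1 - u) / 2) • (-c) = c * u := by
    simp only [smul_eq_mul]
    ring
  rw [h3] at h2
  refine h2.trans (le_of_eq ?_)
  rw [Real.cosh_eq, Real.sinh_eq]
  simp only [smul_eq_mul]
  ring

theorem EXM_one (u : ℝ → ℝ) (hu : Continuous u) (h1 : ∀ θ, |u θ| ≤ 1)
    (h0 : ∫ θ in Set.Ioc (0 : ℝ) 1, u θ = 0) (c : ℝ) :
    Integrable (fun θ => Real.exp (c * u θ)) (volume.restrict (Set.Ioc (0 : ℝ) 1)) ∧
      ∫ θ in Set.Ioc (0 : ℝ) 1, Real.exp (c * u θ) ≤ Real.exp (c ^ 2 / 2) := by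
  have hi : Integrable (fun θ => Real.exp (c * u θ)) (volume.restrict (Set.Ioc (0 : ℝ) 1)) :=
    (Real.continuous_exp.comp (continuous_const.mul hu)).integrableOn_Ioc
  refine ⟨hi, ?_⟩
  have hu' : Integrable u (volume.restrict (Set.Ioc (0 : ℝ) 1)) := hu.integrableOn_Ioc
  have hc : Integrable (fun _ : ℝ => Real.cosh c) (volume.restrict (Set.Ioc (0 : ℝ) 1)) :=
    continuous_const.integrableOn_Ioc
  calc ∫ θ in Set.Ioc (0 : ℝ) 1, Real.exp (c * u θ)
      ≤ ∫ θ in Set.Ioc (0 : ℝ) 1, (Real.cosh c + u θ * Real.sinh c) :=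
        integral_mono hi (hc.add (hu'.mul_const _)) fun θ => EXM_exp_le c (u θ) (h1 θ)
    _ = Real.cosh c := by
        rw [integral_add hc (hu'.mul_const _), integral_mul_const, h0, zero_mul, add_zero]
        simp
    _ ≤ Real.exp (c ^ 2 / 2) := Real.cosh_le_exp_half_sq c

theorem EXM_two (P : Finset ℕ) (u : ℝ → ℝ) (hu : Continuous u) (h1 : ∀ θ, |u θ| ≤ 1)
    (h0 : ∫ θ in Set.Ioc (0 : ℝ) 1, u θ = 0) (s : ℝ) :
    Integrable (fun θ : P → ℝ =>
      Real.exp (s * ∑ p : P, (Real.sqrt ((p : ℕ) : ℝ))⁻¹ * u (θ p))) (tor P) ∧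
      ∫ θ, Real.exp (s * ∑ p : P, (Real.sqrt ((p : ℕ) : ℝ))⁻¹ * u (θ p)) ∂(tor P) ≤
        Real.exp (s ^ 2 / 2 * VV P) := by
  have hf : (fun θ : P → ℝ => Real.exp (s * ∑ p : P, (Real.sqrt ((p : ℕ) : ℝ))⁻¹ * u (θ p))) =
      fun θ : P → ℝ => ∏ p : P,
        (fun (q : P) (x : ℝ) => Real.exp (s * (Real.sqrt ((q : ℕ) : ℝ))⁻¹ * u x)) p (θ p) := by
    funext θ
    rw [mul_sum, Real.exp_sum]
    exact prod_congr rfl fun p _ => by simp only [mul_assoc]
  have ho := fun p : P => EXM_one u hu h1 h0 (s * (Real.sqrt ((p : ℕ) : ℝ))⁻¹)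
  rw [hf]
  constructor
  · exact Integrable.fintype_prod fun p => (ho p).1
  · rw [tor, integral_fintype_prod_eq_prod (ι := P) (E := fun _ => ℝ)
      (fun (q : P) (x : ℝ) => Real.exp (s * (Real.sqrt ((q : ℕ) : ℝ))⁻¹ * u x))]
    calc ∏ p : P, ∫ x in Set.Ioc (0 : ℝ) 1,
          Real.exp (s * (Real.sqrt ((p : ℕ) : ℝ))⁻¹ * u x)
        ≤ ∏ p : P, Real.exp ((s * (Real.sqrt ((p : ℕ) : ℝ))⁻¹) ^ 2 / 2) :=
          prod_le_prod (fun p _ => integral_nonneg fun x => (Real.exp_pos _).le)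
            fun p _ => (ho p).2
      _ = Real.exp (s ^ 2 / 2 * VV P) := by
          rw [← Real.exp_sum, VV, mul_sum, ← Finset.sum_coe_sort P]
          congr 1
          refine sum_congr rfl fun p _ => ?_
          rw [mul_pow, inv_pow, Real.sq_sqrt (Nat.cast_nonneg _)]
          ring

theorem EXM_cos : ∫ θ in Set.Ioc (0 : ℝ) 1, Real.cos (2 * Real.pi * θ) = 0 := by
  rw [← intervalIntegral.integral_of_le zero_le_one,
    intervalIntegral.integral_comp_mul_left (fun x => Real.cos x) (by positivity)]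
  simp

theorem EXM_sin : ∫ θ in Set.Ioc (0 : ℝ) 1, Real.sin (2 * Real.pi * θ) = 0 := by
  rw [← intervalIntegral.integral_of_le zero_le_one,
    intervalIntegral.integral_comp_mul_left (fun x => Real.sin x) (by positivity)]
  simp

theorem EXM_re (P : Finset ℕ) (θ : P → ℝ) :
    (TP P θ).re = ∑ p : P, (Real.sqrt ((p : ℕ) : ℝ))⁻¹ * Real.cos (2 * Real.pi * θ p) := by
  rw [TP, Complex.re_sum]
  exact sum_congr rfl fun p _ => by rw [Complex.re_ofReal_mul, Complex.exp_ofReal_mul_I_re]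

theorem EXM_im (P : Finset ℕ) (θ : P → ℝ) :
    (TP P θ).im = ∑ p : P, (Real.sqrt ((p : ℕ) : ℝ))⁻¹ * Real.sin (2 * Real.pi * θ p) := by
  rw [TP, Complex.im_sum]
  exact sum_congr rfl fun p _ => by rw [Complex.im_ofReal_mul, Complex.exp_ofReal_mul_I_im]

theorem EXM_abs (b x : ℝ) :
    Real.exp (2 * b * |x|) ≤ Real.exp (2 * b * x) + Real.exp (-(2 * b) * x) := by
  rcases abs_cases x with ⟨h, _⟩ | ⟨h, _⟩
  · rw [h]
    linarith [Real.exp_pos (-(2 * b) * x)]
  · rw [h]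
    have : 2 * b * -x = -(2 * b) * x := by ring
    rw [this]
    linarith [Real.exp_pos (2 * b * x)]

theorem EXM_pt (b : ℝ) (hb : 0 ≤ b) (z : ℂ) :
    Real.exp (b * ‖z‖) ≤ (1 / 2) * ((Real.exp (2 * b * z.re) + Real.exp (-(2 * b) * z.re)) +
      (Real.exp (2 * b * z.im) + Real.exp (-(2 * b) * z.im))) := by
  have h1 : Real.exp (b * ‖z‖) ≤ Real.exp (b * |z.re|) * Real.exp (b * |z.im|) := by
    rw [← Real.exp_add, ← mul_add]
    exact Real.exp_le_exp.2 (mul_le_mul_of_nonneg_left (Complex.norm_le_abs_re_add_abs_im z) hb)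
  have h2 : Real.exp (2 * b * |z.re|) = Real.exp (b * |z.re|) ^ 2 := by
    rw [← Real.exp_nat_mul]
    congr 1
    push_cast
    ring
  have h3 : Real.exp (2 * b * |z.im|) = Real.exp (b * |z.im|) ^ 2 := by
    rw [← Real.exp_nat_mul]
    congr 1
    push_cast
    ring
  have h4 := EXM_abs b z.re
  have h5 := EXM_abs b z.im
  nlinarith [sq_nonneg (Real.exp (b * |z.re|) - Real.exp (b * |z.im|))]

/-- Block EXM. -/
theorem p_EXM : Stmt_EXM := by
  intro P _ b hb
  have hcos := fun s : ℝ => EXM_two P (fun θ => Real.cos (2 * Real.pi * θ)) (by fun_prop)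
    (fun θ => Real.abs_cos_le_one _) EXM_cos s
  have hsin := fun s : ℝ => EXM_two P (fun θ => Real.sin (2 * Real.pi * θ)) (by fun_prop)
    (fun θ => Real.abs_sin_le_one _) EXM_sin s
  simp only [← EXM_re] at hcos
  simp only [← EXM_im] at hsin
  have hI := (((hcos (2 * b)).1.add (hcos (-(2 * b))).1).add
    ((hsin (2 * b)).1.add (hsin (-(2 * b))).1)).const_mul (1 / 2)
  have hle := integral_mono_of_nonneg (μ := tor P)
    (f := fun θ => Real.exp (b * ‖TP P θ‖)) (Filter.Eventually.of_forall fun θ => (Real.exp_pos _).le)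
    hI (Filter.Eventually.of_forall fun θ => EXM_pt b hb (TP P θ))
  refine hle.trans ?_
  simp only [Pi.add_apply]
  rw [integral_const_mul, integral_add, integral_add (hcos _).1 (hcos _).1,
    integral_add (hsin _).1 (hsin _).1]
  · have e1 := (hcos (2 * b)).2
    have e2 := (hcos (-(2 * b))).2
    have e3 := (hsin (2 * b)).2
    have e4 := (hsin (-(2 * b))).2
    have e5 : (2 * b) ^ 2 / 2 = 2 * b ^ 2 := by ring
    have e6 : (-(2 * b)) ^ 2 / 2 = 2 * b ^ 2 := by ring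
    rw [e5] at e1 e3
    rw [e6] at e2 e4
    linarith
  · exact (hcos (2 * b)).1.add (hcos (-(2 * b))).1
  · exact (hsin (2 * b)).1.add (hsin (-(2 * b))).1

end HZS
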