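import Pool.Agent.Work.MP_c51bc2_nt_lb.Interface

open Finset Complex MeasureTheory

namespace HZS

theorem FEJ_right (y : ℝ) (hy : y ≠ 0) :
    ∫ s in (0 : ℝ)..1, (1 - |s|) * Real.cos (2 * s * y) = (1 - Real.cos (2 * y)) / (4 * y ^ 2) := by
  have h1 : ∫ s in (0 : ℝ)..1, (1 - |s|) * Real.cos (2 * s * y) =
      ∫ s in (0 : ℝ)..1, (1 - s) * Real.cos (2 * s * y) := by
    apply intervalIntegral.integral_congr
    intro s hs
    rw [Set.uIcc_of_le (by norm_num)] at hs
    show (1 - |s|) * Real.cos (2 * s * y) = (1 - s) * Real.cos (2 * s * y)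
    rw [abs_of_nonneg hs.1]
  rw [h1]
  have hd : ∀ s ∈ Set.uIcc (0 : ℝ) 1, HasDerivAt
      (fun s : ℝ => (1 - s) * (Real.sin (2 * s * y) / (2 * y)) - Real.cos (2 * s * y) / (4 * y ^ 2))
      ((1 - s) * Real.cos (2 * s * y)) s := by
    intro s _
    have ha : HasDerivAt (fun s : ℝ => 2 * s * y) (2 * y) s := by
      have := ((hasDerivAt_id s).const_mul 2).mul_const y
      simpa using this
    have hb : HasDerivAt (fun s : ℝ => 1 - s) (-1) s := by
      simpa using (hasDerivAt_id s).const_sub 1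
    have hc := (hb.mul (ha.sin.div_const (2 * y))).sub (ha.cos.div_const (4 * y ^ 2))
    refine hc.congr_deriv ?_
    field_simp
    ring
  rw [intervalIntegral.integral_eq_sub_of_hasDerivAt hd]
  · simp
    field_simp
    ring
  · exact (by fun_prop : Continuous fun s : ℝ => (1 - s) * Real.cos (2 * s * y)).intervalIntegrable _ _

theorem FEJ_left (y : ℝ) (hy : y ≠ 0) :
    ∫ s in (-1 : ℝ)..0, (1 - |s|) * Real.cos (2 * s * y) = (1 - Real.cos (2 * y)) / (4 * y ^ 2) := by
  have h := intervalIntegral.integral_comp_neg (a := (0 : ℝ)) (b := 1)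
    (fun s : ℝ => (1 - |s|) * Real.cos (2 * s * y))
  rw [← FEJ_right y hy]
  have h2 : ∫ s in (0 : ℝ)..1, (1 - |(-s)|) * Real.cos (2 * (-s) * y) =
      ∫ s in (0 : ℝ)..1, (1 - |s|) * Real.cos (2 * s * y) := by
    apply intervalIntegral.integral_congr
    intro s _
    show (1 - |(-s)|) * Real.cos (2 * (-s) * y) = (1 - |s|) * Real.cos (2 * s * y)
    rw [abs_neg, show 2 * (-s) * y = -(2 * s * y) by ring, Real.cos_neg]
  rw [← h2, h]
  simp

theorem p_FEJ : Stmt_FEJ := by
  intro y
  have hc : Continuous fun s : ℝ => (1 - |s|) * Real.cos (2 * s * y) := by fun_prop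
  rw [← intervalIntegral.integral_add_adjacent_intervals (b := (0 : ℝ))
    (hc.intervalIntegrable _ _) (hc.intervalIntegrable _ _)]
  by_cases hy : y = 0
  · subst hy
    simp only [Real.sinc_zero, mul_zero, Real.cos_zero, mul_one, one_pow]
    have h1 : ∫ s in (0 : ℝ)..1, (1 - |s|) = 1 / 2 := by
      have : ∫ s in (0 : ℝ)..1, (1 - |s|) = ∫ s in (0 : ℝ)..1, (1 - s) := by
        apply intervalIntegral.integral_congr
        intro s hs
        rw [Set.uIcc_of_le (by norm_num)] at hs
        show 1 - |s| = 1 - s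
        rw [abs_of_nonneg hs.1]
      rw [this, intervalIntegral.integral_sub (by simp) (by simp)]
      simp
      norm_num
    have h2 : ∫ s in (-1 : ℝ)..0, (1 - |s|) = 1 / 2 := by
      have h := intervalIntegral.integral_comp_neg (a := (0 : ℝ)) (b := 1) (fun s : ℝ => (1 - |s|))
      simp only [abs_neg, neg_zero] at h
      rw [← h, h1]
    rw [h1, h2]
    norm_num
  · rw [FEJ_left y hy, FEJ_right y hy, Real.sinc_of_ne_zero hy]
    have h3 : Real.cos (2 * y) = 1 - 2 * Real.sin y ^ 2 := by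
      rw [Real.cos_two_mul, Real.cos_sq']
      ring
    rw [h3]
    field_simp
    ring

end HZS
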