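import Pool.Agent.Work.MP_c51bc2_nt_lb.Interface

open Finset Complex MeasureTheory

namespace HZS

noncomputable section

/-- the cut-off function -/
def LEV_F (a κ y : ℝ) : ℝ := max 0 (min 1 (1 - κ * (y - a)))

theorem LEV_F_nonneg (a κ y : ℝ) : 0 ≤ LEV_F a κ y := le_max_left _ _

theorem LEV_F_le (a κ y : ℝ) : LEV_F a κ y ≤ 1 := max_le zero_le_one (min_le_left _ _)

theorem LEV_F_abs (a κ y : ℝ) : |LEV_F a κ y| ≤ 1 := by
  rw [abs_of_nonneg (LEV_F_nonneg a κ y)]
  exact LEV_F_le a κ y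

theorem LEV_F_lip (a κ : ℝ) (hκ : 0 ≤ κ) (x y : ℝ) :
    |LEV_F a κ x - LEV_F a κ y| ≤ κ * |x - y| := by
  have hn : 0 ≤ κ * |x - y| := mul_nonneg hκ (abs_nonneg _)
  unfold LEV_F
  refine le_trans (abs_max_sub_max_le_max _ _ _ _) (max_le (by simpa using hn) ?_)
  refine le_trans (abs_min_sub_min_le_max _ _ _ _) (max_le (by simpa using hn) ?_)
  rw [show 1 - κ * (x - a) - (1 - κ * (y - a)) = -(κ * (x - y)) by ring, abs_neg, abs_mul,
    abs_of_nonneg hκ]

theorem LEV_F_cont (a κ : ℝ) : Continuous (LEV_F a κ) := by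
  unfold LEV_F
  fun_prop

theorem LEV_F_one (a κ y : ℝ) (hκ : 0 ≤ κ) (h : y ≤ a) : LEV_F a κ y = 1 := by
  unfold LEV_F
  have : κ * (y - a) ≤ 0 := mul_nonpos_of_nonneg_of_nonpos hκ (by linarith)
  rw [min_eq_left (by linarith), max_eq_right zero_le_one]

theorem LEV_F_zero (a κ y : ℝ) (h : 1 ≤ κ * (y - a)) : LEV_F a κ y = 0 := by
  unfold LEV_F
  rw [max_eq_left]
  exact le_trans (min_le_right _ _) (by linarith)

theorem LEV_pt (b κ η z : ℝ) (hb : 0 < b) (hκ : 0 < κ) (hη : 0 < η) (hκη : κ * η = 1) :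
    |z * LEV_F (Real.log b) κ (Real.log |z|) - (if |z| ≤ b then z else 0)| ≤
      (if |Real.log |z| - (Real.log b + η / 2)| ≤ η then |z| else 0) := by
  have hR : 0 ≤ (if |Real.log |z| - (Real.log b + η / 2)| ≤ η then |z| else 0) := by
    split_ifs
    · exact abs_nonneg _
    · exact le_refl _
  by_cases hz : z = 0
  · subst hz
    simpa using hR
  · have hz' : 0 < |z| := abs_pos.mpr hz
    by_cases h1 : |z| ≤ b
    · rw [if_pos h1, LEV_F_one _ _ _ hκ.le (Real.log_le_log hz' h1)]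
      simpa using hR
    · rw [if_neg h1]
      push Not at h1
      have h2 : Real.log b < Real.log |z| := Real.log_lt_log hb h1
      by_cases h3 : 1 ≤ κ * (Real.log |z| - Real.log b)
      · rw [LEV_F_zero _ _ _ h3]
        simpa using hR
      · push Not at h3
        have h4 : Real.log |z| - Real.log b < η := by
          by_contra h
          push Not at h
          have := mul_le_mul_of_nonneg_left h hκ.le
          linarith
        have h5 : |Real.log |z| - (Real.log b + η / 2)| ≤ η := by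
          rw [abs_le]
          constructor <;> linarith
        rw [if_pos h5, sub_zero, abs_mul, abs_of_nonneg (LEV_F_nonneg _ _ _)]
        calc |z| * LEV_F (Real.log b) κ (Real.log |z|) ≤ |z| * 1 :=
              mul_le_mul_of_nonneg_left (LEV_F_le _ _ _) (abs_nonneg _)
          _ = |z| := mul_one _

theorem p_LEV (hBLA : Stmt_BLA) (hNBZ : Stmt_NBZ) (_hMES : Stmt_MES) (hZC : Stmt_ZC) :
    Stmt_LEV := by
  intro δ hδ hδ'
  obtain ⟨C1, T1, hC1, hT1, h1⟩ := hBLA δ hδ hδ'
  obtain ⟨C2, T2, hC2, hT2, h2⟩ := hNBZ δ hδ hδ'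
  refine ⟨C1 + C2, max (max T1 T2) (Real.exp (Real.exp 1)), by positivity,
    lt_of_lt_of_le hT1 (le_trans (le_max_left _ _) (le_max_left _ _)), ?_⟩
  intro T H b hT hA hb
  have hTa : T1 ≤ T := le_trans (le_trans (le_max_left _ _) (le_max_left _ _)) hT
  have hTb : T2 ≤ T := le_trans (le_trans (le_max_right _ _) (le_max_left _ _)) hT
  have hTc : Real.exp (Real.exp 1) ≤ T := le_trans (le_max_right _ _) hT
  have hT0 : 0 < T := lt_of_lt_of_le (Real.exp_pos _) hTc
  have hL : Real.exp 1 ≤ Real.log T := by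
    rw [Real.le_log_iff_exp_le hT0]
    exact hTc
  have hL1 : 1 ≤ Real.log T := le_trans (by have := Real.add_one_le_exp (1 : ℝ); linarith) hL
  have hL0 : 0 < Real.log T := by linarith
  have hl : 1 ≤ ell T := by
    unfold ell
    rw [Real.le_log_iff_exp_le hL0]
    exact hL
  have hl0 : 0 < ell T := by linarith
  have hH : 0 ≤ H := le_trans (Real.rpow_nonneg hT0.le _) hA.1
  have hTH : T ≤ T + H := by linarith
  set η : ℝ := ell T ^ (1 / 5 : ℝ) with hηd
  set κ : ℝ := ell T ^ (-(1 / 5) : ℝ) with hκd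
  have hη : 0 < η := Real.rpow_pos_of_pos hl0 _
  have hκ : 0 < κ := Real.rpow_pos_of_pos hl0 _
  have hκη : κ * η = 1 := by
    rw [hκd, hηd, ← Real.rpow_add hl0]
    norm_num
  have hκ1 : κ ≤ 1 := Real.rpow_le_one_of_one_le_of_nonpos hl (by norm_num)
  have hκL : Real.log T ^ (-(1 / 2) : ℝ) ≤ κ := by
    rw [hκd, Real.rpow_neg hL0.le, Real.rpow_neg hl0.le]
    apply inv_anti₀ hη
    calc ell T ^ (1 / 5 : ℝ) ≤ Real.log T ^ (1 / 5 : ℝ) := by
          apply Real.rpow_le_rpow hl0.le _ (by norm_num)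
          unfold ell
          have := Real.log_le_sub_one_of_pos hL0
          linarith
      _ ≤ Real.log T ^ (1 / 2 : ℝ) := Real.rpow_le_rpow_of_exponent_le hL1 (by norm_num)
  have hκh : κ ^ (1 / 2 : ℝ) = ell T ^ (-(1 / 10) : ℝ) := by
    rw [hκd, ← Real.rpow_mul hl0.le]
    norm_num
  have hB := h1 T H κ (LEV_F (Real.log b) κ) hTa hA hκL hκ1 (LEV_F_abs _ _)
    (LEV_F_lip _ _ hκ.le)
  have hN := h2 T H (Real.log b + η / 2) hTb hA
  rw [hκh] at hB
  have hZ : Continuous Z := hZC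
  have hZm : Measurable Z := hZ.measurable
  set A : Set ℝ := {t | |Z t| ≤ b} with hAd
  set B : Set ℝ := {t | |Real.log |Z t| - (Real.log b + η / 2)| ≤ η} with hBd
  have hAm : MeasurableSet A := measurableSet_le (by fun_prop) measurable_const
  have hBm : MeasurableSet B := by
    apply measurableSet_le _ measurable_const
    have : Measurable fun t => Real.log |Z t| - (Real.log b + η / 2) := by fun_prop
    exact (continuous_abs.measurable).comp this
  have hZi : IntegrableOn Z (Set.Icc T (T + H)) := hZ.continuousOn.integrableOn_Icc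
  have hZai : IntegrableOn (fun t => |Z t|) (Set.Icc T (T + H)) := hZi.abs
  have hFm : Measurable fun t => Z t * LEV_F (Real.log b) κ (Real.log |Z t|) := by
    apply hZm.mul
    apply (LEV_F_cont _ _).measurable.comp
    fun_prop
  have hFi : IntegrableOn (fun t => Z t * LEV_F (Real.log b) κ (Real.log |Z t|))
      (Set.Icc T (T + H)) := by
    apply Integrable.mono hZi hFm.aestronglyMeasurable
    refine Filter.Eventually.of_forall fun t => ?_
    rw [norm_mul]
    calc ‖Z t‖ * ‖LEV_F (Real.log b) κ (Real.log |Z t|)‖ ≤ ‖Z t‖ * 1 :=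
          mul_le_mul_of_nonneg_left (LEV_F_abs _ _ _) (norm_nonneg _)
      _ = ‖Z t‖ := mul_one _
  have hAi : IntegrableOn (A.indicator Z) (Set.Icc T (T + H)) := hZi.indicator hAm
  have hBi : IntegrableOn (B.indicator fun t => |Z t|) (Set.Icc T (T + H)) := hZai.indicator hBm
  have e1 : ∫ t in {t | t ∈ Set.Icc T (T + H) ∧ |Z t| ≤ b}, Z t =
      ∫ t in Set.Icc T (T + H), A.indicator Z t := (setIntegral_indicator hAm).symm
  have e2 : ∫ t in {t | t ∈ Set.Icc T (T + H) ∧ |Real.log |Z t| - (Real.log b + η / 2)| ≤ η},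
      |Z t| = ∫ t in Set.Icc T (T + H), B.indicator (fun t => |Z t|) t :=
    (setIntegral_indicator hBm).symm
  have e3 : ∫ t in T..(T + H), Z t * LEV_F (Real.log b) κ (Real.log |Z t|) =
      ∫ t in Set.Icc T (T + H), Z t * LEV_F (Real.log b) κ (Real.log |Z t|) := by
    rw [intervalIntegral.integral_of_le hTH, integral_Icc_eq_integral_Ioc]
  rw [e2] at hN
  rw [e3] at hB
  rw [e1]
  have hd : |(∫ t in Set.Icc T (T + H), Z t * LEV_F (Real.log b) κ (Real.log |Z t|)) -
      ∫ t in Set.Icc T (T + H), A.indicator Z t| ≤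
      ∫ t in Set.Icc T (T + H), B.indicator (fun t => |Z t|) t := by
    rw [← integral_sub hFi hAi]
    refine le_trans abs_integral_le_integral_abs ?_
    apply integral_mono (hFi.sub hAi).abs hBi
    intro t
    have hp := LEV_pt b κ η (Z t) hb hκ hη hκη
    simp only [Set.indicator_apply, hAd, hBd, Set.mem_ofPred_eq]
    exact hp
  have h3 : |∫ t in Set.Icc T (T + H), A.indicator Z t| ≤
      |∫ t in Set.Icc T (T + H), Z t * LEV_F (Real.log b) κ (Real.log |Z t|)| +
      |(∫ t in Set.Icc T (T + H), Z t * LEV_F (Real.log b) κ (Real.log |Z t|)) -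
        ∫ t in Set.Icc T (T + H), A.indicator Z t| := by
    have := abs_sub (∫ t in Set.Icc T (T + H), Z t * LEV_F (Real.log b) κ (Real.log |Z t|))
      ((∫ t in Set.Icc T (T + H), Z t * LEV_F (Real.log b) κ (Real.log |Z t|)) -
        ∫ t in Set.Icc T (T + H), A.indicator Z t)
    rw [sub_sub_cancel] at this
    exact this
  calc |∫ t in Set.Icc T (T + H), A.indicator Z t| ≤ _ := h3
    _ ≤ C1 * ell T ^ (-(1 / 10) : ℝ) * (∫ t in T..(T + H), |Z t|) +
        C2 * ell T ^ (-(1 / 10) : ℝ) * (∫ t in T..(T + H), |Z t|) :=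
      add_le_add hB (le_trans hd hN)
    _ = (C1 + C2) * ell T ^ (-(1 / 10) : ℝ) * ∫ t in T..(T + H), |Z t| := by ring

end

end HZS
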