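import Pool.Agent.Work.MP_c51bc2_nt_lb.Interface
import Pool.Agent.Work.MP_c51bc2_nt.B_MAIN

open Finset Complex MeasureTheory

namespace HZS

theorem p_MES : Stmt_MES := by
  classical
  intro X lam R
  have hPP : ∀ j, Continuous (fun t : ℝ => PP X j t) := fun j => MAINx.cont_PP X j
  refine ⟨?_, ?_, ?_⟩
  · have hset : MeasurableSet {t : ℝ | Good X lam R t} := by
      have : {t : ℝ | Good X lam R t} =
          ⋂ j : ℕ, ⋂ _ : j < R, {t : ℝ | 5 * ‖PP X j t‖ ≤ (KK lam j : ℝ)} := by
        ext t
        simp [Good]
      rw [this]
      refine IsClosed.measurableSet (isClosed_iInter fun j => isClosed_iInter fun _ => ?_)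
      exact isClosed_le (continuous_const.mul (hPP j).norm) continuous_const
    have h2 : gd X lam R = Set.indicator {t : ℝ | Good X lam R t} (fun _ => (1 : ℝ)) := by
      funext t
      unfold gd
      by_cases h : Good X lam R t
      · rw [if_pos h, Set.indicator_of_mem (show t ∈ {t : ℝ | Good X lam R t} from h)]
      · rw [if_neg h, Set.indicator_of_notMem (show t ∉ {t : ℝ | Good X lam R t} from h)]
    rw [h2]
    exact measurable_const.indicator hset
  · exact Complex.continuous_re.comp (continuous_finset_sum _ fun j _ => hPP j)
  · intro t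
    unfold gd
    by_cases h : Good X lam R t
    · right; rw [if_pos h]
    · left; rw [if_neg h]

end HZS
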