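import Pool.Agent.Work.MP_c51bc2_nt_lb.Interface
import Pool.Agent.Work.MP_c51bc2_nt.B_TR

open Finset Complex MeasureTheory

namespace HZS

noncomputable section

theorem MOD_cont (P : Finset ℕ) : Continuous (TP P) := by
  unfold TP
  fun_prop

theorem MOD_norm_u (s x : ℝ) : ‖(((Real.sqrt s)⁻¹ : ℝ) : ℂ) *
    cexp (((2 * Real.pi * x : ℝ) : ℂ) * I)‖ = (Real.sqrt s)⁻¹ := by
  rw [norm_mul, Complex.norm_exp_ofReal_mul_I, mul_one, Complex.norm_real, Real.norm_eq_abs,
    abs_of_nonneg (inv_nonneg.2 (Real.sqrt_nonneg s))]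

theorem MOD_bound (P : Finset ℕ) (θ : P → ℝ) :
    ‖TP P θ‖ ≤ ∑ p : P, (Real.sqrt ((p : ℕ) : ℝ))⁻¹ := by
  unfold TP
  refine (norm_sum_le _ _).trans (Finset.sum_le_sum fun p _ => ?_)
  exact (MOD_norm_u _ _).le

theorem MOD_fin (P : Finset ℕ) : IsFiniteMeasure (tor P) := by
  unfold tor
  infer_instance

theorem MOD_int (P : Finset ℕ) {φ : ℂ → ℝ} (hφ : Continuous φ) {c : ℝ}
    (hb : ∀ z : ℂ, |φ z| ≤ Real.exp (c * ‖z‖)) (hc : 0 ≤ c) :
    Integrable (fun θ => φ (TP P θ)) (tor P) := by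
  have := MOD_fin P
  refine Integrable.of_bound (hφ.comp (MOD_cont P)).aestronglyMeasurable
    (Real.exp (c * ∑ p : P, (Real.sqrt ((p : ℕ) : ℝ))⁻¹)) (Filter.Eventually.of_forall fun θ => ?_)
  rw [Real.norm_eq_abs]
  exact (hb _).trans (Real.exp_le_exp.2 (mul_le_mul_of_nonneg_left (MOD_bound P θ) hc))

/-- the pointwise bound -/
theorem MOD_pt (hS : Stmt_SNC) (K : ℕ) (l x η : ℝ) (hl : 1 ≤ l) (hK : 50 * l ≤ K)
    (hx : |x| ≤ 20 * l) (hη : 4 ≤ η) (z : ℂ) :
    FF0 K x η z ≤ 3 * (Real.exp z.re * Real.sinc ((z.re - x) / η) ^ 2 +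
      Real.exp (-320 * l) * Real.exp (5 * ‖z‖) +
        Real.exp (-190 * l) * Real.exp (17 / 2 * ‖z‖)) := by
  set y : ℝ := (z.re - x) / η with hy
  have hη0 : 0 < η := by linarith
  have hyb : |y| ≤ (‖z‖ + 20 * l) / 4 := by
    rw [hy, abs_div, abs_of_pos hη0]
    have h1 : |z.re - x| ≤ ‖z‖ + 20 * l := by
      have := abs_sub z.re x
      have := Complex.abs_re_le_norm z
      linarith
    have h0 : 0 ≤ ‖z‖ + 20 * l := by have := norm_nonneg z; linarith
    calc |z.re - x| / η ≤ (‖z‖ + 20 * l) / η := div_le_div_of_nonneg_right h1 hη0.le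
      _ ≤ (‖z‖ + 20 * l) / 4 := div_le_div_of_nonneg_left h0 (by norm_num) hη
  obtain ⟨s1, s2⟩ := hS.1 K y
  set A : ℂ := EP K (z / 2) with hA
  set B : ℂ := cexp (z / 2) with hB
  have hBn : ‖B‖ ^ 2 = Real.exp z.re := by
    rw [hB, Complex.norm_exp, ← Real.exp_nat_mul]
    congr 1
    have : (z / 2).re = z.re / 2 := by
      rw [show z / 2 = ((1 / 2 : ℝ) : ℂ) * z by push_cast; ring, Complex.re_ofReal_mul]
      ring
    rw [this]; push_cast; ring
  have hAB : ‖A - B‖ ≤ Real.exp (-(2 * (K : ℝ))) * Real.exp (4 * ‖z‖) := by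
    have h1 := Complex.norm_exp_sub_sum_le_exp_norm_sub_sum (z / 2) (K + 1)
    have h2 := TRx.tail_le ‖z / 2‖ (norm_nonneg _) (K + 1)
    rw [norm_sub_rev]
    have h3 : ‖B - A‖ ≤ Real.exp (-(2 * ((K + 1 : ℕ) : ℝ))) *
        Real.exp (Real.exp 2 * ‖z / 2‖) := h1.trans h2
    refine h3.trans ?_
    have h4 : ‖z / 2‖ = ‖z‖ / 2 := by rw [norm_div]; simp
    rw [h4]
    apply mul_le_mul _ _ (Real.exp_pos _).le (Real.exp_pos _).le
    · apply Real.exp_le_exp.2
      push_cast; linarith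
    · apply Real.exp_le_exp.2
      have := TRx.exp_two_le
      have := norm_nonneg z
      nlinarith
  have htri : ‖A‖ * |kap K y| ≤ ‖B‖ * |Real.sinc y| + ‖B‖ * |kap K y - Real.sinc y| +
      ‖A - B‖ * |kap K y| := by
    have a1 : ‖A‖ ≤ ‖B‖ + ‖A - B‖ := by
      have := norm_add_le B (A - B)
      rwa [add_sub_cancel] at this
    have a2 : |kap K y| ≤ |Real.sinc y| + |kap K y - Real.sinc y| := by
      have := abs_add_le (Real.sinc y) (kap K y - Real.sinc y)
      rwa [add_sub_cancel] at this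
    calc ‖A‖ * |kap K y| ≤ (‖B‖ + ‖A - B‖) * |kap K y| :=
          mul_le_mul_of_nonneg_right a1 (abs_nonneg _)
      _ = ‖B‖ * |kap K y| + ‖A - B‖ * |kap K y| := by ring
      _ ≤ ‖B‖ * (|Real.sinc y| + |kap K y - Real.sinc y|) + ‖A - B‖ * |kap K y| := by
          have := mul_le_mul_of_nonneg_left a2 (norm_nonneg B)
          linarith
      _ = _ := by ring
  have hsq : (‖A‖ * |kap K y|) ^ 2 ≤ 3 * ((‖B‖ * |Real.sinc y|) ^ 2 +
      (‖B‖ * |kap K y - Real.sinc y|) ^ 2 + (‖A - B‖ * |kap K y|) ^ 2) := by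
    have h0 : 0 ≤ ‖A‖ * |kap K y| := by positivity
    have hb := pow_le_pow_left₀ h0 htri 2
    refine hb.trans ?_
    generalize ‖B‖ * |Real.sinc y| = u
    generalize ‖B‖ * |kap K y - Real.sinc y| = v
    generalize ‖A - B‖ * |kap K y| = w
    nlinarith [sq_nonneg (u - v), sq_nonneg (u - w), sq_nonneg (v - w)]
  have hFF : FF0 K x η z = (‖A‖ * |kap K y|) ^ 2 := by
    unfold FF0
    rw [mul_pow, sq_abs]
  rw [hFF]
  refine hsq.trans ?_
  have t1 : (‖B‖ * |Real.sinc y|) ^ 2 = Real.exp z.re * Real.sinc y ^ 2 := by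
    rw [mul_pow, sq_abs, hBn]
  have hz0 := norm_nonneg z
  have t2 : (‖B‖ * |kap K y - Real.sinc y|) ^ 2 ≤ Real.exp (-320 * l) * Real.exp (5 * ‖z‖) := by
    rw [mul_pow, hBn]
    have b1 : Real.exp z.re ≤ Real.exp ‖z‖ :=
      Real.exp_le_exp.2 ((le_abs_self _).trans (Complex.abs_re_le_norm z))
    have b2 : |kap K y - Real.sinc y| ^ 2 ≤ (Real.exp (-(4 * K)) * Real.exp (8 * |y|)) ^ 2 :=
      pow_le_pow_left₀ (abs_nonneg _) s1 2
    calc Real.exp z.re * |kap K y - Real.sinc y| ^ 2 ≤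
        Real.exp ‖z‖ * (Real.exp (-(4 * K)) * Real.exp (8 * |y|)) ^ 2 :=
          mul_le_mul b1 b2 (by positivity) (Real.exp_pos _).le
      _ = Real.exp (‖z‖ + 2 * (-(4 * K) + 8 * |y|)) := by
          rw [← Real.exp_add, ← Real.exp_nat_mul, ← Real.exp_add]
          push_cast; rfl
      _ ≤ Real.exp (-320 * l + 5 * ‖z‖) := by
          apply Real.exp_le_exp.2
          linarith
      _ = _ := Real.exp_add _ _
  have t3 : (‖A - B‖ * |kap K y|) ^ 2 ≤ Real.exp (-190 * l) * Real.exp (17 / 2 * ‖z‖) := by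
    have b1 : ‖A - B‖ * |kap K y| ≤ (Real.exp (-(2 * (K : ℝ))) * Real.exp (4 * ‖z‖)) *
        Real.exp |y| := mul_le_mul hAB s2 (abs_nonneg _) (by positivity)
    have b2 := pow_le_pow_left₀ (by positivity) b1 2
    calc (‖A - B‖ * |kap K y|) ^ 2 ≤
        ((Real.exp (-(2 * (K : ℝ))) * Real.exp (4 * ‖z‖)) * Real.exp |y|) ^ 2 := b2
      _ = Real.exp (2 * (-(2 * (K : ℝ)) + 4 * ‖z‖ + |y|)) := by
          rw [← Real.exp_add, ← Real.exp_add, ← Real.exp_nat_mul]
          push_cast; rfl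
      _ ≤ Real.exp (-190 * l + 17 / 2 * ‖z‖) := by
          apply Real.exp_le_exp.2
          linarith
      _ = _ := Real.exp_add _ _
  rw [t1]
  linarith

theorem p_MOD (hSPH : Stmt_SPH) (hEXM : Stmt_EXM) (hSNC : Stmt_SNC) : Stmt_MOD := by
  intro P hP K l x η hl hK hV0 hVl hx hη
  have := MOD_fin P
  have hP' : ∀ p ∈ P, p.Prime := fun p hp => (hP p hp).1
  have hη0 : 0 < η := by linarith
  have i1 : Integrable (fun θ => Real.exp (TP P θ).re *
      Real.sinc (((TP P θ).re - x) / η) ^ 2) (tor P) := by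
    refine MOD_int P (φ := fun z => Real.exp z.re * Real.sinc ((z.re - x) / η) ^ 2) ?_
      (c := 1) ?_ (by norm_num)
    · have := Real.continuous_sinc
      have h2 : Continuous fun z : ℂ => Real.sinc ((z.re - x) / η) :=
        this.comp ((Complex.continuous_re.sub continuous_const).div_const _)
      exact (Real.continuous_exp.comp Complex.continuous_re).mul (h2.pow 2)
    · intro z
      rw [abs_mul, abs_of_pos (Real.exp_pos _), one_mul, abs_of_nonneg (sq_nonneg _)]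
      have h1 : Real.sinc ((z.re - x) / η) ^ 2 ≤ 1 := by
        rw [← sq_abs]
        exact pow_le_one₀ (abs_nonneg _) (Real.abs_sinc_le_one _)
      have h2 : Real.exp z.re ≤ Real.exp ‖z‖ :=
        Real.exp_le_exp.2 ((le_abs_self _).trans (Complex.abs_re_le_norm z))
      calc Real.exp z.re * Real.sinc ((z.re - x) / η) ^ 2 ≤ Real.exp z.re * 1 :=
            mul_le_mul_of_nonneg_left h1 (Real.exp_pos _).le
        _ ≤ Real.exp ‖z‖ := by rw [mul_one]; exact h2
  have ie : ∀ c : ℝ, 0 ≤ c → Integrable (fun θ => Real.exp (c * ‖TP P θ‖)) (tor P) := by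
    intro c hc
    refine MOD_int P (φ := fun z => Real.exp (c * ‖z‖)) (by fun_prop) (c := c) ?_ hc
    intro z
    rw [abs_of_pos (Real.exp_pos _)]
  have hFF : Integrable (fun θ => 3 * (Real.exp (TP P θ).re *
      Real.sinc (((TP P θ).re - x) / η) ^ 2 +
      Real.exp (-320 * l) * Real.exp (5 * ‖TP P θ‖) +
        Real.exp (-190 * l) * Real.exp (17 / 2 * ‖TP P θ‖))) (tor P) :=
    ((i1.add ((ie 5 (by norm_num)).const_mul _)).add
      ((ie (17 / 2) (by norm_num)).const_mul _)).const_mul 3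
  have hmono : ∫ θ, FF0 K x η (TP P θ) ∂(tor P) ≤ ∫ θ, 3 * (Real.exp (TP P θ).re *
      Real.sinc (((TP P θ).re - x) / η) ^ 2 +
      Real.exp (-320 * l) * Real.exp (5 * ‖TP P θ‖) +
        Real.exp (-190 * l) * Real.exp (17 / 2 * ‖TP P θ‖)) ∂(tor P) := by
    refine integral_mono_of_nonneg (Filter.Eventually.of_forall fun θ => ?_) hFF
      (Filter.Eventually.of_forall fun θ => ?_)
    · show 0 ≤ FF0 K x η (TP P θ)
      unfold FF0
      positivity
    · exact MOD_pt hSNC K l x η hl hK hx hη (TP P θ)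
  refine hmono.trans ?_
  have j2 : Integrable (fun θ => Real.exp (-320 * l) * Real.exp (5 * ‖TP P θ‖)) (tor P) :=
    (ie 5 (by norm_num)).const_mul _
  have j3 : Integrable (fun θ => Real.exp (-190 * l) * Real.exp (17 / 2 * ‖TP P θ‖)) (tor P) :=
    (ie (17 / 2) (by norm_num)).const_mul _
  have j12 : Integrable (fun θ => Real.exp (TP P θ).re *
      Real.sinc (((TP P θ).re - x) / η) ^ 2 +
      Real.exp (-320 * l) * Real.exp (5 * ‖TP P θ‖)) (tor P) := i1.add j2
  rw [integral_const_mul, integral_add j12 j3, integral_add i1 j2, integral_const_mul,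
    integral_const_mul]
  have e1 := hSPH P hP hV0 x η (by linarith)
  have e2 := hEXM P hP' 5 (by norm_num)
  have e3 := hEXM P hP' (17 / 2) (by norm_num)
  have f2 : Real.exp (-320 * l) * ∫ θ, Real.exp (5 * ‖TP P θ‖) ∂(tor P) ≤
      2 * Real.exp (-45 * l) := by
    calc Real.exp (-320 * l) * ∫ θ, Real.exp (5 * ‖TP P θ‖) ∂(tor P) ≤
        Real.exp (-320 * l) * (2 * Real.exp (2 * 5 ^ 2 * VV P)) :=
          mul_le_mul_of_nonneg_left e2 (Real.exp_pos _).le
      _ = 2 * Real.exp (-320 * l + 2 * 5 ^ 2 * VV P) := by rw [Real.exp_add]; ring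
      _ ≤ 2 * Real.exp (-45 * l) := by
          refine mul_le_mul_of_nonneg_left (Real.exp_le_exp.2 ?_) (by norm_num)
          nlinarith
  have f3 : Real.exp (-190 * l) * ∫ θ, Real.exp (17 / 2 * ‖TP P θ‖) ∂(tor P) ≤
      2 * Real.exp (-45 * l) := by
    calc Real.exp (-190 * l) * ∫ θ, Real.exp (17 / 2 * ‖TP P θ‖) ∂(tor P) ≤
        Real.exp (-190 * l) * (2 * Real.exp (2 * (17 / 2) ^ 2 * VV P)) :=
          mul_le_mul_of_nonneg_left e3 (Real.exp_pos _).le
      _ = 2 * Real.exp (-190 * l + 2 * (17 / 2) ^ 2 * VV P) := by rw [Real.exp_add]; ring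
      _ ≤ 2 * Real.exp (-45 * l) := by
          refine mul_le_mul_of_nonneg_left (Real.exp_le_exp.2 ?_) (by norm_num)
          nlinarith
  have f4 : 12 * Real.exp (-45 * l) ≤ Real.exp (-l) := by
    have : Real.exp (-45 * l) = Real.exp (-44 * l) * Real.exp (-l) := by
      rw [← Real.exp_add]; congr 1; ring
    rw [this, ← mul_assoc]
    refine mul_le_of_le_one_left (Real.exp_pos _).le ?_
    have h1 : Real.exp (-44 * l) ≤ Real.exp (-44) := Real.exp_le_exp.2 (by linarith)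
    have h2 : 45 ≤ Real.exp 44 := by
      have := Real.add_one_le_exp (44 : ℝ)
      linarith
    have h3 : Real.exp (-44) ≤ 1 / 45 := by
      rw [Real.exp_neg, ← one_div]
      exact one_div_le_one_div_of_le (by norm_num) h2
    linarith
  nlinarith [e1, f2, f3, f4]

end

end HZS
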