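import Pool.Agent.Work.MP_c51bc2_nt_lb.Interface
import Pool.Agent.Work.MP_c51bc2_nt.B_MAIN
import Pool.Agent.Work.MP_c51bc2_nt.B_MO

open Finset Complex MeasureTheory

namespace HZS

/-! ### the coefficients -/

theorem NBN_cf_le (n : ℕ) : cf (1 / 2) n ≤ 1 := by
  unfold cf
  apply prod_le_one (fun p _ => by positivity) fun p _ => ?_
  have h1 : (1 : ℝ) ≤ ((n.factorization p).factorial : ℝ) := by
    exact_mod_cast Nat.factorial_pos _
  rw [div_le_one (by positivity)]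
  exact (pow_le_one₀ (by norm_num) (by norm_num)).trans h1

theorem NBN_cN_le (X lam : ℕ → ℝ) (S : Finset ℕ) (y : ℕ) : ‖cN X lam S y‖ ≤ 1 := by
  unfold cN
  split_ifs
  · rw [Complex.norm_real, Real.norm_of_nonneg (MO_cf_nonneg _ (by norm_num) _)]
    exact NBN_cf_le y
  · simp

theorem NBN_sumE (X lam : ℕ → ℝ) (S : Finset ℕ) (Y : ℕ) (E : Finset ℕ) (hE : E ⊆ Icc 1 Y) :
    (∑ y ∈ E, ‖cN X lam S y‖ / Real.sqrt y) ^ 2 ≤ (Y : ℝ) ^ 2 := by
  have h0 : 0 ≤ ∑ y ∈ E, ‖cN X lam S y‖ / Real.sqrt y := sum_nonneg fun _ _ => by positivity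
  have h1 : ∑ y ∈ E, ‖cN X lam S y‖ / Real.sqrt y ≤ ∑ y ∈ E, (1 : ℝ) := by
    refine sum_le_sum fun y hy => ?_
    have hy1 : 1 ≤ y := (mem_Icc.1 (hE hy)).1
    have hy2 : (1 : ℝ) ≤ Real.sqrt y := by
      rw [Real.one_le_sqrt]
      exact_mod_cast hy1
    rw [div_le_one (by linarith)]
    exact (NBN_cN_le X lam S y).trans hy2
  have h2 : ∑ y ∈ E, (1 : ℝ) ≤ Y := by
    rw [sum_const, nsmul_eq_mul, mul_one]
    have h3 := card_le_card hE
    rw [Nat.card_Icc, Nat.add_sub_cancel] at h3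
    exact_mod_cast h3
  exact pow_le_pow_left₀ h0 (h1.trans h2) 2

theorem NBN_SE_le {P : Finset ℕ} {N m a : ℕ} (hN : ∀ p ∈ P, p ≤ N) (h : a ∈ SE P m) :
    a ≤ N ^ m := by
  obtain ⟨h0, h1, h2⟩ := MO_SE_mem h
  calc a = ∏ p ∈ P, p ^ a.factorization p := (MO_self P a h0 h1).symm
    _ ≤ ∏ p ∈ P, N ^ a.factorization p :=
        prod_le_prod' fun p hp => Nat.pow_le_pow_left (hN p hp) _
    _ = N ^ m := by rw [prod_pow_eq_pow_sum, h2]

/-- The set of the integers with a coefficient. -/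
theorem NBN_NN (hCO : Stmt_CO) {L : ℝ} {R : ℕ} {X lam : ℕ → ℝ} (hc : IsChain L R X lam) {Y : ℕ}
    (hY : Y = ⌈Real.exp (∑ i ∈ range R, (KK lam i : ℝ) * Real.log (X (i + 1)))⌉₊)
    [DecidablePred fun y => cN X lam (Ico 1 R) y ≠ 0] (t : ℝ) :
    NN X lam (Ico 1 R) t = ∑ y ∈ (Icc 1 Y).filter (fun y => cN X lam (Ico 1 R) y ≠ 0),
      cN X lam (Ico 1 R) y * mo y t := by
  have hsub : Ico 1 R ⊆ range R := fun i hi => mem_range.2 (mem_Ico.1 hi).2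
  have h1 : Real.exp (∑ i ∈ Ico 1 R, (KK lam i : ℝ) * Real.log (X (i + 1))) ≤ Y := by
    rw [hY]
    refine le_trans (Real.exp_le_exp.2 ?_) (Nat.le_ceil _)
    refine sum_le_sum_of_subset_of_nonneg hsub fun i hi _ => ?_
    have := MAINx.x_ge hc (i + 1) (by have := mem_range.1 hi; omega)
    exact mul_nonneg (Nat.cast_nonneg _) (Real.log_nonneg (by linarith))
  rw [(hCO L R X lam hc (Ico 1 R) hsub Y h1).2.1 t]
  unfold D
  symm
  refine sum_filter_of_ne fun y _ hy h0 => hy ?_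
  rw [h0, zero_mul]

theorem NBN_prime {L : ℝ} {R : ℕ} {X lam : ℕ → ℝ} (hc : IsChain L R X lam) (hR : 1 ≤ R) :
    ∀ p ∈ PB X 0, p.Prime ∧ 100 < p ∧ p ≤ ⌊X 1⌋₊ := by
  intro p hp
  have hX1 : (0 : ℝ) ≤ X (0 + 1) := by linarith [MAINx.x_ge hc (0 + 1) (by omega)]
  have h1 := MO_PB hp hX1
  refine ⟨h1.1, ?_, ?_⟩
  · have h2 := h1.2.1
    rw [hc.x0] at h2
    exact_mod_cast h2
  · exact Nat.le_floor h1.2.2

theorem NBN_coprime {L : ℝ} {R : ℕ} {X lam : ℕ → ℝ} (hc : IsChain L R X lam) (hR : 1 ≤ R)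
    {y : ℕ} (hy : cN X lam (Ico 1 R) y ≠ 0) : y ≠ 0 ∧ ∀ p ∈ PB X 0, ¬ p ∣ y := by
  have hok : Okd X lam (Ico 1 R) y := by
    by_contra h
    apply hy
    unfold cN
    rw [if_neg h]
  refine ⟨hok.1, fun p hp hpy => ?_⟩
  have h1 := (NBN_prime hc hR p hp).1
  obtain ⟨i, hi, hpi⟩ := hok.2.1 p (Nat.mem_primeFactors.2 ⟨h1, hpy, hok.1⟩)
  rw [mem_Ico] at hi
  have := MO_disj hc (show 0 < R by omega) hi.2 hp hpi
  omega

/-! ### continuity and the majorant -/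

theorem NBN_cont_kap (K : ℕ) : Continuous (kap K) := by
  unfold kap
  fun_prop

theorem NBN_cont_FF0 (K : ℕ) (x η : ℝ) : Continuous (FF0 K x η) := by
  unfold FF0
  exact (((MAINx.cont_EP K).comp (continuous_id.div_const 2)).norm.pow 2).mul
    (((NBN_cont_kap K).comp ((Complex.continuous_re.sub continuous_const).div_const η)).pow 2)

theorem NBN_point (hSNC : Stmt_SNC) {lam X : ℕ → ℝ} {R : ℕ} (hR : 1 ≤ R) (hK : 50 ≤ KK lam 0)
    {x η : ℝ} (hη : 0 < η) (t : ℝ) :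
    (if |(PP X 0 t).re - x| ≤ η then (1 : ℝ) else 0) * ‖NN X lam (range R) t‖ ^ 2 ≤
      2 * (FF0 (KK lam 0) x η (PP X 0 t) * ‖NN X lam (Ico 1 R) t‖ ^ 2) := by
  have h1 : NN X lam (range R) t = EP (KK lam 0) (PP X 0 t / 2) * NN X lam (Ico 1 R) t := by
    unfold NN
    rw [range_eq_Ico, prod_eq_prod_Ico_succ_bot (by omega)]
  split_ifs with h
  · have h2 : |((PP X 0 t).re - x) / η| ≤ 1 := by
      rw [abs_div, abs_of_pos hη, div_le_one hη]
      exact h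
    have h3 := hSNC.2 (KK lam 0) (((PP X 0 t).re - x) / η) hK h2
    rw [h1, norm_mul, one_mul, mul_pow, FF0]
    have h4 : 0 ≤ ‖EP (KK lam 0) (PP X 0 t / 2)‖ ^ 2 * ‖NN X lam (Ico 1 R) t‖ ^ 2 := by
      positivity
    nlinarith [mul_le_mul_of_nonneg_left h3 h4]
  · rw [zero_mul, FF0]
    positivity

/-! ### transfer -/

theorem NBN_trn (hTRN : Stmt_TRN) (hPOL : Stmt_POL) (hCO : Stmt_CO) {T H L x η : ℝ} {R Y : ℕ}
    {X lam : ℕ → ℝ} (hH : 0 < H) (hc : IsChain L R X lam) (hR : 1 ≤ R) (hη : 0 < η)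
    (hY : Y = ⌈Real.exp (∑ i ∈ range R, (KK lam i : ℝ) * Real.log (X (i + 1)))⌉₊) :
    ∫ t in T..(T + H), FF0 (KK lam 0) x η (PP X 0 t) * ‖NN X lam (Ico 1 R) t‖ ^ 2 ≤
      H * (∫ θ, FF0 (KK lam 0) x η (TP (PB X 0) θ) ∂(tor (PB X 0))) *
        (∑ y ∈ Icc 1 Y, ‖cN X lam (Ico 1 R) y‖ ^ 2 / (y : ℝ)) +
      Real.exp (1 + 2 * (1 + |x|) / η) * (2 * ((Y * ⌊X 1⌋₊ ^ (5 * KK lam 0) : ℕ) : ℝ) *
        (1 + ∑ p ∈ PB X 0, (Real.sqrt p)⁻¹) ^ (2 * (5 * KK lam 0)) * (Y : ℝ) ^ 2) := by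
  classical
  set E : Finset ℕ := (Icc 1 Y).filter (fun y => cN X lam (Ico 1 R) y ≠ 0) with hE
  have hES : E ⊆ Icc 1 Y := filter_subset _ _
  have hX1 : 1 ≤ ⌊X 1⌋₊ := by
    have := MAINx.x_ge hc 1 hR
    exact Nat.le_floor (by push_cast; linarith)
  have h1 := hTRN (PB X 0) E (cN X lam (Ico 1 R)) T H (Real.exp (1 + 2 * (1 + |x|) / η))
    (Y * ⌊X 1⌋₊ ^ (5 * KK lam 0)) (5 * KK lam 0) (fun z => ((FF0 (KK lam 0) x η z : ℝ) : ℂ))
    (fun p hp => (NBN_prime hc hR p hp).1) hH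
    (fun y hy => NBN_coprime hc hR (mem_filter.1 hy).2)
    (fun m hm a ha y hy => by
      have h2 := NBN_SE_le (fun p hp => (NBN_prime hc hR p hp).2.2) ha
      have h3 : ⌊X 1⌋₊ ^ m ≤ ⌊X 1⌋₊ ^ (5 * KK lam 0) := Nat.pow_le_pow_right hX1 hm
      have h4 : y ≤ Y := (mem_Icc.1 (hES hy)).2
      calc a * y ≤ ⌊X 1⌋₊ ^ (5 * KK lam 0) * Y := Nat.mul_le_mul (h2.trans h3) h4
        _ = Y * ⌊X 1⌋₊ ^ (5 * KK lam 0) := Nat.mul_comm _ _)
    (hPOL (KK lam 0) x η hη)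
  have e1 : (∫ t in T..(T + H), ((FF0 (KK lam 0) x η (∑ p ∈ PB X 0, mo p t) : ℝ) : ℂ) *
      ((‖∑ y ∈ E, cN X lam (Ico 1 R) y * mo y t‖ ^ 2 : ℝ) : ℂ)) =
      ((∫ t in T..(T + H), FF0 (KK lam 0) x η (PP X 0 t) *
        ‖NN X lam (Ico 1 R) t‖ ^ 2 : ℝ) : ℂ) := by
    rw [← intervalIntegral.integral_ofReal]
    refine intervalIntegral.integral_congr fun t _ => ?_
    rw [NBN_NN hCO hc hY t, ofReal_mul, PP]
  have e2 : (∫ θ, ((FF0 (KK lam 0) x η (TP (PB X 0) θ) : ℝ) : ℂ) ∂(tor (PB X 0))) =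
      ((∫ θ, FF0 (KK lam 0) x η (TP (PB X 0) θ) ∂(tor (PB X 0)) : ℝ) : ℂ) := integral_ofReal
  have e3 : ∑ y ∈ E, ‖cN X lam (Ico 1 R) y‖ ^ 2 / (y : ℝ) =
      ∑ y ∈ Icc 1 Y, ‖cN X lam (Ico 1 R) y‖ ^ 2 / (y : ℝ) := by
    refine sum_filter_of_ne fun y _ hy h0 => hy ?_
    rw [h0]
    simp
  beta_reduce at h1
  rw [e1, e2, e3] at h1
  rw [← ofReal_mul, ← ofReal_mul, ← ofReal_sub, Complex.norm_real, Real.norm_eq_abs] at h1
  have h2 := (abs_le.1 h1).2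
  have h3 := NBN_sumE X lam (Ico 1 R) Y E hES
  have h4 : 0 ≤ 2 * ((Y * ⌊X 1⌋₊ ^ (5 * KK lam 0) : ℕ) : ℝ) *
      (1 + ∑ p ∈ PB X 0, (Real.sqrt p)⁻¹) ^ (2 * (5 * KK lam 0)) := by
    have : 0 ≤ ∑ p ∈ PB X 0, (Real.sqrt (p : ℝ))⁻¹ := sum_nonneg fun _ _ => by positivity
    positivity
  have h5 := mul_le_mul_of_nonneg_left (mul_le_mul_of_nonneg_left h3 h4)
    (Real.exp_pos (1 + 2 * (1 + |x|) / η)).le
  linarith

/-! ### the numerical bound -/

theorem NBN_num {l η a C1 V V' M S L : ℝ} (hl : 1 ≤ l) (hη : 4 ≤ η) (ha : 1 ≤ a)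
    (hV : l / 2 ≤ V) (hM : M ≤ 12 * Real.exp (V / 4) * (η / Real.sqrt V) + Real.exp (-l))
    (hS0 : 0 ≤ S) (hS : S ≤ Real.exp (1 / 4 * V')) (hC : Real.exp (1 / 4 * (V + V')) ≤ C1 * a)
    (hL : L = Real.exp l) :
    M * S ≤ 25 * C1 * a * (η / Real.sqrt l) ∧ 1 / L ≤ a * (η / Real.sqrt l) := by
  have hV0 : 0 < V := by linarith
  have hl0 : 0 < Real.sqrt l := Real.sqrt_pos.2 (by linarith)
  have hb0 : 0 < η / Real.sqrt l := div_pos (by linarith) hl0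
  have hsl : Real.sqrt l ≤ Real.exp l := by
    have h1 : Real.sqrt l ≤ l := by
      rw [Real.sqrt_le_left (by linarith)]
      nlinarith
    linarith [Real.add_one_le_exp l]
  have hexp : Real.exp (-l) ≤ η / Real.sqrt l := by
    rw [Real.exp_neg, inv_eq_one_div]
    exact div_le_div₀ (by linarith) (by linarith) hl0 hsl
  have hsV : Real.sqrt l / 2 ≤ Real.sqrt V := by
    refine Real.le_sqrt_of_sq_le ?_
    rw [div_pow, Real.sq_sqrt (by linarith)]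
    linarith
  have h1 : η / Real.sqrt V ≤ 2 * (η / Real.sqrt l) := by
    have h2 : η / Real.sqrt V ≤ η / (Real.sqrt l / 2) :=
      div_le_div_of_nonneg_left (by linarith) (by linarith) hsV
    have h3 : η / (Real.sqrt l / 2) = 2 * (η / Real.sqrt l) := by
      field_simp
    linarith
  have hca : 0 ≤ C1 * a := (Real.exp_pos _).le.trans hC
  constructor
  · have h2 : M * S ≤ (12 * Real.exp (V / 4) * (η / Real.sqrt V) + Real.exp (-l)) *
        Real.exp (1 / 4 * V') := mul_le_mul hM hS hS0 (by positivity)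
    have h3 : Real.exp (V / 4) * Real.exp (1 / 4 * V') ≤ C1 * a := by
      rw [← Real.exp_add]
      have : V / 4 + 1 / 4 * V' = 1 / 4 * (V + V') := by ring
      rw [this]
      exact hC
    have h4 : Real.exp (1 / 4 * V') ≤ C1 * a :=
      (Real.exp_le_exp.2 (by linarith)).trans hC
    have h5 : 12 * (Real.exp (V / 4) * Real.exp (1 / 4 * V')) * (η / Real.sqrt V) ≤
        12 * (C1 * a) * (2 * (η / Real.sqrt l)) :=
      mul_le_mul (by linarith) h1 (by positivity) (by linarith)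
    have h6 : Real.exp (-l) * Real.exp (1 / 4 * V') ≤ (η / Real.sqrt l) * (C1 * a) :=
      mul_le_mul hexp h4 (Real.exp_pos _).le hb0.le
    calc M * S ≤ 12 * (Real.exp (V / 4) * Real.exp (1 / 4 * V')) * (η / Real.sqrt V) +
          Real.exp (-l) * Real.exp (1 / 4 * V') := by
            refine h2.trans (le_of_eq ?_)
            ring
      _ ≤ 12 * (C1 * a) * (2 * (η / Real.sqrt l)) + (η / Real.sqrt l) * (C1 * a) :=
          add_le_add h5 h6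
      _ = 25 * C1 * a * (η / Real.sqrt l) := by ring
  · rw [hL, one_div, ← Real.exp_neg]
    exact hexp.trans (le_mul_of_one_le_left hb0.le ha)

theorem p_NBN (hTRN : Stmt_TRN) (hPOL : Stmt_POL) (hSNC : Stmt_SNC) (hMOD : Stmt_MOD)
    (hSEB : Stmt_SEB) (hVLB : Stmt_VLB) (hERB : Stmt_ERB) (hCO : Stmt_CO) : Stmt_NBN := by
  intro δ hδ hδ'
  obtain ⟨C1, hC1, hV1⟩ := hVLB.1
  obtain ⟨T1, hT1, hV2⟩ := hVLB.2 δ
  obtain ⟨T2, _, hE⟩ := hERB δ hδ hδ'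
  refine ⟨50 * C1 + 2, max T1 (max T2 (Real.exp (Real.exp 1))), by positivity,
    lt_of_lt_of_le hT1 (le_max_left _ _), ?_⟩
  intro T H W x η R X lam hT hA hLB hx hη
  have hTT1 : T1 ≤ T := (le_max_left _ _).trans hT
  have hTT2 : T2 ≤ T := (le_max_left _ _).trans ((le_max_right _ _).trans hT)
  have hTe : Real.exp (Real.exp 1) ≤ T := (le_max_right _ _).trans ((le_max_right _ _).trans hT)
  have hT0 : 0 < T := (Real.exp_pos _).trans_le hTe
  have hL : Real.exp 1 ≤ Real.log T := (Real.le_log_iff_exp_le hT0).2 hTe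
  have hL0 : 0 < Real.log T := (Real.exp_pos _).trans_le hL
  have hl : 1 ≤ ell T := (Real.le_log_iff_exp_le hL0).2 hL
  have hLl : Real.log T = Real.exp (ell T) := (Real.exp_log hL0).symm
  have hH : 0 < H := lt_of_lt_of_le (Real.rpow_pos_of_pos hT0 _) hA.1
  have hc := hLB.lc.chain
  have hR : 1 ≤ R := by linarith [hLB.R2]
  have hη0 : 0 < η := by linarith
  have hK : 50 * ell T ≤ (KK lam 0 : ℝ) := by
    rw [← hLB.lam0]
    exact Nat.le_ceil _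
  have hK50 : 50 ≤ KK lam 0 := by
    have : (50 : ℝ) ≤ (KK lam 0 : ℝ) := by linarith
    exact_mod_cast this
  have hW : 0 < W := by linarith [hLB.lc.w8]
  have hLW : 1 ≤ Real.log T / W := (one_le_div hW).2 (by linarith [hLB.lc.wL])
  obtain ⟨hVl, hVu, _⟩ := hV2 T W R X lam hTT1 hLB
  have hV0 : 0 < VV (PB X 0) := by linarith
  -- the constants
  obtain ⟨Y, hY⟩ : ∃ Y : ℕ,
      Y = ⌈Real.exp (∑ i ∈ range R, (KK lam i : ℝ) * Real.log (X (i + 1)))⌉₊ := ⟨_, rfl⟩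
  have hM := hMOD (PB X 0) (fun p hp => ⟨(NBN_prime hc hR p hp).1, (NBN_prime hc hR p hp).2.1⟩)
    (KK lam 0) (ell T) x η hl hK hV0 hVu hx hη
  have hS := hSEB (Real.log T) R X lam hc hR Y
  have hS0 : 0 ≤ ∑ y ∈ Icc 1 Y, ‖cN X lam (Ico 1 R) y‖ ^ 2 / (y : ℝ) :=
    sum_nonneg fun _ _ => by positivity
  have hVV : VV (PB X 0) + VV (PU X R \ PB X 0) = VV (PU X R) := by
    unfold VV
    rw [add_comm]
    refine sum_sdiff ?_
    unfold PU
    exact subset_biUnion_of_mem (PB X) (mem_range.2 (by omega))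
  have hC : Real.exp (1 / 4 * (VV (PB X 0) + VV (PU X R \ PB X 0))) ≤
      C1 * (Real.log T / W) ^ (1 / 4 : ℝ) := by
    rw [hVV]
    have h1 := hV1 (Real.log T) R X lam hc
    rwa [hLB.lc.xR, Real.log_exp] at h1
  have ha : 1 ≤ (Real.log T / W) ^ (1 / 4 : ℝ) := Real.one_le_rpow hLW (by norm_num)
  obtain ⟨hn1, hn2⟩ := NBN_num hl hη ha hVl hM hS0 hS hC hLl
  have herr := hE T H W x η R Y X lam hTT2 hA hLB hx hη hY
  have htrn := NBN_trn (T := T) (x := x) hTRN hPOL hCO hH hc hR hη0 hY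
  -- the comparison of the integrals
  have hcont : Continuous (fun t : ℝ =>
      2 * (FF0 (KK lam 0) x η (PP X 0 t) * ‖NN X lam (Ico 1 R) t‖ ^ 2)) :=
    continuous_const.mul (((NBN_cont_FF0 _ _ _).comp (MAINx.cont_PP X 0)).mul
      ((MAINx.cont_NN X lam (Ico 1 R)).norm.pow 2))
  have hle : ∫ t in T..(T + H), (if |(PP X 0 t).re - x| ≤ η then 1 else 0) *
      ‖NN X lam (range R) t‖ ^ 2 ≤
      ∫ t in T..(T + H), 2 * (FF0 (KK lam 0) x η (PP X 0 t) * ‖NN X lam (Ico 1 R) t‖ ^ 2) := by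
    rw [intervalIntegral.integral_of_le (by linarith), intervalIntegral.integral_of_le
      (by linarith)]
    refine integral_mono_of_nonneg (Filter.Eventually.of_forall fun t => ?_) ?_
      (Filter.Eventually.of_forall fun t => NBN_point hSNC hR hK50 hη0 t)
    · show 0 ≤ (if |(PP X 0 t).re - x| ≤ η then (1 : ℝ) else 0) * ‖NN X lam (range R) t‖ ^ 2
      split_ifs <;> positivity
    · exact (hcont.intervalIntegrable T (T + H)).1
  rw [intervalIntegral.integral_const_mul] at hle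
  have h1 : H * (∫ θ, FF0 (KK lam 0) x η (TP (PB X 0) θ) ∂(tor (PB X 0))) *
      (∑ y ∈ Icc 1 Y, ‖cN X lam (Ico 1 R) y‖ ^ 2 / (y : ℝ)) ≤
      H * (25 * C1 * (Real.log T / W) ^ (1 / 4 : ℝ) * (η / Real.sqrt (ell T))) := by
    rw [mul_assoc]
    exact mul_le_mul_of_nonneg_left hn1 hH.le
  have h2 : H / Real.log T ≤
      H * ((Real.log T / W) ^ (1 / 4 : ℝ) * (η / Real.sqrt (ell T))) := by
    rw [div_eq_mul_one_div]
    exact mul_le_mul_of_nonneg_left hn2 hH.le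
  have h3 : (50 * C1 + 2) * H * (Real.log T / W) ^ (1 / 4 : ℝ) * (η / Real.sqrt (ell T)) =
      2 * (H * (25 * C1 * (Real.log T / W) ^ (1 / 4 : ℝ) * (η / Real.sqrt (ell T))) +
        H * ((Real.log T / W) ^ (1 / 4 : ℝ) * (η / Real.sqrt (ell T)))) := by ring
  rw [h3]
  refine hle.trans ?_
  linarith

end HZS
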