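import Pool.Agent.Work.MP_c51bc2_nt_lb.Interface
import Pool.Agent.Work.MP_c51bc2_nt.B_MAIN

/-!
# Block NBZ (typed by helper21): the mass of `|Z|` on a narrow band of `log |Z|`
-/

open Finset Complex MeasureTheory

namespace HZS

noncomputable section

/-- the pointwise decomposition -/
theorem NBZ_pt (z lz P p0 G1 x η g : ℝ) (hz : 0 ≤ z) (hη : 0 < η) (hg : g = 0 ∨ g = 1)
    (hG : |P - p0| ≤ G1) :
    (if |lz - x| ≤ η then (1 : ℝ) else 0) * z ≤ (1 - g) * z + (1 / η) * (g * (z * |lz - P|)) +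
      g * ((if |p0 - x| ≤ 3 * η then (1 : ℝ) else 0) * z) + (1 / η) * (g * (G1 * z)) := by
  have hG1 : 0 ≤ G1 := (abs_nonneg _).trans hG
  have hη' : 0 ≤ 1 / η := by positivity
  rcases hg with rfl | rfl
  · have h1 : (1 - 0) * z + (1 / η) * (0 * (z * |lz - P|)) +
      0 * ((if |p0 - x| ≤ 3 * η then (1 : ℝ) else 0) * z) + (1 / η) * (0 * (G1 * z)) = z := by ring
    rw [h1]
    split_ifs
    · rw [one_mul]
    · rw [zero_mul]
      exact hz
  · have ha : 0 ≤ (1 / η) * (1 * (z * |lz - P|)) := by positivity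
    have hb : 0 ≤ (1 / η) * (1 * (G1 * z)) := by positivity
    have hc : 0 ≤ (1 : ℝ) * ((if |p0 - x| ≤ 3 * η then (1 : ℝ) else 0) * z) := by
      split_ifs
      · rw [one_mul, one_mul]
        exact hz
      · rw [zero_mul, mul_zero]
    by_cases h0 : |lz - x| ≤ η
    · rw [if_pos h0]
      by_cases h1 : |lz - P| ≤ η
      · by_cases h3 : |p0 - x| ≤ 3 * η
        · rw [if_pos h3]
          nlinarith
        · push Not at h3
          have h2 : |P - x| ≤ 2 * η := by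
            have h4 := abs_sub_le P lz x
            rw [abs_sub_comm P lz] at h4
            linarith
          have h5 : η ≤ G1 := by
            have h6 := abs_sub_le p0 P x
            rw [abs_sub_comm p0 P] at h6
            linarith
          have h7 : z ≤ (1 / η) * (1 * (G1 * z)) := by
            have h8 : (1 / η) * (1 * (G1 * z)) = (G1 / η) * z := by
              field_simp
            rw [h8]
            have h9 : 1 ≤ G1 / η := by
              rw [le_div_iff₀ hη]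
              linarith
            nlinarith
          linarith
      · push Not at h1
        have h7 : z ≤ (1 / η) * (1 * (z * |lz - P|)) := by
          have h8 : (1 / η) * (1 * (z * |lz - P|)) = (|lz - P| / η) * z := by
            field_simp
          rw [h8]
          have h9 : 1 ≤ |lz - P| / η := by
            rw [le_div_iff₀ hη]
            linarith
          nlinarith
        linarith
    · rw [if_neg h0, zero_mul]
      linarith

/-- the final inequality -/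
theorem NBZ_num (u Y I c C1 C2 C3 C4 C5 : ℝ) (hu : 1 ≤ u) (hY : 0 ≤ Y) (hI : 0 ≤ I) (hc : 0 < c)
    (hYI : c * Y ≤ I) (h1 : 0 < C1) (h2 : 0 < C2) (h3 : 0 < C3) (h4 : 0 < C4) (h5 : 0 < C5) :
    C1 * Y * (u ^ 6)⁻¹ + (1 / u ^ 12) * (8 * Real.log u * I + C2 * Y * (u ^ 2)⁻¹) +
      4 * Real.sqrt ((C3 * Y * u ^ 6) * (C4 * (Y / u ^ 2) * (3 * u ^ 12 / u ^ 30))) +
      (1 / u ^ 12) * (4 * Real.sqrt ((C3 * Y * u ^ 6) * (C5 * (Y / u ^ 2) *
        (60 * Real.log u) ^ 2))) ≤
    ((C1 + C2 + 4 * Real.sqrt (3 * C3 * C4) + 240 * Real.sqrt (C3 * C5)) / c + 8) *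
      ((u ^ 6)⁻¹ * I) := by
  have hu0 : 0 < u := by linarith
  have hl0 : 0 ≤ Real.log u := Real.log_nonneg hu
  have hl1 : Real.log u ≤ u := (Real.log_le_sub_one_of_pos hu0).trans (by linarith)
  obtain ⟨v, hv⟩ : ∃ v, v = u⁻¹ := ⟨_, rfl⟩
  have hv0 : 0 < v := by rw [hv]; positivity
  have hv1 : v ≤ 1 := by rw [hv]; exact inv_le_one_of_one_le₀ hu
  have huv : u * v = 1 := by rw [hv]; exact mul_inv_cancel₀ hu0.ne'
  have hvl : v * Real.log u ≤ 1 := by
    have : v * Real.log u ≤ v * u := mul_le_mul_of_nonneg_left hl1 hv0.le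
    rw [mul_comm v u, huv] at this
    exact this
  have e6 : (u ^ 6)⁻¹ = v ^ 6 := by rw [hv, inv_pow]
  have e2 : (u ^ 2)⁻¹ = v ^ 2 := by rw [hv, inv_pow]
  have e12 : 1 / u ^ 12 = v ^ 12 := by rw [hv, inv_pow, one_div]
  have s3 : Real.sqrt ((C3 * Y * u ^ 6) * (C4 * (Y / u ^ 2) * (3 * u ^ 12 / u ^ 30))) =
      Real.sqrt (3 * C3 * C4) * (Y * v ^ 7) := by
    have h6 : (C3 * Y * u ^ 6) * (C4 * (Y / u ^ 2) * (3 * u ^ 12 / u ^ 30)) =
        (3 * C3 * C4) * (Y * v ^ 7) ^ 2 := by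
      rw [hv]
      field_simp
    rw [h6, Real.sqrt_mul (by positivity), Real.sqrt_sq (by positivity)]
  have s4 : Real.sqrt ((C3 * Y * u ^ 6) * (C5 * (Y / u ^ 2) * (60 * Real.log u) ^ 2)) =
      Real.sqrt (C3 * C5) * (Y * u ^ 2 * (60 * Real.log u)) := by
    have h6 : (C3 * Y * u ^ 6) * (C5 * (Y / u ^ 2) * (60 * Real.log u) ^ 2) =
        (C3 * C5) * (Y * u ^ 2 * (60 * Real.log u)) ^ 2 := by
      field_simp
    rw [h6, Real.sqrt_mul (by positivity), Real.sqrt_sq (by positivity)]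
  rw [s3, s4, e6, e2, e12]
  obtain ⟨a, ha⟩ : ∃ a, a = Real.sqrt (3 * C3 * C4) := ⟨_, rfl⟩
  obtain ⟨b, hb⟩ : ∃ b, b = Real.sqrt (C3 * C5) := ⟨_, rfl⟩
  have ha0 : 0 ≤ a := by rw [ha]; exact Real.sqrt_nonneg _
  have hb0 : 0 ≤ b := by rw [hb]; exact Real.sqrt_nonneg _
  rw [← ha, ← hb]
  have p6 : ∀ n : ℕ, v ^ (6 + n) ≤ v ^ 6 := fun n =>
    pow_le_pow_of_le_one hv0.le hv1 (by omega)
  have t2 : v ^ 12 * (8 * Real.log u * I) ≤ 8 * (v ^ 6 * I) := by
    have h6 : v ^ 12 * (8 * Real.log u * I) = 8 * I * v ^ 11 * (v * Real.log u) := by ring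
    have h7 : 8 * I * v ^ 11 * (v * Real.log u) ≤ 8 * I * v ^ 11 * 1 :=
      mul_le_mul_of_nonneg_left hvl (by positivity)
    have h8 : 8 * I * v ^ 11 ≤ 8 * I * v ^ 6 :=
      mul_le_mul_of_nonneg_left (p6 5) (by positivity)
    rw [h6]
    linarith
  have t2' : v ^ 12 * (C2 * Y * v ^ 2) ≤ C2 * (Y * v ^ 6) := by
    have h6 : v ^ 12 * (C2 * Y * v ^ 2) = C2 * Y * v ^ 14 := by ring
    have h8 : C2 * Y * v ^ 14 ≤ C2 * Y * v ^ 6 :=
      mul_le_mul_of_nonneg_left (p6 8) (by positivity)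
    rw [h6]
    linarith
  have t3 : 4 * (a * (Y * v ^ 7)) ≤ 4 * a * (Y * v ^ 6) := by
    have h8 : 4 * a * Y * v ^ 7 ≤ 4 * a * Y * v ^ 6 :=
      mul_le_mul_of_nonneg_left (p6 1) (by positivity)
    linarith
  have t4 : v ^ 12 * (4 * (b * (Y * u ^ 2 * (60 * Real.log u)))) ≤ 240 * b * (Y * v ^ 6) := by
    have h6 : v ^ 12 * (4 * (b * (Y * u ^ 2 * (60 * Real.log u)))) =
        240 * b * Y * (u * v) ^ 2 * v ^ 9 * (v * Real.log u) := by ring
    rw [h6, huv, one_pow, mul_one]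
    have h7 : 240 * b * Y * v ^ 9 * (v * Real.log u) ≤ 240 * b * Y * v ^ 9 * 1 :=
      mul_le_mul_of_nonneg_left hvl (by positivity)
    have h8 : 240 * b * Y * v ^ 9 ≤ 240 * b * Y * v ^ 6 :=
      mul_le_mul_of_nonneg_left (p6 3) (by positivity)
    linarith
  have hYv : Y * v ^ 6 ≤ (v ^ 6 * I) / c := by
    rw [le_div_iff₀ hc]
    have : v ^ 6 * (c * Y) ≤ v ^ 6 * I := mul_le_mul_of_nonneg_left hYI (by positivity)
    linarith
  have hfin : (C1 + C2 + 4 * a + 240 * b) * (Y * v ^ 6) ≤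
      (C1 + C2 + 4 * a + 240 * b) * ((v ^ 6 * I) / c) :=
    mul_le_mul_of_nonneg_left hYv (by positivity)
  have hfin2 : ((C1 + C2 + 4 * a + 240 * b) / c + 8) * (v ^ 6 * I) =
      (C1 + C2 + 4 * a + 240 * b) * ((v ^ 6 * I) / c) + 8 * (v ^ 6 * I) := by
    field_simp
  rw [hfin2, mul_add]
  have h9 : C1 * Y * v ^ 6 = C1 * (Y * v ^ 6) := by ring
  linarith

theorem NBZ_int {a b : ℝ} {F G : ℝ → ℝ} (hF : Measurable F) (hG : Continuous G)
    (h : ∀ t, |F t| ≤ |G t|) : IntervalIntegrable F volume a b := by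
  refine (hG.intervalIntegrable a b).mono_fun hF.aestronglyMeasurable (ae_of_all _ fun t => ?_)
  exact h t

theorem NBZ_gd (X lam : ℕ → ℝ) (R : ℕ) (hg : ∀ t, gd X lam R t = 0 ∨ gd X lam R t = 1) (t : ℝ) :
    0 ≤ gd X lam R t ∧ gd X lam R t ≤ 1 := by
  rcases hg t with h | h <;> rw [h] <;> norm_num

/-- the four parts -/
theorem NBZ_main (hGDM : Stmt_GDM) (hMES : Stmt_MES) (hCSI : Stmt_CSI) (hZ : Continuous Z)
    (L T H x η E1 E2 A B1 B2 : ℝ) (R : ℕ) (X lam : ℕ → ℝ) (hch : IsChain L R X lam) (hR : 0 < R)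
    (hH : 0 ≤ H) (hη : 0 < η) (hA : 0 ≤ A) (hB1 : 0 ≤ B1) (hB2 : 0 ≤ B2)
    (hE1 : ∫ t in T..(T + H), (1 - gd X lam R t) * |Z t| ≤ E1)
    (hE2 : ∫ t in T..(T + H), gd X lam R t * (|Z t| * |Real.log |Z t| - PR X R t|) ≤ E2)
    (hAi : ∫ t in T..(T + H), |Z t| ^ 2 * ‖MM X lam (range R) t‖ ^ 2 ≤ A)
    (hB1i : (∫ t in T..(T + H), (if |(PP X 0 t).re - x| ≤ 3 * η then 1 else 0) *
        ‖NN X lam (range R) t‖ ^ 2 ≤ B1) ∨
      ∀ t, gd X lam R t = 0 ∨ ¬ |(PP X 0 t).re - x| ≤ 3 * η)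
    (hB2i : ∫ t in T..(T + H), ‖NN X lam (range R) t‖ ^ 2 *
      ‖∑ j ∈ Ico 1 R, PP X j t‖ ^ 2 ≤ B2) :
    ∫ t in {t | t ∈ Set.Icc T (T + H) ∧ |Real.log |Z t| - x| ≤ η}, |Z t| ≤
      E1 + 1 / η * E2 + 4 * Real.sqrt (A * B1) + 1 / η * (4 * Real.sqrt (A * B2)) := by
  obtain ⟨hgm, hPc, hg01⟩ := hMES X lam R
  have hgd := NBZ_gd X lam R hg01
  have hTH : T ≤ T + H := by linarith
  have hGDM2 : ∀ t, gd X lam R t ≤
      4 * (‖MM X lam (range R) t‖ * ‖NN X lam (range R) t‖) := fun t => (hGDM L R X lam hch t).2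
  have hcM : Continuous (MM X lam (range R)) := MAINx.cont_MM X lam (range R)
  have hcN : Continuous (NN X lam (range R)) := MAINx.cont_NN X lam (range R)
  have hcP0 : Continuous fun t => (PP X 0 t).re := Complex.continuous_re.comp (MAINx.cont_PP X 0)
  have hcG : Continuous fun t => ‖∑ j ∈ Ico 1 R, PP X j t‖ :=
    (continuous_finsetSum _ fun j _ => MAINx.cont_PP X j).norm
  have hcZ : Continuous fun t => |Z t| := hZ.abs
  -- the indicator functions
  obtain ⟨s1, hs1⟩ : ∃ s1 : ℝ → ℝ, s1 = fun t => if |(PP X 0 t).re - x| ≤ 3 * η then 1 else 0 :=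
    ⟨_, rfl⟩
  have hs1m : Measurable s1 := by
    rw [hs1]
    exact Measurable.ite (isClosed_le ((hcP0.sub continuous_const).abs)
      continuous_const).measurableSet measurable_const measurable_const
  have hs101 : ∀ t, s1 t = 0 ∨ s1 t = 1 := by
    intro t
    rw [hs1]
    by_cases h : |(PP X 0 t).re - x| ≤ 3 * η
    · exact Or.inr (if_pos h)
    · exact Or.inl (if_neg h)
  have hs1n : ∀ t, 0 ≤ s1 t ∧ s1 t ≤ 1 := by
    intro t
    rcases hs101 t with h | h <;> rw [h] <;> norm_num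
  have hlm : Measurable fun t => |Real.log |Z t| - x| :=
    continuous_abs.measurable.comp ((Real.measurable_log.comp hcZ.measurable).sub_const x)
  have hset : MeasurableSet {t | |Real.log |Z t| - x| ≤ η} :=
    measurableSet_le hlm measurable_const
  have hs0m : Measurable fun t => (if |Real.log |Z t| - x| ≤ η then (1 : ℝ) else 0) * |Z t| :=
    (Measurable.ite hset measurable_const measurable_const).mul hcZ.measurable
  -- the left side
  have hL : ∫ t in {t | t ∈ Set.Icc T (T + H) ∧ |Real.log |Z t| - x| ≤ η}, |Z t| =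
      ∫ t in T..(T + H), (if |Real.log |Z t| - x| ≤ η then (1 : ℝ) else 0) * |Z t| := by
    have h1 : {t | t ∈ Set.Icc T (T + H) ∧ |Real.log |Z t| - x| ≤ η} =
        Set.Icc T (T + H) ∩ {t | |Real.log |Z t| - x| ≤ η} := rfl
    rw [h1, ← setIntegral_indicator hset, integral_Icc_eq_integral_Ioc,
      ← intervalIntegral.integral_of_le hTH]
    refine intervalIntegral.integral_congr fun t _ => ?_
    show Set.indicator {t | |Real.log |Z t| - x| ≤ η} (fun t => |Z t|) t = _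
    by_cases h : |Real.log |Z t| - x| ≤ η
    · rw [Set.indicator_of_mem (show t ∈ {t | |Real.log |Z t| - x| ≤ η} from h), if_pos h, one_mul]
    · rw [Set.indicator_of_notMem (show t ∉ {t | |Real.log |Z t| - x| ≤ η} from h), if_neg h,
        zero_mul]
  rw [hL]
  -- the four integrands
  have hZabs : ∀ t, |(|Z t|)| = |Z t| := fun t => abs_abs _
  have i0 : IntervalIntegrable (fun t => (if |Real.log |Z t| - x| ≤ η then (1 : ℝ) else 0) *
      |Z t|) volume T (T + H) := by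
    refine NBZ_int hs0m hcZ fun t => ?_
    split_ifs
    · rw [one_mul]
    · rw [zero_mul, abs_zero]
      exact abs_nonneg _
  have i1 : IntervalIntegrable (fun t => (1 - gd X lam R t) * |Z t|) volume T (T + H) := by
    refine NBZ_int ((measurable_const.sub hgm).mul hcZ.measurable) hcZ fun t => ?_
    obtain ⟨h1, h2⟩ := hgd t
    rw [abs_mul, abs_of_nonneg (by linarith : (0 : ℝ) ≤ 1 - gd X lam R t), hZabs]
    exact mul_le_of_le_one_left (abs_nonneg _) (by linarith)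
  have hdm : Measurable fun t => |Real.log |Z t| - PR X R t| :=
    continuous_abs.measurable.comp ((Real.measurable_log.comp hcZ.measurable).sub hPc.measurable)
  have i2 : IntervalIntegrable (fun t => gd X lam R t * (|Z t| * |Real.log |Z t| - PR X R t|))
      volume T (T + H) := by
    have hcG2 : Continuous fun t => |(|Z t| * Real.log |Z t|)| + |Z t| * |PR X R t| :=
      ((Real.continuous_mul_log.comp hcZ).abs).add (hcZ.mul hPc.abs)
    refine NBZ_int (hgm.mul (hcZ.measurable.mul hdm)) hcG2 fun t => ?_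
    obtain ⟨h1, h2⟩ := hgd t
    rw [abs_mul, abs_of_nonneg h1,
      abs_of_nonneg (by positivity : 0 ≤ |Z t| * |Real.log |Z t| - PR X R t|),
      abs_of_nonneg (by positivity : 0 ≤ |(|Z t| * Real.log |Z t|)| + |Z t| * |PR X R t|)]
    have h3 : |Z t| * |Real.log |Z t| - PR X R t| ≤
        |(|Z t| * Real.log |Z t|)| + |Z t| * |PR X R t| := by
      rw [abs_mul, hZabs, ← mul_add]
      exact mul_le_mul_of_nonneg_left (abs_sub _ _) (abs_nonneg _)
    exact (mul_le_of_le_one_left (by positivity) h2).trans h3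
  have i3 : IntervalIntegrable (fun t => gd X lam R t * (s1 t * |Z t|)) volume T (T + H) := by
    refine NBZ_int (hgm.mul (hs1m.mul hcZ.measurable)) hcZ fun t => ?_
    obtain ⟨h1, h2⟩ := hgd t
    obtain ⟨h3, h4⟩ := hs1n t
    rw [abs_mul, abs_mul, abs_of_nonneg h1, abs_of_nonneg h3]
    refine (mul_le_of_le_one_left (by positivity) h2).trans ?_
    exact mul_le_of_le_one_left (abs_nonneg _) h4
  have i4 : IntervalIntegrable (fun t => gd X lam R t *
      (‖∑ j ∈ Ico 1 R, PP X j t‖ * |Z t|)) volume T (T + H) := by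
    refine NBZ_int (hgm.mul (hcG.measurable.mul hcZ.measurable)) (hcG.mul hcZ) fun t => ?_
    obtain ⟨h1, h2⟩ := hgd t
    rw [abs_mul, abs_of_nonneg h1]
    exact mul_le_of_le_one_left (abs_nonneg _) h2
  -- the decomposition
  have hdec : ∫ t in T..(T + H), (if |Real.log |Z t| - x| ≤ η then (1 : ℝ) else 0) * |Z t| ≤
      ∫ t in T..(T + H), ((1 - gd X lam R t) * |Z t| +
        (1 / η) * (gd X lam R t * (|Z t| * |Real.log |Z t| - PR X R t|)) +
        gd X lam R t * (s1 t * |Z t|) +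
        (1 / η) * (gd X lam R t * (‖∑ j ∈ Ico 1 R, PP X j t‖ * |Z t|))) := by
    refine intervalIntegral.integral_mono_on hTH i0
      (((i1.add (i2.const_mul _)).add i3).add (i4.const_mul _)) fun t _ => ?_
    have hP : |PR X R t - (PP X 0 t).re| ≤ ‖∑ j ∈ Ico 1 R, PP X j t‖ := by
      have h1 : PR X R t - (PP X 0 t).re = (∑ j ∈ Ico 1 R, PP X j t).re := by
        unfold PR
        rw [Finset.sum_range_eq_add_Ico _ hR, Complex.add_re]
        ring
      rw [h1]
      exact Complex.abs_re_le_norm _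
    have h2 := NBZ_pt |Z t| (Real.log |Z t|) (PR X R t) (PP X 0 t).re _ x η (gd X lam R t)
      (abs_nonneg _) hη (hg01 t) hP
    rw [hs1]
    exact h2
  refine hdec.trans ?_
  rw [intervalIntegral.integral_add ((i1.add (i2.const_mul _)).add i3) (i4.const_mul _),
    intervalIntegral.integral_add (i1.add (i2.const_mul _)) i3,
    intervalIntegral.integral_add i1 (i2.const_mul _),
    intervalIntegral.integral_const_mul, intervalIntegral.integral_const_mul]
  have hη' : 0 ≤ 1 / η := by positivity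
  -- part (iii)
  have b3 : ∫ t in T..(T + H), gd X lam R t * (s1 t * |Z t|) ≤ 4 * Real.sqrt (A * B1) := by
    rcases hB1i with hB1i | hno
    · have hc1 := hCSI T (T + H) A B1 (fun t => |Z t| * ‖MM X lam (range R) t‖)
        (fun t => ‖NN X lam (range R) t‖) s1 hTH (hcZ.mul hcM.norm) hcN.norm hs1m hs101 hA hB1
        (by
          simp only [mul_pow]
          exact hAi)
        (by
          rw [hs1]
          exact hB1i)
      have hc2 : ∫ t in T..(T + H), gd X lam R t * (s1 t * |Z t|) ≤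
          ∫ t in T..(T + H), 4 * (s1 t * (|(|Z t| * ‖MM X lam (range R) t‖)| *
            |‖NN X lam (range R) t‖|)) := by
        have hcfg : Continuous fun t => |(|Z t| * ‖MM X lam (range R) t‖)| *
            |‖NN X lam (range R) t‖| := (hcZ.mul hcM.norm).abs.mul hcN.norm.abs
        have hifg : IntervalIntegrable (fun t => s1 t * (|(|Z t| * ‖MM X lam (range R) t‖)| *
            |‖NN X lam (range R) t‖|)) volume T (T + H) := by
          refine NBZ_int (hs1m.mul hcfg.measurable) hcfg fun t => ?_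
          obtain ⟨h3, h4⟩ := hs1n t
          rw [abs_mul, abs_of_nonneg h3]
          exact mul_le_of_le_one_left (abs_nonneg _) h4
        refine intervalIntegral.integral_mono_on hTH i3 (hifg.const_mul 4) fun t _ => ?_
        · obtain ⟨h3, h4⟩ := hs1n t
          rw [abs_of_nonneg (by positivity : 0 ≤ |Z t| * ‖MM X lam (range R) t‖),
            abs_of_nonneg (norm_nonneg (NN X lam (range R) t))]
          have h5 := mul_le_mul_of_nonneg_right (hGDM2 t)
            (mul_nonneg h3 (abs_nonneg (Z t)))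
          calc gd X lam R t * (s1 t * |Z t|) ≤
              4 * (‖MM X lam (range R) t‖ * ‖NN X lam (range R) t‖) * (s1 t * |Z t|) := h5
            _ = 4 * (s1 t * (|Z t| * ‖MM X lam (range R) t‖ * ‖NN X lam (range R) t‖)) := by ring
      rw [intervalIntegral.integral_const_mul] at hc2
      exact hc2.trans (mul_le_mul_of_nonneg_left hc1 (by norm_num))
    · have h0 : ∀ t, gd X lam R t * (s1 t * |Z t|) = 0 := by
        intro t
        rcases hno t with h | h
        · rw [h, zero_mul]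
        · rw [hs1]
          simp only
          rw [if_neg h, zero_mul, mul_zero]
      simp only [h0, intervalIntegral.integral_zero]
      positivity
  -- part (iv)
  have b4 : ∫ t in T..(T + H), gd X lam R t * (‖∑ j ∈ Ico 1 R, PP X j t‖ * |Z t|) ≤
      4 * Real.sqrt (A * B2) := by
    have hc1 := hCSI T (T + H) A B2 (fun t => |Z t| * ‖MM X lam (range R) t‖)
      (fun t => ‖NN X lam (range R) t‖ * ‖∑ j ∈ Ico 1 R, PP X j t‖) (fun _ => 1) hTH
      (hcZ.mul hcM.norm) (hcN.norm.mul hcG) measurable_const (fun _ => Or.inr rfl) hA hB2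
      (by
        simp only [mul_pow]
        exact hAi)
      (by
        simp only [mul_pow, one_mul]
        exact hB2i)
    have hc2 : ∫ t in T..(T + H), gd X lam R t * (‖∑ j ∈ Ico 1 R, PP X j t‖ * |Z t|) ≤
        ∫ t in T..(T + H), 4 * (1 * (|(|Z t| * ‖MM X lam (range R) t‖)| *
          |(‖NN X lam (range R) t‖ * ‖∑ j ∈ Ico 1 R, PP X j t‖)|)) := by
      refine intervalIntegral.integral_mono_on hTH i4 ?_ fun t _ => ?_
      · exact (continuous_const.mul (continuous_const.mul ((hcZ.mul hcM.norm).abs.mul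
          (hcN.norm.mul hcG).abs))).intervalIntegrable _ _
      · rw [abs_of_nonneg (by positivity : 0 ≤ |Z t| * ‖MM X lam (range R) t‖),
          abs_of_nonneg (by positivity : 0 ≤ ‖NN X lam (range R) t‖ *
            ‖∑ j ∈ Ico 1 R, PP X j t‖)]
        have h5 := mul_le_mul_of_nonneg_right (hGDM2 t)
          (mul_nonneg (norm_nonneg (∑ j ∈ Ico 1 R, PP X j t)) (abs_nonneg (Z t)))
        calc gd X lam R t * (‖∑ j ∈ Ico 1 R, PP X j t‖ * |Z t|) ≤
            4 * (‖MM X lam (range R) t‖ * ‖NN X lam (range R) t‖) *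
              (‖∑ j ∈ Ico 1 R, PP X j t‖ * |Z t|) := h5
          _ = 4 * (1 * (|Z t| * ‖MM X lam (range R) t‖ * (‖NN X lam (range R) t‖ *
              ‖∑ j ∈ Ico 1 R, PP X j t‖))) := by ring
    rw [intervalIntegral.integral_const_mul] at hc2
    exact hc2.trans (mul_le_mul_of_nonneg_left hc1 (by norm_num))
  have b2 := mul_le_mul_of_nonneg_left hE2 hη'
  have b4' := mul_le_mul_of_nonneg_left b4 hη'
  linarith

theorem NBZ_rp (u : ℝ) (hu : 0 ≤ u) (n m : ℕ) (a : ℝ) (h : (n : ℝ) * a = m) :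
    (u ^ n) ^ a = u ^ m := by
  rw [← Real.rpow_natCast, ← Real.rpow_natCast, ← Real.rpow_mul hu, h]

theorem NBZ_rn (u : ℝ) (hu : 0 ≤ u) (n m : ℕ) (a : ℝ) (h : (n : ℝ) * a = -m) :
    (u ^ n) ^ a = (u ^ m)⁻¹ := by
  rw [← Real.rpow_natCast, ← Real.rpow_natCast, ← Real.rpow_mul hu, h, Real.rpow_neg hu]

theorem p_NBZ (hPARb : Stmt_PARb) (hOFF : Stmt_OFF) (hDEV : Stmt_DEV) (hGDM : Stmt_GDM)
    (hMES : Stmt_MES) (hCSI : Stmt_CSI) (hTWN : Stmt_TWN) (hNBN : Stmt_NBN) (hTLB : Stmt_TLB)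
    (hLBFs : Stmt_LBFs) (hZC : Stmt_ZC) : Stmt_NBZ := by
  intro δ hδ hδ'
  obtain ⟨W0, L0, hW0, hL0, hpar⟩ := hPARb δ hδ hδ'
  obtain ⟨C1, T1, hC1, hT1, hoff⟩ := hOFF δ hδ hδ'
  obtain ⟨C2, T2, hC2, hT2, hdev⟩ := hDEV δ hδ hδ'
  obtain ⟨C3, T3, hC3, hT3, htwn⟩ := hTWN δ hδ hδ'
  obtain ⟨C4, T4, hC4, hT4, hnbn⟩ := hNBN δ hδ hδ'
  obtain ⟨C5, T5, hC5, hT5, htlb⟩ := hTLB δ hδ hδ'
  obtain ⟨c, T6, hc, hT6, hlbf⟩ := hLBFs δ hδ hδ'
  obtain ⟨U0, hU0⟩ : ∃ U0, U0 = max W0 4 := ⟨_, rfl⟩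
  refine ⟨(C1 + C2 + 4 * Real.sqrt (3 * C3 * C4) + 240 * Real.sqrt (C3 * C5)) / c + 8,
    T1 + T2 + T3 + T4 + T5 + T6 + Real.exp L0 + Real.exp (Real.exp (U0 ^ 60)), by positivity, ?_, ?_⟩
  · have h1 := Real.exp_pos L0
    have h2 := Real.exp_pos (Real.exp (U0 ^ 60))
    linarith
  intro T H x hT hA
  have hTe1 := Real.exp_pos L0
  have hTe2 := Real.exp_pos (Real.exp (U0 ^ 60))
  have hT1' : T1 ≤ T := by linarith
  have hT2' : T2 ≤ T := by linarith
  have hT3' : T3 ≤ T := by linarith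
  have hT4' : T4 ≤ T := by linarith
  have hT5' : T5 ≤ T := by linarith
  have hT6' : T6 ≤ T := by linarith
  have hTL0 : Real.exp L0 ≤ T := by linarith
  have hTU : Real.exp (Real.exp (U0 ^ 60)) ≤ T := by linarith
  have hTpos : 0 < T := hTe1.trans_le hTL0
  have hL0' : L0 ≤ Real.log T := by
    rw [Real.le_log_iff_exp_le hTpos]
    exact hTL0
  have hLU : Real.exp (U0 ^ 60) ≤ Real.log T := by
    rw [Real.le_log_iff_exp_le hTpos]
    exact hTU
  have hLpos : 0 < Real.log T := (Real.exp_pos _).trans_le hLU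
  have hlU : U0 ^ 60 ≤ ell T := by
    unfold ell
    rw [Real.le_log_iff_exp_le hLpos]
    exact hLU
  have hU4 : 4 ≤ U0 := by rw [hU0]; exact le_max_right _ _
  have hUW : W0 ≤ U0 := by rw [hU0]; exact le_max_left _ _
  have hU0' : (0 : ℝ) ≤ U0 := by linarith
  have hlpos : 0 < ell T := lt_of_lt_of_le (by positivity) hlU
  obtain ⟨u, hu⟩ : ∃ u, u = ell T ^ (1 / 60 : ℝ) := ⟨_, rfl⟩
  have hupos : 0 < u := by rw [hu]; positivity
  have hlu : ell T = u ^ 60 := by
    rw [hu, ← Real.rpow_natCast, ← Real.rpow_mul hlpos.le]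
    norm_num
  have huU : U0 ≤ u := by
    rw [hlu] at hlU
    exact le_of_pow_le_pow_left₀ (by norm_num) hupos.le hlU
  have hu4 : 4 ≤ u := hU4.trans huU
  have hu1 : 1 ≤ u := by linarith
  obtain ⟨W, hW⟩ : ∃ W, W = u ^ 8 := ⟨_, rfl⟩
  have hWpos : 0 < W := by rw [hW]; positivity
  have huW : u ≤ W := by
    rw [hW]
    calc u = u ^ 1 := (pow_one u).symm
      _ ≤ u ^ 8 := pow_le_pow_right₀ hu1 (by norm_num)
  have hWl : W ≤ ell T := by
    rw [hW, hlu]
    exact pow_le_pow_right₀ hu1 (by norm_num)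
  have hW0W : W0 ≤ W := hUW.trans (huU.trans huW)
  have h12 : u ^ 1 ≤ u ^ 12 := pow_le_pow_right₀ hu1 (by norm_num)
  have h1260 : u ^ 12 ≤ u ^ 60 := pow_le_pow_right₀ hu1 (by norm_num)
  have h160 : u ^ 1 ≤ u ^ 60 := pow_le_pow_right₀ hu1 (by norm_num)
  have h260 : u ^ 2 ≤ u ^ 60 := pow_le_pow_right₀ hu1 (by norm_num)
  have hl8 : 8 ≤ ell T := by
    rw [hlu]
    nlinarith
  have hL5 : 5 * ell T ≤ Real.log T := by
    have h1 : Real.log T = Real.exp (ell T) := by
      unfold ell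
      rw [Real.exp_log hLpos]
    rw [h1]
    have h2 := Real.quadratic_le_exp_of_nonneg hlpos.le
    nlinarith
  have hWL : W ≤ Real.log T / 5 := by linarith
  obtain ⟨R, X, lam, hch, hsh, hxR, hsume, hR2, hlam0, hx1⟩ := hpar (Real.log T) W hL0' hW0W hWl
  have hlc : IsLC δ T W R X lam := ⟨hch, hsh, hxR, hW0.trans hW0W, hWL, hsume⟩
  have hlb : IsLB δ T W R X lam := ⟨hlc, hR2, hlam0, hx1⟩
  have hHpos : 0 < H := lt_of_lt_of_le (Real.rpow_pos_of_pos hTpos _) hA.1
  obtain ⟨Y, hY⟩ : ∃ Y, Y = H * Real.log T ^ (1 / 4 : ℝ) := ⟨_, rfl⟩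
  have hYpos : 0 < Y := by rw [hY]; positivity
  obtain ⟨I, hI⟩ : ∃ I, I = ∫ t in T..(T + H), |Z t| := ⟨_, rfl⟩
  have hI0 : 0 ≤ I := by
    rw [hI]
    exact intervalIntegral.integral_nonneg (by linarith) fun t _ => abs_nonneg _
  have hYI : c * Y ≤ I := by
    have h1 := hlbf T H hT6' hA
    rw [← hI] at h1
    rw [hY]
    linarith
  -- the powers
  have e34 : W ^ (3 / 4 : ℝ) = u ^ 6 := by
    rw [hW]
    exact NBZ_rp u hupos.le 8 6 _ (by norm_num)
  have e34n : W ^ (-(3 / 4) : ℝ) = (u ^ 6)⁻¹ := by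
    rw [hW]
    exact NBZ_rn u hupos.le 8 6 _ (by norm_num)
  have e14n : W ^ (-(1 / 4) : ℝ) = (u ^ 2)⁻¹ := by
    rw [hW]
    exact NBZ_rn u hupos.le 8 2 _ (by norm_num)
  have e14 : W ^ (1 / 4 : ℝ) = u ^ 2 := by
    rw [hW]
    exact NBZ_rp u hupos.le 8 2 _ (by norm_num)
  have eLW : (Real.log T / W) ^ (1 / 4 : ℝ) = Real.log T ^ (1 / 4 : ℝ) / u ^ 2 := by
    rw [Real.div_rpow hLpos.le hWpos.le, e14]
  have el5 : ell T ^ (1 / 5 : ℝ) = u ^ 12 := by
    rw [hlu]
    exact NBZ_rp u hupos.le 60 12 _ (by norm_num)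
  have el10 : ell T ^ (-(1 / 10) : ℝ) = (u ^ 6)⁻¹ := by
    rw [hlu]
    exact NBZ_rn u hupos.le 60 6 _ (by norm_num)
  have esl : Real.sqrt (ell T) = u ^ 30 := by
    rw [hlu, show u ^ 60 = (u ^ 30) ^ 2 by ring, Real.sqrt_sq (by positivity)]
  have elW : Real.log W = 8 * Real.log u := by
    rw [hW, Real.log_pow]
    norm_num
  have ell' : Real.log (ell T) = 60 * Real.log u := by
    rw [hlu, Real.log_pow]
    norm_num
  have hlu0 : 0 ≤ Real.log u := Real.log_nonneg hu1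
  -- the estimates
  have hE1 := hoff T H W R X lam hT1' hA hlc
  rw [e34n, show C1 * H * Real.log T ^ (1 / 4 : ℝ) * (u ^ 6)⁻¹ = C1 * Y * (u ^ 6)⁻¹ by
    rw [hY]; ring] at hE1
  have hE2 := hdev T H W R X lam hT2' hA hlc
  rw [e14n, elW, ← hI, show C2 * H * Real.log T ^ (1 / 4 : ℝ) * (u ^ 2)⁻¹ = C2 * Y * (u ^ 2)⁻¹ by
    rw [hY]; ring] at hE2
  have hAi := (htwn T H W R X lam hT3' hA hlc).1
  rw [e34, show C3 * H * Real.log T ^ (1 / 4 : ℝ) * u ^ 6 = C3 * Y * u ^ 6 by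
    rw [hY]; ring] at hAi
  have hB2i := htlb T H W R X lam hT5' hA hlb
  rw [eLW, ell', show C5 * H * (Real.log T ^ (1 / 4 : ℝ) / u ^ 2) * (60 * Real.log u) ^ 2 =
    C5 * (Y / u ^ 2) * (60 * Real.log u) ^ 2 by rw [hY]; ring] at hB2i
  have hB1i : (∫ t in T..(T + H), (if |(PP X 0 t).re - x| ≤ 3 * u ^ 12 then 1 else 0) *
        ‖NN X lam (range R) t‖ ^ 2 ≤ C4 * (Y / u ^ 2) * (3 * u ^ 12 / u ^ 30)) ∨
      ∀ t, gd X lam R t = 0 ∨ ¬ |(PP X 0 t).re - x| ≤ 3 * u ^ 12 := by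
    by_cases hx : |x| ≤ 20 * ell T
    · left
      have h1 := hnbn T H W x (3 * u ^ 12) R X lam hT4' hA hlb hx (by linarith)
      rw [eLW, esl, show C4 * H * (Real.log T ^ (1 / 4 : ℝ) / u ^ 2) * (3 * u ^ 12 / u ^ 30) =
        C4 * (Y / u ^ 2) * (3 * u ^ 12 / u ^ 30) by rw [hY]; ring] at h1
      exact h1
    · right
      intro t
      by_cases hg : Good X lam R t
      · right
        have h1 := hg 0 (by omega)
        have h2 : (KK lam 0 : ℝ) < 50 * ell T + 1 := by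
          unfold KK
          rw [hlam0]
          exact Nat.ceil_lt_add_one (by
            have : 0 < ell T := hlpos
            unfold ell at this
            positivity)
        have h3 := Complex.abs_re_le_norm (PP X 0 t)
        intro h4
        have h5 : |x| ≤ |(PP X 0 t).re - x| + |(PP X 0 t).re| := by
          have := abs_sub_abs_le_abs_sub x (PP X 0 t).re
          rw [abs_sub_comm x] at this
          linarith
        push Not at hx
        rw [← hlu] at h1260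
        -- 5 |P| ≤ 51 l, so |x| ≤ 3 u^12 + 10.2 l
        have h6 : u ^ 12 * 4 ≤ ell T := by
          rw [hlu]
          calc u ^ 12 * 4 ≤ u ^ 12 * u := mul_le_mul_of_nonneg_left hu4 (by positivity)
            _ = u ^ 13 := by ring
            _ ≤ u ^ 60 := pow_le_pow_right₀ hu1 (by norm_num)
        linarith
      · left
        unfold gd
        rw [if_neg hg]
  have hmain := NBZ_main hGDM hMES hCSI hZC (Real.log T) T H x (u ^ 12) (C1 * Y * (u ^ 6)⁻¹)
    (8 * Real.log u * I + C2 * Y * (u ^ 2)⁻¹) (C3 * Y * u ^ 6)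
    (C4 * (Y / u ^ 2) * (3 * u ^ 12 / u ^ 30)) (C5 * (Y / u ^ 2) * (60 * Real.log u) ^ 2) R X lam
    hch (by omega) hHpos.le (by positivity) (by positivity) (by positivity) (by positivity)
    hE1 hE2 hAi hB1i hB2i
  rw [el5, el10, ← hI, mul_assoc]
  exact hmain.trans (NBZ_num u Y I c C1 C2 C3 C4 C5 hu1 hYpos.le hI0 hc hYI hC1 hC2 hC3 hC4 hC5)

end

end HZS
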