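import Pool.Agent.Work.MP_c51bc2_nt_lb.Interface
import Pool.Agent.Work.MP_c51bc2_nt.B_MAIN

open Finset Complex MeasureTheory

namespace HZS

open MAINx in
theorem p_OFF (hTW : Stmt_TW0s) (hMO : Stmt_MOs) (hOFP : Stmt_OFP) (hMES : Stmt_MES)
    (hZC : Stmt_ZC) : Stmt_OFF := by
  intro δ hδ hδ1
  obtain ⟨C1, T1, hC1, hT1, h1⟩ := hTW δ hδ hδ1
  obtain ⟨C2, T2, hC2, hT2, h2⟩ := hMO
  refine ⟨2 * Real.sqrt (C1 * C2), max T1 T2, by positivity, lt_max_of_lt_left hT1, ?_⟩
  intro T H W R X lam hT hAdm hLC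
  have hc := hLC.chain
  have hSh := hLC.sh
  have hT1' : T1 ≤ T := le_trans (le_max_left _ _) hT
  have hT2' : T2 ≤ T := le_trans (le_max_right _ _) hT
  have hT0 : 0 < T := by linarith
  have hH12 : T ^ (1 / 2 : ℝ) ≤ H := by
    refine le_trans (Real.rpow_le_rpow_of_exponent_le (by linarith) (by linarith)) hAdm.1
  have hTpos : 0 < H := lt_of_lt_of_le (Real.rpow_pos_of_pos hT0 _) hH12
  have hTT : T ≤ T + H := by linarith
  have hlog : 0 < Real.log T := Real.log_pos (by linarith)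
  set L := Real.log T with hLdef
  have hW8 := hLC.w8
  have hW0 : 0 < W := by linarith
  have hlogR : Real.log (X R) = L / W := by rw [hLC.xR, Real.log_exp]
  have hLW : 0 < L / W := div_pos hlog hW0
  have hx := x_ge hc
  have hlogx : ∀ j ≤ R, 0 < Real.log (X j) := fun j hj => Real.log_pos (by have := hx j hj; linarith)
  have hlogmono : ∀ j ≤ R, Real.log (X j) ≤ L / 8 := by
    intro j hj
    have h3 : Real.log (X j) ≤ L / W := by
      rw [← hlogR]
      exact Real.log_le_log (by have := hx j hj; linarith) (x_mono hc hj le_rfl)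
    refine le_trans h3 ?_
    exact div_le_div_of_nonneg_left hlog.le (by norm_num) hW8
  have hcZ : Continuous Z := hZC
  have hA : ∀ j ≤ R, ∫ t in T..(T + H), (|Z t| * ‖MM X lam (range j) t‖) ^ 2 ≤
      C1 * H * L * Real.log (X j) ^ (-(3 / 4) : ℝ) := by
    intro j hj
    have h3 := h1 T H R X lam hT1' hAdm hc hSh j hj (hlogmono j hj)
    simp_rw [mul_pow]
    exact h3
  set S : ℝ := L ^ (1 / 4 : ℝ) * W ^ (1 / 4 : ℝ) with hS
  have hSpos : 0 < S := by positivity
  have hSS : L * (L / W) ^ (-(1 / 2) : ℝ) = S ^ 2 := by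
    rw [hS, mul_pow, Real.div_rpow hlog.le hW0.le, ← Real.rpow_natCast, ← Real.rpow_natCast,
      ← Real.rpow_mul hlog.le, ← Real.rpow_mul hW0.le]
    rw [Real.rpow_neg hW0.le (1 / 2), div_inv_eq_mul, ← mul_assoc]
    nth_rewrite 1 [← Real.rpow_one L]
    rw [← Real.rpow_add hlog]
    norm_num
  have hother : ∀ j ∈ range R, ∫ t in T..(T + H), (|Z t| * ‖MM X lam (range j) t‖) *
      (‖NN X lam (range j) t‖ * (5 * ‖PP X j t‖ / (KK lam j : ℝ)) ^ (mm lam j)) ≤
      Real.sqrt (C1 * C2) * H * S * Real.exp (-lam j) := by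
    intro j hj
    have hj' := Finset.mem_range.1 hj
    have hAj := hA j hj'.le
    have hBj := (h2 T H R X lam hT2' hH12 hc j hj'.le).2 hj'
    have hlj := hlogx j hj'.le
    have hl1 := hc.lam1 j hj'
    have hw := weight hl1
    set w : ℝ := ((mm lam j).factorial : ℝ) * lam j ^ (mm lam j) with hwdef
    have hB2 : ∫ t in T..(T + H), (‖NN X lam (range j) t‖ *
        (5 * ‖PP X j t‖ / (KK lam j : ℝ)) ^ (mm lam j)) ^ 2 ≤
        C2 * H * Real.log (X j) ^ (1 / 4 : ℝ) * Real.exp (-(5 / 2) * lam j) := by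
      have e1 : ∀ t, (‖NN X lam (range j) t‖ * (5 * ‖PP X j t‖ / (KK lam j : ℝ)) ^ (mm lam j)) ^ 2 =
          ((5 / (KK lam j : ℝ)) ^ 2) ^ (mm lam j) *
            (‖NN X lam (range j) t‖ ^ 2 * ‖PP X j t‖ ^ (2 * mm lam j)) := by
        intro t
        rw [mul_div_right_comm, mul_pow, mul_pow, mul_pow, ← pow_mul, ← pow_mul, ← pow_mul]
        rw [mul_comm (mm lam j) 2]
        ring
      simp_rw [e1]
      rw [intervalIntegral.integral_const_mul]
      calc ((5 / (KK lam j : ℝ)) ^ 2) ^ (mm lam j) * (∫ t in T..(T + H),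
            ‖NN X lam (range j) t‖ ^ 2 * ‖PP X j t‖ ^ (2 * mm lam j)) ≤
          ((5 / (KK lam j : ℝ)) ^ 2) ^ (mm lam j) * (C2 * H * Real.log (X j) ^ (1 / 4 : ℝ) * w) :=
            mul_le_mul_of_nonneg_left hBj (by positivity)
        _ = C2 * H * Real.log (X j) ^ (1 / 4 : ℝ) * (w * ((5 / (KK lam j : ℝ)) ^ 2) ^ (mm lam j)) := by
            ring
        _ ≤ _ := mul_le_mul_of_nonneg_left hw (by positivity)
    have hcs := cs hTT (hcZ.abs.mul (cont_MM X lam (range j)).norm)
      ((cont_NN X lam (range j)).norm.mul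
        (((continuous_const.mul (cont_PP X j).norm).div_const _).pow (mm lam j)))
      (by positivity) (by positivity) hAj hB2
    refine le_trans hcs ?_
    apply Real.sqrt_le_iff.2
    refine ⟨by positivity, ?_⟩
    have htop := hc.top j hj'
    rw [hlogR] at htop
    have h3 : Real.log (X j) ^ (-(1 / 2) : ℝ) ≤ (L / W) ^ (-(1 / 2) : ℝ) * Real.exp (lam j / 2) := by
      have h4 : (L / W) * Real.exp (-lam j) ≤ Real.log (X j) := by
        rw [Real.exp_neg]
        have : (L / W) * (Real.exp (lam j))⁻¹ ≤ (Real.exp (lam j) * Real.log (X j)) * (Real.exp (lam j))⁻¹ :=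
          mul_le_mul_of_nonneg_right htop (by positivity)
        calc (L / W) * (Real.exp (lam j))⁻¹ ≤ _ := this
          _ = Real.log (X j) := by field_simp
      have h5 : Real.log (X j) ^ (-(1 / 2) : ℝ) ≤ ((L / W) * Real.exp (-lam j)) ^ (-(1 / 2) : ℝ) :=
        Real.rpow_le_rpow_of_nonpos (by positivity) h4 (by norm_num)
      refine le_trans h5 (le_of_eq ?_)
      rw [Real.mul_rpow hLW.le (Real.exp_pos _).le, ← Real.exp_mul]
      congr 2
      ring
    have e2 : Real.log (X j) ^ (-(3 / 4) : ℝ) * Real.log (X j) ^ (1 / 4 : ℝ) =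
        Real.log (X j) ^ (-(1 / 2) : ℝ) := by
      rw [← Real.rpow_add hlj]; norm_num
    calc C1 * H * L * Real.log (X j) ^ (-(3 / 4) : ℝ) *
          (C2 * H * Real.log (X j) ^ (1 / 4 : ℝ) * Real.exp (-(5 / 2) * lam j)) =
        C1 * C2 * H ^ 2 * L * (Real.log (X j) ^ (-(3 / 4) : ℝ) * Real.log (X j) ^ (1 / 4 : ℝ)) *
          Real.exp (-(5 / 2) * lam j) := by ring
      _ = C1 * C2 * H ^ 2 * L * Real.log (X j) ^ (-(1 / 2) : ℝ) * Real.exp (-(5 / 2) * lam j) := by
        rw [e2]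
      _ ≤ C1 * C2 * H ^ 2 * L * ((L / W) ^ (-(1 / 2) : ℝ) * Real.exp (lam j / 2)) *
          Real.exp (-(5 / 2) * lam j) := by
        apply mul_le_mul_of_nonneg_right _ (Real.exp_pos _).le
        exact mul_le_mul_of_nonneg_left h3 (by positivity)
      _ = C1 * C2 * H ^ 2 * (L * (L / W) ^ (-(1 / 2) : ℝ)) *
          (Real.exp (lam j / 2) * Real.exp (-(5 / 2) * lam j)) := by ring
      _ = C1 * C2 * H ^ 2 * S ^ 2 * (Real.exp (-lam j)) ^ 2 := by
        rw [hSS, ← Real.exp_add, ← Real.exp_nat_mul]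
        congr 2
        push_cast
        ring
      _ = (Real.sqrt (C1 * C2)) ^ 2 * H ^ 2 * S ^ 2 * (Real.exp (-lam j)) ^ 2 := by
        rw [Real.sq_sqrt (by positivity)]
      _ = (Real.sqrt (C1 * C2) * H * S * Real.exp (-lam j)) ^ 2 := by
        ring
  have hcj : ∀ j ∈ range R, Continuous (fun t => (|Z t| * ‖MM X lam (range j) t‖) *
      (‖NN X lam (range j) t‖ * (5 * ‖PP X j t‖ / (KK lam j : ℝ)) ^ (mm lam j))) := fun j _ =>
    (hcZ.abs.mul (cont_MM X lam (range j)).norm).mul ((cont_NN X lam (range j)).norm.mul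
        (((continuous_const.mul (cont_PP X j).norm).div_const _).pow (mm lam j)))
  have hcs : Continuous (fun t => ∑ j ∈ range R, (|Z t| * ‖MM X lam (range j) t‖) *
      (‖NN X lam (range j) t‖ * (5 * ‖PP X j t‖ / (KK lam j : ℝ)) ^ (mm lam j))) :=
    continuous_finsetSum _ hcj
  have hpt : ∀ t ∈ Set.Icc T (T + H), (1 - gd X lam R t) * |Z t| ≤
      2 * ∑ j ∈ range R, (|Z t| * ‖MM X lam (range j) t‖) *
      (‖NN X lam (range j) t‖ * (5 * ‖PP X j t‖ / (KK lam j : ℝ)) ^ (mm lam j)) := by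
    intro t _
    have h3 := hOFP L R X lam hc t
    have h4 := mul_le_mul_of_nonneg_right h3 (abs_nonneg (Z t))
    refine le_trans h4 (le_of_eq ?_)
    rw [mul_assoc, Finset.sum_mul]
    congr 1
    apply Finset.sum_congr rfl
    intro j _
    ring
  have hgm := (hMES X lam R).1
  have hg01 := (hMES X lam R).2.2
  have hI0 : IntervalIntegrable (fun t => (1 - gd X lam R t) * |Z t|) volume T (T + H) := by
    refine (hcZ.abs.intervalIntegrable T (T + H)).mono_fun' ?_ ?_
    · exact ((measurable_const.sub hgm).mul hcZ.abs.measurable).aestronglyMeasurable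
    · refine Filter.Eventually.of_forall fun t => ?_
      show ‖(1 - gd X lam R t) * |Z t|‖ ≤ |Z t|
      rcases hg01 t with h | h
      · rw [h, sub_zero, one_mul, Real.norm_eq_abs, abs_abs]
      · rw [h, sub_self, zero_mul, norm_zero]
        exact abs_nonneg _
  have hint : ∫ t in T..(T + H), (1 - gd X lam R t) * |Z t| ≤ ∫ t in T..(T + H),
      2 * ∑ j ∈ range R, (|Z t| * ‖MM X lam (range j) t‖) *
      (‖NN X lam (range j) t‖ * (5 * ‖PP X j t‖ / (KK lam j : ℝ)) ^ (mm lam j)) := by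
    apply intervalIntegral.integral_mono_on hTT
    · exact hI0
    · exact (continuous_const.mul hcs).intervalIntegrable _ _
    · exact hpt
  rw [intervalIntegral.integral_const_mul, intervalIntegral.integral_finsetSum
      (fun j hj => (hcj j hj).intervalIntegrable _ _)] at hint
  have hsum := Finset.sum_le_sum hother
  rw [← Finset.mul_sum] at hsum
  have hS0 : 0 ≤ Real.sqrt (C1 * C2) * H * S := by positivity
  have h9 := mul_le_mul_of_nonneg_left hLC.sume hS0
  have hfin : S * (1 / W) = L ^ (1 / 4 : ℝ) * W ^ (-(3 / 4) : ℝ) := by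
    rw [hS, mul_assoc]
    congr 1
    have e5 : (1 / W : ℝ) = W ^ (-1 : ℝ) := by rw [Real.rpow_neg_one, one_div]
    rw [e5, ← Real.rpow_add hW0]
    norm_num
  calc ∫ t in T..(T + H), (1 - gd X lam R t) * |Z t| ≤ _ := hint
    _ ≤ 2 * (Real.sqrt (C1 * C2) * H * S * (1 / W)) := by linarith
    _ = 2 * Real.sqrt (C1 * C2) * H * (S * (1 / W)) := by ring
    _ = 2 * Real.sqrt (C1 * C2) * H * L ^ (1 / 4 : ℝ) * W ^ (-(3 / 4) : ℝ) := by
      rw [hfin]; ring

end HZS
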