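import Pool.Agent.Work.MP_c51bc2_nt_lb.Interface
import Pool.Agent.Work.MP_c51bc2_nt.B_TEL

open Finset Complex MeasureTheory

namespace HZS

open TELx in
theorem p_OFP (hTR : Stmt_TR) : Stmt_OFP := by
  intro L R X lam hc t
  classical
  set a : ℕ → ℝ := fun i => Real.exp (-(KK lam i : ℝ)) with ha
  have hKK : ∀ i < R, 50 * lam i ≤ (KK lam i : ℝ) := fun i _ => Nat.le_ceil _
  have hK1 : ∀ i < R, 1 ≤ KK lam i := by
    intro i hi
    have h1 := hc.lam1 i hi
    have h2 := hKK i hi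
    have : (1 : ℝ) ≤ (KK lam i : ℝ) := by linarith
    exact_mod_cast this
  have hsum : ∑ i ∈ range R, a i ≤ 1 / 8 := by
    refine le_trans ?_ hc.sum
    apply Finset.sum_le_sum
    intro i hi
    have hi' := Finset.mem_range.1 hi
    apply Real.exp_le_exp.2
    have h1 := hc.lam1 i hi'
    have h2 := hKK i hi'
    linarith
  have ha0 : ∀ i, 0 ≤ a i := fun i => (Real.exp_pos _).le
  have ha1 : ∀ i, a i ≤ 1 := fun i => by
    rw [ha]
    show Real.exp _ ≤ 1
    rw [Real.exp_le_one_iff]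
    have : (0 : ℝ) ≤ (KK lam i : ℝ) := Nat.cast_nonneg _
    linarith
  -- the partial products
  have hprod : ∀ j ≤ R, (∀ i < j, 5 * ‖PP X i t‖ ≤ (KK lam i : ℝ)) →
      1 / 2 ≤ ‖MM X lam (range j) t‖ * ‖NN X lam (range j) t‖ := by
    intro j hj hgood
    unfold MM NN
    rw [norm_prod, norm_prod, ← Finset.prod_mul_distrib]
    have h1 : ∏ i ∈ range j, (1 - a i) ^ 2 ≤ ∏ i ∈ range j,
        ‖EP (KK lam i) (-(PP X i t) / 2)‖ * ‖EP (KK lam i) (PP X i t / 2)‖ := by
      apply Finset.prod_le_prod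
      · intro i _; exact sq_nonneg _
      · intro i hi
        have hi' := Finset.mem_range.1 hi
        have h2 := hTR (KK lam i) (PP X i t / 2) (hK1 i (lt_of_lt_of_le hi' hj)) (by
          rw [norm_div, Complex.norm_ofNat]
          have := hgood i hi'
          linarith)
        rw [neg_div]
        exact h2
    have h3 := prod_one_sub (range j) a (fun i _ => ha0 i) (fun i _ => ha1 i)
    have h4 : ∑ i ∈ range j, a i ≤ ∑ i ∈ range R, a i :=
      Finset.sum_le_sum_of_subset_of_nonneg (Finset.range_mono hj) (fun i _ _ => ha0 i)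
    linarith
  have hterm : ∀ j ∈ range R, 0 ≤ ‖MM X lam (range j) t‖ * ‖NN X lam (range j) t‖ *
      (5 * ‖PP X j t‖ / (KK lam j : ℝ)) ^ (mm lam j) := fun j _ => by positivity
  by_cases hall : ∀ i < R, 5 * ‖PP X i t‖ ≤ (KK lam i : ℝ)
  · have h2 := Finset.sum_nonneg hterm
    have h1 : gd X lam R t = 1 := by
      unfold gd
      rw [if_pos]
      exact hall
    linarith
  · push Not at hall
    obtain ⟨j, hj, hj2, hmin⟩ : ∃ j, j < R ∧ (KK lam j : ℝ) < 5 * ‖PP X j t‖ ∧
        ∀ i < j, 5 * ‖PP X i t‖ ≤ (KK lam i : ℝ) := by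
      have hex : ∃ i, i < R ∧ (KK lam i : ℝ) < 5 * ‖PP X i t‖ := hall
      refine ⟨Nat.find hex, (Nat.find_spec hex).1, (Nat.find_spec hex).2, ?_⟩
      intro i hi
      by_contra hcon
      push Not at hcon
      exact Nat.find_min hex hi ⟨lt_trans hi (Nat.find_spec hex).1, hcon⟩
    have h1 := hprod j hj.le hmin
    have hKpos : (0 : ℝ) < (KK lam j : ℝ) := by exact_mod_cast hK1 j hj
    have h2 : 1 ≤ (5 * ‖PP X j t‖ / (KK lam j : ℝ)) ^ (mm lam j) := by
      apply one_le_pow₀
      rw [one_le_div hKpos]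
      exact hj2.le
    have h3 : 1 / 2 ≤ ‖MM X lam (range j) t‖ * ‖NN X lam (range j) t‖ *
        (5 * ‖PP X j t‖ / (KK lam j : ℝ)) ^ (mm lam j) := by
      nlinarith
    have h4 := Finset.single_le_sum hterm (Finset.mem_range.2 hj)
    have h5 : 0 ≤ gd X lam R t := by
      unfold gd
      split_ifs <;> norm_num
    linarith

end HZS
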