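import Pool.Agent.Work.MP_c51bc2_nt_lb.Interface
import Pool.Agent.Work.MP_c51bc2_nt.Multi

open Finset Complex MeasureTheory

namespace HZS

noncomputable section

/-- one summand of the random sum -/
def ORT_u (s x : ℝ) : ℂ :=
  (((Real.sqrt s)⁻¹ : ℝ) : ℂ) * cexp (((2 * Real.pi * x : ℝ) : ℂ) * I)

theorem ORT_u_cont (s : ℝ) : Continuous (ORT_u s) := by
  unfold ORT_u
  fun_prop

theorem ORT_conj (s x : ℝ) : (starRingEnd ℂ) (ORT_u s x) =
    (((Real.sqrt s)⁻¹ : ℝ) : ℂ) * cexp (-(((2 * Real.pi * x : ℝ) : ℂ) * I)) := by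
  unfold ORT_u
  rw [map_mul, Complex.conj_ofReal, ← Complex.exp_conj, map_mul, Complex.conj_ofReal,
    Complex.conj_I]
  congr 2
  ring

theorem ORT_one (s : ℝ) (hs : 0 < s) (a b : ℕ) :
    ∫ x in Set.Ioc (0 : ℝ) 1, ORT_u s x ^ a * (starRingEnd ℂ) (ORT_u s x) ^ b =
      if a = b then (((1 / s) ^ a : ℝ) : ℂ) else 0 := by
  have e1 : ∀ x : ℝ, ORT_u s x ^ a * (starRingEnd ℂ) (ORT_u s x) ^ b =
      ((((Real.sqrt s)⁻¹) ^ (a + b) : ℝ) : ℂ) *
        cexp ((((a : ℤ) - (b : ℤ) : ℤ) : ℂ) * (2 * Real.pi * I) * x) := by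
    intro x
    rw [ORT_conj]
    unfold ORT_u
    rw [mul_pow, mul_pow, ← Complex.exp_nat_mul, ← Complex.exp_nat_mul]
    have : cexp ((((a : ℤ) - (b : ℤ) : ℤ) : ℂ) * (2 * Real.pi * I) * x) =
        cexp ((a : ℂ) * (((2 * Real.pi * x : ℝ) : ℂ) * I)) *
          cexp ((b : ℂ) * -(((2 * Real.pi * x : ℝ) : ℂ) * I)) := by
      rw [← Complex.exp_add]
      congr 1
      push_cast
      ring
    rw [this]
    push_cast
    ring
  rw [← intervalIntegral.integral_of_le zero_le_one]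
  simp_rw [e1]
  rw [intervalIntegral.integral_const_mul]
  by_cases hab : a = b
  · subst hab
    rw [if_pos rfl]
    have : (((Real.sqrt s)⁻¹) ^ (a + a) : ℝ) = (1 / s) ^ a := by
      rw [← two_mul, pow_mul, inv_pow, Real.sq_sqrt hs.le, one_div]
    rw [this]
    simp
  · rw [if_neg hab]
    have hc : (((a : ℤ) - (b : ℤ) : ℤ) : ℂ) * (2 * Real.pi * I) ≠ 0 := by
      refine mul_ne_zero ?_ Complex.two_pi_I_ne_zero
      have : (a : ℤ) - (b : ℤ) ≠ 0 := by omega
      exact_mod_cast this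
    rw [integral_exp_mul_complex hc]
    have h1 : cexp ((((a : ℤ) - (b : ℤ) : ℤ) : ℂ) * (2 * Real.pi * I) * ((1 : ℝ) : ℂ)) = 1 := by
      rw [Complex.ofReal_one, mul_one]
      exact Complex.exp_int_mul_two_pi_mul_I _
    rw [h1]
    simp

theorem ORT_prod {P : Finset ℕ} (hP : ∀ p ∈ P, p.Prime) {m n e e' : ℕ} (he : e ∈ SE P m)
    (he' : e' ∈ SE P n) :
    ∏ p : P, (if e.factorization (p : ℕ) = e'.factorization (p : ℕ) then
      (((1 / (((p : ℕ) : ℝ))) ^ (e.factorization (p : ℕ)) : ℝ) : ℂ) else 0) =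
      if e = e' then ((1 / (e : ℝ) : ℝ) : ℂ) else 0 := by
  obtain ⟨h1, h2, h3⟩ := (Multi.mem_SE hP).1 he
  obtain ⟨h1', h2', h3'⟩ := (Multi.mem_SE hP).1 he'
  by_cases hee : e = e'
  · subst hee
    rw [if_pos rfl]
    have q1 : ∀ p : P, (if e.factorization (p : ℕ) = e.factorization (p : ℕ) then
      (((1 / (((p : ℕ) : ℝ))) ^ (e.factorization (p : ℕ)) : ℝ) : ℂ) else 0) =
        (((1 / (((p : ℕ) : ℝ))) ^ (e.factorization (p : ℕ)) : ℝ) : ℂ) := fun p => if_pos rfl
    rw [Finset.prod_congr rfl fun p _ => q1 p, ← Complex.ofReal_prod,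
      Finset.prod_coe_sort P (fun p => (1 / (p : ℝ)) ^ (e.factorization p))]
    congr 1
    have q2 : (e : ℝ) = ∏ p ∈ P, (p : ℝ) ^ (e.factorization p) := by
      have := Multi.eq_nu h1 h2
      unfold Multi.nu at this
      conv_lhs => rw [← this]
      push_cast
      rfl
    rw [q2, one_div, ← Finset.prod_inv_distrib]
    refine Finset.prod_congr rfl fun p _ => ?_
    rw [one_div, inv_pow]
  · rw [if_neg hee]
    have : ∃ p ∈ P, e.factorization p ≠ e'.factorization p := by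
      by_contra hcon
      push Not at hcon
      apply hee
      rw [← Multi.eq_nu h1 h2, ← Multi.eq_nu h1' h2']
      unfold Multi.nu
      exact Finset.prod_congr rfl fun p hp => by
        show p ^ (e.factorization p) = p ^ (e'.factorization p)
        rw [hcon p hp]
    obtain ⟨p, hp, hne⟩ := this
    refine Finset.prod_eq_zero (Finset.mem_univ (⟨p, hp⟩ : P)) ?_
    exact if_neg hne

theorem p_ORT : Stmt_ORT := by
  classical
  intro P hP m n
  set f : (P → ℝ) → ℕ → ℂ := fun θ k => ∏ p : P, ORT_u ((p : ℕ) : ℝ) (θ p) ^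
    (k.factorization (p : ℕ)) with hf
  have hf1 : ∀ θ, f θ 1 = 1 := by
    intro θ
    simp [hf]
  have hfm : ∀ θ, ∀ a b : ℕ, a ≠ 0 → b ≠ 0 → f θ (a * b) = f θ a * f θ b := by
    intro θ a b ha hb
    simp only [hf]
    rw [← Finset.prod_mul_distrib]
    refine Finset.prod_congr rfl fun p _ => ?_
    rw [Nat.factorization_mul ha hb, Finsupp.add_apply, pow_add]
  have hTP : ∀ θ, TP P θ = ∑ p ∈ P, f θ p := by
    intro θ
    rw [← Finset.sum_coe_sort P (fun k => f θ k)]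
    unfold TP
    refine Finset.sum_congr rfl fun p _ => ?_
    simp only [hf]
    rw [Finset.prod_eq_single p]
    · rw [(hP p p.2).factorization_self, pow_one]
      rfl
    · intro q _ hqp
      have : ((p : ℕ).factorization) (q : ℕ) = 0 := by
        rw [(hP p p.2).factorization, Finsupp.single_apply, if_neg]
        intro h
        exact hqp (Subtype.ext h.symm)
      rw [this, pow_zero]
    · intro h
      exact absurd (Finset.mem_univ p) h
  have hexp : ∀ θ, TP P θ ^ m * (starRingEnd ℂ) (TP P θ) ^ n =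
      ∑ e ∈ SE P m, ∑ e' ∈ SE P n,
        ((((m.factorial : ℝ) * cf 1 e : ℝ) : ℂ) * (((n.factorial : ℝ) * cf 1 e' : ℝ) : ℂ)) *
          ∏ p : P, (ORT_u ((p : ℕ) : ℝ) (θ p) ^ (e.factorization (p : ℕ)) *
            (starRingEnd ℂ) (ORT_u ((p : ℕ) : ℝ) (θ p)) ^ (e'.factorization (p : ℕ))) := by
    intro θ
    rw [hTP θ, Multi.pow_sum hP (f θ) (hf1 θ) (hfm θ) m, ← map_pow,
      Multi.pow_sum hP (f θ) (hf1 θ) (hfm θ) n, map_sum, Finset.sum_mul_sum]
    refine Finset.sum_congr rfl fun e _ => Finset.sum_congr rfl fun e' _ => ?_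
    rw [map_mul, Complex.conj_ofReal, Finset.prod_mul_distrib]
    have : (starRingEnd ℂ) (f θ e') = ∏ p : P,
        (starRingEnd ℂ) (ORT_u ((p : ℕ) : ℝ) (θ p)) ^ (e'.factorization (p : ℕ)) := by
      simp only [hf]
      rw [map_prod]
      refine Finset.prod_congr rfl fun p _ => ?_
      rw [map_pow]
    rw [this]
    ring
  have hint : ∀ e e' : ℕ, Integrable (fun θ : P → ℝ =>
      ∏ p : P, (ORT_u ((p : ℕ) : ℝ) (θ p) ^ (e.factorization (p : ℕ)) *
            (starRingEnd ℂ) (ORT_u ((p : ℕ) : ℝ) (θ p)) ^ (e'.factorization (p : ℕ)))) (tor P) := by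
    intro e e'
    unfold tor
    refine Integrable.fintype_prod (f := fun (p : P) (x : ℝ) =>
      ORT_u ((p : ℕ) : ℝ) x ^ (e.factorization (p : ℕ)) *
            (starRingEnd ℂ) (ORT_u ((p : ℕ) : ℝ) x) ^ (e'.factorization (p : ℕ))) fun p => ?_
    have hc : Continuous fun x : ℝ => ORT_u ((p : ℕ) : ℝ) x ^ (e.factorization (p : ℕ)) *
            (starRingEnd ℂ) (ORT_u ((p : ℕ) : ℝ) x) ^ (e'.factorization (p : ℕ)) :=
      ((ORT_u_cont _).pow _).mul ((Complex.continuous_conj.comp (ORT_u_cont _)).pow _)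
    exact hc.integrableOn_Ioc
  have hval : ∀ e ∈ SE P m, ∀ e' ∈ SE P n, ∫ θ : P → ℝ,
      ∏ p : P, (ORT_u ((p : ℕ) : ℝ) (θ p) ^ (e.factorization (p : ℕ)) *
            (starRingEnd ℂ) (ORT_u ((p : ℕ) : ℝ) (θ p)) ^ (e'.factorization (p : ℕ))) ∂(tor P) =
      if e = e' then ((1 / (e : ℝ) : ℝ) : ℂ) else 0 := by
    intro e he e' he'
    unfold tor
    rw [integral_fintype_prod_eq_prod (fun (p : P) (x : ℝ) =>
      ORT_u ((p : ℕ) : ℝ) x ^ (e.factorization (p : ℕ)) *
            (starRingEnd ℂ) (ORT_u ((p : ℕ) : ℝ) x) ^ (e'.factorization (p : ℕ))),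
      ← ORT_prod hP he he']
    refine Finset.prod_congr rfl fun p _ => ?_
    exact ORT_one _ (by exact_mod_cast (hP p p.2).pos) _ _
  simp_rw [hexp]
  rw [integral_finsetSum _ fun e _ => integrable_finsetSum _ fun e' _ => (hint e e').const_mul _]
  have hinner : ∀ e ∈ SE P m, ∫ θ : P → ℝ, ∑ e' ∈ SE P n,
        ((((m.factorial : ℝ) * cf 1 e : ℝ) : ℂ) * (((n.factorial : ℝ) * cf 1 e' : ℝ) : ℂ)) *
          ∏ p : P, (ORT_u ((p : ℕ) : ℝ) (θ p) ^ (e.factorization (p : ℕ)) *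
            (starRingEnd ℂ) (ORT_u ((p : ℕ) : ℝ) (θ p)) ^ (e'.factorization (p : ℕ)))
              ∂(tor P) =
      ∑ e' ∈ SE P n, ((((m.factorial : ℝ) * cf 1 e : ℝ) : ℂ) *
        (((n.factorial : ℝ) * cf 1 e' : ℝ) : ℂ)) *
          (if e = e' then ((1 / (e : ℝ) : ℝ) : ℂ) else 0) := by
    intro e he
    rw [integral_finsetSum _ fun e' _ => (hint e e').const_mul _]
    refine Finset.sum_congr rfl fun e' he' => ?_
    rw [integral_const_mul, hval e he e' he']
  rw [Finset.sum_congr rfl hinner]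
  by_cases hmn : m = n
  · subst hmn
    rw [if_pos rfl, Complex.ofReal_sum]
    refine Finset.sum_congr rfl fun e he => ?_
    rw [Finset.sum_eq_single e]
    · rw [if_pos rfl]
      push_cast
      ring
    · intro e' _ hne
      rw [if_neg (Ne.symm hne), mul_zero]
    · intro h
      exact absurd he h
  · rw [if_neg hmn]
    refine Finset.sum_eq_zero fun e he => Finset.sum_eq_zero fun e' he' => ?_
    rw [if_neg, mul_zero]
    intro h
    subst h
    have h1 := ((Multi.mem_SE hP).1 he).2.2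
    have h2 := ((Multi.mem_SE hP).1 he').2.2
    exact hmn (h1.symm.trans h2)

end

end HZS
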