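import Pool.Agent.Work.MP_c51bc2_nt_lb.B_WSM
import Pool.Agent.Work.MP_c51bc2_nt.B_MO
import Pool.Agent.Work.MP_c51bc2_nt.B_CO

/-!
# QCO: the product of a Dirichlet polynomial and a sum over primes
-/

open Finset Complex MeasureTheory

namespace HZS

noncomputable section

theorem p_QCO : Stmt_QCO := by
  classical
  intro D U c q hD hU hc
  set b : ℕ → ℂ := fun n => ∑ x ∈ (D ×ˢ U).filter (fun x => x.1 * x.2 = n), c x.1 * q x.2 with hb
  refine ⟨b, ?_, ?_⟩
  · intro t
    rw [Finset.sum_mul_sum, ← Finset.sum_product']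
    have h1 : ∀ x ∈ D ×ˢ U, x.1 * x.2 ∈ (D ×ˢ U).image (fun x => x.1 * x.2) := fun x hx =>
      Finset.mem_image_of_mem _ hx
    have h2 := Finset.sum_fiberwise_of_maps_to h1
      (fun x => c x.1 * mo x.1 t * (q x.2 * mo x.2 t))
    rw [← h2]
    refine Finset.sum_congr rfl fun n _ => ?_
    rw [hb, Finset.sum_mul]
    refine Finset.sum_congr rfl fun x hx => ?_
    rw [← (Finset.mem_filter.1 hx).2, COx.mo_mul]
    ring
  · intro n hn
    set A : ℝ := ∑ p ∈ U, (n.factorization p : ℝ) * ‖q p‖ with hA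
    have hA0 : 0 ≤ A := Finset.sum_nonneg fun p _ => by positivity
    have hcf : 0 ≤ cf (1 / 2) n := MO_cf_nonneg _ (by norm_num) n
    have h1 : ‖b n‖ ≤ 2 * cf (1 / 2) n * A := by
      have h2 : ‖b n‖ ≤ ∑ x ∈ (D ×ˢ U).filter (fun x => x.1 * x.2 = n),
          2 * cf (1 / 2) n * ((n.factorization x.2 : ℝ) * ‖q x.2‖) := by
        rw [hb]
        refine (norm_sum_le _ _).trans (Finset.sum_le_sum fun x hx => ?_)
        obtain ⟨hx1, hx2⟩ := Finset.mem_filter.1 hx
        obtain ⟨hxD, hxU⟩ := Finset.mem_product.1 hx1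
        have hp := hU _ hxU
        have hdvd : x.2 ∣ n := ⟨x.1, by rw [← hx2, mul_comm]⟩
        have hdiv : n / x.2 = x.1 := by
          rw [← hx2]
          exact Nat.mul_div_cancel _ hp.pos
        have h3 := WSM_cf (1 / 2) hp hn hdvd
        rw [hdiv] at h3
        have h4 : ‖c x.1‖ ≤ 2 * cf (1 / 2) n * (n.factorization x.2 : ℝ) := by
          have := hc x.1 hxD
          linarith
        rw [norm_mul]
        calc ‖c x.1‖ * ‖q x.2‖ ≤ (2 * cf (1 / 2) n * (n.factorization x.2 : ℝ)) * ‖q x.2‖ :=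
              mul_le_mul_of_nonneg_right h4 (norm_nonneg _)
          _ = _ := by ring
      refine h2.trans ?_
      rw [← Finset.mul_sum]
      apply mul_le_mul_of_nonneg_left _ (by positivity)
      have hinj : Set.InjOn (fun x : ℕ × ℕ => x.2)
          ((D ×ˢ U).filter (fun x => x.1 * x.2 = n) : Finset (ℕ × ℕ)) := by
        intro x hx y hy hxy
        have hx' := Finset.mem_filter.1 (Finset.mem_coe.1 hx)
        have hy' := Finset.mem_filter.1 (Finset.mem_coe.1 hy)
        have hxy' : x.2 = y.2 := hxy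
        have hpos : 0 < x.2 := (hU _ (Finset.mem_product.1 hx'.1).2).pos
        have h5 : x.1 * x.2 = y.1 * x.2 := by
          rw [hx'.2]
          conv_rhs => rw [hxy']
          exact hy'.2.symm
        exact Prod.ext (Nat.eq_of_mul_eq_mul_right hpos h5) hxy'
      have h6 : ∑ x ∈ (D ×ˢ U).filter (fun x => x.1 * x.2 = n),
          ((n.factorization x.2 : ℝ) * ‖q x.2‖) =
          ∑ p ∈ ((D ×ˢ U).filter (fun x => x.1 * x.2 = n)).image (fun x => x.2),
            ((n.factorization p : ℝ) * ‖q p‖) := by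
        rw [Finset.sum_image hinj]
      rw [h6, hA]
      apply Finset.sum_le_sum_of_subset_of_nonneg
      · intro p hp
        obtain ⟨x, hx, rfl⟩ := Finset.mem_image.1 hp
        exact (Finset.mem_product.1 (Finset.mem_filter.1 hx).1).2
      · intro p _ _
        positivity
    calc ‖b n‖ ^ 2 ≤ (2 * cf (1 / 2) n * A) ^ 2 := pow_le_pow_left₀ (norm_nonneg _) h1 2
      _ = 4 * cf (1 / 2) n ^ 2 * A ^ 2 := by ring
      _ ≤ 4 * cf (1 / 4) n * A ^ 2 := by
          apply mul_le_mul_of_nonneg_right _ (by positivity)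
          have := MO_cf_sq n
          linarith

end

end HZS
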