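import Pool.Agent.Work.MP_c51bc2_nt_lb.B_QCO

/-!
# QMV: the mean value of `|N|²` times the square of a sum over primes
-/

open Finset Complex MeasureTheory

namespace HZS

noncomputable section

lemma QMV_len {T H : ℝ} (hT : 13824 ≤ T) (hH : T ^ (1 / 2 : ℝ) ≤ H) {Y' : ℕ} (hY'1 : 1 ≤ Y')
    (hY'le : (Y' : ℝ) ≤ 2 * T ^ (1 / 30 : ℝ)) : 4 * (Y' : ℝ) * (1 + Real.log Y') ≤ H := by
  have hT0 : 0 < T := by linarith
  have hTp : 1 ≤ T ^ (1 / 30 : ℝ) := Real.one_le_rpow (by linarith) (by norm_num)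
  have h1 : Real.log Y' ≤ Y' := (Real.log_le_sub_one_of_pos (by positivity)).trans (by linarith)
  have h2 : (T ^ (1 / 30 : ℝ)) ^ 2 ≤ T ^ (1 / 6 : ℝ) := by
    rw [← Real.rpow_natCast, ← Real.rpow_mul hT0.le]
    apply Real.rpow_le_rpow_of_exponent_le (by linarith)
    norm_num
  have h3 : 24 * T ^ (1 / 6 : ℝ) ≤ T ^ (1 / 2 : ℝ) := by
    have h4 : T ^ (1 / 3 : ℝ) * T ^ (1 / 6 : ℝ) = T ^ (1 / 2 : ℝ) := by
      rw [← Real.rpow_add hT0]
      norm_num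
    have h5 : (24 : ℝ) ≤ T ^ (1 / 3 : ℝ) := by
      have h6 : (13824 : ℝ) ^ (1 / 3 : ℝ) = 24 := by
        rw [show (13824 : ℝ) = 24 ^ (3 : ℝ) by norm_num, ← Real.rpow_mul (by norm_num)]
        norm_num
      rw [← h6]
      exact Real.rpow_le_rpow (by norm_num) hT (by norm_num)
    rw [← h4]
    exact mul_le_mul_of_nonneg_right h5 (by positivity)
  have h7 : (0 : ℝ) ≤ Y' := by positivity
  calc 4 * (Y' : ℝ) * (1 + Real.log Y') ≤ 4 * (Y' : ℝ) * (1 + Y') := by gcongr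
    _ ≤ 4 * (2 * T ^ (1 / 30 : ℝ)) * (1 + 2 * T ^ (1 / 30 : ℝ)) := by gcongr
    _ ≤ 4 * (2 * T ^ (1 / 30 : ℝ)) * (3 * T ^ (1 / 30 : ℝ)) := by
        gcongr
        linarith
    _ = 24 * (T ^ (1 / 30 : ℝ)) ^ 2 := by ring
    _ ≤ 24 * T ^ (1 / 6 : ℝ) := by gcongr
    _ ≤ T ^ (1 / 2 : ℝ) := h3
    _ ≤ H := hH

lemma QMV_PU {L : ℝ} {R : ℕ} {X lam : ℕ → ℝ} (hc : IsChain L R X lam) {p : ℕ}
    (hp : p ∈ PU X R) : p.Prime ∧ 100 < (p : ℝ) ∧ (p : ℝ) ≤ X R := by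
  unfold PU at hp
  obtain ⟨i, hi, hpi⟩ := Finset.mem_biUnion.1 hp
  have hiR := mem_range.1 hi
  have h1 := MO_PB hpi (by linarith [MO_X_ge hc (show i + 1 ≤ R by omega)])
  exact ⟨h1.1, lt_of_le_of_lt (MO_X_ge hc hiR.le) h1.2.1,
    h1.2.2.trans (MO_X_mono hc (by omega) le_rfl)⟩

theorem p_QMV (hCO : Stmt_CO) (hMVP : Stmt_MVPs) (hMER : Stmt_MER) (hWSM : Stmt_WSM)
    (hQCO : Stmt_QCO) : Stmt_QMV := by
  classical
  obtain ⟨C, hC0, hC⟩ := MO_PA_sum hMER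
  refine ⟨2 * C, 13824, by positivity, by norm_num, ?_⟩
  intro T H R X lam hT hH hc q
  have hT0 : 0 < T := by linarith
  have hH0 : 0 < H := lt_of_lt_of_le (Real.rpow_pos_of_pos hT0 _) hH
  rcases Nat.eq_zero_or_pos R with hR0 | hRpos
  · subst hR0
    have h0 : PU X 0 = ∅ := by simp [PU]
    simp [h0]
  obtain ⟨R', rfl⟩ : ∃ R', R = R' + 1 := ⟨R - 1, by omega⟩
  set R := R' + 1 with hR
  set G := ∑ i ∈ range R, (KK lam i : ℝ) * Real.log (X (i + 1)) with hG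
  have hG0 : 0 ≤ G := by
    apply sum_nonneg fun i hi => ?_
    have hi' := mem_range.1 hi
    have := MO_X_ge hc (show i + 1 ≤ R by omega)
    exact mul_nonneg (by positivity) (Real.log_nonneg (by linarith))
  set Y := ⌈Real.exp G⌉₊ with hY
  have hYle : Real.exp G ≤ Y := Nat.le_ceil _
  have hYlt : (Y : ℝ) ≤ 2 * Real.exp G := by
    have h1 := Nat.ceil_lt_add_one (Real.exp_pos G).le
    have h2 : 1 ≤ Real.exp G := Real.one_le_exp hG0
    linarith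
  obtain ⟨-, hN, -, -⟩ := hCO (Real.log T) R X lam hc (range R) subset_rfl Y hYle
  set A := (Icc 1 Y).filter (fun d => Okd X lam (range R) d) with hA
  have hNN : ∀ t, NN X lam (range R) t = ∑ x ∈ A, cN X lam (range R) x * mo x t := by
    intro t
    rw [hN t]
    unfold D
    rw [hA, sum_filter]
    apply sum_congr rfl fun x _ => ?_
    split_ifs with h
    · rfl
    · unfold cN
      rw [if_neg h, zero_mul]
  set U := PU X R with hU
  have hUp : ∀ p ∈ U, p.Prime := fun p hp => (QMV_PU hc hp).1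
  have hAd : ∀ d ∈ A, d ≠ 0 := by
    intro d hd
    rw [hA, mem_filter, mem_Icc] at hd
    omega
  have hAc : ∀ d ∈ A, ‖cN X lam (range R) d‖ ≤ cf (1 / 2) d := by
    intro d hd
    rw [hA, mem_filter] at hd
    unfold cN
    rw [if_pos hd.2, Complex.norm_real, Real.norm_eq_abs,
      abs_of_nonneg (MO_cf_nonneg _ (by norm_num) d)]
  obtain ⟨b, hb1, hb2⟩ := hQCO A U (cN X lam (range R)) q hAd hUp hAc
  set I := (A ×ˢ U).image (fun x => x.1 * x.2) with hI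
  -- the size of the integers
  have hLR : Real.log (X R) + G ≤ Real.log T / 30 := by
    have hlam := hc.lam1 R' (by omega)
    have h1 : (KK lam R' : ℝ) + 1 ≤ 53 * lam R' := by
      have := MO_K_le hlam
      linarith
    have h2 := MO_len hc (Real.log_nonneg (by linarith)) (S := range R')
      (range_subset_range.2 (by omega)) (j := R') (by omega) (by simp) h1
    rw [hG, hR, Finset.sum_range_succ]
    linarith
  set Y' := ⌊2 * T ^ (1 / 30 : ℝ)⌋₊ with hY'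
  have hTp : 1 ≤ T ^ (1 / 30 : ℝ) := Real.one_le_rpow (by linarith) (by norm_num)
  have hY'1 : 1 ≤ Y' := Nat.le_floor (by push_cast; linarith)
  have hY'le : (Y' : ℝ) ≤ 2 * T ^ (1 / 30 : ℝ) := Nat.floor_le (by positivity)
  have hIm : ∀ n ∈ I, n ≠ 0 ∧ n ≤ Y' ∧ ∀ p ∈ n.primeFactors, p ∈ U := by
    intro n hn
    obtain ⟨x, hx, rfl⟩ := Finset.mem_image.1 hn
    obtain ⟨hxA, hxU⟩ := Finset.mem_product.1 hx
    have hx0 := hAd _ hxA
    have hp := QMV_PU hc hxU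
    have hxA' := hxA
    rw [hA, mem_filter, mem_Icc] at hxA'
    refine ⟨Nat.mul_ne_zero hx0 hp.1.ne_zero, ?_, ?_⟩
    · apply Nat.le_floor
      push_cast
      have h1 : (x.1 : ℝ) ≤ 2 * Real.exp G := le_trans (by exact_mod_cast hxA'.1.2) hYlt
      have hXR : 0 < X R := by linarith [MO_X_ge hc (le_refl R)]
      calc (x.1 : ℝ) * x.2 ≤ (2 * Real.exp G) * X R := by
            apply mul_le_mul h1 hp.2.2 (by positivity) (by positivity)
        _ = 2 * Real.exp (Real.log (X R) + G) := by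
            rw [Real.exp_add, Real.exp_log hXR]
            ring
        _ ≤ 2 * Real.exp (Real.log T / 30) := by gcongr
        _ = 2 * T ^ (1 / 30 : ℝ) := by
            rw [Real.rpow_def_of_pos hT0]
            congr 2
            ring
    · intro p hpx
      rw [Nat.primeFactors_mul hx0 hp.1.ne_zero, Finset.mem_union] at hpx
      rcases hpx with h | h
      · obtain ⟨i, hi, hpi⟩ := hxA'.2.2.1 p h
        rw [hU]
        exact Finset.mem_biUnion.2 ⟨i, hi, hpi⟩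
      · rw [hp.1.primeFactors, Finset.mem_singleton] at h
        rw [h]
        exact hxU
  have hlen := QMV_len hT hH hY'1 hY'le
  have hmain := hMVP T H Y' I {1} b (fun _ => 1) hH0 hY'1 (by
      intro x hx y hy
      rw [Finset.mem_singleton] at hy
      subst hy
      have := hIm x hx
      omega) (by
      intro x _ y hy x' _ y' hy' h
      rw [Finset.mem_singleton] at hy hy'
      subst hy hy'
      omega) hlen
  have hint : ∀ t, ‖NN X lam (range R) t‖ ^ 2 * ‖∑ p ∈ U, q p * mo p t‖ ^ 2 =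
      ‖∑ x ∈ I, b x * mo x t‖ ^ 2 * ‖∑ y ∈ ({1} : Finset ℕ), (1 : ℂ) * mo y t‖ ^ 2 := by
    intro t
    rw [hNN t, ← mul_pow, ← norm_mul, hb1 t, Finset.sum_singleton, MO_one]
    simp
  simp only [hint]
  refine hmain.trans ?_
  -- the diagonal
  set S' := I.biUnion Nat.divisors with hS'
  have hS1 : ∀ d ∈ S', d ≠ 0 ∧ ∀ p ∈ d.primeFactors, p ∈ U := by
    intro d hd
    obtain ⟨n, hn, hdn⟩ := Finset.mem_biUnion.1 hd
    rw [Nat.mem_divisors] at hdn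
    refine ⟨ne_zero_of_dvd_ne_zero hdn.2 hdn.1, fun p hp => ?_⟩
    exact (hIm n hn).2.2 p (Nat.primeFactors_mono hdn.1 hdn.2 hp)
  have hS2 : ∀ d ∈ S', ∀ p ∈ U, p ∣ d → d / p ∈ S' := by
    intro d hd p _ hpd
    obtain ⟨n, hn, hdn⟩ := Finset.mem_biUnion.1 hd
    rw [Nat.mem_divisors] at hdn
    exact Finset.mem_biUnion.2 ⟨n, hn, Nat.mem_divisors.2
      ⟨(Nat.div_dvd_of_dvd hpd).trans hdn.1, hdn.2⟩⟩
  have hIS : I ⊆ S' := by
    intro n hn
    exact Finset.mem_biUnion.2 ⟨n, hn, Nat.mem_divisors_self n (hIm n hn).1⟩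
  obtain ⟨-, hW⟩ := hWSM U S' hUp hS1 hS2 (1 / 4) (fun p => ‖q p‖) (by norm_num)
    (fun p _ => norm_nonneg _)
  set a2 : ℝ := ∑ p ∈ U, ‖q p‖ ^ 2 / (p : ℝ) with ha2
  set a1 : ℝ := ∑ p ∈ U, ‖q p‖ / (p : ℝ) with ha1
  have ha20 : 0 ≤ a2 := Finset.sum_nonneg fun p _ => by positivity
  have ha10 : 0 ≤ a1 := Finset.sum_nonneg fun p _ => by positivity
  have hXR := MO_X_ge hc (le_refl R)
  have hsum : ∑ p ∈ U, (1 / (p : ℝ)) ≤ ∑ p ∈ PA (X R), (1 / (p : ℝ)) := by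
    apply Finset.sum_le_sum_of_subset_of_nonneg
    · intro p hp
      have h1 := QMV_PU hc hp
      unfold PA
      rw [mem_filter, mem_Icc]
      exact ⟨⟨h1.1.one_lt.le, Nat.le_floor h1.2.2⟩, h1.1, h1.2.1⟩
    · intro p _ _
      positivity
  have hexp : Real.exp (1 / 4 * ∑ p ∈ U, (1 / (p : ℝ))) ≤ C * Real.log (X R) ^ (1 / 4 : ℝ) := by
    refine le_trans ?_ (hC (X R) hXR)
    apply Real.exp_le_exp.2
    linarith
  have hdiag : ∑ x ∈ I, ‖b x‖ ^ 2 / (x : ℝ) ≤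
      C * Real.log (X R) ^ (1 / 4 : ℝ) * (a2 + a1 ^ 2) := by
    calc ∑ x ∈ I, ‖b x‖ ^ 2 / (x : ℝ)
        ≤ ∑ x ∈ I, 4 * (cf (1 / 4) x / (x : ℝ) *
            (∑ p ∈ U, (x.factorization p : ℝ) * ‖q p‖) ^ 2) := by
          refine Finset.sum_le_sum fun x hx => ?_
          have hx0 := (hIm x hx).1
          have hx1 : (0 : ℝ) < x := by exact_mod_cast Nat.pos_of_ne_zero hx0
          rw [div_le_iff₀ hx1]
          refine (hb2 x hx0).trans (le_of_eq ?_)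
          field_simp
      _ ≤ ∑ x ∈ S', 4 * (cf (1 / 4) x / (x : ℝ) *
            (∑ p ∈ U, (x.factorization p : ℝ) * ‖q p‖) ^ 2) := by
          apply Finset.sum_le_sum_of_subset_of_nonneg hIS
          intro x _ _
          have := MO_cf_nonneg (1 / 4) (by norm_num) x
          positivity
      _ = 4 * ∑ x ∈ S', cf (1 / 4) x / (x : ℝ) *
            (∑ p ∈ U, (x.factorization p : ℝ) * ‖q p‖) ^ 2 := by rw [Finset.mul_sum]
      _ ≤ 4 * (Real.exp (1 / 4 * ∑ p ∈ U, (1 / (p : ℝ))) *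
            (1 / 4 * a2 + (1 / 4 * a1) ^ 2)) := by linarith
      _ ≤ 4 * ((C * Real.log (X R) ^ (1 / 4 : ℝ)) * (1 / 4 * a2 + (1 / 4 * a1) ^ 2)) := by
          gcongr
      _ = (C * Real.log (X R) ^ (1 / 4 : ℝ)) * (a2 + 1 / 4 * a1 ^ 2) := by ring
      _ ≤ C * Real.log (X R) ^ (1 / 4 : ℝ) * (a2 + a1 ^ 2) := by
          have h1 : 0 ≤ C * Real.log (X R) ^ (1 / 4 : ℝ) :=
            mul_nonneg hC0.le (Real.rpow_nonneg (Real.log_nonneg (by linarith)) _)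
          apply mul_le_mul_of_nonneg_left _ h1
          nlinarith [sq_nonneg a1]
  have hone : ∑ y ∈ ({1} : Finset ℕ), ‖(1 : ℂ)‖ ^ 2 / (y : ℝ) = 1 := by simp
  calc 2 * H * ((∑ x ∈ I, ‖b x‖ ^ 2 / (x : ℝ)) * ∑ y ∈ ({1} : Finset ℕ), ‖(1 : ℂ)‖ ^ 2 / (y : ℝ))
      = 2 * H * ∑ x ∈ I, ‖b x‖ ^ 2 / (x : ℝ) := by rw [hone, mul_one]
    _ ≤ 2 * H * (C * Real.log (X R) ^ (1 / 4 : ℝ) * (a2 + a1 ^ 2)) := by gcongr
    _ = 2 * C * H * Real.log (X R) ^ (1 / 4 : ℝ) * (a2 + a1 ^ 2) := by ring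

end

end HZS
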