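import Pool.Agent.Work.MP_c51bc2_nt_lb.Interface
import Pool.Agent.Work.MP_c51bc2_nt.B_MO

/-!
# Block SEB: the diagonal sum of the blocks `j ≥ 1`
-/

open Finset Complex MeasureTheory

namespace HZS

theorem SEB_mem {L : ℝ} {R : ℕ} {X lam : ℕ → ℝ} (hc : IsChain L R X lam) (hR : 1 ≤ R) {d : ℕ}
    (hd : Okd X lam (Ico 1 R) d) : ∀ p ∈ d.primeFactors, p ∈ PU X R \ PB X 0 := by
  intro p hp
  obtain ⟨i, hi, hpi⟩ := hd.2.1 p hp
  rw [mem_Ico] at hi
  rw [mem_sdiff]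
  refine ⟨mem_biUnion.2 ⟨i, mem_range.2 hi.2, hpi⟩, fun h0 => ?_⟩
  have := MO_disj hc hi.2 (show 0 < R by omega) hpi h0
  omega

theorem p_SEB (hW : Stmt_WSM) : Stmt_SEB := by
  intro L R X lam hc hR Y
  classical
  obtain ⟨P, hP⟩ : ∃ P : Finset ℕ, P = PU X R \ PB X 0 := ⟨_, rfl⟩
  obtain ⟨S, hS⟩ : ∃ S : Finset ℕ, S = (Icc 1 Y).filter (fun d => ∀ p ∈ d.primeFactors, p ∈ P) :=
    ⟨_, rfl⟩
  have hprime : ∀ p ∈ P, p.Prime := by
    intro p hp
    rw [hP, mem_sdiff] at hp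
    obtain ⟨i, -, hi⟩ := mem_biUnion.1 hp.1
    exact (mem_filter.1 hi).2.1
  have h1 := (hW P S hprime (fun d hd => by
      rw [hS, mem_filter, mem_Icc] at hd
      exact ⟨by omega, hd.2⟩) (fun d hd p hp hpd => by
      rw [hS, mem_filter, mem_Icc] at hd ⊢
      have hp0 : 0 < p := (hprime p hp).pos
      have hd0 : 0 < d := by omega
      refine ⟨⟨Nat.div_pos (Nat.le_of_dvd hd0 hpd) hp0, (Nat.div_le_self d p).trans hd.1.2⟩,
        fun q hq => hd.2 q ?_⟩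
      exact Nat.primeFactors_mono (Nat.div_dvd_of_dvd hpd) (by omega) hq) (1 / 4) (fun _ => 0)
    (by norm_num) (fun _ _ => le_refl _)).1
  rw [← hP]
  refine le_trans ?_ h1
  have h2 : ∑ y ∈ Icc 1 Y, ‖cN X lam (Ico 1 R) y‖ ^ 2 / (y : ℝ) =
      ∑ y ∈ S, ‖cN X lam (Ico 1 R) y‖ ^ 2 / (y : ℝ) := by
    rw [hS]
    symm
    refine sum_subset (filter_subset _ _) fun y hy hy2 => ?_
    have h3 : ¬ Okd X lam (Ico 1 R) y := by
      intro h
      refine hy2 (mem_filter.2 ⟨hy, ?_⟩)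
      rw [hP]
      exact SEB_mem hc hR h
    unfold cN
    rw [if_neg h3]
    simp
  rw [h2]
  refine sum_le_sum fun y hy => ?_
  have h4 : ‖cN X lam (Ico 1 R) y‖ ^ 2 ≤ cf (1 / 4) y := by
    unfold cN
    split_ifs
    · rw [Complex.norm_real, Real.norm_eq_abs, sq_abs]
      exact MO_cf_sq y
    · rw [norm_zero]
      have : 0 ≤ cf (1 / 4) y := by
        unfold cf
        exact prod_nonneg fun p _ => by positivity
      simpa using this
  exact div_le_div_of_nonneg_right h4 (Nat.cast_nonneg _)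

end HZS
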