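import Pool.Agent.Work.MP_c51bc2_nt_lb.Interface
import Pool.Agent.Work.MP_c51bc2_nt.B_TR

/-!
# Block SNC (typed by helper35): the Taylor polynomial of `sin y / y`
-/

open Finset Complex MeasureTheory

namespace HZS

theorem SNC_hasSum (y : ℝ) :
    HasSum (fun k : ℕ => (-1 : ℝ) ^ k * y ^ (2 * k) / ((2 * k + 1).factorial : ℝ))
      (Real.sinc y) := by
  by_cases hy : y = 0
  · subst hy
    rw [Real.sinc_zero]
    have h := hasSum_single (f := fun k : ℕ =>
      (-1 : ℝ) ^ k * (0 : ℝ) ^ (2 * k) / ((2 * k + 1).factorial : ℝ)) 0 (by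
        intro k hk
        have h2 : 2 * k ≠ 0 := by omega
        simp [h2])
    simpa using h
  · rw [Real.sinc_of_ne_zero hy]
    have h := (Real.hasSum_sin y).div_const y
    have e : (fun k : ℕ => (-1 : ℝ) ^ k * y ^ (2 * k) / ((2 * k + 1).factorial : ℝ)) =
        fun k : ℕ => (-1 : ℝ) ^ k * y ^ (2 * k + 1) / ((2 * k + 1).factorial : ℝ) / y := by
      funext k
      rw [pow_succ]
      field_simp
    rw [e]
    exact h

theorem SNC_term (y : ℝ) (k : ℕ) :
    |(-1 : ℝ) ^ k * y ^ (2 * k) / ((2 * k + 1).factorial : ℝ)| ≤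
      |y| ^ (2 * k) / ((2 * k).factorial : ℝ) := by
  rw [abs_div, abs_mul, abs_pow, abs_neg, abs_one, one_pow, one_mul, abs_pow,
    Nat.abs_cast]
  apply div_le_div_of_nonneg_left (by positivity) (by positivity)
  exact_mod_cast Nat.factorial_le (Nat.le_succ (2 * k))

theorem SNC_fin (y : ℝ) (a b : ℕ) :
    ∑ k ∈ Ico a b, |(-1 : ℝ) ^ k * y ^ (2 * k) / ((2 * k + 1).factorial : ℝ)| ≤
      ∑ m ∈ Ico (2 * a) (2 * b), |y| ^ m / (m.factorial : ℝ) := by
  have h1 : ∑ k ∈ Ico a b, |(-1 : ℝ) ^ k * y ^ (2 * k) / ((2 * k + 1).factorial : ℝ)| ≤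
      ∑ k ∈ Ico a b, |y| ^ (2 * k) / ((2 * k).factorial : ℝ) :=
    Finset.sum_le_sum fun k _ => SNC_term y k
  refine h1.trans ?_
  have h2 : ∑ k ∈ Ico a b, |y| ^ (2 * k) / ((2 * k).factorial : ℝ) =
      ∑ m ∈ (Ico a b).image (fun k => 2 * k), |y| ^ m / (m.factorial : ℝ) := by
    rw [Finset.sum_image]
    intro k _ k' _ h
    have h' : 2 * k = 2 * k' := h
    omega
  rw [h2]
  apply Finset.sum_le_sum_of_subset_of_nonneg
  · intro m hm
    rw [Finset.mem_image] at hm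
    obtain ⟨k, hk, rfl⟩ := hm
    rw [Finset.mem_Ico] at hk ⊢
    omega
  · intro m _ _
    positivity

theorem SNC_ico (y : ℝ) (a b : ℕ) (hab : a ≤ b) :
    ∑ m ∈ Ico a b, |y| ^ m / (m.factorial : ℝ) ≤
      Real.exp |y| - ∑ m ∈ range a, |y| ^ m / (m.factorial : ℝ) := by
  have h1 := Finset.sum_range_add_sum_Ico (fun m => |y| ^ m / (m.factorial : ℝ)) hab
  have h2 := Real.sum_le_exp_of_nonneg (abs_nonneg y) b
  linarith

theorem SNC_diff (K : ℕ) (y : ℝ) :
    |kap K y - Real.sinc y| ≤ Real.exp (-(4 * K)) * Real.exp (8 * |y|) := by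
  have ht := (SNC_hasSum y).tendsto_sum_nat
  have ht2 : Filter.Tendsto (fun N : ℕ => |kap K y - ∑ k ∈ range N,
      (-1 : ℝ) ^ k * y ^ (2 * k) / ((2 * k + 1).factorial : ℝ)|) Filter.atTop
      (nhds |kap K y - Real.sinc y|) := (ht.const_sub _).abs
  refine le_of_tendsto ht2 ?_
  filter_upwards [Filter.eventually_ge_atTop (K + 1)] with N hN
  have h1 := Finset.sum_range_add_sum_Ico
    (fun k => (-1 : ℝ) ^ k * y ^ (2 * k) / ((2 * k + 1).factorial : ℝ)) hN
  have h2 : kap K y - ∑ k ∈ range N, (-1 : ℝ) ^ k * y ^ (2 * k) / ((2 * k + 1).factorial : ℝ) =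
      -∑ k ∈ Ico (K + 1) N, (-1 : ℝ) ^ k * y ^ (2 * k) / ((2 * k + 1).factorial : ℝ) := by
    rw [← h1]
    unfold kap
    ring
  rw [h2, abs_neg]
  refine (Finset.abs_sum_le_sum_abs _ _).trans ?_
  refine (SNC_fin y (K + 1) N).trans ?_
  refine (SNC_ico y _ _ (by omega)).trans ?_
  refine (TRx.tail_le |y| (abs_nonneg y) (2 * (K + 1))).trans ?_
  have h8 := TRx.exp_two_le
  apply mul_le_mul _ _ (Real.exp_pos _).le (Real.exp_pos _).le
  · apply Real.exp_le_exp.2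
    push_cast
    nlinarith
  · apply Real.exp_le_exp.2
    exact mul_le_mul_of_nonneg_right h8 (abs_nonneg y)

theorem SNC_abs (K : ℕ) (y : ℝ) : |kap K y| ≤ Real.exp |y| := by
  unfold kap
  refine (Finset.abs_sum_le_sum_abs _ _).trans ?_
  have h1 := SNC_fin y 0 (K + 1)
  rw [Nat.mul_zero, ← Finset.range_eq_Ico, ← Finset.range_eq_Ico] at h1
  exact h1.trans (Real.sum_le_exp_of_nonneg (abs_nonneg y) _)

theorem SNC_sinc (y : ℝ) (hy : |y| ≤ 1) : 5 / 6 ≤ Real.sinc y := by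
  have key : ∀ x : ℝ, 0 < x → x ≤ 1 → 5 / 6 ≤ Real.sinc x := by
    intro x hx hx1
    rw [Real.sinc_of_ne_zero hx.ne', le_div_iff₀ hx]
    have h := Real.sin_gt_sub_cube hx
    nlinarith [mul_nonneg hx.le (mul_nonneg (sub_nonneg.2 hx1) (by linarith : 0 ≤ 1 + x))]
  rcases lt_trichotomy y 0 with h | h | h
  · rw [← Real.sinc_neg]
    rw [abs_of_neg h] at hy
    exact key (-y) (by linarith) hy
  · rw [h, Real.sinc_zero]
    norm_num
  · rw [abs_of_pos h] at hy
    exact key y h hy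

theorem p_SNC : Stmt_SNC := by
  refine ⟨fun K y => ⟨SNC_diff K y, SNC_abs K y⟩, fun K y hK hy => ?_⟩
  have h1 := SNC_sinc y hy
  have h2 := SNC_diff K y
  have hKR : (50 : ℝ) ≤ K := by exact_mod_cast hK
  have h3 : Real.exp (-(4 * K)) * Real.exp (8 * |y|) ≤ 1 / 100 := by
    rw [← Real.exp_add]
    have h4 : -(4 * (K : ℝ)) + 8 * |y| ≤ -100 := by linarith
    refine (Real.exp_le_exp.2 h4).trans ?_
    rw [Real.exp_neg, ← one_div]
    apply one_div_le_one_div_of_le (by norm_num)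
    have := Real.add_one_le_exp (100 : ℝ)
    linarith
  have h5 := abs_le.1 (h2.trans h3)
  have h6 : 4 / 5 ≤ kap K y := by linarith [h5.1]
  nlinarith

end HZS
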