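import Pool.Agent.Work.MP_c51bc2_nt_lb.Interface

/-!
# MP_c51bc2_nt, THEOREM LB, block SPH: the tilted mass of a narrow band in the random model
-/

open Finset Complex MeasureTheory

namespace HZS

noncomputable section

theorem SPH_fin (P : Finset ℕ) : IsFiniteMeasure (tor P) := by
  unfold tor
  infer_instance

theorem SPH_cont (P : Finset ℕ) : Continuous fun θ => (TP P θ).re := by
  unfold TP
  fun_prop

/-- The bound of the random sum. -/
def SPH_B (P : Finset ℕ) : ℝ := ∑ p : P, (Real.sqrt ((p : ℕ) : ℝ))⁻¹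

theorem SPH_bound (P : Finset ℕ) (θ : P → ℝ) : (TP P θ).re ≤ SPH_B P := by
  refine (Complex.re_le_norm _).trans ?_
  unfold TP SPH_B
  refine (norm_sum_le _ _).trans (Finset.sum_le_sum fun p _ => ?_)
  rw [norm_mul, Complex.norm_exp_ofReal_mul_I, mul_one, Complex.norm_real, Real.norm_eq_abs,
    abs_of_nonneg (by positivity)]

/-- The weight of the Fejer kernel. -/
def SPH_w (s : ℝ) : ℝ := max 0 (1 - |s|)

theorem SPH_w_cont : Continuous SPH_w := by
  unfold SPH_w
  fun_prop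

theorem SPH_w_nonneg (s : ℝ) : 0 ≤ SPH_w s := le_max_left _ _

theorem SPH_w_le (s : ℝ) : SPH_w s ≤ 1 := max_le zero_le_one (by linarith [abs_nonneg s])

/-- Fejer kernel with the weight. -/
theorem SPH_fej (hFEJ : Stmt_FEJ) (y : ℝ) :
    ∫ s in Set.Ioc (-1 : ℝ) 1, SPH_w s * Real.cos (2 * s * y) = Real.sinc y ^ 2 := by
  rw [hFEJ y, intervalIntegral.integral_of_le (by norm_num)]
  refine setIntegral_congr_fun measurableSet_Ioc fun s hs => ?_
  have h1 : |s| ≤ 1 := abs_le.2 ⟨hs.1.le, hs.2⟩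
  have h2 : SPH_w s = 1 - |s| := max_eq_right (by linarith)
  show SPH_w s * Real.cos (2 * s * y) = (1 - |s|) * Real.cos (2 * s * y)
  rw [h2]

/-- One frequency. -/
theorem SPH_freq (hCHF : Stmt_CHF) (P : Finset ℕ) (hP : ∀ p ∈ P, p.Prime ∧ 100 < p) (x ξ : ℝ)
    (hξ : |ξ| ≤ 1) :
    |∫ θ, Real.exp (TP P θ).re * Real.cos (ξ * ((TP P θ).re - x)) ∂(tor P)| ≤
      2 * Real.exp ((1 - ξ ^ 2) / 4 * VV P) := by
  have hfin := SPH_fin P
  have hr := SPH_cont P
  obtain ⟨G, hG⟩ : ∃ G : (P → ℝ) → ℂ, ∀ θ, G θ = cexp ((1 + ξ * I) * (((TP P θ).re : ℝ) : ℂ)) :=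
    ⟨_, fun _ => rfl⟩
  have hGc : Continuous G := by
    have h1 : G = fun θ => cexp ((1 + ξ * I) * (((TP P θ).re : ℝ) : ℂ)) := funext hG
    rw [h1]
    exact Complex.continuous_exp.comp (continuous_const.mul (Complex.continuous_ofReal.comp hr))
  have hGi : Integrable G (tor P) := by
    refine Integrable.of_bound hGc.aestronglyMeasurable (Real.exp (SPH_B P))
      (Filter.Eventually.of_forall fun θ => ?_)
    rw [hG, Complex.norm_exp]
    have h1 : ((1 + ξ * I) * (((TP P θ).re : ℝ) : ℂ)).re = (TP P θ).re := by simp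
    rw [h1]
    exact Real.exp_le_exp.2 (SPH_bound P θ)
  obtain ⟨c, hc⟩ : ∃ c : ℂ, c = cexp (((-(ξ * x) : ℝ) : ℂ) * I) := ⟨_, rfl⟩
  have hcn : ‖c‖ = 1 := by
    rw [hc, Complex.norm_exp_ofReal_mul_I]
  have hcG : Integrable (fun θ => c * G θ) (tor P) := hGi.const_mul c
  have h1 : ∀ θ, Real.exp (TP P θ).re * Real.cos (ξ * ((TP P θ).re - x)) = (c * G θ).re := by
    intro θ
    rw [hG, hc, ← Complex.exp_add, Complex.exp_re]
    have h2 : (((-(ξ * x) : ℝ) : ℂ) * I + (1 + ξ * I) * (((TP P θ).re : ℝ) : ℂ)).re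
        = (TP P θ).re := by simp
    have h3 : (((-(ξ * x) : ℝ) : ℂ) * I + (1 + ξ * I) * (((TP P θ).re : ℝ) : ℂ)).im
        = ξ * ((TP P θ).re - x) := by
      simp
      ring
    rw [h2, h3]
  have h2 : ∫ θ, Real.exp (TP P θ).re * Real.cos (ξ * ((TP P θ).re - x)) ∂(tor P)
      = (c * ∫ θ, G θ ∂(tor P)).re := by
    rw [← integral_const_mul]
    have h3 := Complex.reCLM.integral_comp_comm hcG
    simp only [Complex.reCLM_apply] at h3
    rw [← h3]
    exact integral_congr_ae (Filter.Eventually.of_forall h1)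
  rw [h2]
  refine (Complex.abs_re_le_norm _).trans ?_
  rw [norm_mul, hcn, one_mul]
  have h4 := hCHF P hP ξ hξ
  have h5 : G = fun θ => cexp ((1 + ξ * I) * (((TP P θ).re : ℝ) : ℂ)) := funext hG
  rw [h5]
  exact h4

theorem p_SPH (hCHF : Stmt_CHF) (hFEJ : Stmt_FEJ) : Stmt_SPH := by
  intro P hP hV x η hη
  have hfin := SPH_fin P
  have hr := SPH_cont P
  have hη0 : 0 < η := by linarith
  obtain ⟨g, hg⟩ : ∃ g : (P → ℝ) → ℝ → ℝ, ∀ θ s, g θ s = SPH_w s *
      (Real.exp (TP P θ).re * Real.cos (2 * s * (((TP P θ).re - x) / η))) :=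
    ⟨_, fun _ _ => rfl⟩
  -- the integrand
  have h1 : ∀ θ, Real.exp (TP P θ).re * Real.sinc (((TP P θ).re - x) / η) ^ 2
      = ∫ s in Set.Ioc (-1 : ℝ) 1, g θ s := by
    intro θ
    rw [← SPH_fej hFEJ, ← integral_const_mul]
    refine integral_congr_ae (Filter.Eventually.of_forall fun s => ?_)
    show Real.exp (TP P θ).re * (SPH_w s * Real.cos (2 * s * (((TP P θ).re - x) / η))) = g θ s
    rw [hg]
    ring
  have hint : Integrable (Function.uncurry g)
      ((tor P).prod ((volume : Measure ℝ).restrict (Set.Ioc (-1) 1))) := by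
    have hc : Continuous (Function.uncurry g) := by
      have h2 : Function.uncurry g = fun q : (P → ℝ) × ℝ => SPH_w q.2 *
          (Real.exp (TP P q.1).re * Real.cos (2 * q.2 * (((TP P q.1).re - x) / η))) := by
        funext q
        exact hg q.1 q.2
      rw [h2]
      have h3 : Continuous fun q : (P → ℝ) × ℝ => (TP P q.1).re := hr.comp continuous_fst
      have h4 : Continuous fun q : (P → ℝ) × ℝ => SPH_w q.2 := SPH_w_cont.comp continuous_snd
      fun_prop
    refine Integrable.of_bound hc.aestronglyMeasurable (Real.exp (SPH_B P))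
      (Filter.Eventually.of_forall fun q => ?_)
    show ‖g q.1 q.2‖ ≤ _
    rw [hg, norm_mul, norm_mul, Real.norm_eq_abs, Real.norm_eq_abs, Real.norm_eq_abs,
      abs_of_nonneg (SPH_w_nonneg _), abs_of_pos (Real.exp_pos _)]
    have h5 := Real.abs_cos_le_one (2 * q.2 * (((TP P q.1).re - x) / η))
    have h6 := Real.exp_le_exp.2 (SPH_bound P q.1)
    have h7 : Real.exp (TP P q.1).re * |Real.cos (2 * q.2 * (((TP P q.1).re - x) / η))|
        ≤ Real.exp (SPH_B P) * 1 :=
      mul_le_mul h6 h5 (abs_nonneg _) (Real.exp_pos _).le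
    calc SPH_w q.2 * (Real.exp (TP P q.1).re *
          |Real.cos (2 * q.2 * (((TP P q.1).re - x) / η))|)
        ≤ 1 * (Real.exp (SPH_B P) * 1) :=
          mul_le_mul (SPH_w_le _) h7 (by positivity) zero_le_one
      _ = Real.exp (SPH_B P) := by ring
  have h2 : ∫ θ, Real.exp (TP P θ).re * Real.sinc (((TP P θ).re - x) / η) ^ 2 ∂(tor P)
      = ∫ s in Set.Ioc (-1 : ℝ) 1, ∫ θ, g θ s ∂(tor P) := by
    rw [← integral_integral_swap hint]
    exact integral_congr_ae (Filter.Eventually.of_forall h1)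
  -- the bound for one frequency
  obtain ⟨b, hb⟩ : ∃ b, b = VV P / η ^ 2 := ⟨_, rfl⟩
  have hb0 : 0 < b := by
    rw [hb]
    positivity
  have h3 : ∀ s, ∫ θ, g θ s ∂(tor P) ≤ 2 * Real.exp (VV P / 4) * Real.exp (-b * s ^ 2) := by
    intro s
    have h4 : ∫ θ, g θ s ∂(tor P) = SPH_w s *
        ∫ θ, Real.exp (TP P θ).re * Real.cos ((2 * s / η) * ((TP P θ).re - x)) ∂(tor P) := by
      rw [← integral_const_mul]
      refine integral_congr_ae (Filter.Eventually.of_forall fun θ => ?_)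
      show g θ s = _
      rw [hg]
      have h5 : 2 * s * (((TP P θ).re - x) / η) = (2 * s / η) * ((TP P θ).re - x) := by
        ring
      rw [h5]
    rw [h4]
    by_cases hs : |s| ≤ 1
    · have h5 : |2 * s / η| ≤ 1 := by
        rw [abs_div, abs_mul, abs_of_pos hη0, abs_two, div_le_one hη0]
        linarith
      have h6 := SPH_freq hCHF P hP x (2 * s / η) h5
      have h7 : (1 - (2 * s / η) ^ 2) / 4 * VV P = VV P / 4 + -b * s ^ 2 := by
        rw [hb]
        field_simp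
        ring
      rw [h7, Real.exp_add] at h6
      have h8 := le_abs_self (∫ θ, Real.exp (TP P θ).re *
        Real.cos ((2 * s / η) * ((TP P θ).re - x)) ∂(tor P))
      have h9 : 0 ≤ 2 * Real.exp (VV P / 4) * Real.exp (-b * s ^ 2) := by positivity
      calc SPH_w s * ∫ θ, Real.exp (TP P θ).re *
            Real.cos ((2 * s / η) * ((TP P θ).re - x)) ∂(tor P)
          ≤ SPH_w s * (2 * Real.exp (VV P / 4) * Real.exp (-b * s ^ 2)) :=
            mul_le_mul_of_nonneg_left (by linarith) (SPH_w_nonneg s)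
        _ ≤ 1 * (2 * Real.exp (VV P / 4) * Real.exp (-b * s ^ 2)) :=
            mul_le_mul_of_nonneg_right (SPH_w_le s) h9
        _ = _ := one_mul _
    · have h5 : SPH_w s = 0 := max_eq_left (by linarith [not_le.1 hs])
      rw [h5, zero_mul]
      positivity
  have hgi : Integrable (fun s : ℝ => 2 * Real.exp (VV P / 4) * Real.exp (-b * s ^ 2)) :=
    (integrable_exp_neg_mul_sq hb0).const_mul _
  have h4 : ∫ s in Set.Ioc (-1 : ℝ) 1, ∫ θ, g θ s ∂(tor P)
      ≤ ∫ s in Set.Ioc (-1 : ℝ) 1, 2 * Real.exp (VV P / 4) * Real.exp (-b * s ^ 2) :=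
    integral_mono hint.integral_prod_right hgi.integrableOn h3
  have h5 : ∫ s in Set.Ioc (-1 : ℝ) 1, 2 * Real.exp (VV P / 4) * Real.exp (-b * s ^ 2)
      ≤ ∫ s : ℝ, 2 * Real.exp (VV P / 4) * Real.exp (-b * s ^ 2) :=
    setIntegral_le_integral hgi (Filter.Eventually.of_forall fun s => by
      show 0 ≤ 2 * Real.exp (VV P / 4) * Real.exp (-b * s ^ 2)
      positivity)
  have h5' : ∫ s : ℝ, 2 * Real.exp (VV P / 4) * Real.exp (-b * s ^ 2)
      = 2 * Real.exp (VV P / 4) * Real.sqrt (Real.pi / b) := by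
    rw [integral_const_mul, integral_gaussian]
  rw [h5'] at h5
  have h6 : Real.sqrt (Real.pi / b) ≤ 2 * (η / Real.sqrt (VV P)) := by
    rw [hb, Real.sqrt_le_left (by positivity), mul_pow, div_pow, Real.sq_sqrt hV.le]
    have h7 : Real.pi / (VV P / η ^ 2) = Real.pi * (η ^ 2 / VV P) := by
      field_simp
    rw [h7]
    have h8 : Real.pi ≤ 2 ^ 2 := by linarith [Real.pi_le_four]
    exact mul_le_mul_of_nonneg_right h8 (by positivity)
  rw [h2]
  calc ∫ s in Set.Ioc (-1 : ℝ) 1, ∫ θ, g θ s ∂(tor P)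
      ≤ 2 * Real.exp (VV P / 4) * Real.sqrt (Real.pi / b) := h4.trans h5
    _ ≤ 2 * Real.exp (VV P / 4) * (2 * (η / Real.sqrt (VV P))) :=
        mul_le_mul_of_nonneg_left h6 (by positivity)
    _ = 4 * Real.exp (VV P / 4) * (η / Real.sqrt (VV P)) := by ring

end

end HZS
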