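import Pool.Agent.Work.MP_c51bc2_nt_lb.Interface
import Pool.Agent.Work.MP_c51bc2_nt.B_MO

/-! # Block TLB (MP_c51bc2, THEOREM LB, helper95): the blocks `j ≥ 1` are small in the mean -/

open Finset Complex MeasureTheory

namespace HZS

noncomputable section

theorem TLB_set {L : ℝ} {R : ℕ} {X lam : ℕ → ℝ} (hc : IsChain L R X lam) :
    PU X R \ PB X 0 = (Ico 1 R).biUnion (PB X) := by
  ext p
  simp only [PU, mem_sdiff, mem_biUnion, mem_range, mem_Ico]
  constructor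
  · rintro ⟨⟨j, hj, hp⟩, h0⟩
    refine ⟨j, ⟨?_, hj⟩, hp⟩
    rcases Nat.eq_zero_or_pos j with h | h
    · subst h
      exact absurd hp h0
    · exact h
  · rintro ⟨j, ⟨h1, hj⟩, hp⟩
    refine ⟨⟨j, hj, hp⟩, fun h0 => ?_⟩
    have := MO_disj hc (by omega) hj h0 hp
    omega

theorem TLB_sum {L : ℝ} {R : ℕ} {X lam : ℕ → ℝ} (hc : IsChain L R X lam) (t : ℝ) :
    ∑ p ∈ PU X R, (if p ∈ PB X 0 then (0 : ℂ) else 1) * mo p t = ∑ j ∈ Ico 1 R, PP X j t := by
  have h1 : ∑ p ∈ PU X R, (if p ∈ PB X 0 then (0 : ℂ) else 1) * mo p t =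
      ∑ p ∈ PU X R \ PB X 0, mo p t := by
    rw [← Finset.sum_filter_add_sum_filter_not (PU X R) (fun p => p ∈ PB X 0)]
    rw [Finset.sum_eq_zero, zero_add]
    · rw [Finset.sdiff_eq_filter]
      apply Finset.sum_congr rfl
      intro p hp
      rw [if_neg (mem_filter.1 hp).2, one_mul]
    · intro p hp
      rw [if_pos (mem_filter.1 hp).2, zero_mul]
  rw [h1, TLB_set hc, Finset.sum_biUnion]
  · rfl
  · intro i hi j hj hij
    have hi' := mem_Ico.1 (Finset.mem_coe.1 hi)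
    have hj' := mem_Ico.1 (Finset.mem_coe.1 hj)
    exact Finset.disjoint_left.2 fun p hpi hpj => hij (MO_disj hc hi'.2 hj'.2 hpi hpj)

theorem TLB_w (X : ℕ → ℝ) (R n : ℕ) (hn : n ≠ 0) :
    ∑ p ∈ PU X R, ‖(if p ∈ PB X 0 then (0 : ℂ) else 1)‖ ^ n / (p : ℝ) = VV (PU X R \ PB X 0) := by
  unfold VV
  rw [← Finset.sum_filter_add_sum_filter_not (PU X R) (fun p => p ∈ PB X 0)]
  rw [Finset.sum_eq_zero, zero_add]
  · rw [Finset.sdiff_eq_filter]
    apply Finset.sum_congr rfl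
    intro p hp
    rw [if_neg (mem_filter.1 hp).2]
    simp
  · intro p hp
    rw [if_pos (mem_filter.1 hp).2]
    simp [hn]

theorem p_TLB (hQ : Stmt_QMV) (hV : Stmt_VLB) : Stmt_TLB := by
  intro δ hδ hδ'
  obtain ⟨C1, T1, hC1, hT1, hQ⟩ := hQ
  obtain ⟨T2, hT2, hV⟩ := hV.2 δ
  refine ⟨12 * C1, max (max T1 T2) (Real.exp (Real.exp (Real.exp 1))), by positivity,
    lt_max_of_lt_left (lt_max_of_lt_left hT1), ?_⟩
  intro T H W R X lam hT hA hLB
  have hTT1 : T1 ≤ T := le_trans (le_trans (le_max_left _ _) (le_max_left _ _)) hT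
  have hTT2 : T2 ≤ T := le_trans (le_trans (le_max_right _ _) (le_max_left _ _)) hT
  have hTT3 : Real.exp (Real.exp (Real.exp 1)) ≤ T := le_trans (le_max_right _ _) hT
  have hT0 : 1 ≤ T := by linarith
  have hTpos : 0 < T := by linarith
  have hl1 : Real.exp (Real.exp 1) ≤ Real.log T := by
    rw [Real.le_log_iff_exp_le hTpos]; exact hTT3
  have hl1p : 0 < Real.log T := lt_of_lt_of_le (Real.exp_pos _) hl1
  have hl2 : Real.exp 1 ≤ ell T := by
    unfold ell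
    rw [Real.le_log_iff_exp_le hl1p]; exact hl1
  have hl3 : 1 ≤ Real.log (ell T) := by
    rw [Real.le_log_iff_exp_le (lt_of_lt_of_le (Real.exp_pos _) hl2)]; exact hl2
  have hH : T ^ (1 / 2 : ℝ) ≤ H := by
    refine le_trans ?_ hA.1
    apply Real.rpow_le_rpow_of_exponent_le hT0
    linarith
  have hH0 : 0 ≤ H := le_trans (Real.rpow_nonneg hTpos.le _) hH
  have hc := hLB.lc.chain
  have hW : 8 ≤ W := hLB.lc.w8
  have hq := hQ T H R X lam hTT1 hH hc (fun p => if p ∈ PB X 0 then (0 : ℂ) else 1)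
  have he : (∫ t in T..(T + H), ‖NN X lam (range R) t‖ ^ 2 * ‖∑ j ∈ Ico 1 R, PP X j t‖ ^ 2) =
      ∫ t in T..(T + H), ‖NN X lam (range R) t‖ ^ 2 *
        ‖∑ p ∈ PU X R, (if p ∈ PB X 0 then (0 : ℂ) else 1) * mo p t‖ ^ 2 := by
    apply intervalIntegral.integral_congr
    intro t _
    simp only [TLB_sum hc t]
  rw [he]
  refine le_trans hq ?_
  have hw1 := TLB_w X R 1 one_ne_zero
  have hw2 := TLB_w X R 2 two_ne_zero
  simp only [pow_one] at hw1
  rw [hw1, hw2, hLB.lc.xR, Real.log_exp]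
  have hV3 := (hV T W R X lam hTT2 hLB).2.2
  have hV0 : 0 ≤ VV (PU X R \ PB X 0) := Finset.sum_nonneg fun p _ => by positivity
  set V := VV (PU X R \ PB X 0) with hVdef
  set y := Real.log (ell T) with hy
  have h1 : V + V ^ 2 ≤ 12 * y ^ 2 := by nlinarith
  have h2 : 0 ≤ (Real.log T / W) ^ (1 / 4 : ℝ) := Real.rpow_nonneg (by positivity) _
  calc C1 * H * (Real.log T / W) ^ (1 / 4 : ℝ) * (V + V ^ 2)
      ≤ C1 * H * (Real.log T / W) ^ (1 / 4 : ℝ) * (12 * y ^ 2) := by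
        apply mul_le_mul_of_nonneg_left h1
        positivity
    _ = 12 * C1 * H * (Real.log T / W) ^ (1 / 4 : ℝ) * y ^ 2 := by ring

end

end HZS
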