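import Pool.Agent.Work.MP_c51bc2_nt_lb.Interface
import Pool.Agent.Work.MP_c51bc2_nt.Multi

/-!
# THEOREM LB: block TMV, the time mean of the monomials
-/

set_option autoImplicit false

open Finset Complex MeasureTheory

namespace HZS

noncomputable section

/-- the oscillating factor `n^{-it}` -/
def TMV_e (n : ℕ) (t : ℝ) : ℂ := cexp (((-Real.log n * t : ℝ) : ℂ) * I)

theorem TMV_cont (n : ℕ) : Continuous (TMV_e n) := by
  unfold TMV_e
  fun_prop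

theorem TMV_conj (u v : ℕ) (t : ℝ) : TMV_e u t * (starRingEnd ℂ) (TMV_e v t) =
    cexp ((((Real.log v - Real.log u : ℝ) : ℂ) * I) * (t : ℂ)) := by
  unfold TMV_e
  rw [← Complex.exp_conj, ← Complex.exp_add]
  congr 1
  rw [map_mul, Complex.conj_ofReal, Complex.conj_I]
  push_cast
  ring

theorem TMV_log {u v Y : ℕ} (hu : 1 ≤ u) (huv : u < v) (hv : v ≤ Y) :
    1 / (Y : ℝ) ≤ Real.log v - Real.log u := by
  have hu0 : (0 : ℝ) < u := by exact_mod_cast hu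
  have hv0 : (0 : ℝ) < v := hu0.trans (by exact_mod_cast huv)
  have hY0 : (0 : ℝ) < Y := hv0.trans_le (by exact_mod_cast hv)
  have h1 := Real.one_sub_inv_le_log_of_pos (div_pos hv0 hu0)
  rw [Real.log_div hv0.ne' hu0.ne'] at h1
  refine le_trans ?_ h1
  have h2 : (1 : ℝ) - (v / u : ℝ)⁻¹ = (v - u) / v := by
    field_simp
  rw [h2]
  have h3 : (1 : ℝ) ≤ v - u := by
    have : (u : ℝ) + 1 ≤ v := by exact_mod_cast huv
    linarith
  calc 1 / (Y : ℝ) ≤ 1 / v := one_div_le_one_div_of_le hv0 (by exact_mod_cast hv)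
    _ ≤ (v - u) / v := by gcongr

theorem TMV_log' {u v Y : ℕ} (hu : 1 ≤ u) (hv1 : 1 ≤ v) (huv : u ≠ v) (hu' : u ≤ Y) (hv : v ≤ Y) :
    1 / (Y : ℝ) ≤ |Real.log v - Real.log u| := by
  rcases lt_or_gt_of_ne huv with h | h
  · exact (TMV_log hu h hv).trans (le_abs_self _)
  · rw [abs_sub_comm]
    exact (TMV_log hv1 h hu').trans (le_abs_self _)

theorem TMV_int (T H : ℝ) {u v Y : ℕ} (hu : 1 ≤ u) (hv1 : 1 ≤ v) (hu' : u ≤ Y) (hv : v ≤ Y) :
    ‖(∫ t in T..(T + H), TMV_e u t * (starRingEnd ℂ) (TMV_e v t)) -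
      (if u = v then (H : ℂ) else 0)‖ ≤ 2 * Y := by
  have hY0 : (0 : ℝ) < Y := by
    have : 0 < Y := by omega
    exact_mod_cast this
  have h0 : ∀ t : ℝ, TMV_e u t * (starRingEnd ℂ) (TMV_e v t) =
      cexp ((((Real.log v - Real.log u : ℝ) : ℂ) * I) * (t : ℂ)) := fun t => TMV_conj u v t
  simp only [h0]
  by_cases huv : u = v
  · subst huv
    simp only [sub_self, Complex.ofReal_zero, zero_mul, Complex.exp_zero, if_true]
    rw [intervalIntegral.integral_const]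
    simp only [add_sub_cancel_left, Complex.real_smul, mul_one, sub_self, norm_zero]
    positivity
  · rw [if_neg huv, sub_zero]
    have h1 := TMV_log' hu hv1 huv hu' hv
    set c : ℝ := Real.log v - Real.log u with hc
    have hc0 : 0 < |c| := lt_of_lt_of_le (by positivity) h1
    have hc1 : c ≠ 0 := abs_pos.1 hc0
    have hcc : ((c : ℂ) * I) ≠ 0 := mul_ne_zero (by exact_mod_cast hc1) Complex.I_ne_zero
    rw [integral_exp_mul_complex hcc, norm_div]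
    have h2 : ∀ s : ℝ, ‖cexp ((c : ℂ) * I * (s : ℂ))‖ = 1 := by
      intro s
      have : (c : ℂ) * I * (s : ℂ) = ((c * s : ℝ) : ℂ) * I := by
        push_cast
        ring
      rw [this, Complex.norm_exp_ofReal_mul_I]
    have h3 : ‖cexp ((c : ℂ) * I * ((T + H : ℝ) : ℂ)) - cexp ((c : ℂ) * I * (T : ℂ))‖ ≤ 2 := by
      refine (norm_sub_le _ _).trans ?_
      rw [h2, h2]
      norm_num
    have h4 : ‖(c : ℂ) * I‖ = |c| := by
      rw [norm_mul, Complex.norm_I, mul_one, Complex.norm_real, Real.norm_eq_abs]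
    rw [h4, div_le_iff₀ hc0]
    have h5 : 1 ≤ Y * |c| := by
      rw [div_le_iff₀ hY0] at h1
      linarith
    calc _ ≤ (2 : ℝ) := h3
      _ ≤ 2 * Y * |c| := by linarith

theorem TMV_gen {ι : Type} (T H : ℝ) (Y : ℕ) (S S' : Finset ι) (U : ι → ℕ) (α β : ι → ℂ)
    (hS : ∀ p ∈ S, 1 ≤ U p ∧ U p ≤ Y) (hS' : ∀ p ∈ S', 1 ≤ U p ∧ U p ≤ Y) :
    ‖(∫ t in T..(T + H), (∑ p ∈ S, α p * TMV_e (U p) t) *
        (starRingEnd ℂ) (∑ q ∈ S', β q * TMV_e (U q) t)) -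
      H * ∑ p ∈ S, ∑ q ∈ S', (if U p = U q then α p * (starRingEnd ℂ) (β q) else 0)‖ ≤
      2 * Y * ((∑ p ∈ S, ‖α p‖) * ∑ q ∈ S', ‖β q‖) := by
  have h1 : ∀ t : ℝ, (∑ p ∈ S, α p * TMV_e (U p) t) *
      (starRingEnd ℂ) (∑ q ∈ S', β q * TMV_e (U q) t) =
      ∑ p ∈ S, ∑ q ∈ S', α p * (starRingEnd ℂ) (β q) *
        (TMV_e (U p) t * (starRingEnd ℂ) (TMV_e (U q) t)) := by
    intro t
    rw [map_sum, Finset.sum_mul_sum]
    refine Finset.sum_congr rfl fun p _ => Finset.sum_congr rfl fun q _ => ?_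
    rw [map_mul]
    ring
  have hc : ∀ p q : ι, Continuous fun t : ℝ => α p * (starRingEnd ℂ) (β q) *
      (TMV_e (U p) t * (starRingEnd ℂ) (TMV_e (U q) t)) := by
    intro p q
    exact continuous_const.mul ((TMV_cont _).mul (Complex.continuous_conj.comp (TMV_cont _)))
  have h2 : (∫ t in T..(T + H), (∑ p ∈ S, α p * TMV_e (U p) t) *
        (starRingEnd ℂ) (∑ q ∈ S', β q * TMV_e (U q) t)) =
      ∑ p ∈ S, ∑ q ∈ S', α p * (starRingEnd ℂ) (β q) *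
        ∫ t in T..(T + H), TMV_e (U p) t * (starRingEnd ℂ) (TMV_e (U q) t) := by
    simp only [h1]
    rw [intervalIntegral.integral_finsetSum]
    · refine Finset.sum_congr rfl fun p _ => ?_
      rw [intervalIntegral.integral_finsetSum]
      · refine Finset.sum_congr rfl fun q _ => ?_
        rw [intervalIntegral.integral_const_mul]
      · intro q _
        exact (hc p q).intervalIntegrable _ _
    · intro p _
      exact (continuous_finsetSum _ fun q _ => hc p q).intervalIntegrable _ _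
  rw [h2, Finset.mul_sum, ← Finset.sum_sub_distrib, Finset.sum_mul_sum, Finset.mul_sum]
  refine (norm_sum_le _ _).trans (Finset.sum_le_sum fun p hp => ?_)
  rw [Finset.mul_sum, ← Finset.sum_sub_distrib, Finset.mul_sum]
  refine (norm_sum_le _ _).trans (Finset.sum_le_sum fun q hq => ?_)
  have h3 : α p * (starRingEnd ℂ) (β q) *
        (∫ t in T..(T + H), TMV_e (U p) t * (starRingEnd ℂ) (TMV_e (U q) t)) -
      (H : ℂ) * (if U p = U q then α p * (starRingEnd ℂ) (β q) else 0) =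
      α p * (starRingEnd ℂ) (β q) *
        ((∫ t in T..(T + H), TMV_e (U p) t * (starRingEnd ℂ) (TMV_e (U q) t)) -
          (if U p = U q then (H : ℂ) else 0)) := by
    split_ifs
    · ring
    · ring
  rw [h3, norm_mul, norm_mul, RCLike.norm_conj]
  have h4 := TMV_int T H (hS p hp).1 (hS' q hq).1 (hS p hp).2 (hS' q hq).2
  calc ‖α p‖ * ‖β q‖ * _ ≤ ‖α p‖ * ‖β q‖ * (2 * Y) := by gcongr
    _ = 2 * Y * (‖α p‖ * ‖β q‖) := by ring

theorem TMV_mo {n : ℕ} (hn : 1 ≤ n) (t : ℝ) :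
    mo n t = ((1 / Real.sqrt n : ℝ) : ℂ) * TMV_e n t := by
  have hn0 : (0 : ℝ) < n := by exact_mod_cast hn
  have hnc : (n : ℂ) ≠ 0 := by exact_mod_cast hn0.ne'
  unfold mo TMV_e
  have h1 : (-(1 / 2 + I * (t : ℂ)) : ℂ) = ((-(1 / 2) : ℝ) : ℂ) + (-(I * t)) := by
    push_cast
    ring
  rw [h1, Complex.cpow_add _ _ hnc]
  congr 1
  · rw [← Complex.ofReal_natCast, ← Complex.ofReal_cpow hn0.le]
    congr 1
    rw [Real.rpow_neg hn0.le, ← Real.sqrt_eq_rpow, one_div]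
  · rw [Complex.cpow_def_of_ne_zero hnc]
    congr 1
    rw [← Complex.natCast_log]
    push_cast
    ring

theorem TMV_mo_mul (x y : ℕ) (t : ℝ) : mo (x * y) t = mo x t * mo y t := by
  unfold mo
  rw [Nat.cast_mul, Complex.natCast_mul_natCast_cpow]

theorem TMV_cf (d : ℕ) : 0 ≤ cf 1 d := by
  unfold cf
  exact Finset.prod_nonneg fun p _ => by positivity

/-- the coefficient -/
def TMV_a (e : ℕ → ℂ) (m : ℕ) (p : ℕ × ℕ) : ℂ :=
  ((((m.factorial : ℝ) * cf 1 p.1 : ℝ)) : ℂ) * e p.2 *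
    ((1 / Real.sqrt ((p.1 * p.2 : ℕ) : ℝ) : ℝ) : ℂ)

theorem TMV_a_norm (e : ℕ → ℂ) (m : ℕ) (p : ℕ × ℕ) :
    ‖TMV_a e m p‖ = ((m.factorial : ℝ) * cf 1 p.1 * (Real.sqrt p.1)⁻¹) *
      (‖e p.2‖ / Real.sqrt p.2) := by
  unfold TMV_a
  have h1 : 0 ≤ (m.factorial : ℝ) * cf 1 p.1 := mul_nonneg (by positivity) (TMV_cf _)
  rw [norm_mul, norm_mul, Complex.norm_real, Complex.norm_real, Real.norm_eq_abs,
    Real.norm_eq_abs, abs_of_nonneg h1, abs_of_nonneg (by positivity), Nat.cast_mul,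
    Real.sqrt_mul (by positivity)]
  rw [one_div, mul_inv, div_eq_mul_inv]
  ring

theorem TMV_prod {P E : Finset ℕ} (hPWR : Stmt_PWR) (hP : ∀ p ∈ P, p.Prime) (e : ℕ → ℂ) (m : ℕ)
    (hE : ∀ y ∈ E, y ≠ 0) (t : ℝ) :
    (∑ p ∈ P, mo p t) ^ m * (∑ y ∈ E, e y * mo y t) =
      ∑ p ∈ SE P m ×ˢ E, TMV_a e m p * TMV_e (p.1 * p.2) t := by
  rw [hPWR P hP m t, Finset.sum_mul_sum, ← Finset.sum_product']
  refine Finset.sum_congr rfl fun p hp => ?_
  rw [Finset.mem_product] at hp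
  have h1 := ((Multi.mem_SE hP).1 hp.1).1
  have h2 := hE _ hp.2
  have h3 : 1 ≤ p.1 * p.2 := Nat.one_le_iff_ne_zero.2 (mul_ne_zero h1 h2)
  have h4 := TMV_mo h3 t
  rw [TMV_mo_mul] at h4
  unfold TMV_a
  calc _ = ((((m.factorial : ℝ) * cf 1 p.1 : ℝ)) : ℂ) * e p.2 * (mo p.1 t * mo p.2 t) := by ring
    _ = _ := by rw [h4]; ring

theorem TMV_sqrt (P : Finset ℕ) (hP : ∀ p ∈ P, p.Prime) (m : ℕ) :
    ∑ a ∈ SE P m, ((m.factorial : ℝ) * cf 1 a * (Real.sqrt a)⁻¹) =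
      (∑ p ∈ P, (Real.sqrt p)⁻¹) ^ m := by
  have h := Multi.pow_sum hP (fun n : ℕ => (((Real.sqrt n)⁻¹ : ℝ) : ℂ)) (by simp)
    (fun a b _ _ => by
      rw [Nat.cast_mul, Real.sqrt_mul (by positivity), mul_inv]
      push_cast
      rfl) m
  have h2 : (((∑ p ∈ P, (Real.sqrt p)⁻¹) ^ m : ℝ) : ℂ) =
      ((∑ a ∈ SE P m, ((m.factorial : ℝ) * cf 1 a * (Real.sqrt a)⁻¹) : ℝ) : ℂ) := by
    push_cast at h ⊢
    exact h
  exact (Complex.ofReal_injective h2).symm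

theorem TMV_uniq {P : Finset ℕ} {a b y y' : ℕ} (ha : a ≠ 0) (hb : b ≠ 0)
    (hap : ∀ p ∈ a.primeFactors, p ∈ P) (hbp : ∀ p ∈ b.primeFactors, p ∈ P)
    (hy : ∀ p ∈ P, ¬ p ∣ y) (hy' : ∀ p ∈ P, ¬ p ∣ y') (h : a * y = b * y') : a = b ∧ y = y' := by
  have hc : ∀ {u z : ℕ}, (∀ p ∈ u.primeFactors, p ∈ P) → (∀ p ∈ P, ¬ p ∣ z) → u ≠ 0 →
      Nat.Coprime u z := by
    intro u z hu hz hu0
    refine Nat.Coprime.symm (Nat.coprime_of_dvd fun k hk hkz hku => ?_)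
    exact hz k (hu k (Nat.mem_primeFactors.2 ⟨hk, hku, hu0⟩)) hkz
  have h1 : a ∣ b := (hc hap hy' ha).dvd_of_dvd_mul_right (Dvd.intro y h)
  have h2 : b ∣ a := (hc hbp hy hb).dvd_of_dvd_mul_right (Dvd.intro y' h.symm)
  have h3 : a = b := Nat.dvd_antisymm h1 h2
  subst h3
  exact ⟨rfl, Nat.eq_of_mul_eq_mul_left (Nat.pos_of_ne_zero ha) h⟩

theorem p_TMV (hPWR : Stmt_PWR) : Stmt_TMV := by
  intro P E e T H Y m n hP hH hE hm hn
  classical
  have hU : ∀ k : ℕ, (∀ a ∈ SE P k, ∀ y ∈ E, a * y ≤ Y) → ∀ p ∈ SE P k ×ˢ E,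
      1 ≤ p.1 * p.2 ∧ p.1 * p.2 ≤ Y := by
    intro k hk p hp
    rw [Finset.mem_product] at hp
    exact ⟨Nat.one_le_iff_ne_zero.2
      (mul_ne_zero ((Multi.mem_SE hP).1 hp.1).1 (hE _ hp.2).1), hk _ hp.1 _ hp.2⟩
  have key := TMV_gen T H Y (SE P m ×ˢ E) (SE P n ×ˢ E) (fun p : ℕ × ℕ => p.1 * p.2)
    (TMV_a e m) (TMV_a e n) (hU m hm) (hU n hn)
  have h1 : ∀ t : ℝ, (∑ p ∈ P, mo p t) ^ m * (starRingEnd ℂ) (∑ p ∈ P, mo p t) ^ n *
        ((‖∑ y ∈ E, e y * mo y t‖ ^ 2 : ℝ) : ℂ) =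
      (∑ p ∈ SE P m ×ˢ E, TMV_a e m p * TMV_e (p.1 * p.2) t) *
        (starRingEnd ℂ) (∑ p ∈ SE P n ×ˢ E, TMV_a e n p * TMV_e (p.1 * p.2) t) := by
    intro t
    rw [← TMV_prod hPWR hP e m (fun y hy => (hE y hy).1) t,
      ← TMV_prod hPWR hP e n (fun y hy => (hE y hy).1) t]
    have h2 := Complex.mul_conj' (∑ y ∈ E, e y * mo y t)
    rw [map_mul, map_pow, Complex.ofReal_pow, ← h2]
    ring
  have h3 : (∑ p ∈ SE P m ×ˢ E, ∑ q ∈ SE P n ×ˢ E,
      (if p.1 * p.2 = q.1 * q.2 then TMV_a e m p * (starRingEnd ℂ) (TMV_a e n q) else 0)) =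
      (if m = n then ((∑ a ∈ SE P m, ((m.factorial : ℝ) * cf 1 a) ^ 2 / (a : ℝ) : ℝ) : ℂ)
        else 0) * ((∑ y ∈ E, ‖e y‖ ^ 2 / (y : ℝ) : ℝ) : ℂ) := by
    by_cases hmn : m = n
    · subst hmn
      rw [if_pos rfl]
      have h4 : ∀ p ∈ SE P m ×ˢ E, (∑ q ∈ SE P m ×ˢ E,
          (if p.1 * p.2 = q.1 * q.2 then TMV_a e m p * (starRingEnd ℂ) (TMV_a e m q) else 0)) =
          ((‖TMV_a e m p‖ ^ 2 : ℝ) : ℂ) := by
        intro p hp
        rw [Finset.sum_eq_single_of_mem p hp]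
        · rw [if_pos rfl, Complex.mul_conj', Complex.ofReal_pow]
        · intro q hq hqp
          rw [if_neg]
          intro h
          apply hqp
          rw [Finset.mem_product] at hp hq
          have ha := (Multi.mem_SE hP).1 hp.1
          have hb := (Multi.mem_SE hP).1 hq.1
          obtain ⟨h5, h6⟩ := TMV_uniq ha.1 hb.1 ha.2.1 hb.2.1 (hE _ hp.2).2 (hE _ hq.2).2 h
          exact Prod.ext h5.symm h6.symm
      rw [Finset.sum_congr rfl h4, ← Complex.ofReal_sum, ← Complex.ofReal_mul]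
      congr 1
      rw [Finset.sum_mul_sum, ← Finset.sum_product']
      refine Finset.sum_congr rfl fun p _ => ?_
      rw [TMV_a_norm, mul_pow, mul_pow, inv_pow, div_pow, Real.sq_sqrt (by positivity),
        Real.sq_sqrt (by positivity), div_eq_mul_inv (((m.factorial : ℝ) * cf 1 p.1) ^ 2)]
    · rw [if_neg hmn, zero_mul]
      refine Finset.sum_eq_zero fun p hp => Finset.sum_eq_zero fun q hq => ?_
      rw [if_neg]
      intro h
      rw [Finset.mem_product] at hp hq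
      have ha := (Multi.mem_SE hP).1 hp.1
      have hb := (Multi.mem_SE hP).1 hq.1
      obtain ⟨h5, -⟩ := TMV_uniq ha.1 hb.1 ha.2.1 hb.2.1 (hE _ hp.2).2 (hE _ hq.2).2 h
      apply hmn
      rw [← ha.2.2, ← hb.2.2, h5]
  have h5 : ∀ k : ℕ, ∑ p ∈ SE P k ×ˢ E, ‖TMV_a e k p‖ =
      (∑ p ∈ P, (Real.sqrt p)⁻¹) ^ k * ∑ y ∈ E, ‖e y‖ / Real.sqrt y := by
    intro k
    rw [← TMV_sqrt P hP k, Finset.sum_mul_sum, ← Finset.sum_product']
    exact Finset.sum_congr rfl fun p _ => TMV_a_norm e k p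
  simp only [h1]
  rw [mul_assoc (H : ℂ), ← h3]
  refine key.trans (le_of_eq ?_)
  rw [h5, h5, pow_add]
  ring

end

end HZS
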