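import Pool.Agent.Work.MP_c51bc2_nt_lb.Interface

/-!
# THEOREM LB: block TRN, transfer from the time mean to the torus
-/

set_option autoImplicit false

open Finset Complex MeasureTheory

namespace HZS

noncomputable section

theorem TRN_cont (P : Finset ℕ) : Continuous (TP P) := by
  unfold TP
  fun_prop

theorem TRN_bd (P : Finset ℕ) (θ : P → ℝ) : ‖TP P θ‖ ≤ ∑ p ∈ P, (Real.sqrt p)⁻¹ := by
  unfold TP
  refine (norm_sum_le _ _).trans (le_of_eq ?_)
  rw [← Finset.sum_coe_sort P (fun p => (Real.sqrt p)⁻¹)]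
  refine Finset.sum_congr rfl fun p _ => ?_
  rw [norm_mul, Complex.norm_exp_ofReal_mul_I, mul_one, Complex.norm_real, Real.norm_eq_abs,
    abs_of_nonneg (by positivity)]

instance TRN_finite (P : Finset ℕ) : IsFiniteMeasure (tor P) := by
  unfold tor
  infer_instance

theorem TRN_int (P : Finset ℕ) (a b : ℕ) :
    Integrable (fun θ => TP P θ ^ a * (starRingEnd ℂ) (TP P θ) ^ b) (tor P) := by
  have hc : Continuous fun θ => TP P θ ^ a * (starRingEnd ℂ) (TP P θ) ^ b :=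
    ((TRN_cont P).pow a).mul ((Complex.continuous_conj.comp (TRN_cont P)).pow b)
  refine Integrable.of_bound hc.aestronglyMeasurable
    ((∑ p ∈ P, (Real.sqrt p)⁻¹) ^ a * (∑ p ∈ P, (Real.sqrt p)⁻¹) ^ b) (ae_of_all _ fun θ => ?_)
  rw [norm_mul, norm_pow, norm_pow, RCLike.norm_conj]
  have h := TRN_bd P θ
  gcongr

theorem TRN_mo (n : ℕ) : Continuous (mo n) := by
  unfold mo
  by_cases h : (n : ℂ) = 0
  · have h1 : (fun t : ℝ => (n : ℂ) ^ (-(1 / 2 + I * (t : ℂ)))) = fun _ => 0 := by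
      funext t
      rw [h, Complex.zero_cpow]
      intro h2
      have h3 := congrArg Complex.re h2
      simp at h3
    rw [h1]
    exact continuous_const
  · exact Continuous.const_cpow (by fun_prop) (Or.inl h)

theorem p_TRN (hORT : Stmt_ORT) (hTMV : Stmt_TMV) : Stmt_TRN := by
  intro P E e T H B Y M f hP hH hE hY hf
  obtain ⟨c, hc, hB⟩ := hf
  set s : ℝ := ∑ p ∈ P, (Real.sqrt p)⁻¹ with hs
  set S : ℝ := ∑ y ∈ E, ‖e y‖ / Real.sqrt y with hS
  have hs0 : 0 ≤ s := Finset.sum_nonneg fun _ _ => by positivity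
  have hQ : Continuous fun t : ℝ => ∑ p ∈ P, mo p t :=
    continuous_finsetSum _ fun p _ => TRN_mo p
  have hW : Continuous fun t : ℝ => ((‖∑ y ∈ E, e y * mo y t‖ ^ 2 : ℝ) : ℂ) :=
    Complex.continuous_ofReal.comp
      ((continuous_finsetSum _ fun y _ => continuous_const.mul (TRN_mo y)).norm.pow 2)
  have hterm : ∀ a b : ℕ, Continuous fun t : ℝ => c a b * ((∑ p ∈ P, mo p t) ^ a *
      (starRingEnd ℂ) (∑ p ∈ P, mo p t) ^ b * ((‖∑ y ∈ E, e y * mo y t‖ ^ 2 : ℝ) : ℂ)) :=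
    fun a b => continuous_const.mul (((hQ.pow a).mul ((Complex.continuous_conj.comp hQ).pow b)).mul
      hW)
  have h1 : (∫ t in T..(T + H), f (∑ p ∈ P, mo p t) *
        ((‖∑ y ∈ E, e y * mo y t‖ ^ 2 : ℝ) : ℂ)) =
      ∑ a ∈ range (M + 1), ∑ b ∈ range (M + 1), c a b *
        ∫ t in T..(T + H), ((∑ p ∈ P, mo p t) ^ a *
          (starRingEnd ℂ) (∑ p ∈ P, mo p t) ^ b * ((‖∑ y ∈ E, e y * mo y t‖ ^ 2 : ℝ) : ℂ)) := by
    have h2 : ∀ t : ℝ, f (∑ p ∈ P, mo p t) * ((‖∑ y ∈ E, e y * mo y t‖ ^ 2 : ℝ) : ℂ) =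
        ∑ a ∈ range (M + 1), ∑ b ∈ range (M + 1), c a b * ((∑ p ∈ P, mo p t) ^ a *
          (starRingEnd ℂ) (∑ p ∈ P, mo p t) ^ b *
            ((‖∑ y ∈ E, e y * mo y t‖ ^ 2 : ℝ) : ℂ)) := by
      intro t
      rw [hc, Finset.sum_mul]
      refine Finset.sum_congr rfl fun a _ => ?_
      rw [Finset.sum_mul]
      refine Finset.sum_congr rfl fun b _ => ?_
      ring
    simp only [h2]
    rw [intervalIntegral.integral_finsetSum]
    · refine Finset.sum_congr rfl fun a _ => ?_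
      rw [intervalIntegral.integral_finsetSum]
      · refine Finset.sum_congr rfl fun b _ => ?_
        rw [intervalIntegral.integral_const_mul]
      · intro b _
        exact (hterm a b).intervalIntegrable _ _
    · intro a _
      exact (continuous_finsetSum _ fun b _ => hterm a b).intervalIntegrable _ _
  have h2 : (∫ θ, f (TP P θ) ∂(tor P)) =
      ∑ a ∈ range (M + 1), ∑ b ∈ range (M + 1), c a b *
        ∫ θ, TP P θ ^ a * (starRingEnd ℂ) (TP P θ) ^ b ∂(tor P) := by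
    have h3 : ∀ θ, f (TP P θ) = ∑ a ∈ range (M + 1), ∑ b ∈ range (M + 1), c a b *
        (TP P θ ^ a * (starRingEnd ℂ) (TP P θ) ^ b) := by
      intro θ
      rw [hc]
      refine Finset.sum_congr rfl fun a _ => Finset.sum_congr rfl fun b _ => ?_
      ring
    simp only [h3]
    rw [MeasureTheory.integral_finsetSum]
    · refine Finset.sum_congr rfl fun a _ => ?_
      rw [MeasureTheory.integral_finsetSum]
      · refine Finset.sum_congr rfl fun b _ => ?_
        rw [MeasureTheory.integral_const_mul]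
      · intro b _
        exact (TRN_int P a b).const_mul _
    · intro a _
      exact integrable_finsetSum _ fun b _ => (TRN_int P a b).const_mul _
  rw [h1, h2, Finset.mul_sum, Finset.sum_mul, ← Finset.sum_sub_distrib]
  refine (norm_sum_le _ _).trans ?_
  have hbound : ∀ a ∈ range (M + 1), ‖(∑ b ∈ range (M + 1), c a b *
        ∫ t in T..(T + H), ((∑ p ∈ P, mo p t) ^ a *
          (starRingEnd ℂ) (∑ p ∈ P, mo p t) ^ b * ((‖∑ y ∈ E, e y * mo y t‖ ^ 2 : ℝ) : ℂ))) -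
      (H : ℂ) * (∑ b ∈ range (M + 1), c a b *
        ∫ θ, TP P θ ^ a * (starRingEnd ℂ) (TP P θ) ^ b ∂(tor P)) *
          ((∑ y ∈ E, ‖e y‖ ^ 2 / (y : ℝ) : ℝ) : ℂ)‖ ≤
      ∑ b ∈ range (M + 1), ‖c a b‖ * (2 * Y * (1 + s) ^ (2 * M) * S ^ 2) := by
    intro a ha
    rw [Finset.mul_sum, Finset.sum_mul, ← Finset.sum_sub_distrib]
    refine (norm_sum_le _ _).trans (Finset.sum_le_sum fun b hb => ?_)
    rw [Finset.mem_range, Nat.lt_succ_iff] at ha hb
    have h3 := hTMV P E e T H Y a b hP hH hE (hY a ha) (hY b hb)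
    rw [hORT P hP a b]
    have h4 : c a b * (∫ t in T..(T + H), ((∑ p ∈ P, mo p t) ^ a *
          (starRingEnd ℂ) (∑ p ∈ P, mo p t) ^ b * ((‖∑ y ∈ E, e y * mo y t‖ ^ 2 : ℝ) : ℂ))) -
        (H : ℂ) * (c a b * (if a = b then
          ((∑ e ∈ SE P a, ((a.factorial : ℝ) * cf 1 e) ^ 2 / (e : ℝ) : ℝ) : ℂ) else 0)) *
          ((∑ y ∈ E, ‖e y‖ ^ 2 / (y : ℝ) : ℝ) : ℂ) =
        c a b * ((∫ t in T..(T + H), ((∑ p ∈ P, mo p t) ^ a *
          (starRingEnd ℂ) (∑ p ∈ P, mo p t) ^ b * ((‖∑ y ∈ E, e y * mo y t‖ ^ 2 : ℝ) : ℂ))) -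
        (H : ℂ) * (if a = b then
          ((∑ e ∈ SE P a, ((a.factorial : ℝ) * cf 1 e) ^ 2 / (e : ℝ) : ℝ) : ℂ) else 0) *
          ((∑ y ∈ E, ‖e y‖ ^ 2 / (y : ℝ) : ℝ) : ℂ)) := by
      ring
    rw [h4, norm_mul]
    refine mul_le_mul_of_nonneg_left (h3.trans ?_) (norm_nonneg _)
    have h5 : s ^ (a + b) ≤ (1 + s) ^ (2 * M) :=
      (pow_le_pow_left₀ hs0 (by linarith) _).trans
        (pow_le_pow_right₀ (by linarith) (by omega))
    gcongr
  refine (Finset.sum_le_sum hbound).trans ?_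
  simp only [← Finset.sum_mul]
  have h6 : 0 ≤ 2 * (Y : ℝ) * (1 + s) ^ (2 * M) * S ^ 2 := by positivity
  exact mul_le_mul_of_nonneg_right hB h6

end

end HZS
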