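import Pool.Agent.Work.MP_c51bc2_nt_lb.Interface
import Pool.Agent.Work.MP_c51bc2_nt.B_MAIN

/-!
# MP_c51bc2_nt, THEOREM LB, block TRV (helper40)
-/

set_option autoImplicit false

open Finset Complex MeasureTheory

namespace HZS

theorem TRV_disj {L : ℝ} {R : ℕ} {X lam : ℕ → ℝ} (hc : IsChain L R X lam) :
    (↑(range R) : Set ℕ).PairwiseDisjoint (PB X) := by
  have key : ∀ i j, i < j → j < R → Disjoint (PB X i) (PB X j) := by
    intro i j hij hj
    rw [Finset.disjoint_left]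
    intro p hp1 hp2
    rw [PB, Finset.mem_filter, Finset.mem_Icc] at hp1 hp2
    have h1 : (p : ℝ) ≤ X (i + 1) := by
      have h2 : 0 ≤ X (i + 1) := by
        have := MAINx.x_ge hc (i + 1) (by omega)
        linarith
      exact (Nat.cast_le.mpr hp1.1.2).trans (Nat.floor_le h2)
    have h3 : X (i + 1) ≤ X j := MAINx.x_mono hc hij (by omega)
    linarith [hp2.2.2]
  intro i hi j hj hij
  have hi' : i < R := by simpa using hi
  have hj' : j < R := by simpa using hj
  rcases Nat.lt_or_gt_of_ne hij with h | h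
  · exact key i j h hj'
  · exact (key j i h hi').symm

theorem TRV_PR {L : ℝ} {R : ℕ} {X lam : ℕ → ℝ} (hc : IsChain L R X lam) (t : ℝ) :
    PR X R t = (∑ p ∈ PU X R, mo p t).re := by
  rw [PR, PU, Finset.sum_biUnion (TRV_disj hc)]
  rfl

theorem TRV_mem {L : ℝ} {R : ℕ} {X lam : ℕ → ℝ} (hc : IsChain L R X lam) (p : ℕ)
    (hp : p ∈ PU X R) : p.Prime ∧ (p : ℝ) ≤ X R := by
  rw [PU, Finset.mem_biUnion] at hp
  obtain ⟨j, hj, hp⟩ := hp
  rw [Finset.mem_range] at hj
  rw [PB, Finset.mem_filter, Finset.mem_Icc] at hp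
  refine ⟨hp.2.1, ?_⟩
  have h2 : 0 ≤ X (j + 1) := by
    have := MAINx.x_ge hc (j + 1) (by omega)
    linarith
  have h1 : (p : ℝ) ≤ X (j + 1) := (Nat.cast_le.mpr hp.1.2).trans (Nat.floor_le h2)
  exact h1.trans (MAINx.x_mono hc (by omega) le_rfl)

theorem TRV_shift (p : ℕ) (hp : 1 ≤ p) (t v : ℝ) :
    mo p (t - v) = mo p t * (p : ℂ) ^ (I * v) := by
  have hp0 : (p : ℂ) ≠ 0 := by exact_mod_cast (by omega : p ≠ 0)
  rw [mo, mo, ← Complex.cpow_add _ _ hp0]
  congr 1
  push_cast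
  ring

theorem TRV_q (p : ℕ) (hp : 1 ≤ p) (v : ℝ) (hv : 0 ≤ v) :
    ‖(1 : ℂ) - (p : ℂ) ^ (I * v)‖ ≤ v * Real.log p := by
  have hp0 : (p : ℂ) ≠ 0 := by exact_mod_cast (by omega : p ≠ 0)
  have h1 : (p : ℂ) ^ (I * v) = Complex.exp (I * ((v * Real.log p : ℝ) : ℂ)) := by
    rw [Complex.cpow_def_of_ne_zero hp0, Complex.natCast_log.symm]
    congr 1
    push_cast
    ring
  rw [h1, norm_sub_rev]
  refine (Real.norm_exp_I_mul_ofReal_sub_one_le).trans ?_
  rw [Real.norm_eq_abs, abs_of_nonneg]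
  exact mul_nonneg hv (Real.log_nonneg (by exact_mod_cast hp))

theorem p_TRV (hTWN : Stmt_TWN) (hQMV : Stmt_QMV) (_hCSI : Stmt_CSI) (hGDM : Stmt_GDM)
    (_hMES : Stmt_MES) (hMER1 : Stmt_MER1) (hZC : Stmt_ZC) : Stmt_TRV := by
  intro δ hδ hδ'
  obtain ⟨C1, T1, hC1, hT1, H1⟩ := hTWN δ hδ hδ'
  obtain ⟨C2, T2, hC2, hT2, H2⟩ := hQMV
  obtain ⟨C3, H3⟩ := hMER1
  set C4 : ℝ := max C3 0 with hC4
  have hC40 : 0 ≤ C4 := le_max_right _ _
  set C5 : ℝ := (1 + C4) + (1 + C4) ^ 2 with hC5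
  have hC50 : 0 < C5 := by positivity
  have hCC : 0 < C1 * C2 * C5 := by positivity
  refine ⟨4 * Real.sqrt (C1 * C2 * C5), max T1 T2, by positivity,
    hT1.trans_le (le_max_left _ _), ?_⟩
  intro T H W v R X lam hT hAdm hLC hv hvW
  have hT1' : T1 ≤ T := (le_max_left _ _).trans hT
  have hT2' : T2 ≤ T := (le_max_right _ _).trans hT
  have hTone : 1 < T := hT1.trans_le hT1'
  have hc := hLC.chain
  set L : ℝ := Real.log T with hL
  have hW8 := hLC.w8
  have hWL := hLC.wL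
  have hW0 : 0 < W := by linarith
  have hL0 : 0 < L := by linarith
  have hH0 : 0 < H := lt_of_lt_of_le (Real.rpow_pos_of_pos (by linarith) _) hAdm.1
  have hTH : T ^ (1 / 2 : ℝ) ≤ H := by
    refine le_trans ?_ hAdm.1
    exact Real.rpow_le_rpow_of_exponent_le hTone.le (by linarith)
  have hXR : Real.log (X R) = L / W := by rw [hLC.xR, Real.log_exp]
  have hX1 : 1 ≤ X R := by
    have := MAINx.x_ge hc R le_rfl
    linarith
  set b : ℝ := L / W with hb
  have hb5 : 5 ≤ b := by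
    rw [hb, le_div_iff₀ hW0]
    linarith
  have hvb : v * b ≤ 1 := by
    have h1 : v * b ≤ W / L * b := mul_le_mul_of_nonneg_right hvW (by linarith)
    have h2 : W / L * b = 1 := by rw [hb]; field_simp
    linarith
  have hv1 : v ≤ 1 := by nlinarith
  -- the coefficients
  set q : ℕ → ℂ := fun p => 1 - (p : ℂ) ^ (I * v) with hq
  have hq1 : ∀ p ∈ PU X R, ‖q p‖ ≤ v * Real.log p := by
    intro p hp
    exact TRV_q p (TRV_mem hc p hp).1.one_lt.le v hv
  have hlog0 : ∀ p ∈ PU X R, 0 ≤ Real.log p ∧ Real.log p ≤ b := by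
    intro p hp
    obtain ⟨h1, h2⟩ := TRV_mem hc p hp
    have h3 : (1 : ℝ) ≤ (p : ℝ) := by exact_mod_cast h1.one_lt.le
    refine ⟨Real.log_nonneg h3, ?_⟩
    rw [← hXR]
    exact Real.log_le_log (by linarith) h2
  have hsum : ∑ p ∈ PU X R, Real.log p / (p : ℝ) ≤ b + C4 := by
    have h1 : PU X R ⊆ (Icc 1 ⌊X R⌋₊).filter Nat.Prime := by
      intro p hp
      obtain ⟨h1, h2⟩ := TRV_mem hc p hp
      rw [Finset.mem_filter, Finset.mem_Icc]
      exact ⟨⟨h1.one_lt.le, Nat.le_floor h2⟩, h1⟩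
    calc ∑ p ∈ PU X R, Real.log p / (p : ℝ)
        ≤ ∑ p ∈ (Icc 1 ⌊X R⌋₊).filter Nat.Prime, Real.log p / (p : ℝ) := by
          apply Finset.sum_le_sum_of_subset_of_nonneg h1
          intro p hp _
          rw [Finset.mem_filter, Finset.mem_Icc] at hp
          have : (1 : ℝ) ≤ (p : ℝ) := by exact_mod_cast hp.1.1
          exact div_nonneg (Real.log_nonneg this) (by linarith)
      _ ≤ Real.log (X R) + C3 := H3 (X R) hX1
      _ ≤ b + C4 := by
          rw [hXR]
          linarith [le_max_left C3 0]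
  have hvs : v * (b + C4) ≤ 1 + C4 := by nlinarith
  have hS1 : ∑ p ∈ PU X R, ‖q p‖ / (p : ℝ) ≤ 1 + C4 := by
    calc ∑ p ∈ PU X R, ‖q p‖ / (p : ℝ) ≤ ∑ p ∈ PU X R, v * (Real.log p / (p : ℝ)) := by
          apply Finset.sum_le_sum
          intro p hp
          rw [← mul_div_assoc]
          exact div_le_div_of_nonneg_right (hq1 p hp) (by positivity)
      _ = v * ∑ p ∈ PU X R, Real.log p / (p : ℝ) := by rw [Finset.mul_sum]
      _ ≤ v * (b + C4) := mul_le_mul_of_nonneg_left hsum hv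
      _ ≤ 1 + C4 := hvs
  have hS1' : 0 ≤ ∑ p ∈ PU X R, ‖q p‖ / (p : ℝ) :=
    Finset.sum_nonneg fun p _ => by positivity
  have hS2 : ∑ p ∈ PU X R, ‖q p‖ ^ 2 / (p : ℝ) ≤ 1 + C4 := by
    calc ∑ p ∈ PU X R, ‖q p‖ ^ 2 / (p : ℝ)
        ≤ ∑ p ∈ PU X R, (v * b) * (v * (Real.log p / (p : ℝ))) := by
          apply Finset.sum_le_sum
          intro p hp
          obtain ⟨g1, g2⟩ := hlog0 p hp
          have e1 : ‖q p‖ ^ 2 ≤ (v * b) * (v * Real.log p) := by
            have e2 := hq1 p hp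
            have e3 : v * Real.log p ≤ v * b := mul_le_mul_of_nonneg_left g2 hv
            calc ‖q p‖ ^ 2 = ‖q p‖ * ‖q p‖ := by ring
              _ ≤ (v * b) * (v * Real.log p) :=
                mul_le_mul (e2.trans e3) e2 (norm_nonneg _) (by positivity)
          calc ‖q p‖ ^ 2 / (p : ℝ) ≤ (v * b) * (v * Real.log p) / (p : ℝ) :=
                div_le_div_of_nonneg_right e1 (by positivity)
            _ = (v * b) * (v * (Real.log p / (p : ℝ))) := by ring
      _ = (v * b) * (v * ∑ p ∈ PU X R, Real.log p / (p : ℝ)) := by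
          rw [← Finset.mul_sum, ← Finset.mul_sum]
      _ ≤ 1 * (1 + C4) := by
          apply mul_le_mul hvb ((mul_le_mul_of_nonneg_left hsum hv).trans hvs) _ zero_le_one
          apply mul_nonneg hv
          exact Finset.sum_nonneg fun p hp => div_nonneg (hlog0 p hp).1 (by positivity)
      _ = 1 + C4 := one_mul _
  -- the second moments
  have hM := (H1 T H W R X lam hT1' hAdm hLC).1
  have hN := H2 T H R X lam hT2' hTH hc q
  set Q : ℝ → ℂ := fun t => ∑ p ∈ PU X R, q p * mo p t with hQ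
  have hQc : Continuous Q := by
    apply continuous_finsetSum
    intro p hp
    exact continuous_const.mul (MAINx.cont_mo p (TRV_mem hc p hp).1.one_lt.le)
  have hRe : ∀ t, |PR X R t - PR X R (t - v)| ≤ ‖Q t‖ := by
    intro t
    have e1 : PR X R t - PR X R (t - v) = (Q t).re := by
      rw [TRV_PR hc, TRV_PR hc, ← Complex.sub_re, ← Finset.sum_sub_distrib]
      congr 1
      refine Finset.sum_congr rfl fun p hp => ?_
      rw [TRV_shift p (TRV_mem hc p hp).1.one_lt.le, hq]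
      ring
    rw [e1]
    exact Complex.abs_re_le_norm _
  set f : ℝ → ℝ := fun t => |Z t| * ‖MM X lam (range R) t‖ with hf
  set g : ℝ → ℝ := fun t => ‖NN X lam (range R) t‖ * ‖Q t‖ with hg
  have hfc : Continuous f := hZC.abs.mul (MAINx.cont_MM X lam _).norm
  have hgc : Continuous g := (MAINx.cont_NN X lam _).norm.mul hQc.norm
  set A : ℝ := C1 * H * L ^ (1 / 4 : ℝ) * W ^ (3 / 4 : ℝ) with hA
  set B : ℝ := C2 * H * (L ^ (1 / 4 : ℝ) * W ^ (-(1 / 4) : ℝ)) * C5 with hB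
  have hLp : 0 < L ^ (1 / 4 : ℝ) := Real.rpow_pos_of_pos hL0 _
  have hWp1 : 0 < W ^ (3 / 4 : ℝ) := Real.rpow_pos_of_pos hW0 _
  have hWp2 : 0 < W ^ (-(1 / 4) : ℝ) := Real.rpow_pos_of_pos hW0 _
  have hWp3 : 0 < W ^ (1 / 4 : ℝ) := Real.rpow_pos_of_pos hW0 _
  have hA0 : 0 < A := by positivity
  have hB0 : 0 < B := by positivity
  have hbp : b ^ (1 / 4 : ℝ) = L ^ (1 / 4 : ℝ) * W ^ (-(1 / 4) : ℝ) := by
    rw [hb, Real.div_rpow hL0.le hW0.le, Real.rpow_neg hW0.le, div_eq_mul_inv]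
  have hfA : ∫ t in T..(T + H), f t ^ 2 ≤ A := by
    have : (fun t => f t ^ 2) = fun t => |Z t| ^ 2 * ‖MM X lam (range R) t‖ ^ 2 := by
      funext t
      rw [hf, mul_pow]
    rw [this]
    exact hM
  have hgB : ∫ t in T..(T + H), g t ^ 2 ≤ B := by
    have : (fun t => g t ^ 2) = fun t => ‖NN X lam (range R) t‖ ^ 2 *
        ‖∑ p ∈ PU X R, q p * mo p t‖ ^ 2 := by
      funext t
      rw [hg, mul_pow]
    rw [this]
    refine hN.trans ?_
    rw [hXR, hbp, hB]
    apply mul_le_mul_of_nonneg_left _ (by positivity)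
    rw [hC5]
    have : (∑ p ∈ PU X R, ‖q p‖ / (p : ℝ)) ^ 2 ≤ (1 + C4) ^ 2 :=
      pow_le_pow_left₀ hS1' hS1 2
    linarith
  have hab : T ≤ T + H := by linarith
  have hcs := MAINx.cs hab hfc hgc hA0 hB0 hfA hgB
  have hfg : ∫ t in T..(T + H), gd X lam R t * (|Z t| * |PR X R t - PR X R (t - v)|) ≤
      4 * ∫ t in T..(T + H), f t * g t := by
    by_cases hint : IntervalIntegrable
        (fun t => gd X lam R t * (|Z t| * |PR X R t - PR X R (t - v)|)) volume T (T + H)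
    · rw [← intervalIntegral.integral_const_mul]
      apply intervalIntegral.integral_mono_on hab hint
      · exact (continuous_const.mul (hfc.mul hgc)).intervalIntegrable _ _
      · intro t _
        have e1 := (hGDM L R X lam hc t).2
        have e2 := hRe t
        have e3 : |Z t| * |PR X R t - PR X R (t - v)| ≤ |Z t| * ‖Q t‖ :=
          mul_le_mul_of_nonneg_left e2 (abs_nonneg _)
        calc gd X lam R t * (|Z t| * |PR X R t - PR X R (t - v)|)
            ≤ 4 * (‖MM X lam (range R) t‖ * ‖NN X lam (range R) t‖) * (|Z t| * ‖Q t‖) := by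
              apply mul_le_mul e1 e3 (by positivity) (by positivity)
          _ = 4 * (f t * g t) := by
              rw [hf, hg]
              ring
    · rw [intervalIntegral.integral_undef hint]
      have : 0 ≤ ∫ t in T..(T + H), f t * g t := by
        apply intervalIntegral.integral_nonneg hab
        intro t _
        rw [hf, hg]
        positivity
      linarith
  refine hfg.trans ?_
  have hsq : Real.sqrt (A * B) =
      Real.sqrt (C1 * C2 * C5) * (H * L ^ (1 / 4 : ℝ) * W ^ (1 / 4 : ℝ)) := by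
    have e1 : A * B = (C1 * C2 * C5) * (H * L ^ (1 / 4 : ℝ) * W ^ (1 / 4 : ℝ)) ^ 2 := by
      have e2 : W ^ (3 / 4 : ℝ) * W ^ (-(1 / 4) : ℝ) = (W ^ (1 / 4 : ℝ)) ^ 2 := by
        rw [← Real.rpow_add hW0, ← Real.rpow_natCast, ← Real.rpow_mul hW0.le]
        norm_num
      rw [hA, hB]
      linear_combination (C1 * C2 * C5) * (H * L ^ (1 / 4 : ℝ)) ^ 2 * e2
    rw [e1, Real.sqrt_mul hCC.le, Real.sqrt_sq (by positivity)]
  calc 4 * ∫ t in T..(T + H), f t * g t ≤ 4 * Real.sqrt (A * B) := by linarith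
    _ = 4 * Real.sqrt (C1 * C2 * C5) * H * L ^ (1 / 4 : ℝ) * W ^ (1 / 4 : ℝ) := by
        rw [hsq]; ring

end HZS
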