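import Pool.Agent.Work.MP_c51bc2_nt_lb.Interface
import Pool.Agent.Work.MP_c51bc2_nt.B_MO

/-! # MP_c51bc2_nt_lb, block VLB -/

open Finset Complex MeasureTheory

namespace HZS

theorem VLB_sub {L : ℝ} {R : ℕ} {X lam : ℕ → ℝ} (hc : IsChain L R X lam) : PU X R ⊆ PA (X R) := by
  intro p hp
  unfold PU at hp
  rw [mem_biUnion] at hp
  obtain ⟨j, hj, hpj⟩ := hp
  have hjR : j < R := mem_range.1 hj
  have h1 := MO_PB hpj (by linarith [MO_X_ge hc (show j + 1 ≤ R by omega)])
  have h2 := MO_X_ge hc hjR.le
  have h3 := MO_X_mono hc (show j + 1 ≤ R by omega) le_rfl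
  unfold PA
  rw [mem_filter, mem_Icc]
  exact ⟨⟨h1.1.one_lt.le, (Nat.le_floor_iff (by linarith)).2 (h1.2.2.trans h3)⟩, h1.1,
    by linarith⟩

/-- the primes up to `100` -/
theorem VLB_small : ∑ p ∈ (Icc 1 100).filter Nat.Prime, (1 / (p : ℝ)) ≤ 100 := by
  calc ∑ p ∈ (Icc 1 100).filter Nat.Prime, (1 / (p : ℝ))
      ≤ ∑ p ∈ Icc 1 100, (1 : ℝ) := by
        refine (sum_le_sum_of_subset_of_nonneg (filter_subset _ _)
          fun _ _ _ => by positivity).trans (sum_le_sum fun p hp => ?_)
        rw [mem_Icc] at hp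
        rw [div_le_one (by exact_mod_cast hp.1)]
        exact_mod_cast hp.1
    _ = 100 := by simp

theorem p_VLB (hMER : Stmt_MER) (hMERL : Stmt_MERL) (hMER2 : Stmt_MER2) : Stmt_VLB := by
  constructor
  · obtain ⟨C, hC, h⟩ := MO_PA_sum hMER
    refine ⟨C, hC, fun L R X lam hc => le_trans ?_ (h (X R) (MO_X_ge hc le_rfl))⟩
    apply Real.exp_le_exp.2
    apply mul_le_mul_of_nonneg_left _ (by norm_num)
    exact sum_le_sum_of_subset_of_nonneg (VLB_sub hc) fun _ _ _ => by positivity
  · intro δ
    obtain ⟨C1, hC1⟩ := hMERL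
    obtain ⟨C2, hC2p, hC2⟩ := hMER2
    refine ⟨Real.exp (Real.exp (3 * (|C1| + 104) + Real.exp C2)), ?_, ?_⟩
    · exact Real.one_lt_exp_iff.2 (Real.exp_pos _)
    intro T W R X lam hT hL
    set E0 : ℝ := 3 * (|C1| + 104) + Real.exp C2 with hE0
    have hE0p : 312 ≤ E0 := by
      have := abs_nonneg C1
      have := Real.exp_pos C2
      rw [hE0]
      linarith
    have hTpos : 0 < T := lt_of_lt_of_le (Real.exp_pos _) hT
    have hlogT : Real.exp E0 ≤ Real.log T := (Real.le_log_iff_exp_le hTpos).2 hT
    have hlogTpos : 0 < Real.log T := lt_of_lt_of_le (Real.exp_pos _) hlogT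
    have hell : E0 ≤ ell T := (Real.le_log_iff_exp_le hlogTpos).2 hlogT
    have hellpos : 0 < ell T := by linarith
    have hc := hL.lc.chain
    have hR2 := hL.R2
    have hX1 := hL.x1
    have hX1ge : 100 ≤ X 1 := MO_X_ge hc (by omega)
    have hlogX1 : Real.log (X 1) = Real.log T / ell T ^ 2 := by rw [hX1, Real.log_exp]
    have hXR := hL.lc.xR
    have hlogXR : Real.log (X R) = Real.log T / W := by rw [hXR, Real.log_exp]
    have hW8 := hL.lc.w8
    have hll : Real.log (Real.log (X 1)) = ell T - 2 * Real.log (ell T) := by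
      rw [hlogX1, Real.log_div hlogTpos.ne' (by positivity), Real.log_pow]
      push_cast
      rfl
    have hlogell : Real.log (ell T) ≤ ell T / 16 + 2 := by
      have h1 : Real.log (ell T / 16) ≤ ell T / 16 - 1 := Real.log_le_sub_one_of_pos (by positivity)
      rw [Real.log_div hellpos.ne' (by norm_num)] at h1
      have h2 : Real.log 16 ≤ 3 := by
        rw [show (16 : ℝ) = 2 ^ 4 by norm_num, Real.log_pow]
        have := Real.log_two_lt_d9
        push_cast
        linarith
      linarith
    have hC2ell : C2 ≤ Real.log (ell T) := by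
      rw [Real.le_log_iff_exp_le hellpos]
      have := abs_nonneg C1
      linarith
    refine ⟨?_, ?_, ?_⟩
    · have h1 := hC1 (X 1) (by linarith)
      rw [hll] at h1
      have h2 : ∑ p ∈ (Icc 1 ⌊X 1⌋₊).filter Nat.Prime, (1 / (p : ℝ)) ≤
          ∑ p ∈ (Icc 1 100).filter Nat.Prime, (1 / (p : ℝ)) + VV (PB X 0) := by
        unfold VV
        rw [← sum_union]
        · refine sum_le_sum_of_subset_of_nonneg ?_ fun _ _ _ => by positivity
          intro p hp
          rw [mem_filter, mem_Icc] at hp
          rw [mem_union]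
          by_cases h : p ≤ 100
          · left
            rw [mem_filter, mem_Icc]
            exact ⟨⟨hp.1.1, h⟩, hp.2⟩
          · right
            unfold PB
            rw [mem_filter, mem_Icc]
            refine ⟨hp.1, hp.2, ?_⟩
            rw [hc.x0]
            push_neg at h
            exact_mod_cast h
        · rw [disjoint_left]
          intro p hp hp'
          rw [mem_filter, mem_Icc] at hp
          have h3 := MO_PB hp' (by simpa using (by linarith : (0 : ℝ) ≤ X 1))
          rw [hc.x0] at h3
          have h4 : (p : ℝ) ≤ 100 := by exact_mod_cast hp.1.2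
          linarith [h3.2.1]
      have h3 := VLB_small
      have h4 := le_abs_self C1
      have h5 := Real.exp_pos C2
      linarith
    · have := hc.sig 0 (by omega)
      rw [hL.lam0] at this
      exact this
    · have h1 := hC2 (X 1) (X R) (by linarith) (MO_X_mono hc (by omega) le_rfl)
      have h2 : VV (PU X R \ PB X 0) ≤
          ∑ p ∈ (Icc 1 ⌊X R⌋₊).filter (fun p : ℕ => p.Prime ∧ X 1 < (p : ℝ)), (1 / (p : ℝ)) := by
        unfold VV
        refine sum_le_sum_of_subset_of_nonneg ?_ fun _ _ _ => by positivity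
        intro p hp
        rw [mem_sdiff] at hp
        obtain ⟨hp1, hp2⟩ := hp
        unfold PU at hp1
        rw [mem_biUnion] at hp1
        obtain ⟨j, hj, hpj⟩ := hp1
        have hjR : j < R := mem_range.1 hj
        have hj0 : 1 ≤ j := by
          rcases Nat.eq_zero_or_pos j with h | h
          · exact absurd (h ▸ hpj) hp2
          · exact h
        have h3 := MO_PB hpj (by linarith [MO_X_ge hc (show j + 1 ≤ R by omega)])
        have h4 := MO_X_mono hc hj0 hjR.le
        have h5 := MO_X_mono hc (show j + 1 ≤ R by omega) le_rfl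
        have h6 := MO_X_ge hc (le_refl R)
        rw [mem_filter, mem_Icc]
        exact ⟨⟨h3.1.one_lt.le, (Nat.le_floor_iff (by linarith)).2 (h3.2.2.trans h5)⟩, h3.1,
          by linarith⟩
      have h3 : Real.log (Real.log (X R) / Real.log (X 1)) ≤ 2 * Real.log (ell T) := by
        rw [hlogXR, hlogX1]
        have h4 : Real.log T / W / (Real.log T / ell T ^ 2) = ell T ^ 2 / W := by
          have : W ≠ 0 := by linarith
          field_simp
        rw [h4]
        have h5 : ell T ^ 2 / W ≤ ell T ^ 2 := div_le_self (by positivity) (by linarith)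
        have h6 : Real.log (ell T ^ 2 / W) ≤ Real.log (ell T ^ 2) :=
          Real.log_le_log (by positivity) h5
        rw [Real.log_pow] at h6
        push_cast at h6
        exact h6
      linarith

end HZS
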