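import Pool.Agent.Work.MP_c51bc2_nt_lb.Interface

open Finset Complex MeasureTheory

namespace HZS

/-- an indicator times a continuous function is interval integrable -/
theorem WIN_ii {g f : ℝ → ℝ} (hg : Measurable g) (hgb : ∀ t, g t = 0 ∨ g t = 1)
    (hf : Continuous f) (a b : ℝ) : IntervalIntegrable (fun t => g t * f t) volume a b := by
  refine (hf.intervalIntegrable a b).mono_fun ?_ ?_
  · exact (hg.mul hf.measurable).aestronglyMeasurable
  · refine Filter.Eventually.of_forall fun t => ?_
    show ‖g t * f t‖ ≤ ‖f t‖
    rcases hgb t with h | h <;> rw [h] <;> simp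

theorem p_WIN : Stmt_WIN := by
  intro z P F g T H h κ E S hz hP hg hgb hH hh hκ hF1 hFL hS hE
  have hFc : Continuous F := by
    have : LipschitzWith κ.toNNReal F := by
      refine LipschitzWith.of_dist_le_mul fun x y => ?_
      rw [Real.dist_eq, Real.dist_eq, Real.coe_toNNReal _ hκ]
      exact hFL x y
    exact this.continuous
  have hFP : Continuous fun t => F (P t) := hFc.comp hP
  set A : ℝ := ∫ t in T..(T + H), z t * F (P t) with hA
  set C : ℝ → ℝ := fun v => ∫ t in T..(T + H), z (t + v) * F (P t) with hC
  set G : ℝ := ∫ t in T..(T + H), (1 - g t) * |z t| with hG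
  set D : ℝ := 2 * G + κ * E + 2 * h * S with hD
  have hTH : T ≤ T + H := by linarith
  have hS0 : 0 ≤ S := le_trans (abs_nonneg _) (hS T ⟨le_refl _, by linarith⟩)
  have hg' : Measurable fun t => 1 - g t := measurable_const.sub hg
  have hgb' : ∀ t, (1 - g t) = 0 ∨ (1 - g t) = 1 := by
    intro t
    rcases hgb t with h | h
    · right; rw [h]; norm_num
    · left; rw [h]; norm_num
  -- step 1
  have h1 : ∀ v ∈ Set.Icc 0 h,
      |A - ∫ t in T..(T + H), z t * F (P (t - v))| ≤ 2 * G + κ * E := by
    intro v hv
    have c1 : Continuous fun t => z t * F (P t) := hz.mul hFP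
    have c2 : Continuous fun t => z t * F (P (t - v)) :=
      hz.mul (hFP.comp (continuous_id.sub continuous_const))
    have hPv : Continuous fun t => P (t - v) := hP.comp (continuous_id.sub continuous_const)
    rw [hA, ← intervalIntegral.integral_sub (c1.intervalIntegrable _ _)
      (c2.intervalIntegrable _ _)]
    refine (intervalIntegral.abs_integral_le_integral_abs hTH).trans ?_
    have i1 : IntervalIntegrable (fun t => (1 - g t) * |z t|) volume T (T + H) :=
      WIN_ii hg' hgb' hz.abs _ _
    have i2 : IntervalIntegrable (fun t => g t * (|z t| * |P t - P (t - v)|)) volume T (T + H) :=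
      WIN_ii hg hgb (hz.abs.mul (hP.sub hPv).abs) _ _
    have hle : ∫ t in T..(T + H), |z t * F (P t) - z t * F (P (t - v))| ≤
        ∫ t in T..(T + H), (2 * ((1 - g t) * |z t|) +
          κ * (g t * (|z t| * |P t - P (t - v)|))) := by
      refine intervalIntegral.integral_mono_on hTH ((c1.sub c2).abs.intervalIntegrable _ _)
        ((i1.const_mul 2).add (i2.const_mul κ)) fun t _ => ?_
      have e1 : |z t * F (P t) - z t * F (P (t - v))| = |z t| * |F (P t) - F (P (t - v))| := by
        rw [← mul_sub, abs_mul]
      rw [e1]
      have hz0 := abs_nonneg (z t)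
      rcases hgb t with h | h
      · rw [h]
        have : |F (P t) - F (P (t - v))| ≤ 2 := by
          have a1 := hF1 (P t)
          have a2 := hF1 (P (t - v))
          rw [abs_le] at a1 a2 ⊢
          constructor <;> linarith [a1.1, a1.2, a2.1, a2.2]
        nlinarith [mul_le_mul_of_nonneg_left this hz0]
      · rw [h]
        have := hFL (P t) (P (t - v))
        nlinarith [mul_le_mul_of_nonneg_left this hz0]
    refine hle.trans ?_
    rw [intervalIntegral.integral_add (i1.const_mul 2) (i2.const_mul κ),
      intervalIntegral.integral_const_mul, intervalIntegral.integral_const_mul]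
    have := hE v hv
    have := mul_le_mul_of_nonneg_left this hκ
    linarith
  -- step 2
  have h2 : ∀ v ∈ Set.Icc 0 h,
      |(∫ t in T..(T + H), z t * F (P (t - v))) - C v| ≤ 2 * h * S := by
    intro v hv
    have cf : Continuous fun t => z (t + v) * F (P t) :=
      (hz.comp (continuous_id.add continuous_const)).mul hFP
    have e1 : (∫ t in T..(T + H), z t * F (P (t - v))) =
        ∫ t in (T - v)..(T + H - v), z (t + v) * F (P t) := by
      have := intervalIntegral.integral_comp_sub_right (a := T) (b := T + H)
        (fun t => z (t + v) * F (P t)) v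
      rw [← this]
      refine intervalIntegral.integral_congr fun t _ => ?_
      show z t * F (P (t - v)) = z (t - v + v) * F (P (t - v))
      rw [sub_add_cancel]
    have e2 : (∫ t in (T - v)..(T + H - v), z (t + v) * F (P t)) - C v =
        (∫ t in (T - v)..T, z (t + v) * F (P t)) -
          ∫ t in (T + H - v)..(T + H), z (t + v) * F (P t) := by
      have a1 := intervalIntegral.integral_add_adjacent_intervals
        (cf.intervalIntegrable (μ := volume) (T - v) T)
        (cf.intervalIntegrable (μ := volume) T (T + H))
      have a2 := intervalIntegral.integral_add_adjacent_intervals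
        (cf.intervalIntegrable (μ := volume) (T - v) (T + H - v))
        (cf.intervalIntegrable (μ := volume) (T + H - v) (T + H))
      simp only [hC]
      linarith
    rw [e1, e2]
    have b1 : |∫ t in (T - v)..T, z (t + v) * F (P t)| ≤ S * h := by
      have := intervalIntegral.norm_integral_le_of_norm_le_const (a := T - v) (b := T)
        (f := fun t => z (t + v) * F (P t)) (C := S) (fun t ht => by
          rw [Set.uIoc_of_le (by linarith [hv.1])] at ht
          have q1 := hS (t + v) ⟨by linarith [ht.1], by linarith [ht.2, hv.2]⟩
          rw [Real.norm_eq_abs, abs_mul]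
          have q2 := hF1 (P t)
          calc |z (t + v)| * |F (P t)| ≤ S * 1 :=
                mul_le_mul q1 q2 (abs_nonneg _) hS0
            _ = S := mul_one S)
      rw [Real.norm_eq_abs] at this
      refine this.trans ?_
      have : |T - (T - v)| = v := by
        rw [show T - (T - v) = v by ring, abs_of_nonneg hv.1]
      rw [this]
      exact mul_le_mul_of_nonneg_left hv.2 hS0
    have b2 : |∫ t in (T + H - v)..(T + H), z (t + v) * F (P t)| ≤ S * h := by
      have := intervalIntegral.norm_integral_le_of_norm_le_const (a := T + H - v) (b := T + H)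
        (f := fun t => z (t + v) * F (P t)) (C := S) (fun t ht => by
          rw [Set.uIoc_of_le (by linarith [hv.1])] at ht
          have q1 := hS (t + v) ⟨by linarith [ht.1], by linarith [ht.2, hv.2]⟩
          rw [Real.norm_eq_abs, abs_mul]
          have q2 := hF1 (P t)
          calc |z (t + v)| * |F (P t)| ≤ S * 1 :=
                mul_le_mul q1 q2 (abs_nonneg _) hS0
            _ = S := mul_one S)
      rw [Real.norm_eq_abs] at this
      refine this.trans ?_
      have : |T + H - (T + H - v)| = v := by
        rw [show T + H - (T + H - v) = v by ring, abs_of_nonneg hv.1]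
      rw [this]
      exact mul_le_mul_of_nonneg_left hv.2 hS0
    rw [abs_le] at b1 b2 ⊢
    constructor <;> linarith [b1.1, b1.2, b2.1, b2.2]
  have h3 : ∀ v ∈ Set.Icc 0 h, |A - C v| ≤ D := by
    intro v hv
    have a1 := h1 v hv
    have a2 := h2 v hv
    rw [abs_le] at a1 a2 ⊢
    rw [hD]
    constructor <;> linarith [a1.1, a1.2, a2.1, a2.2]
  -- continuity of `C`
  have hun : Continuous fun x : ℝ × ℝ => z (x.2 + x.1) * F (P x.2) :=
    (hz.comp (continuous_snd.add continuous_fst)).mul (hFP.comp continuous_snd)
  have hCc : Continuous C := by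
    exact intervalIntegral.continuous_parametric_intervalIntegral_of_continuous'
      (f := fun v t => z (t + v) * F (P t)) hun T (T + H)
  have h4 : |h * A - ∫ v in (0 : ℝ)..h, C v| ≤ D * h := by
    have e : h * A - ∫ v in (0 : ℝ)..h, C v = ∫ v in (0 : ℝ)..h, (A - C v) := by
      rw [intervalIntegral.integral_sub (by simp) (hCc.intervalIntegrable _ _)]
      simp
    rw [e]
    have := intervalIntegral.norm_integral_le_of_norm_le_const (a := 0) (b := h)
      (f := fun v => A - C v) (C := D) (fun v hv => by
        rw [Set.uIoc_of_le hh.le] at hv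
        exact h3 v ⟨hv.1.le, hv.2⟩)
    rw [Real.norm_eq_abs, sub_zero, abs_of_pos hh] at this
    exact this
  have h5 : ∫ v in (0 : ℝ)..h, C v =
      ∫ t in T..(T + H), (∫ u in t..(t + h), z u) * F (P t) := by
    have hint : IntegrableOn (Function.uncurry fun v t => z (t + v) * F (P t))
        (Set.uIoc 0 h ×ˢ Set.uIoc T (T + H)) := by
      have hcpt : IsCompact (Set.uIcc (0 : ℝ) h ×ˢ Set.uIcc T (T + H)) :=
        isCompact_uIcc.prod isCompact_uIcc
      have : IntegrableOn (Function.uncurry fun v t => z (t + v) * F (P t))
          (Set.uIcc (0 : ℝ) h ×ˢ Set.uIcc T (T + H)) :=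
        ContinuousOn.integrableOn_compact hcpt hun.continuousOn
      exact this.mono_set (Set.prod_mono Set.uIoc_subset_uIcc Set.uIoc_subset_uIcc)
    have sw := intervalIntegral_intervalIntegral_swap hint
    simp only [hC]
    rw [sw]
    refine intervalIntegral.integral_congr fun t _ => ?_
    show ∫ v in (0 : ℝ)..h, z (t + v) * F (P t) = (∫ u in t..(t + h), z u) * F (P t)
    rw [intervalIntegral.integral_mul_const, intervalIntegral.integral_comp_add_left, add_zero]
  have hJc : Continuous fun t => ∫ u in t..(t + h), z u := by
    have : (fun t => ∫ u in t..(t + h), z u) = fun t => ∫ v in (0 : ℝ)..h, z (t + v) := by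
      funext t
      rw [intervalIntegral.integral_comp_add_left, add_zero]
    rw [this]
    exact intervalIntegral.continuous_parametric_intervalIntegral_of_continuous'
      (f := fun t v => z (t + v)) (hz.comp (continuous_fst.add continuous_snd)) 0 h
  have h6 : |∫ v in (0 : ℝ)..h, C v| ≤ ∫ t in T..(T + H), |∫ u in t..(t + h), z u| := by
    rw [h5]
    refine (intervalIntegral.abs_integral_le_integral_abs hTH).trans ?_
    refine intervalIntegral.integral_mono_on hTH ((hJc.mul hFP).abs.intervalIntegrable _ _)
      (hJc.abs.intervalIntegrable _ _) fun t _ => ?_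
    rw [abs_mul]
    have := hF1 (P t)
    nlinarith [abs_nonneg (∫ u in t..(t + h), z u)]
  have h7 : h * |A| ≤ (∫ t in T..(T + H), |∫ u in t..(t + h), z u|) + D * h := by
    have : h * |A| = |h * A| := by rw [abs_mul, abs_of_pos hh]
    rw [this]
    have q := abs_sub_abs_le_abs_sub (h * A) (∫ v in (0 : ℝ)..h, C v)
    linarith
  have h8 : |A| ≤ 1 / h * (∫ t in T..(T + H), |∫ u in t..(t + h), z u|) + D := by
    rw [← sub_nonneg]
    have : 1 / h * (∫ t in T..(T + H), |∫ u in t..(t + h), z u|) + D - |A| =
        1 / h * ((∫ t in T..(T + H), |∫ u in t..(t + h), z u|) + D * h - h * |A|) := by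
      field_simp
    rw [this]
    exact mul_nonneg (by positivity) (by linarith)
  rw [hD] at h8
  linarith

end HZS
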