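import Pool.Agent.Work.MP_c51bc2_nt_lb.Interface
import Pool.Agent.Work.MP_c51bc2_nt.Multi

/-!
# WSM: weighted sums over integers composed of the primes of a finite set
-/

open Finset Complex MeasureTheory

namespace HZS

noncomputable section

lemma WSM_nonneg (s : ℝ) (hs : 0 ≤ s) (n : ℕ) : 0 ≤ cf s n := by
  unfold cf
  exact prod_nonneg fun p _ => by positivity

/-- `cf r d · v_p(d) = r · cf r (d/p)` -/
lemma WSM_cf (r : ℝ) {p d : ℕ} (hp : p.Prime) (hd : d ≠ 0) (hpd : p ∣ d) :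
    cf r d * (d.factorization p : ℝ) = r * cf r (d / p) := by
  have hd' : d / p ≠ 0 := (Nat.div_pos (Nat.le_of_dvd (Nat.pos_of_ne_zero hd) hpd) hp.pos).ne'
  have hsub : ∀ q ∈ (d / p).primeFactors, q ∈ d.primeFactors := fun q hq =>
    Nat.primeFactors_mono (Nat.div_dvd_of_dvd hpd) hd hq
  have hfac : ∀ q, (d / p).factorization q = d.factorization q - (if p = q then 1 else 0) := by
    intro q
    rw [Nat.factorization_div hpd, Finsupp.tsub_apply, hp.factorization, Finsupp.single_apply]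
  have hpm : p ∈ d.primeFactors := Nat.mem_primeFactors.2 ⟨hp, hpd, hd⟩
  have hv : 1 ≤ d.factorization p := (hp.dvd_iff_one_le_factorization hd).1 hpd
  rw [Multi.cf_eq (fun q hq => hq) r, Multi.cf_eq hsub r, ← Finset.mul_prod_erase _ _ hpm,
    ← Finset.mul_prod_erase _ _ hpm]
  have h1 : ∏ q ∈ d.primeFactors.erase p, r ^ ((d / p).factorization q) /
      (((d / p).factorization q).factorial : ℝ) =
      ∏ q ∈ d.primeFactors.erase p, r ^ (d.factorization q) /
        ((d.factorization q).factorial : ℝ) := by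
    refine Finset.prod_congr rfl fun q hq => ?_
    have hne : p ≠ q := (Finset.ne_of_mem_erase hq).symm
    rw [hfac q, if_neg hne, Nat.sub_zero]
  rw [h1, hfac p, if_pos rfl]
  obtain ⟨v, hv'⟩ : ∃ v, d.factorization p = v + 1 := ⟨d.factorization p - 1, by omega⟩
  rw [hv', Nat.add_sub_cancel, Nat.factorial_succ]
  have hf : ((v.factorial : ℕ) : ℝ) ≠ 0 := by exact_mod_cast Nat.factorial_ne_zero v
  have hv1 : ((v : ℝ) + 1) ≠ 0 := by positivity
  push_cast
  field_simp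
  ring

lemma WSM_sum {P S : Finset ℕ} (hP : ∀ p ∈ P, p.Prime)
    (hS : ∀ d ∈ S, d ≠ 0 ∧ ∀ p ∈ d.primeFactors, p ∈ P)
    (hdiv : ∀ d ∈ S, ∀ p ∈ P, p ∣ d → d / p ∈ S) {r : ℝ} (hr : 0 ≤ r) {p : ℕ} (hp : p ∈ P)
    (g : ℕ → ℝ) (hg : ∀ d, 0 ≤ g d) :
    ∑ d ∈ S, cf r d / (d : ℝ) * ((d.factorization p : ℝ) * g d) ≤
      r / p * ∑ d ∈ S, cf r d / (d : ℝ) * g (p * d) := by
  classical
  have hpp := hP p hp
  have hp0 : (p : ℝ) ≠ 0 := by exact_mod_cast hpp.ne_zero
  have h1 : ∑ d ∈ S, cf r d / (d : ℝ) * ((d.factorization p : ℝ) * g d) =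
      ∑ d ∈ S.filter (fun d => p ∣ d), cf r d / (d : ℝ) * ((d.factorization p : ℝ) * g d) := by
    symm
    apply Finset.sum_subset (Finset.filter_subset _ _)
    intro d hd hnd
    have hnd' : ¬ p ∣ d := fun h => hnd (Finset.mem_filter.2 ⟨hd, h⟩)
    rw [Nat.factorization_eq_zero_of_not_dvd hnd']
    simp
  have h2 : ∀ d ∈ S.filter (fun d => p ∣ d),
      cf r d / (d : ℝ) * ((d.factorization p : ℝ) * g d) =
        r / p * (cf r (d / p) / ((d / p : ℕ) : ℝ) * g (p * (d / p))) := by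
    intro d hd
    obtain ⟨hdS, hpd⟩ := Finset.mem_filter.1 hd
    have hd0 : (d : ℝ) ≠ 0 := by exact_mod_cast (hS d hdS).1
    have h3 := WSM_cf r hpp (hS d hdS).1 hpd
    rw [Nat.mul_div_cancel' hpd, Nat.cast_div hpd hp0]
    have h4 : cf r d / (d : ℝ) * ((d.factorization p : ℝ) * g d) =
        (cf r d * (d.factorization p : ℝ)) / d * g d := by ring
    rw [h4, h3]
    field_simp
  rw [h1, Finset.sum_congr rfl h2, ← Finset.mul_sum]
  apply mul_le_mul_of_nonneg_left _ (by positivity)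
  have hinj : Set.InjOn (fun d => d / p) (S.filter (fun d => p ∣ d) : Finset ℕ) := by
    intro a ha b hb hab
    have ha' := (Finset.mem_filter.1 (Finset.mem_coe.1 ha)).2
    have hb' := (Finset.mem_filter.1 (Finset.mem_coe.1 hb)).2
    have hab' : a / p = b / p := hab
    rw [← Nat.mul_div_cancel' ha', ← Nat.mul_div_cancel' hb', hab']
  have h5 : ∑ d ∈ S.filter (fun d => p ∣ d), cf r (d / p) / ((d / p : ℕ) : ℝ) * g (p * (d / p)) =
      ∑ d ∈ (S.filter (fun d => p ∣ d)).image (fun d => d / p), cf r d / (d : ℝ) * g (p * d) := by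
    rw [Finset.sum_image hinj]
  rw [h5]
  apply Finset.sum_le_sum_of_subset_of_nonneg
  · intro d hd
    obtain ⟨e, he, rfl⟩ := Finset.mem_image.1 hd
    obtain ⟨heS, hpe⟩ := Finset.mem_filter.1 he
    exact hdiv e heS p hp hpe
  · intro d _ _
    have := WSM_nonneg r hr d
    have := hg (p * d)
    positivity

theorem p_WSM (hSKE : Stmt_SKE) : Stmt_WSM := by
  classical
  intro P S hP hS hdiv r a hr ha
  have hS0 : ∑ d ∈ S, cf r d / (d : ℝ) ≤ Real.exp (r * ∑ p ∈ P, (1 / (p : ℝ))) := by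
    refine le_trans ?_ (hSKE P hP (S.sup fun d => ∑ p ∈ P, d.factorization p) r hr)
    apply Finset.sum_le_sum_of_subset_of_nonneg
    · intro d hd
      rw [Multi.mem_SK hP]
      exact ⟨(hS d hd).1, (hS d hd).2,
        Finset.le_sup (f := fun d => ∑ p ∈ P, d.factorization p) hd⟩
    · intro d _ _
      have := WSM_nonneg r hr d
      positivity
  refine ⟨hS0, ?_⟩
  set A : ℕ → ℝ := fun d => ∑ p ∈ P, (d.factorization p : ℝ) * a p with hA
  have hA0 : ∀ d, 0 ≤ A d := fun d => Finset.sum_nonneg fun p hp =>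
    mul_nonneg (by positivity) (ha p hp)
  have hAp : ∀ p ∈ P, ∀ d, d ≠ 0 → A (p * d) = a p + A d := by
    intro p hp d hd
    rw [hA]
    simp only
    rw [Nat.factorization_mul (hP p hp).ne_zero hd, (hP p hp).factorization]
    have h1 : ∀ q ∈ P, ((((Finsupp.single p 1 + d.factorization : ℕ →₀ ℕ) q : ℕ)) : ℝ) * a q =
        (if p = q then a q else 0) + (d.factorization q : ℝ) * a q := by
      intro q _
      rw [Finsupp.add_apply, Finsupp.single_apply]
      split_ifs with h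
      · push_cast
        ring
      · push_cast
        ring
    rw [Finset.sum_congr rfl h1, Finset.sum_add_distrib, Finset.sum_ite_eq, if_pos hp]
  set S0 : ℝ := ∑ d ∈ S, cf r d / (d : ℝ) with hS0d
  have hS0n : 0 ≤ S0 := Finset.sum_nonneg fun d _ => by
    have := WSM_nonneg r hr d
    positivity
  clear_value S0
  set S1 : ℝ := ∑ d ∈ S, cf r d / (d : ℝ) * A d with hS1d
  clear_value S1
  have hS1 : S1 ≤ (r * ∑ p ∈ P, a p / (p : ℝ)) * S0 := by
    have h1 : S1 = ∑ p ∈ P, ∑ d ∈ S, cf r d / (d : ℝ) * ((d.factorization p : ℝ) * a p) := by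
      rw [hS1d, Finset.sum_comm]
      exact Finset.sum_congr rfl fun d _ => by rw [hA, Finset.mul_sum]
    rw [h1, Finset.mul_sum, Finset.sum_mul]
    refine Finset.sum_le_sum fun p hp => ?_
    refine (WSM_sum hP hS hdiv hr hp (fun _ => a p) fun _ => ha p hp).trans (le_of_eq ?_)
    rw [← Finset.sum_mul, ← hS0d]
    ring
  have h2 : ∑ d ∈ S, cf r d / (d : ℝ) * A d ^ 2 =
      ∑ p ∈ P, ∑ d ∈ S, cf r d / (d : ℝ) * ((d.factorization p : ℝ) * (a p * A d)) := by
    rw [Finset.sum_comm]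
    refine Finset.sum_congr rfl fun d _ => ?_
    rw [← Finset.mul_sum, sq]
    congr 1
    conv_lhs => rw [hA]
    simp only
    rw [Finset.sum_mul]
    refine Finset.sum_congr rfl fun p _ => ?_
    rw [hA]
    ring
  have h3 : ∑ d ∈ S, cf r d / (d : ℝ) * A d ^ 2 ≤
      ∑ p ∈ P, r / p * (a p * (a p * S0 + S1)) := by
    rw [h2]
    refine Finset.sum_le_sum fun p hp => ?_
    refine (WSM_sum hP hS hdiv hr hp (fun d => a p * A d) fun d =>
      mul_nonneg (ha p hp) (hA0 d)).trans (le_of_eq ?_)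
    congr 1
    have h4 : ∀ d ∈ S, cf r d / (d : ℝ) * (a p * A (p * d)) =
        a p * (a p * (cf r d / (d : ℝ)) + cf r d / (d : ℝ) * A d) := by
      intro d hd
      rw [hAp p hp d (hS d hd).1]
      ring
    rw [Finset.sum_congr rfl h4, ← Finset.mul_sum, Finset.sum_add_distrib, ← Finset.mul_sum,
      ← hS0d, ← hS1d]
  have h5 : ∑ p ∈ P, r / p * (a p * (a p * S0 + S1)) =
      r * (∑ p ∈ P, a p ^ 2 / (p : ℝ)) * S0 + (r * ∑ p ∈ P, a p / (p : ℝ)) * S1 := by
    rw [Finset.mul_sum, Finset.mul_sum, Finset.sum_mul, Finset.sum_mul, ← Finset.sum_add_distrib]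
    refine Finset.sum_congr rfl fun p _ => ?_
    ring
  have h6 : 0 ≤ r * ∑ p ∈ P, a p / (p : ℝ) := mul_nonneg hr (Finset.sum_nonneg fun p hp =>
    div_nonneg (ha p hp) (by positivity))
  have h7 : 0 ≤ r * ∑ p ∈ P, a p ^ 2 / (p : ℝ) := mul_nonneg hr (Finset.sum_nonneg fun p _ =>
    div_nonneg (by positivity) (by positivity))
  calc ∑ d ∈ S, cf r d / (d : ℝ) * (∑ p ∈ P, (d.factorization p : ℝ) * a p) ^ 2
      = ∑ d ∈ S, cf r d / (d : ℝ) * A d ^ 2 := rfl
    _ ≤ r * (∑ p ∈ P, a p ^ 2 / (p : ℝ)) * S0 + (r * ∑ p ∈ P, a p / (p : ℝ)) * S1 :=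
        h3.trans (le_of_eq h5)
    _ ≤ r * (∑ p ∈ P, a p ^ 2 / (p : ℝ)) * S0 + (r * ∑ p ∈ P, a p / (p : ℝ)) *
          ((r * ∑ p ∈ P, a p / (p : ℝ)) * S0) := by
        have := mul_le_mul_of_nonneg_left hS1 h6
        linarith
    _ = S0 * (r * (∑ p ∈ P, a p ^ 2 / (p : ℝ)) + (r * ∑ p ∈ P, a p / (p : ℝ)) ^ 2) := by ring
    _ ≤ Real.exp (r * ∑ p ∈ P, (1 / (p : ℝ))) *
        (r * (∑ p ∈ P, a p ^ 2 / (p : ℝ)) + (r * ∑ p ∈ P, a p / (p : ℝ)) ^ 2) := by
        apply mul_le_mul_of_nonneg_right hS0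
        positivity

end

end HZS
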