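import Pool.Agent.Work.MP_c51bc2_nt_lb.Fin
import Pool.Agent.Work.MP_c51bc2_nt_lb.B_BLA
import Pool.Agent.Work.MP_c51bc2_nt_lb.B_CH1
import Pool.Agent.Work.MP_c51bc2_nt_lb.B_CHF
import Pool.Agent.Work.MP_c51bc2_nt_lb.B_CSI
import Pool.Agent.Work.MP_c51bc2_nt_lb.B_DEV
import Pool.Agent.Work.MP_c51bc2_nt_lb.B_ERB
import Pool.Agent.Work.MP_c51bc2_nt_lb.B_EXM
import Pool.Agent.Work.MP_c51bc2_nt_lb.B_FEJ
import Pool.Agent.Work.MP_c51bc2_nt_lb.B_GDM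
import Pool.Agent.Work.MP_c51bc2_nt_lb.B_LEV
import Pool.Agent.Work.MP_c51bc2_nt_lb.B_MES
import Pool.Agent.Work.MP_c51bc2_nt_lb.B_MOD
import Pool.Agent.Work.MP_c51bc2_nt_lb.B_NBN
import Pool.Agent.Work.MP_c51bc2_nt_lb.B_NBZ
import Pool.Agent.Work.MP_c51bc2_nt_lb.B_OFF
import Pool.Agent.Work.MP_c51bc2_nt_lb.B_OFP
import Pool.Agent.Work.MP_c51bc2_nt_lb.B_ORT
import Pool.Agent.Work.MP_c51bc2_nt_lb.B_PARb
import Pool.Agent.Work.MP_c51bc2_nt_lb.B_POL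
import Pool.Agent.Work.MP_c51bc2_nt_lb.B_QCO
import Pool.Agent.Work.MP_c51bc2_nt_lb.B_QMV
import Pool.Agent.Work.MP_c51bc2_nt_lb.B_SEB
import Pool.Agent.Work.MP_c51bc2_nt_lb.B_SNC
import Pool.Agent.Work.MP_c51bc2_nt_lb.B_SPH
import Pool.Agent.Work.MP_c51bc2_nt_lb.B_TLB
import Pool.Agent.Work.MP_c51bc2_nt_lb.B_TMV
import Pool.Agent.Work.MP_c51bc2_nt_lb.B_TRN
import Pool.Agent.Work.MP_c51bc2_nt_lb.B_TRV
import Pool.Agent.Work.MP_c51bc2_nt_lb.B_TWN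
import Pool.Agent.Work.MP_c51bc2_nt_lb.B_VLB
import Pool.Agent.Work.MP_c51bc2_nt_lb.B_WIN
import Pool.Agent.Work.MP_c51bc2_nt_lb.B_WSM
import Pool.Agent.Work.MP_c51bc2_nt_s.All

/-! All the blocks of THEOREM LB together. -/

namespace HZS

theorem lb_GDM : Stmt_GDM := p_GDM p_MES
theorem lb_OFP : Stmt_OFP := p_OFP stmt_TR
theorem lb_TWN : Stmt_TWN := p_TWN alls_TW0 alls_MO
theorem lb_OFF : Stmt_OFF := p_OFF alls_TW0 alls_MO lb_OFP p_MES alls_ZC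
theorem lb_DEV : Stmt_DEV := p_DEV lb_TWN lb_GDM p_MES alls_ZC
theorem lb_WSM : Stmt_WSM := p_WSM stmt_SKE
theorem lb_QMV : Stmt_QMV := p_QMV alls_CO stmt_MVPs stmt_MER lb_WSM p_QCO
theorem lb_TRV : Stmt_TRV := p_TRV lb_TWN lb_QMV p_CSI lb_GDM p_MES stmt_MER1 alls_ZC
theorem lb_BLA : Stmt_BLA :=
  p_BLA alls_PAR alls_FINA alls_LBF alls_ZB alls_ZC p_MES lb_OFF lb_DEV lb_TRV p_WIN
theorem lb_PARb : Stmt_PARb := p_PARb stmt_MER stmt_MER2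
theorem lb_TMV : Stmt_TMV := p_TMV stmt_PWR
theorem lb_TRN : Stmt_TRN := p_TRN p_ORT lb_TMV
theorem lb_CHF : Stmt_CHF := p_CHF p_CH1
theorem lb_SPH : Stmt_SPH := p_SPH lb_CHF p_FEJ
theorem lb_MOD : Stmt_MOD := p_MOD lb_SPH p_EXM p_SNC
theorem lb_SEB : Stmt_SEB := p_SEB lb_WSM
theorem lb_VLB : Stmt_VLB := p_VLB stmt_MER stmt_MERL stmt_MER2
theorem lb_NBN : Stmt_NBN := p_NBN lb_TRN p_POL p_SNC lb_MOD lb_SEB lb_VLB p_ERB alls_CO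
theorem lb_TLB : Stmt_TLB := p_TLB lb_QMV lb_VLB
theorem lb_NBZ : Stmt_NBZ :=
  p_NBZ lb_PARb lb_OFF lb_DEV lb_GDM p_MES p_CSI lb_TWN lb_NBN lb_TLB alls_LBF alls_ZC
theorem lb_LEV : Stmt_LEV := p_LEV lb_BLA lb_NBZ p_MES alls_ZC

end HZS
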