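import Pool.Agent.Work.MP_c51bc2_nt_lb.Interface
import Pool.Agent.Work.MP_c51bc2_nt.B_TR
import Pool.Agent.Work.MP_c51bc2_nt.B_TEL

/-!
# Block GDM: the size of `M` and `N` at good points
-/

open Finset Complex MeasureTheory

namespace HZS

/-- The product over the blocks, for the numbers `w i = ±PP_i/2`. -/
theorem GDM_prod (L : ℝ) (R : ℕ) (X lam : ℕ → ℝ) (hc : IsChain L R X lam) (w : ℕ → ℂ)
    (hw : ∀ i < R, ‖w i‖ ≤ (KK lam i : ℝ) / 10) :
    Real.exp (2 * (∑ i ∈ range R, w i).re) ≤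
      4 * ‖∏ i ∈ range R, EP (KK lam i) (w i)‖ ^ 2 := by
  set a : ℕ → ℝ := fun i => Real.exp (-(KK lam i : ℝ)) with ha
  have hKK : ∀ i < R, 50 * lam i ≤ (KK lam i : ℝ) := fun i _ => Nat.le_ceil _
  have hsum : ∑ i ∈ range R, a i ≤ 1 / 8 := by
    refine le_trans ?_ hc.sum
    apply Finset.sum_le_sum
    intro i hi
    have hi' := Finset.mem_range.1 hi
    apply Real.exp_le_exp.2
    have h1 := hc.lam1 i hi'
    have h2 := hKK i hi'
    linarith
  have ha0 : ∀ i, 0 ≤ a i := fun i => (Real.exp_pos _).le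
  have ha1 : ∀ i, a i ≤ 1 := fun i => by
    rw [ha]
    show Real.exp _ ≤ 1
    rw [Real.exp_le_one_iff]
    have : (0 : ℝ) ≤ (KK lam i : ℝ) := Nat.cast_nonneg _
    linarith
  have h3 := TELx.prod_one_sub (range R) a (fun i _ => ha0 i) (fun i _ => ha1 i)
  have h4 : ∏ i ∈ range R, ((1 - a i) ^ 2 * Real.exp (2 * (w i).re)) ≤
      ∏ i ∈ range R, ‖EP (KK lam i) (w i)‖ ^ 2 := by
    apply Finset.prod_le_prod
    · intro i _
      exact mul_nonneg (sq_nonneg _) (Real.exp_pos _).le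
    · intro i hi
      have h5 := TRx.ep_lower (KK lam i) (w i) (hw i (Finset.mem_range.1 hi))
      rw [Complex.norm_exp] at h5
      have h6 : 0 ≤ (1 - a i) * Real.exp (w i).re :=
        mul_nonneg (by linarith [ha1 i]) (Real.exp_pos _).le
      calc (1 - a i) ^ 2 * Real.exp (2 * (w i).re)
          = ((1 - a i) * Real.exp (w i).re) ^ 2 := by
            rw [mul_pow, ← Real.exp_nat_mul]
            norm_num
        _ ≤ ‖EP (KK lam i) (w i)‖ ^ 2 := pow_le_pow_left₀ h6 h5 2
  rw [Finset.prod_mul_distrib, ← Real.exp_sum, ← Finset.mul_sum, ← Complex.re_sum,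
    Finset.prod_pow, Finset.prod_pow, ← norm_prod] at h4
  have h7 : (1 / 4 : ℝ) ≤ (∏ i ∈ range R, (1 - a i)) ^ 2 := by
    rw [← Finset.prod_pow]
    linarith
  have h8 := mul_le_mul_of_nonneg_right h7 (Real.exp_pos (2 * (∑ i ∈ range R, w i).re)).le
  linarith

theorem p_GDM (_hM : Stmt_MES) : Stmt_GDM := by
  intro L R X lam hc t
  classical
  have key : Good X lam R t → Real.exp (PR X R t) ≤ 4 * ‖NN X lam (range R) t‖ ^ 2 ∧
      Real.exp (-(PR X R t)) ≤ 4 * ‖MM X lam (range R) t‖ ^ 2 := by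
    intro hg
    have h1 := GDM_prod L R X lam hc (fun i => PP X i t / 2) (fun i hi => by
      show ‖PP X i t / 2‖ ≤ _
      rw [norm_div, Complex.norm_ofNat]
      have := hg i hi
      linarith)
    have h2 := GDM_prod L R X lam hc (fun i => -(PP X i t) / 2) (fun i hi => by
      show ‖-(PP X i t) / 2‖ ≤ _
      rw [norm_div, norm_neg, Complex.norm_ofNat]
      have := hg i hi
      linarith)
    have e1 : 2 * (∑ i ∈ range R, PP X i t / 2).re = PR X R t := by
      rw [← Finset.sum_div, Complex.div_ofNat_re]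
      unfold PR
      ring
    have e2 : 2 * (∑ i ∈ range R, -(PP X i t) / 2).re = -(PR X R t) := by
      rw [← Finset.sum_div, Finset.sum_neg_distrib, Complex.div_ofNat_re, Complex.neg_re]
      unfold PR
      ring
    rw [e1] at h1
    rw [e2] at h2
    exact ⟨h1, h2⟩
  refine ⟨key, ?_⟩
  unfold gd
  split_ifs with hg
  · obtain ⟨h1, h2⟩ := key hg
    have h3 : (1 : ℝ) ≤ (4 * (‖MM X lam (range R) t‖ * ‖NN X lam (range R) t‖)) ^ 2 := by
      calc (1 : ℝ) = Real.exp (-(PR X R t)) * Real.exp (PR X R t) := by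
            rw [← Real.exp_add, neg_add_cancel, Real.exp_zero]
        _ ≤ (4 * ‖MM X lam (range R) t‖ ^ 2) * (4 * ‖NN X lam (range R) t‖ ^ 2) :=
            mul_le_mul h2 h1 (Real.exp_pos _).le (by positivity)
        _ = _ := by ring
    have h4 : 0 ≤ 4 * (‖MM X lam (range R) t‖ * ‖NN X lam (range R) t‖) := by positivity
    nlinarith
  · positivity

end HZS
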