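import Pool.Agent.Work.MP_c51bc2_nt_lb.Interface

/-!
# THEOREM LB: block POL, the majorant is a polynomial
-/

set_option autoImplicit false

open Finset Complex MeasureTheory

namespace HZS

noncomputable section

/-- `f` is a finite sum of monomials, with degrees at most `M` and `M'` -/
def POL_Q (M M' : ℕ) (B : ℝ) (f : ℂ → ℂ) : Prop :=
  ∃ (ι : Type) (S : Finset ι) (c : ι → ℂ) (u v : ι → ℕ), (∀ i ∈ S, u i ≤ M ∧ v i ≤ M') ∧
    (∀ z, f z = ∑ i ∈ S, c i * z ^ u i * (starRingEnd ℂ) z ^ v i) ∧ ∑ i ∈ S, ‖c i‖ ≤ B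

theorem POL_const (c : ℂ) : POL_Q 0 0 ‖c‖ (fun _ => c) :=
  ⟨Unit, Finset.univ, fun _ => c, fun _ => 0, fun _ => 0, by simp, by simp, by simp⟩

theorem POL_z : POL_Q 1 0 1 (fun z => z) :=
  ⟨Unit, Finset.univ, fun _ => 1, fun _ => 1, fun _ => 0, by simp, by simp, by simp⟩

theorem POL_w : POL_Q 0 1 1 (fun z => (starRingEnd ℂ) z) :=
  ⟨Unit, Finset.univ, fun _ => 1, fun _ => 0, fun _ => 1, by simp, by simp, by simp⟩

theorem POL_mono {M M' N N' : ℕ} {B B' : ℝ} {f : ℂ → ℂ} (h : POL_Q M M' B f) (hM : M ≤ N)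
    (hM' : M' ≤ N') (hB : B ≤ B') : POL_Q N N' B' f := by
  obtain ⟨ι, S, c, u, v, h1, h2, h3⟩ := h
  exact ⟨ι, S, c, u, v, fun i hi => ⟨(h1 i hi).1.trans hM, (h1 i hi).2.trans hM'⟩, h2,
    h3.trans hB⟩

theorem POL_nonneg {M M' : ℕ} {B : ℝ} {f : ℂ → ℂ} (h : POL_Q M M' B f) : 0 ≤ B := by
  obtain ⟨ι, S, c, u, v, h1, h2, h3⟩ := h
  exact (Finset.sum_nonneg fun _ _ => norm_nonneg _).trans h3

theorem POL_mul {M M' N N' : ℕ} {B B' : ℝ} {f g : ℂ → ℂ} (hf : POL_Q M M' B f)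
    (hg : POL_Q N N' B' g) : POL_Q (M + N) (M' + N') (B * B') (fun z => f z * g z) := by
  have hB := POL_nonneg hf
  obtain ⟨ι, S, c, u, v, h1, h2, h3⟩ := hf
  obtain ⟨ι', S', c', u', v', h1', h2', h3'⟩ := hg
  refine ⟨ι × ι', S ×ˢ S', fun i => c i.1 * c' i.2, fun i => u i.1 + u' i.2,
    fun i => v i.1 + v' i.2, fun i hi => ?_, fun z => ?_, ?_⟩
  · rw [Finset.mem_product] at hi
    exact ⟨add_le_add (h1 _ hi.1).1 (h1' _ hi.2).1, add_le_add (h1 _ hi.1).2 (h1' _ hi.2).2⟩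
  · show f z * g z = _
    rw [h2, h2', Finset.sum_mul_sum, ← Finset.sum_product']
    refine Finset.sum_congr rfl fun i _ => ?_
    rw [pow_add, pow_add]
    ring
  · have h4 : ∑ i ∈ S ×ˢ S', ‖c i.1 * c' i.2‖ = (∑ i ∈ S, ‖c i‖) * ∑ i ∈ S', ‖c' i‖ := by
      rw [Finset.sum_mul_sum, ← Finset.sum_product']
      exact Finset.sum_congr rfl fun i _ => norm_mul _ _
    rw [h4]
    exact mul_le_mul h3 h3' (Finset.sum_nonneg fun _ _ => norm_nonneg _) hB

theorem POL_add {M M' : ℕ} {B B' : ℝ} {f g : ℂ → ℂ} (hf : POL_Q M M' B f)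
    (hg : POL_Q M M' B' g) : POL_Q M M' (B + B') (fun z => f z + g z) := by
  obtain ⟨ι, S, c, u, v, h1, h2, h3⟩ := hf
  obtain ⟨ι', S', c', u', v', h1', h2', h3'⟩ := hg
  refine ⟨ι ⊕ ι', S.disjSum S', Sum.elim c c', Sum.elim u u', Sum.elim v v', fun i hi => ?_,
    fun z => ?_, ?_⟩
  · rw [Finset.mem_disjSum] at hi
    rcases hi with ⟨a, ha, rfl⟩ | ⟨b, hb, rfl⟩
    · exact h1 a ha
    · exact h1' b hb
  · show f z + g z = _
    rw [h2, h2', Finset.sum_disjSum]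
    rfl
  · rw [Finset.sum_disjSum]
    exact add_le_add h3 h3'

theorem POL_smul {M M' : ℕ} {B : ℝ} {f : ℂ → ℂ} (k : ℂ) (hf : POL_Q M M' B f) :
    POL_Q M M' (‖k‖ * B) (fun z => k * f z) := by
  have h := POL_mul (POL_const k) hf
  rwa [zero_add, zero_add] at h

theorem POL_sum {M M' : ℕ} (B : ℕ → ℝ) (f : ℕ → ℂ → ℂ) (n : ℕ)
    (h : ∀ k < n, POL_Q M M' (B k) (f k)) :
    POL_Q M M' (∑ k ∈ range n, B k) (fun z => ∑ k ∈ range n, f k z) := by
  induction n with
  | zero =>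
    have h0 := POL_mono (POL_const 0) (Nat.zero_le M) (Nat.zero_le M') (le_of_eq norm_zero)
    simpa using h0
  | succ n ih =>
    have h1 := POL_add (ih fun k hk => h k (hk.trans (Nat.lt_succ_self n)))
      (h n (Nat.lt_succ_self n))
    have h2 : (fun z => ∑ k ∈ range (n + 1), f k z) =
        fun z => (∑ k ∈ range n, f k z) + f n z := by
      funext z
      rw [Finset.sum_range_succ]
    rw [Finset.sum_range_succ, h2]
    exact h1

theorem POL_pow {M M' : ℕ} {B : ℝ} {f : ℂ → ℂ} (hf : POL_Q M M' B f) (n : ℕ) :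
    POL_Q (n * M) (n * M') (B ^ n) (fun z => f z ^ n) := by
  induction n with
  | zero =>
    have h0 := POL_const 1
    rw [norm_one] at h0
    simpa using h0
  | succ n ih =>
    have h1 := POL_mul ih hf
    have h2 : (fun z => f z ^ (n + 1)) = fun z => f z ^ n * f z := by
      funext z
      rw [pow_succ]
    rw [h2, pow_succ, Nat.succ_mul, Nat.succ_mul]
    exact h1

theorem POL_fin {M : ℕ} {B : ℝ} {f : ℂ → ℂ} (hf : POL_Q M M B f) : IsPol M B f := by
  classical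
  obtain ⟨ι, S, c, u, v, h1, h2, h3⟩ := hf
  have hmap : ∀ i ∈ S, (u i, v i) ∈ range (M + 1) ×ˢ range (M + 1) := by
    intro i hi
    rw [Finset.mem_product, Finset.mem_range, Finset.mem_range]
    exact ⟨Nat.lt_succ_of_le (h1 i hi).1, Nat.lt_succ_of_le (h1 i hi).2⟩
  refine ⟨fun a b => ∑ i ∈ S.filter (fun i => (u i, v i) = (a, b)), c i, fun z => ?_, ?_⟩
  · rw [h2, ← Finset.sum_product', ← Finset.sum_fiberwise_of_maps_to hmap]
    refine Finset.sum_congr rfl fun p _ => ?_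
    show _ = (∑ i ∈ S.filter (fun i => (u i, v i) = (p.1, p.2)), c i) * z ^ p.1 *
      (starRingEnd ℂ) z ^ p.2
    rw [Finset.sum_mul, Finset.sum_mul]
    refine Finset.sum_congr rfl fun i hi => ?_
    rw [Finset.mem_filter] at hi
    have h4 : u i = p.1 := congrArg Prod.fst hi.2
    have h5 : v i = p.2 := congrArg Prod.snd hi.2
    rw [h4, h5]
  · refine le_trans ?_ h3
    rw [← Finset.sum_product', ← Finset.sum_fiberwise_of_maps_to hmap (f := fun i => ‖c i‖)]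
    exact Finset.sum_le_sum fun p _ => norm_sum_le _ _

/-- the truncated exponential -/
theorem POL_EP {M M' : ℕ} {f : ℂ → ℂ} (hf : POL_Q M M' 1 f) (K : ℕ) :
    POL_Q (K * M) (K * M') (Real.exp (1 / 2)) (fun z => EP K (f z / 2)) := by
  have h1 : ∀ k < K + 1, POL_Q (K * M) (K * M') ((1 / 2) ^ k / (k.factorial : ℝ))
      (fun z => (f z / 2) ^ k / (k.factorial : ℂ)) := by
    intro k hk
    have h2 := POL_smul ((1 / 2 : ℂ) ^ k / (k.factorial : ℂ)) (POL_pow hf k)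
    have h3 : (fun z => (f z / 2) ^ k / (k.factorial : ℂ)) =
        fun z => (1 / 2 : ℂ) ^ k / (k.factorial : ℂ) * f z ^ k := by
      funext z
      rw [div_pow, div_pow]
      ring
    rw [h3]
    refine POL_mono h2 (Nat.mul_le_mul_right _ (Nat.lt_succ_iff.1 hk))
      (Nat.mul_le_mul_right _ (Nat.lt_succ_iff.1 hk)) (le_of_eq ?_)
    rw [one_pow, mul_one, norm_div, norm_pow, norm_div, norm_one, Complex.norm_natCast]
    norm_num
  have h4 := POL_sum (fun k => (1 / 2 : ℝ) ^ k / (k.factorial : ℝ))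
    (fun k z => (f z / 2) ^ k / (k.factorial : ℂ)) (K + 1) h1
  exact POL_mono h4 le_rfl le_rfl (Real.sum_le_exp_of_nonneg (by norm_num) _)

theorem POL_kap_sum {ρ : ℝ} (hρ : 0 ≤ ρ) (K : ℕ) :
    ∑ k ∈ range (K + 1), ρ ^ (2 * k) / ((2 * k + 1).factorial : ℝ) ≤ Real.exp ρ := by
  refine le_trans ?_ (Real.sum_le_exp_of_nonneg hρ (2 * K + 1))
  induction K with
  | zero => simp
  | succ K ih =>
    have hA := Finset.sum_range_succ (fun k => ρ ^ (2 * k) / ((2 * k + 1).factorial : ℝ)) (K + 1)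
    have hB := Finset.sum_range_succ (fun k => ρ ^ k / (k.factorial : ℝ)) (2 * K + 1)
    have hC := Finset.sum_range_succ (fun k => ρ ^ k / (k.factorial : ℝ)) (2 * K + 1 + 1)
    rw [hA, show 2 * (K + 1) + 1 = 2 * K + 1 + 1 + 1 by ring, hC, hB]
    have h1 : 0 ≤ ρ ^ (2 * K + 1) / ((2 * K + 1).factorial : ℝ) := by positivity
    have h2 : ρ ^ (2 * (K + 1)) / ((2 * K + 1 + 1 + 1).factorial : ℝ) ≤
        ρ ^ (2 * K + 1 + 1) / ((2 * K + 1 + 1).factorial : ℝ) := by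
      rw [show 2 * (K + 1) = 2 * K + 1 + 1 by ring]
      refine div_le_div_of_nonneg_left (by positivity) (by positivity) ?_
      exact_mod_cast Nat.factorial_le (Nat.le_succ _)
    linarith

theorem POL_kap {x η : ℝ} (hη : 0 < η) (K : ℕ) :
    POL_Q (2 * K) (2 * K) (Real.exp ((1 + |x|) / η))
      (fun z => ((kap K ((z.re - x) / η) : ℝ) : ℂ)) := by
  have h1 : POL_Q 1 1 ((1 + |x|) / η) (fun z => (((z.re - x) / η : ℝ) : ℂ)) := by
    have h2 := POL_smul (1 / (2 * η) : ℂ) (POL_mono POL_z le_rfl (Nat.zero_le 1) le_rfl)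
    have h3 := POL_smul (1 / (2 * η) : ℂ) (POL_mono POL_w (Nat.zero_le 1) le_rfl le_rfl)
    have h4 := POL_mono (POL_const (-(x / η) : ℂ)) (Nat.zero_le 1) (Nat.zero_le 1) le_rfl
    have h5 := POL_add (POL_add h2 h3) h4
    have h6 : (fun z : ℂ => (((z.re - x) / η : ℝ) : ℂ)) = fun z : ℂ => 1 / (2 * η : ℂ) * z +
        1 / (2 * η : ℂ) * (starRingEnd ℂ) z + -(x / η : ℂ) := by
      funext z
      have h7 : z + (starRingEnd ℂ) z = ((2 * z.re : ℝ) : ℂ) := Complex.add_conj z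
      have h8 : (η : ℂ) ≠ 0 := by exact_mod_cast hη.ne'
      calc (((z.re - x) / η : ℝ) : ℂ) = 1 / (2 * η : ℂ) * ((2 * z.re : ℝ) : ℂ) + -(x / η : ℂ) := by
            push_cast
            field_simp
            ring
        _ = _ := by rw [← h7]; ring
    rw [h6]
    refine POL_mono h5 le_rfl le_rfl (le_of_eq ?_)
    have h9 : ‖(1 / (2 * η) : ℂ)‖ = 1 / (2 * η) := by
      rw [norm_div, norm_mul, norm_one, Complex.norm_real, Real.norm_eq_abs, abs_of_pos hη]
      norm_num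
    rw [h9, norm_neg, norm_div, Complex.norm_real, Complex.norm_real, Real.norm_eq_abs,
      Real.norm_eq_abs, abs_of_pos hη]
    field_simp
    ring
  set ρ : ℝ := (1 + |x|) / η with hρd
  have hρ : 0 ≤ ρ := by positivity
  have h2 : ∀ k < K + 1, POL_Q (2 * K) (2 * K) (ρ ^ (2 * k) / ((2 * k + 1).factorial : ℝ))
      (fun z => (-1) ^ k * (((z.re - x) / η : ℝ) : ℂ) ^ (2 * k) /
        ((2 * k + 1).factorial : ℂ)) := by
    intro k hk
    have h3 := POL_smul ((-1 : ℂ) ^ k / ((2 * k + 1).factorial : ℂ)) (POL_pow h1 (2 * k))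
    have h4 : (fun z : ℂ => (-1) ^ k * (((z.re - x) / η : ℝ) : ℂ) ^ (2 * k) /
        ((2 * k + 1).factorial : ℂ)) = fun z : ℂ => (-1 : ℂ) ^ k / ((2 * k + 1).factorial : ℂ) *
          (((z.re - x) / η : ℝ) : ℂ) ^ (2 * k) := by
      funext z
      ring
    rw [h4]
    refine POL_mono h3 (by omega) (by omega) (le_of_eq ?_)
    rw [norm_div, norm_pow, norm_neg, norm_one, one_pow, Complex.norm_natCast]
    ring
  have h3 := POL_sum (fun k => ρ ^ (2 * k) / ((2 * k + 1).factorial : ℝ))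
    (fun k z => (-1) ^ k * (((z.re - x) / η : ℝ) : ℂ) ^ (2 * k) /
        ((2 * k + 1).factorial : ℂ)) (K + 1) h2
  have h4 : (fun z : ℂ => ((kap K ((z.re - x) / η) : ℝ) : ℂ)) = fun z : ℂ =>
      ∑ k ∈ range (K + 1), (-1) ^ k * (((z.re - x) / η : ℝ) : ℂ) ^ (2 * k) /
        ((2 * k + 1).factorial : ℂ) := by
    funext z
    unfold kap
    rw [Complex.ofReal_sum]
    refine Finset.sum_congr rfl fun k _ => ?_
    rw [Complex.ofReal_div, Complex.ofReal_mul, Complex.ofReal_pow, Complex.ofReal_pow,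
      Complex.ofReal_neg, Complex.ofReal_one, Complex.ofReal_natCast]
  rw [h4]
  exact POL_mono h3 le_rfl le_rfl (POL_kap_sum hρ K)

theorem p_POL : Stmt_POL := by
  intro K x η hη
  have h1 := POL_EP POL_z K
  have h2 := POL_EP POL_w K
  have h3 := POL_kap (x := x) hη K
  have h4 := POL_mul (POL_mul h1 h2) (POL_mul h3 h3)
  have h5 : (fun z => ((FF0 K x η z : ℝ) : ℂ)) = fun z => EP K (z / 2) *
      EP K ((starRingEnd ℂ) z / 2) * (((kap K ((z.re - x) / η) : ℝ) : ℂ) *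
        ((kap K ((z.re - x) / η) : ℝ) : ℂ)) := by
    funext z
    have h6 : EP K ((starRingEnd ℂ) z / 2) = (starRingEnd ℂ) (EP K (z / 2)) := by
      unfold EP
      rw [map_sum]
      refine Finset.sum_congr rfl fun k _ => ?_
      rw [map_div₀, map_pow, map_div₀, map_natCast, Complex.conj_ofNat]
    rw [h6, Complex.mul_conj']
    unfold FF0
    push_cast
    ring
  rw [h5]
  refine POL_fin (POL_mono h4 (by omega) (by omega) (le_of_eq ?_))
  rw [← Real.exp_add, ← Real.exp_add, ← Real.exp_add]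
  congr 1
  ring

end

end HZS
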