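import Pool.Agent.Work.MP_c51bc2_nt_lb.Interface

/-!
# MP_c51bc2_nt, THEOREM LB: block TWN (helper46)
-/

open Finset Complex MeasureTheory

namespace HZS

theorem p_TWN (hTW : Stmt_TW0s) (hMO : Stmt_MOs) : Stmt_TWN := by
  intro δ hδ hδ'
  obtain ⟨C1, T1, hC1, hT1, h1⟩ := hTW δ hδ hδ'
  obtain ⟨C2, T2, hC2, hT2, h2⟩ := hMO
  refine ⟨C1 + C2, max T1 T2, by positivity, lt_max_of_lt_left hT1, ?_⟩
  intro T H W R X lam hT hA hLC
  have hTT1 : T1 ≤ T := (le_max_left _ _).trans hT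
  have hTT2 : T2 ≤ T := (le_max_right _ _).trans hT
  have hT1' : 1 < T := lt_of_lt_of_le hT1 hTT1
  have hT0 : 0 < T := by linarith
  have hL : 0 < Real.log T := Real.log_pos hT1'
  have hW : 0 < W := by
    have := hLC.w8
    linarith
  have hlog : Real.log (X R) = Real.log T / W := by
    rw [hLC.xR, Real.log_exp]
  have hH : 0 ≤ H := (Real.rpow_nonneg hT0.le _).trans hA.1
  have hTH : T ^ (1 / 2 : ℝ) ≤ H :=
    (Real.rpow_le_rpow_of_exponent_le hT1'.le (by linarith)).trans hA.1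
  have hle : Real.log (X R) ≤ Real.log T / 8 := by
    rw [hlog]
    exact div_le_div_of_nonneg_left hL.le (by norm_num) hLC.w8
  have a1 := h1 T H R X lam hTT1 hA hLC.chain hLC.sh R le_rfl hle
  have a2 := (h2 T H R X lam hTT2 hTH hLC.chain R le_rfl).1
  rw [hlog] at a1 a2
  have e1 : Real.log T * (Real.log T / W) ^ (-(3 / 4) : ℝ) =
      Real.log T ^ (1 / 4 : ℝ) * W ^ (3 / 4 : ℝ) := by
    rw [Real.div_rpow hL.le hW.le, Real.rpow_neg hW.le (3 / 4), div_inv_eq_mul, ← mul_assoc]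
    congr 1
    have : Real.log T = Real.log T ^ (1 : ℝ) := (Real.rpow_one _).symm
    conv_lhs => rw [this]
    rw [← Real.rpow_mul hL.le, ← Real.rpow_add hL]
    norm_num
  have e2 : (Real.log T / W) ^ (1 / 4 : ℝ) =
      Real.log T ^ (1 / 4 : ℝ) * W ^ (-(1 / 4) : ℝ) := by
    rw [Real.div_rpow hL.le hW.le, Real.rpow_neg hW.le (1 / 4), div_eq_mul_inv]
  have p1 : 0 ≤ Real.log T ^ (1 / 4 : ℝ) * W ^ (3 / 4 : ℝ) :=
    mul_nonneg (Real.rpow_nonneg hL.le _) (Real.rpow_nonneg hW.le _)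
  have p2 : 0 ≤ Real.log T ^ (1 / 4 : ℝ) * W ^ (-(1 / 4) : ℝ) :=
    mul_nonneg (Real.rpow_nonneg hL.le _) (Real.rpow_nonneg hW.le _)
  constructor
  · refine a1.trans ?_
    calc C1 * H * Real.log T * (Real.log T / W) ^ (-(3 / 4) : ℝ)
        = C1 * (H * (Real.log T ^ (1 / 4 : ℝ) * W ^ (3 / 4 : ℝ))) := by rw [← e1]; ring
      _ ≤ (C1 + C2) * (H * (Real.log T ^ (1 / 4 : ℝ) * W ^ (3 / 4 : ℝ))) :=
          mul_le_mul_of_nonneg_right (by linarith) (mul_nonneg hH p1)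
      _ = _ := by ring
  · refine a2.trans ?_
    calc C2 * H * (Real.log T / W) ^ (1 / 4 : ℝ)
        = C2 * (H * (Real.log T ^ (1 / 4 : ℝ) * W ^ (-(1 / 4) : ℝ))) := by rw [e2]; ring
      _ ≤ (C1 + C2) * (H * (Real.log T ^ (1 / 4 : ℝ) * W ^ (-(1 / 4) : ℝ))) :=
          mul_le_mul_of_nonneg_right (by linarith) (mul_nonneg hH p2)
      _ = _ := by ring

end HZS
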