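import Pool.Agent.Work.MP_c51bc2_nt_lb.Interface
import Pool.Agent.Work.MP_c51bc2_nt.Fin
import Pool.Agent.Work.MP_c51bc2_nt_s.Fin

/-! The final statement of THEOREM LB from `Stmt_LEV` and `Stmt_BLA`. -/

open Finset Complex MeasureTheory

namespace HZS

theorem finlb_meas (hZC : Stmt_ZC) (T H b : ℝ) :
    MeasurableSet {t : ℝ | t ∈ Set.Icc T (T + H) ∧ |Z t| ≤ b} := by
  have cZ : Continuous Z := hZC
  exact (isClosed_Icc.inter (isClosed_le cZ.abs continuous_const)).measurableSet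

theorem finlb_int (hZC : Stmt_ZC) (T H b : ℝ) :
    IntegrableOn Z {t : ℝ | t ∈ Set.Icc T (T + H) ∧ |Z t| ≤ b} := by
  have cZ : Continuous Z := hZC
  exact (cZ.continuousOn.integrableOn_compact isCompact_Icc).mono_set fun t ht => ht.1

theorem finlb (hRZ : Stmt_RZ) (hZC : Stmt_ZC) (hL : Stmt_LEV) (hA : Stmt_BLA) :
    ∃ Z : ℝ → ℝ,
      (∀ t : ℝ, (Z t : ℂ) =
        (Real.pi : ℂ) ^ (-(I * t / 2)) * Complex.Gamma (1 / 4 + I * t / 2) /
          (‖Complex.Gamma (1 / 4 + I * t / 2)‖ : ℂ) * riemannZeta (1 / 2 + I * t)) ∧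
      ∀ ε : ℝ, 0 < ε → ∃ C T₀ : ℝ, 0 < C ∧ 1 < T₀ ∧
        ∀ T H : ℝ, T₀ ≤ T → T ^ (1 / 2 + ε) ≤ H → H ≤ T →
          (∀ a b : ℝ, 0 ≤ a → a < b →
            |∫ t in {t : ℝ | t ∈ Set.Icc T (T + H) ∧ a < |Z t| ∧ |Z t| ≤ b}, Z t| ≤
              C * Real.log (Real.log T) ^ (-(1 / 10) : ℝ) * ∫ t in T..(T + H), |Z t|) ∧
          ∀ (κ : ℝ) (F : ℝ → ℝ), Real.log T ^ (-(1 / 2) : ℝ) ≤ κ → κ ≤ 1 →
            (∀ x, |F x| ≤ 1) → (∀ x y, |F x - F y| ≤ κ * |x - y|) →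
            |∫ t in T..(T + H), Z t * F (Real.log |Z t|)| ≤
              C * κ ^ (1 / 2 : ℝ) * ∫ t in T..(T + H), |Z t| := by
  refine ⟨Z, zspec hRZ, fun ε hε => ?_⟩
  have hδ : 0 < min (ε / 4) (1 / 20) := lt_min (by linarith) (by norm_num)
  have hδ1 : min (ε / 4) (1 / 20) ≤ 1 / 20 := min_le_right _ _
  obtain ⟨C1, T1, hC1, hT1, h1⟩ := hL _ hδ hδ1
  obtain ⟨C2, T2, hC2, hT2, h2⟩ := hA _ hδ hδ1
  refine ⟨max (2 * C1) C2, max (max T1 T2) (Real.exp (Real.exp 1)), lt_max_of_lt_right hC2,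
    lt_max_of_lt_left (lt_max_of_lt_left hT1), ?_⟩
  intro T H hT hH1 hH2
  have hTT1 : T1 ≤ T := (le_max_left _ _).trans ((le_max_left _ _).trans hT)
  have hTT2 : T2 ≤ T := (le_max_right _ _).trans ((le_max_left _ _).trans hT)
  have hT0 : 0 < T := by linarith
  have hadm := fins_adm (by linarith) hH1 hH2
  have hHpos : 0 < H := lt_of_lt_of_le (Real.rpow_pos_of_pos hT0 _) hH1
  have hle : T ≤ T + H := by linarith
  have hI0 : 0 ≤ ∫ t in T..(T + H), |Z t| :=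
    intervalIntegral.integral_nonneg hle fun t _ => abs_nonneg _
  have hee : Real.exp 1 ≤ Real.log T := by
    rw [Real.le_log_iff_exp_le hT0]
    exact (le_max_right _ _).trans hT
  have hl : 0 < Real.log (Real.log T) := by
    apply Real.log_pos
    have := Real.add_one_lt_exp (one_ne_zero)
    linarith
  have hlp : 0 ≤ Real.log (Real.log T) ^ (-(1 / 10) : ℝ) := (Real.rpow_pos_of_pos hl _).le
  refine ⟨?_, ?_⟩
  · intro a b ha hab
    have hb : 0 < b := by linarith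
    have gb := h1 T H b hTT1 hadm hb
    have key : |∫ t in {t : ℝ | t ∈ Set.Icc T (T + H) ∧ a < |Z t| ∧ |Z t| ≤ b}, Z t| ≤
        2 * C1 * Real.log (Real.log T) ^ (-(1 / 10) : ℝ) * ∫ t in T..(T + H), |Z t| := by
      have hset : {t : ℝ | t ∈ Set.Icc T (T + H) ∧ a < |Z t| ∧ |Z t| ≤ b} =
          {t : ℝ | t ∈ Set.Icc T (T + H) ∧ |Z t| ≤ b} \
            {t : ℝ | t ∈ Set.Icc T (T + H) ∧ |Z t| ≤ a} := by
        ext t
        simp only [Set.mem_setOf_eq, Set.mem_diff, not_and, not_le]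
        constructor
        · rintro ⟨h3, h4, h5⟩
          exact ⟨⟨h3, h5⟩, fun _ => h4⟩
        · rintro ⟨⟨h3, h5⟩, h4⟩
          exact ⟨h3, h4 h3, h5⟩
      have hsub : {t : ℝ | t ∈ Set.Icc T (T + H) ∧ |Z t| ≤ a} ⊆
          {t : ℝ | t ∈ Set.Icc T (T + H) ∧ |Z t| ≤ b} := fun t ht => ⟨ht.1, ht.2.trans hab.le⟩
      rw [hset, setIntegral_diff (finlb_meas hZC T H a) (finlb_int hZC T H b) hsub]
      have ga : |∫ t in {t : ℝ | t ∈ Set.Icc T (T + H) ∧ |Z t| ≤ a}, Z t| ≤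
          C1 * ell T ^ (-(1 / 10) : ℝ) * ∫ t in T..(T + H), |Z t| := by
        rcases ha.eq_or_lt with h0 | h0
        · have : ∫ t in {t : ℝ | t ∈ Set.Icc T (T + H) ∧ |Z t| ≤ a}, Z t = 0 := by
            apply setIntegral_eq_zero_of_forall_eq_zero
            intro t ht
            have h5 : |Z t| ≤ 0 := by rw [h0]; exact ht.2
            exact abs_nonpos_iff.1 h5
          rw [this, abs_zero]
          exact mul_nonneg (mul_nonneg hC1.le hlp) hI0
        · exact h1 T H a hTT1 hadm h0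
      have hab' := abs_sub (∫ t in {t : ℝ | t ∈ Set.Icc T (T + H) ∧ |Z t| ≤ b}, Z t)
        (∫ t in {t : ℝ | t ∈ Set.Icc T (T + H) ∧ |Z t| ≤ a}, Z t)
      refine hab'.trans ?_
      have : 2 * C1 * Real.log (Real.log T) ^ (-(1 / 10) : ℝ) * (∫ t in T..(T + H), |Z t|) =
          C1 * ell T ^ (-(1 / 10) : ℝ) * (∫ t in T..(T + H), |Z t|) +
            C1 * ell T ^ (-(1 / 10) : ℝ) * (∫ t in T..(T + H), |Z t|) := by
        unfold ell; ring
      rw [this]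
      exact add_le_add gb ga
    refine key.trans ?_
    refine mul_le_mul_of_nonneg_right ?_ hI0
    exact mul_le_mul_of_nonneg_right (le_max_left _ _) hlp
  · intro κ F hκ hκ1 hF hF2
    have g2 := h2 T H κ F hTT2 hadm hκ hκ1 hF hF2
    refine g2.trans ?_
    refine mul_le_mul_of_nonneg_right ?_ hI0
    refine mul_le_mul_of_nonneg_right (le_max_right _ _) ?_
    have hlog : 0 < Real.log T := lt_of_lt_of_le (Real.exp_pos 1) hee
    have : 0 < κ := lt_of_lt_of_le (Real.rpow_pos_of_pos hlog _) hκ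
    positivity

end HZS
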