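import Pool.Agent.Work.MP_c51bc2_nt_s.Interface

/-!
# MP_c51bc2_nt, THEOREM LB: `Z⁺` and `Z⁻` balance on every level of `|Z|`

Everything on `[T, T+H]`, `T^{1/2+4δ} ≤ H ≤ T` (`Adm δ T H`), `L = log T`, `ℓ = log log T`.
(A) `|∫ Z F(log|Z|)| ≤ C κ^{1/2} ∫ |Z|` for `|F| ≤ 1` with Lipschitz constant `κ ≥ L^{-1/2}`;
(B) `|∫_{a < |Z| ≤ b} Z| ≤ C ℓ^{-1/10} ∫ |Z|` for all `0 ≤ a < b`.

The library: `Stmt_X` of `MP_c51bc2_nt/Interface.lean`, `MP_c51bc2_nt_s/Interface.lean`, all proved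
(`MP_c51bc2_nt_s/All.lean`: `alls_TW0`, `alls_MO`, ...). Useful proved lemmas (import the file when
you need it): `TRx.ep_lower`, `TRx.tail_le` (B_TR), `MAINx.cs`, `MAINx.x_ge`, `MAINx.x_mono`,
`MAINx.cont_mo`, `MAINx.cont_PP`, `MAINx.cont_MM`, `MAINx.cont_NN`, `MAINx.cont_J`, `MAINx.weight`
(B_MAIN), `MO_*` (B_MO, MP_c51bc2_nt_s/B_MOs), `Multi.*` (Multi), `PARa_*` (B_PAR).
-/

open Finset Complex MeasureTheory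

namespace HZS

noncomputable section

/-- all the primes of the first `R` blocks -/
def PU (X : ℕ → ℝ) (R : ℕ) : Finset ℕ := (range R).biUnion (PB X)

/-- `P(t)`: the real part of the sum over all the blocks -/
def PR (X : ℕ → ℝ) (R : ℕ) (t : ℝ) : ℝ := (∑ j ∈ range R, PP X j t).re

/-- `t` is a good point: all the blocks are small -/
def Good (X lam : ℕ → ℝ) (R : ℕ) (t : ℝ) : Prop := ∀ j < R, 5 * ‖PP X j t‖ ≤ (KK lam j : ℝ)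

open Classical in
/-- the indicator function of the good points -/
def gd (X lam : ℕ → ℝ) (R : ℕ) (t : ℝ) : ℝ := if Good X lam R t then 1 else 0

/-- a chain with top `exp(L/W)`, `L = log T` -/
structure IsLC (δ T W : ℝ) (R : ℕ) (X lam : ℕ → ℝ) : Prop where
  chain : IsChain (Real.log T) R X lam
  sh : Sh δ (Real.log T) R X lam
  xR : X R = Real.exp (Real.log T / W)
  w8 : 8 ≤ W
  wL : W ≤ Real.log T / 5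
  sume : ∑ j ∈ range R, Real.exp (-lam j) ≤ 1 / W

/-! ## Part A -/

/-- MES: measurability. `PP X j` is continuous (`MAINx.cont_PP`), so `PR` is continuous and
`{t | Good}` is closed (finite intersection of closed sets). -/
def Stmt_MES : Prop := ∀ (X lam : ℕ → ℝ) (R : ℕ), Measurable (gd X lam R) ∧ Continuous (PR X R) ∧
  ∀ t, gd X lam R t = 0 ∨ gd X lam R t = 1

/-- GDM: the size of `M` and `N` at good points.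
PROOF. `t` good: `z_j = PP_j(t)/2` has `‖z_j‖ ≤ K_j/10`, so `‖EP K_j z_j‖ ≥ (1 - e^{-K_j}) e^{Re z_j}`
and the same for `-z_j` (`TRx.ep_lower`, `Complex.norm_exp`). Product over `j < R`, squared:
`‖NN‖² ≥ ∏ (1 - e^{-K_j})² e^{P}` and `∏ (1 - e^{-K_j})² ≥ 1 - 2 ∑ e^{-K_j} ≥ 3/4`
(`TELx.prod_one_sub` in B_TEL, `∑ e^{-lam_j} ≤ 1/8`, `K_j ≥ 50 lam_j ≥ lam_j`). The third: the
product of the first two is `1 ≤ 16 ‖NN‖² ‖MM‖²`; if `gd = 0` it is trivial. -/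
def Stmt_GDM : Prop := ∀ (L : ℝ) (R : ℕ) (X lam : ℕ → ℝ), IsChain L R X lam → ∀ t : ℝ,
  (Good X lam R t → Real.exp (PR X R t) ≤ 4 * ‖NN X lam (range R) t‖ ^ 2 ∧
    Real.exp (-(PR X R t)) ≤ 4 * ‖MM X lam (range R) t‖ ^ 2) ∧
  gd X lam R t ≤ 4 * (‖MM X lam (range R) t‖ * ‖NN X lam (range R) t‖)

/-- OFP: the first bad block.
PROOF. The second half of the proof of `stmt_TEL` (B_TEL.lean): if `t` is not good let `j` be the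
first index with `5‖PP_j‖ > K_j`; `1/2 ≤ ‖MM_j‖‖NN_j‖` (product over the good blocks `i < j`, by TR)
and `(5‖PP_j‖/K_j)^{m_j} ≥ 1`; all the terms of the sum are `≥ 0`. If `t` is good the left side
is `0`. -/
def Stmt_OFP : Prop := ∀ (L : ℝ) (R : ℕ) (X lam : ℕ → ℝ), IsChain L R X lam → ∀ t : ℝ,
  1 - gd X lam R t ≤ 2 * ∑ j ∈ range R,
    ‖MM X lam (range j) t‖ * ‖NN X lam (range j) t‖ * (5 * ‖PP X j t‖ / (KK lam j : ℝ)) ^ (mm lam j)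

/-- TWN: the two second moments for the whole chain.
PROOF. `Stmt_TW0s` and the first part of `Stmt_MOs` with `j = R`, `log (X R) = L/W ≤ L/8`;
`L (L/W)^{-3/4} = L^{1/4} W^{3/4}`, `(L/W)^{1/4} = L^{1/4} W^{-1/4}`
(`Real.div_rpow`, `Real.rpow_neg`, `Real.rpow_add`). `T^{1/2} ≤ H` since `T ≥ 1`. -/
def Stmt_TWN : Prop := ∀ δ : ℝ, 0 < δ → δ ≤ 1 / 20 → ∃ C T0 : ℝ, 0 < C ∧ 1 < T0 ∧
  ∀ (T H W : ℝ) (R : ℕ) (X lam : ℕ → ℝ), T0 ≤ T → Adm δ T H → IsLC δ T W R X lam →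
    (∫ t in T..(T + H), |Z t| ^ 2 * ‖MM X lam (range R) t‖ ^ 2 ≤
      C * H * Real.log T ^ (1 / 4 : ℝ) * W ^ (3 / 4 : ℝ)) ∧
    ∫ t in T..(T + H), ‖NN X lam (range R) t‖ ^ 2 ≤
      C * H * Real.log T ^ (1 / 4 : ℝ) * W ^ (-(1 / 4) : ℝ)

/-- OFF: the mass of `|Z|` on the bad points.
PROOF. Multiply OFP by `|Z|` and integrate. For each `j < R`, Cauchy-Schwarz (`MAINx.cs`) with
`f = |Z| ‖MM_j‖`, `g = ‖NN_j‖ (5‖PP_j‖/K_j)^{m_j}`: `∫ f² ≤ C₁ H L (log X_j)^{-3/4}` (`Stmt_TW0s`),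
`∫ g² ≤ C₂ H (log X_j)^{1/4} e^{-5 lam_j/2}` (`Stmt_MOs` and `MAINx.weight`, exactly as `hB2` in the
proof of `stmt_MAINs`, MP_c51bc2_nt_s/B_MAINs.lean). So `∫ f g ≤ √(C₁C₂) H L^{1/2}
(log X_j)^{-1/4} e^{-5 lam_j/4}`, and `top`: `log X_j ≥ (L/W) e^{-lam_j}`, hence
`(log X_j)^{-1/4} ≤ (L/W)^{-1/4} e^{lam_j/4}`: the term is `≤ √(C₁C₂) H L^{1/4} W^{1/4} e^{-lam_j}`.
Sum over `j`: `∑ e^{-lam_j} ≤ 1/W`. (The whole proof is that of `stmt_MAINs` with `Z` for `J h`.) -/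
def Stmt_OFF : Prop := ∀ δ : ℝ, 0 < δ → δ ≤ 1 / 20 → ∃ C T0 : ℝ, 0 < C ∧ 1 < T0 ∧
  ∀ (T H W : ℝ) (R : ℕ) (X lam : ℕ → ℝ), T0 ≤ T → Adm δ T H → IsLC δ T W R X lam →
    ∫ t in T..(T + H), (1 - gd X lam R t) * |Z t| ≤
      C * H * Real.log T ^ (1 / 4 : ℝ) * W ^ (-(3 / 4) : ℝ)

/-- DEV: `log |Z|` against `P` on the good points.
PROOF. Put `s = log W ≥ 0`, `u = log|Z| - P`. For every real `u`: `|u| ≤ s + e^{-s}(e^u + e^{-u})`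
(if `|u| > s` then `|u| - s ≤ e^{|u| - s}`). If `Z t ≠ 0`: `|Z| e^u = |Z|² e^{-P}`,
`|Z| e^{-u} = e^P`. So at good points `|Z||u| ≤ s|Z| + e^{-s} 4(|Z|²‖MM‖² + ‖NN‖²)` by GDM (also when
`Z t = 0`), and `e^{-s} = 1/W`. Integrate and use TWN: `(4/W) C H L^{1/4} (W^{3/4} + W^{-1/4}) ≤
8 C H L^{1/4} W^{-1/4}`. Integrability: `t ↦ |Z| · |log|Z| - P|` is bounded on `[T,T+H]` and
measurable (`Real.continuous_mul_log`), `gd` is measurable. -/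
def Stmt_DEV : Prop := ∀ δ : ℝ, 0 < δ → δ ≤ 1 / 20 → ∃ C T0 : ℝ, 0 < C ∧ 1 < T0 ∧
  ∀ (T H W : ℝ) (R : ℕ) (X lam : ℕ → ℝ), T0 ≤ T → Adm δ T H → IsLC δ T W R X lam →
    ∫ t in T..(T + H), gd X lam R t * (|Z t| * |Real.log |Z t| - PR X R t|) ≤
      Real.log W * (∫ t in T..(T + H), |Z t|) +
        C * H * Real.log T ^ (1 / 4 : ℝ) * W ^ (-(1 / 4) : ℝ)

/-- WSM: weighted sums. `cf r d = r^{Ω(d)} / ∏ v_p(d)!`.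
PROOF. (i) `S ⊆ SK P K` for `K` large (`Multi.mem_SK`), then `stmt_SKE` (B_SKE). (ii) For a prime
`p ∣ d`: `cf r d · v_p(d) = r · cf r (d/p)` (and `v_p(d) = 0` if `p ∤ d`). So for `g ≥ 0`
`∑_{d ∈ S} cf r d / d · v_p(d) g(d) = (r/p) ∑_{d ∈ S, p ∣ d} cf r (d/p)/(d/p) g(p (d/p)) ≤
(r/p) ∑_{d' ∈ S} cf r d'/d' g(p d')` (`d ↦ d/p` is injective on the multiples of `p` and maps into
`S`). With `A(d) = ∑_p v_p(d) a_p`, `A(p d') = A(d') + a_p`, `S₀ = ∑_{d ∈ S} cf r d/d`: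
`S₁ := ∑ cf/d A ≤ (r ∑ a_p/p) S₀`, `∑ cf/d A² = ∑_p a_p ∑_d cf/d v_p A ≤ ∑_p a_p (r/p)(S₁ + a_p S₀)
≤ S₀ (r ∑ a_p²/p + (r ∑ a_p/p)²)`, and (i). -/
def Stmt_WSM : Prop := ∀ (P S : Finset ℕ), (∀ p ∈ P, p.Prime) →
  (∀ d ∈ S, d ≠ 0 ∧ ∀ p ∈ d.primeFactors, p ∈ P) → (∀ d ∈ S, ∀ p ∈ P, p ∣ d → d / p ∈ S) →
  ∀ (r : ℝ) (a : ℕ → ℝ), 0 ≤ r → (∀ p ∈ P, 0 ≤ a p) →
    (∑ d ∈ S, cf r d / (d : ℝ) ≤ Real.exp (r * ∑ p ∈ P, (1 / (p : ℝ)))) ∧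
    ∑ d ∈ S, cf r d / (d : ℝ) * (∑ p ∈ P, (d.factorization p : ℝ) * a p) ^ 2 ≤
      Real.exp (r * ∑ p ∈ P, (1 / (p : ℝ))) *
        (r * (∑ p ∈ P, a p ^ 2 / (p : ℝ)) + (r * ∑ p ∈ P, a p / (p : ℝ)) ^ 2)

/-- QCO: the product of a Dirichlet polynomial and a sum over primes.
PROOF. `b n = ∑_{p ∈ U, p ∣ n, n/p ∈ D} q p · c (n/p)`; `mo (d p) t = mo d t · mo p t`
(`MVPx.mo_mul` or `COx.mo_mul`); group the pairs `(d, p)` by the product. For `n ≠ 0`, `p ∣ n` prime: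
`cf (1/2) (n/p) = 2 v_p(n) cf (1/2) n`, so `‖b n‖ ≤ cf (1/2) n · 2 ∑_p v_p(n) ‖q p‖`, and
`cf (1/2) n ^ 2 ≤ cf (1/4) n` (`MO_cf_sq`). -/
def Stmt_QCO : Prop := ∀ (D U : Finset ℕ) (c q : ℕ → ℂ), (∀ d ∈ D, d ≠ 0) → (∀ p ∈ U, p.Prime) →
  (∀ d ∈ D, ‖c d‖ ≤ cf (1 / 2) d) → ∃ b : ℕ → ℂ,
    (∀ t : ℝ, (∑ d ∈ D, c d * mo d t) * (∑ p ∈ U, q p * mo p t) =
      ∑ n ∈ (D ×ˢ U).image (fun x => x.1 * x.2), b n * mo n t) ∧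
    ∀ n : ℕ, n ≠ 0 →
      ‖b n‖ ^ 2 ≤ 4 * cf (1 / 4) n * (∑ p ∈ U, (n.factorization p : ℝ) * ‖q p‖) ^ 2

/-- QMV: the mean value of `|N|²` times the square of a sum over primes.
PROOF. `NN X lam (range R) t = ∑_{d ∈ D} cN d mo d t`, `D = {d ≤ Y : Okd d}`, `Y = ⌈exp(∑ K_i log
X_{i+1})⌉` (`Stmt_CO`), `‖cN d‖ ≤ cf (1/2) d`. QCO with `U = PU X R`. `Stmt_MVPs` with `A` = the
image, `E = {1}`, all elements `≤ Y X_R =: Y'`, `Y' ≤ T^{1/30}·2` by `len` and `lam_j ≥ 1`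
(`MO_K_le`, as in `MO_len`), so `4 Y' (1 + log Y') ≤ T^{1/2} ≤ H` for `T ≥ T0`. The sum
`∑_{n ∈ A} ‖b n‖²/n ≤ 4 ∑_{n ∈ S} cf (1/4) n / n (∑ v_p ‖q p‖)²` with `S` = all the divisors of
elements of `A`; WSM with `r = 1/4`, `a p = ‖q p‖`: `≤ e^{V/4} (∑ ‖q‖²/p + (∑ ‖q‖/p)²)`,
`V = ∑_{p ∈ PU X R} 1/p`, and `e^{V/4} ≤ C (log X_R)^{1/4}` (`MO_PA_sum`, `PU X R ⊆ PA (X R)`). -/
def Stmt_QMV : Prop := ∃ C T0 : ℝ, 0 < C ∧ 1 < T0 ∧ ∀ (T H : ℝ) (R : ℕ) (X lam : ℕ → ℝ), T0 ≤ T →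
  T ^ (1 / 2 : ℝ) ≤ H → IsChain (Real.log T) R X lam → ∀ q : ℕ → ℂ,
    ∫ t in T..(T + H), ‖NN X lam (range R) t‖ ^ 2 * ‖∑ p ∈ PU X R, q p * mo p t‖ ^ 2 ≤
      C * H * Real.log (X R) ^ (1 / 4 : ℝ) *
        ((∑ p ∈ PU X R, ‖q p‖ ^ 2 / (p : ℝ)) + (∑ p ∈ PU X R, ‖q p‖ / (p : ℝ)) ^ 2)

/-- CSI: Cauchy-Schwarz with an indicator function `s`.
PROOF. `s|f||g| ≤ μ f²/2 + s g²/(2μ)` for every `μ > 0`; integrate; if `A, B > 0` take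
`μ = √(B/A)`; if `A = 0` or `B = 0` let `μ → ∞` or `μ → 0` (or apply the case `A, B > 0` to
`A + ε, B + ε` and let `ε → 0`). -/
def Stmt_CSI : Prop := ∀ (a b A B : ℝ) (f g s : ℝ → ℝ), a ≤ b → Continuous f → Continuous g →
  Measurable s → (∀ t, s t = 0 ∨ s t = 1) → 0 ≤ A → 0 ≤ B → ∫ t in a..b, f t ^ 2 ≤ A →
    ∫ t in a..b, s t * g t ^ 2 ≤ B → ∫ t in a..b, s t * (|f t| * |g t|) ≤ Real.sqrt (A * B)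

/-- TRV: a small shift of `P`.
PROOF. `PB X j`, `j < R`, are disjoint, so `∑_j PP_j(t) = ∑_{p ∈ PU X R} mo p t`, and
`mo p (t - v) = mo p t · p^{iv}`; so `PR t - PR (t - v) = Re Q(t)`, `Q = ∑_p q_p mo p t`,
`q_p = 1 - p^{iv}`, `‖q_p‖ ≤ v log p`, `log p ≤ log X_R = L/W`, `v ≤ W/L`. MER1:
`∑_{p ≤ X_R} log p / p ≤ L/W + C`, `L/W ≥ 5`: `∑ ‖q‖²/p ≤ v² (L/W)(L/W + C) ≤ 1 + C`,
`(∑ ‖q‖/p)² ≤ (v (L/W + C))² ≤ (1 + C)²`. QMV: `∫ ‖NN‖²‖Q‖² ≤ C' H (L/W)^{1/4}`. GDM: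
`gd ≤ 4‖MM‖‖NN‖`; CSI (or `MAINx.cs`) with `f = |Z|‖MM‖`, `g = ‖NN‖‖Q‖` and TWN:
`≤ 4 √(C H L^{1/4} W^{3/4} · C' H L^{1/4} W^{-1/4}) = C'' H L^{1/4} W^{1/4}`. -/
def Stmt_TRV : Prop := ∀ δ : ℝ, 0 < δ → δ ≤ 1 / 20 → ∃ C T0 : ℝ, 0 < C ∧ 1 < T0 ∧
  ∀ (T H W v : ℝ) (R : ℕ) (X lam : ℕ → ℝ), T0 ≤ T → Adm δ T H → IsLC δ T W R X lam → 0 ≤ v →
    v ≤ W / Real.log T →
    ∫ t in T..(T + H), gd X lam R t * (|Z t| * |PR X R t - PR X R (t - v)|) ≤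
      C * H * Real.log T ^ (1 / 4 : ℝ) * W ^ (1 / 4 : ℝ)

/-- WIN: averaging over a window (pure real analysis).
PROOF. For `0 ≤ v ≤ h`: `|∫_T^{T+H} z(u) F(P(u)) du - ∫_T^{T+H} z(u) F(P(u-v)) du| ≤ 2 ∫ (1-g)|z| +
κ E` (`|F| ≤ 1`, Lipschitz). Substitution: `∫_T^{T+H} z(u) F(P(u-v)) du =
∫_{T-v}^{T+H-v} z(t+v) F(P(t)) dt`, which differs from `∫_T^{T+H} z(t+v) F(P(t)) dt` by two integrals
over intervals of length `v` where `|z(t+v)| ≤ S` (there `t + v ∈ [T, T+h]` resp.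
`[T+H, T+H+h]`): at most `2 h S`. Average over `v ∈ [0,h]` (`∫_0^h dv / h`); Fubini for the continuous
function `z(t+v) F(P(t))`: `(1/h) ∫_0^h ∫_T^{T+H} z(t+v) F(P t) dt dv =
(1/h) ∫_T^{T+H} F(P t) ∫_t^{t+h} z dt`, modulus `≤ (1/h) ∫ |∫_t^{t+h} z|`. -/
def Stmt_WIN : Prop := ∀ (z P F g : ℝ → ℝ) (T H h κ E S : ℝ), Continuous z → Continuous P →
  Measurable g → (∀ t, g t = 0 ∨ g t = 1) → 0 < H → 0 < h → 0 ≤ κ → (∀ x, |F x| ≤ 1) →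
  (∀ x y, |F x - F y| ≤ κ * |x - y|) → (∀ t ∈ Set.Icc T (T + H + h), |z t| ≤ S) →
  (∀ v ∈ Set.Icc 0 h, ∫ t in T..(T + H), g t * (|z t| * |P t - P (t - v)|) ≤ E) →
    |∫ t in T..(T + H), z t * F (P t)| ≤
      1 / h * (∫ t in T..(T + H), |∫ u in t..(t + h), z u|) +
        2 * (∫ t in T..(T + H), (1 - g t) * |z t|) + κ * E + 2 * h * S

/-- BLA: statement (A).
PROOF. Let `W1` be the maximum of the constants `W0` of `Stmt_PARs` and `Stmt_FINAs` (and `8`). If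
`κ² W1 > 1` the bound is trivial with `C ≥ W1^{1/4}`. Otherwise put `W = min (κ^{-2}) (L/5)`: for large
`T`, `W1 ≤ W ≤ L/5`, and `κ ≥ L^{-1/2}` gives `κ^{-2} ≤ L`, so `κ^{-2}/5 ≤ W ≤ κ^{-2}`. A chain from
`Stmt_PARs` (it is an `IsLC δ T W`), `h = W/L ≤ 1/5`. `|F(log|Z|) - F(P)| ≤ 2(1-gd) +
κ gd |log|Z| - P|`, so `|∫ Z F(log|Z|)| ≤ |∫ Z F(P)| + 2 ∫ (1-gd)|Z| + κ ∫ gd|Z||log|Z| - P|`;
WIN with `z = Z`, `g = gd`, `E` from TRV, `S = C√T` from ZBs; FINAs: `(1/h) ∫ |J h| ≤ C H h^{-1/4} =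
C H L^{1/4} W^{-1/4}`. Total `≤ C H L^{1/4} (W^{-3/4} + W^{-1/4} + κ W^{1/4} + κ W^{-1/4}) +
κ log W ∫|Z| + 2hS`; `W^{-1/4} ≤ 5^{1/4} κ^{1/2}`, `κ W^{1/4} ≤ κ^{1/2}`, `log W ≤ 4 W^{1/4}`;
`2 h S ≤ C √T ≤ C H T^{-4δ} ≤ C H L^{1/4} κ^{1/2}` since `κ ≥ L^{-1/2}`; and `c H L^{1/4} ≤ ∫|Z|`
(LBFs). -/
def Stmt_BLA : Prop := ∀ δ : ℝ, 0 < δ → δ ≤ 1 / 20 → ∃ C T0 : ℝ, 0 < C ∧ 1 < T0 ∧
  ∀ (T H κ : ℝ) (F : ℝ → ℝ), T0 ≤ T → Adm δ T H → Real.log T ^ (-(1 / 2) : ℝ) ≤ κ → κ ≤ 1 →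
    (∀ x, |F x| ≤ 1) → (∀ x y, |F x - F y| ≤ κ * |x - y|) →
    |∫ t in T..(T + H), Z t * F (Real.log |Z t|)| ≤
      C * κ ^ (1 / 2 : ℝ) * ∫ t in T..(T + H), |Z t|

/-! ## Part B: the chain with a large first block -/

/-- PARb: the chain with a large first block, `log X_1 = L/(log L)²`.
PROOF. Adapt the proof of `stmt_PARs` (MP_c51bc2_nt_s/B_PARs.lean, lemmas `PARa_*` of
MP_c51bc2_nt/B_PAR.lean; `a_0 = log W`, `a_{i+1} = exp(a_i/2)`). Write `l2 = log log L`. Let `n` be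
least with `2 l2 ≤ a_{n+1}`; then `a_n < 2 l2` (for `n = 0`: `log W ≤ l2 < 2 l2`). Put `R = n + 2`,
`X_0 = 100`, `X_1 = exp(L/(log L)²)`, `X_{j+1} = exp(L exp(-a_{n+1-j}))` for `1 ≤ j ≤ n+1` (so
`X_R = exp(L exp(-a_0)) = exp(L/W)`); `lam 0 = log L`, `lam 1 = 2 l2`, `lam j = a_{n+2-j}` for `j ≥ 2`.
mono: `X_0 < X_1` for large `L`, `X_1 < X_2` as `exp(-2 l2) < exp(-a_n)`. sig: `j = 0`:
`log log X_1 + C1 = log L - 2 l2 + C1 ≤ log L`; `j = 1`: `2 l2 - a_n + C2 ≤ 2 l2` as `a_n ≥ log W ≥ C2`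
(MER2); `j ≥ 2`: `a_{i+1} - a_i + C2 ≤ a_{i+1}`. top: `L/W ≤ e^{lam_j} log X_j` (the right side is
`L log 100` for `j = 0` and `L` for `j ≥ 1`). Sum of `exp(-lam)`: `1/L ≤ 1/(10W)`,
`(log L)^{-2} ≤ 1/(10 W)` (`W ≤ log L`, `log L ≥ 10`), the rest `≤ 4/(5W)` as in `stmt_PARs`.
len: `lam_0 log X_1 = L/log L`, `lam_1 log X_2 = 2 l2 L/a_{n+1}² ≤ L/a_{n+1}`, `lam_j log X_{j+1} =
L/a_{i+1}` for `i = n+1-j`; the sum is `≤ L/log L + 2 L/a_1` (`PARa_sum`), `a_1 = √W ≥ √W0`: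
`≤ δ L/100` for `W0 = W0(δ)`, `L ≥ L0(δ)`. -/
def Stmt_PARb : Prop := ∀ δ : ℝ, 0 < δ → δ ≤ 1 / 20 → ∃ W0 L0 : ℝ, 8 ≤ W0 ∧ 1 < L0 ∧
  ∀ L W : ℝ, L0 ≤ L → W0 ≤ W → W ≤ Real.log L →
  ∃ (R : ℕ) (X lam : ℕ → ℝ), IsChain L R X lam ∧ Sh δ L R X lam ∧ X R = Real.exp (L / W) ∧
    ∑ j ∈ range R, Real.exp (-lam j) ≤ 1 / W ∧ 2 ≤ R ∧ lam 0 = Real.log L ∧
    X 1 = Real.exp (L / Real.log L ^ 2)

/-- `log log T` -/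
def ell (T : ℝ) : ℝ := Real.log (Real.log T)

/-- a chain with a large first block -/
structure IsLB (δ T W : ℝ) (R : ℕ) (X lam : ℕ → ℝ) : Prop where
  lc : IsLC δ T W R X lam
  R2 : 2 ≤ R
  lam0 : lam 0 = ell T
  x1 : X 1 = Real.exp (Real.log T / ell T ^ 2)

/-! ## Part B: the random model of a block -/

/-- the uniform probability measure on the torus -/
def tor (P : Finset ℕ) : Measure (P → ℝ) :=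
  Measure.pi fun _ => (volume : Measure ℝ).restrict (Set.Ioc 0 1)

/-- the random sum over the primes of `P`: `∑ p^{-1/2} e^{2πiθ_p}` -/
def TP (P : Finset ℕ) (θ : P → ℝ) : ℂ :=
  ∑ p : P, (((Real.sqrt ((p : ℕ) : ℝ))⁻¹ : ℝ) : ℂ) * cexp (((2 * Real.pi * θ p : ℝ) : ℂ) * I)

/-- `∑ 1/p` -/
def VV (P : Finset ℕ) : ℝ := ∑ p ∈ P, (1 / (p : ℝ))

/-- the Taylor polynomial of `sin y / y` -/
def kap (K : ℕ) (y : ℝ) : ℝ :=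
  ∑ k ∈ range (K + 1), (-1) ^ k * y ^ (2 * k) / ((2 * k + 1).factorial : ℝ)

/-- `f` is a polynomial in `z` and `conj z`, of degree at most `M` in each of them, with `ℓ¹` norm of
the coefficients at most `B` -/
def IsPol (M : ℕ) (B : ℝ) (f : ℂ → ℂ) : Prop := ∃ c : ℕ → ℕ → ℂ,
  (∀ z, f z = ∑ a ∈ range (M + 1), ∑ b ∈ range (M + 1), c a b * z ^ a * (starRingEnd ℂ) z ^ b) ∧
    ∑ a ∈ range (M + 1), ∑ b ∈ range (M + 1), ‖c a b‖ ≤ B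

/-- the majorant of the block: `‖EP_K(z/2)‖² kap_K((Re z - x)/η)²` -/
def FF0 (K : ℕ) (x η : ℝ) (z : ℂ) : ℝ := ‖EP K (z / 2)‖ ^ 2 * kap K ((z.re - x) / η) ^ 2

/-- ORT: the moments of the random sum.
PROOF. `TP θ = ∑_{p ∈ P} f_θ(p)` with the completely multiplicative `f_θ(n) = ∏_{p ∈ P}
(p^{-1/2} e^{2πiθ_p})^{v_p(n)}`; `Multi.pow_sum` (Multi.lean): `TP^m = ∑_{e ∈ SE P m} m! cf 1 e f_θ(e)`
and `f_θ(e) = e^{-1/2} ∏_p e^{2πi v_p(e) θ_p}` for `e` composed of primes of `P`. The integral of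
`f_θ(e) conj f_θ(e')` is `(e e')^{-1/2} ∏_p ∫_0^1 e^{2πi(v_p(e) - v_p(e'))θ} dθ`
(`integral_fintype_prod_eq_prod`), which is `1/e` if `e = e'` and `0` otherwise; `e = e'` forces
`m = Ω(e) = n` (sum of the exponents). -/
def Stmt_ORT : Prop := ∀ P : Finset ℕ, (∀ p ∈ P, p.Prime) → ∀ m n : ℕ,
  ∫ θ, TP P θ ^ m * (starRingEnd ℂ) (TP P θ) ^ n ∂(tor P) =
    if m = n then ((∑ e ∈ SE P m, ((m.factorial : ℝ) * cf 1 e) ^ 2 / (e : ℝ) : ℝ) : ℂ) else 0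

/-- TMV: the time mean of the monomials.
PROOF. `(∑_P mo p t)^m = ∑_{a ∈ SE P m} m! cf 1 a mo a t` (`stmt_PWR`). Expand: the integrand is
`∑ c_a c_b e_y conj(e_{y'}) (a y)^{-1/2} (b y')^{-1/2} (a y/(b y'))^{-it}`. `a y = b y'` iff
`a = b`, `y = y'` (the elements of `E` are prime to the primes of `P`), and `a = b` forces `m = n`:
these terms give the main term. For `u = a y ≠ v = b y'`: `|∫_T^{T+H} (u/v)^{-it} dt| ≤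
2/|log(u/v)| ≤ 2 max(u,v) ≤ 2Y`; the sum of the absolute values of the coefficients is
`(∑_a c_a a^{-1/2})(∑_b c_b b^{-1/2})(∑_y ‖e_y‖ y^{-1/2})²`, and
`∑_{a ∈ SE P m} m! cf 1 a a^{-1/2} = (∑_P p^{-1/2})^m` (`Multi.pow_sum` with `f(n) = n^{-1/2}`). -/
def Stmt_TMV : Prop := ∀ (P E : Finset ℕ) (e : ℕ → ℂ) (T H : ℝ) (Y m n : ℕ),
  (∀ p ∈ P, p.Prime) → 0 < H → (∀ y ∈ E, y ≠ 0 ∧ ∀ p ∈ P, ¬ p ∣ y) →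
  (∀ a ∈ SE P m, ∀ y ∈ E, a * y ≤ Y) → (∀ b ∈ SE P n, ∀ y ∈ E, b * y ≤ Y) →
    ‖(∫ t in T..(T + H), (∑ p ∈ P, mo p t) ^ m * (starRingEnd ℂ) (∑ p ∈ P, mo p t) ^ n *
        ((‖∑ y ∈ E, e y * mo y t‖ ^ 2 : ℝ) : ℂ)) -
      H * (if m = n then ((∑ a ∈ SE P m, ((m.factorial : ℝ) * cf 1 a) ^ 2 / (a : ℝ) : ℝ) : ℂ)
        else 0) * ((∑ y ∈ E, ‖e y‖ ^ 2 / (y : ℝ) : ℝ) : ℂ)‖ ≤
      2 * Y * (∑ p ∈ P, (Real.sqrt p)⁻¹) ^ (m + n) * (∑ y ∈ E, ‖e y‖ / Real.sqrt y) ^ 2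

/-- TRN: transfer from the time mean to the torus, for polynomials.
PROOF. Write `f` with the coefficients `c a b`; ORT and TMV for each pair `(a, b)`; the error of the
pair is `≤ ‖c a b‖ · 2Y s^{a+b} (..)²`, `s = ∑ p^{-1/2} ≤ 1 + s`, `(1+s)^{a+b} ≤ (1+s)^{2M}`.
(Integrals of finite sums: everything is continuous; `TP P` is continuous and bounded, `tor P` is a
probability measure.) -/
def Stmt_TRN : Prop := ∀ (P E : Finset ℕ) (e : ℕ → ℂ) (T H B : ℝ) (Y M : ℕ) (f : ℂ → ℂ),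
  (∀ p ∈ P, p.Prime) → 0 < H → (∀ y ∈ E, y ≠ 0 ∧ ∀ p ∈ P, ¬ p ∣ y) →
  (∀ m ≤ M, ∀ a ∈ SE P m, ∀ y ∈ E, a * y ≤ Y) → IsPol M B f →
    ‖(∫ t in T..(T + H), f (∑ p ∈ P, mo p t) * ((‖∑ y ∈ E, e y * mo y t‖ ^ 2 : ℝ) : ℂ)) -
      H * (∫ θ, f (TP P θ) ∂(tor P)) * ((∑ y ∈ E, ‖e y‖ ^ 2 / (y : ℝ) : ℝ) : ℂ)‖ ≤
      B * (2 * Y * (1 + ∑ p ∈ P, (Real.sqrt p)⁻¹) ^ (2 * M) *
        (∑ y ∈ E, ‖e y‖ / Real.sqrt y) ^ 2)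

/-- POL: the majorant is a polynomial.
PROOF. Prove first: constants are `IsPol 0 ‖c‖`, `z` and `conj z` are `IsPol 1 1`, and
`IsPol M B f → IsPol M' B' g → IsPol (M+M') (B B') (f g)`, `IsPol M B f → IsPol M B' g →
IsPol M (B+B') (f+g)`, monotone in `M` and `B`. `EP K (z/2)` is `IsPol K e^{1/2}` (`∑ 2^{-k}/k!`), the
same for its conjugate; `y = (Re z - x)/η = z/(2η) + conj z/(2η) - x/η` is `IsPol 1 ρ` with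
`ρ = (1+|x|)/η`; `kap K y` is `IsPol (2K) e^ρ` (`∑ ρ^{2k}/(2k+1)! ≤ e^ρ`). Product of
`EP · conj EP · kap · kap`: degree `≤ 5K` in each variable, `ℓ¹` norm `≤ e^{1 + 2ρ}`. -/
def Stmt_POL : Prop := ∀ (K : ℕ) (x η : ℝ), 0 < η →
  IsPol (5 * K) (Real.exp (1 + 2 * (1 + |x|) / η)) (fun z => ((FF0 K x η z : ℝ) : ℂ))

/-- SNC: the Taylor polynomial of `sin y / y`.
PROOF. `sin y = ∑ (-1)^k y^{2k+1}/(2k+1)!` (`Real.hasSum_sin`), so for `y ≠ 0` the difference is at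
most `∑_{k > K} |y|^{2k}/(2k+1)! ≤ ∑_{m ≥ 2K+2} |y|^m/m! ≤ exp(-2(2K+2)) exp(e² |y|)`
(`TRx.tail_le`, `TRx.exp_two_le`: `e² ≤ 8`). `y = 0`: the difference is `0`. `|kap| ≤ e^{|y|}`. The
third: `sinc y ≥ 1 - y²/6 ≥ 5/6` for `|y| ≤ 1` (`Real.sin_gt_sub_cube` or `Real.one_sub_sq_..`), and
the difference is `≤ e^{8 - 200}`, so `kap ≥ 0.8`. -/
def Stmt_SNC : Prop := (∀ (K : ℕ) (y : ℝ),
    |kap K y - Real.sinc y| ≤ Real.exp (-(4 * K)) * Real.exp (8 * |y|) ∧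
      |kap K y| ≤ Real.exp |y|) ∧
  ∀ (K : ℕ) (y : ℝ), 50 ≤ K → |y| ≤ 1 → 1 / 2 ≤ kap K y ^ 2

/-- EXM: exponential moments of the random sum.
PROOF. `e^{b‖z‖} ≤ e^{b|Re z|} e^{b|Im z|} ≤ (e^{2b|Re z|} + e^{2b|Im z|})/2` and
`e^{2b|x|} ≤ e^{2bx} + e^{-2bx}`. For real `s`, `u = cos` or `sin` of `2πθ`: `e^{su} ≤ cosh s +
u sinh s` (convexity on `[-1,1]`), so `∫_0^1 e^{su} ≤ cosh s ≤ e^{s²/2}` (`Real.cosh_le_exp_half_sq`);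
with `s = ±2b/√p`, product over `p` (`integral_fintype_prod_eq_prod`): `E e^{±2b Re z} ≤
exp(2b² V)`. Total `(1/2) 4 exp(2b²V)`. -/
def Stmt_EXM : Prop := ∀ P : Finset ℕ, (∀ p ∈ P, p.Prime) → ∀ b : ℝ, 0 ≤ b →
  ∫ θ, Real.exp (b * ‖TP P θ‖) ∂(tor P) ≤ 2 * Real.exp (2 * b ^ 2 * VV P)

/-- CH1: one factor of the characteristic function.
PROOF. `w = (1+iξ)/√p`, `‖w‖² = (1+ξ²)/p ≤ 2/p < 1`, `u = w cos(2πθ)`, `‖u‖ ≤ 1`: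
`‖e^u - 1 - u - u²/2 - u³/6‖ ≤ ‖u‖⁴/10` (`Complex.exp_bound` with `n = 4`: `5/96`). The integrals of
`cos`, `cos²`, `cos³` of `2πθ` over `[0,1]` are `0, 1/2, 0`. So `‖∫ e^u‖ ≤ ‖1 + w²/4‖ + ‖w‖⁴/10`.
`w² = (1-ξ²+2iξ)/p`, `‖1 + w²/4‖² = (1 + (1-ξ²)/(4p))² + ξ²/(4p²)`, so `‖1 + w²/4‖ ≤
1 + (1-ξ²)/(4p) + ξ²/(8p²)`; `‖w‖⁴/10 ≤ 4/(10p²)`. Total `≤ 1 + (1-ξ²)/(4p) + 1/p²`, and
`1 + x ≤ e^x`. -/
def Stmt_CH1 : Prop := ∀ (p : ℕ) (ξ : ℝ), 100 < p → |ξ| ≤ 1 →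
  ‖∫ θ in Set.Ioc (0 : ℝ) 1, cexp ((1 + ξ * I) *
      (((Real.sqrt p)⁻¹ * Real.cos (2 * Real.pi * θ) : ℝ) : ℂ))‖ ≤
    Real.exp ((1 - ξ ^ 2) / (4 * p) + 1 / (p : ℝ) ^ 2)

/-- CHF: the characteristic function of `Re TP`, tilted.
PROOF. `Re TP θ = ∑_p p^{-1/2} cos(2πθ_p)`, so the integrand is a product over `p : P`
(`Complex.exp_sum`), `integral_fintype_prod_eq_prod`, CH1, and `∑_{p ∈ P} 1/p² ≤ ∑_{n > 100}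
1/(n(n-1)) ≤ 1/100`, `e^{1/100} ≤ 2`. -/
def Stmt_CHF : Prop := ∀ P : Finset ℕ, (∀ p ∈ P, p.Prime ∧ 100 < p) → ∀ ξ : ℝ, |ξ| ≤ 1 →
  ‖∫ θ, cexp ((1 + ξ * I) * (((TP P θ).re : ℝ) : ℂ)) ∂(tor P)‖ ≤
    2 * Real.exp ((1 - ξ ^ 2) / 4 * VV P)

/-- FEJ: the Fejer kernel.
PROOF. `y = 0`: `∫_{-1}^1 (1-|s|) ds = 1`. `y ≠ 0`: the integrand is even, `2 ∫_0^1 (1-s) cos(2sy) ds`,
antiderivative `(1-s) sin(2sy)/(2y) - cos(2sy)/(4y²)`: the value is `(1 - cos 2y)/(2y²) =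
sin² y/y²`. -/
def Stmt_FEJ : Prop := ∀ y : ℝ, Real.sinc y ^ 2 =
  ∫ s in (-1 : ℝ)..1, (1 - |s|) * Real.cos (2 * s * y)

/-- SPH: the tilted mass of a narrow band in the random model.
PROOF. By FEJ and Fubini (`tor P` finite, everything bounded and continuous):
`∫ e^{Re z} sinc(y)² = ∫_{-1}^1 (1-|s|) Re[e^{-2isx/η} ∫ e^{(1+2is/η) Re z} ∂tor] ds`,
`y = (Re z - x)/η`; CHF with `ξ = 2s/η` (`|ξ| ≤ 1` as `η ≥ 2`): `≤ ∫_{-1}^1 2 e^{V/4} e^{-s²V/η²} ds ≤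
2 e^{V/4} √(π η²/V)` (`integral_gaussian`) and `√π ≤ 2`. -/
def Stmt_SPH : Prop := ∀ P : Finset ℕ, (∀ p ∈ P, p.Prime ∧ 100 < p) → 0 < VV P → ∀ x η : ℝ,
  2 ≤ η → ∫ θ, Real.exp (TP P θ).re * Real.sinc (((TP P θ).re - x) / η) ^ 2 ∂(tor P) ≤
    4 * Real.exp (VV P / 4) * (η / Real.sqrt (VV P))

/-- MOD: the expectation of the majorant.
PROOF. `z = TP θ`, `y = (Re z - x)/η`, `A = EP K (z/2)`, `A' = e^{z/2}`, `‖A'‖² = e^{Re z}`.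
`‖A‖|kap| ≤ ‖A'‖|sinc y| + ‖A'‖|kap - sinc| + ‖A - A'‖|kap|`, square with `(a+b+c)² ≤ 3(a²+b²+c²)`.
First term: SPH, `3·4 e^{V/4} η/√V`. Second: `‖A'‖² ≤ e^{‖z‖}`, SNC, `|y| ≤ (‖z‖+|x|)/η`,
`η ≥ 4`: `≤ e^{-8K + 16|x|/η} e^{(1+16/η)‖z‖} ≤ e^{-400l + 80l} e^{5‖z‖}`, EXM with `b = 5`:
`≤ 2 e^{-320l + 50l}`. Third: `‖A - A'‖ ≤ e^{-2(K+1)} e^{8‖z‖/2}`
(`Complex.norm_exp_sub_sum_le_exp_norm_sub_sum`, `TRx.tail_le`, as in `TRx.ep_close`), `|kap| ≤ e^{|y|}`: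
the square is `≤ e^{-4K + 2|x|/η} e^{(8 + 1/2)‖z‖} ≤ e^{-200l + 10l} e^{17‖z‖/2}`, EXM with
`b = 17/2`: `2b²V = 144.5 V ≤ 144.5 l`, so `≤ 2 e^{-45l}`. The last two, times `3`, are `≤ e^{-l}`. -/
def Stmt_MOD : Prop := ∀ P : Finset ℕ, (∀ p ∈ P, p.Prime ∧ 100 < p) → ∀ (K : ℕ) (l x η : ℝ),
  1 ≤ l → 50 * l ≤ K → 0 < VV P → VV P ≤ l → |x| ≤ 20 * l → 4 ≤ η →
    ∫ θ, FF0 K x η (TP P θ) ∂(tor P) ≤
      12 * Real.exp (VV P / 4) * (η / Real.sqrt (VV P)) + Real.exp (-l)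

/-! ## Part B: the narrow bands -/

/-- SEB: the diagonal sum of the blocks `j ≥ 1`.
PROOF. `cN X lam S y` is `cf (1/2) y` or `0`, `cf (1/2) y ^ 2 ≤ cf (1/4) y` (`MO_cf_sq`); the `y` with
`Okd X lam (Ico 1 R) y` are composed of primes of `PU X R \ PB X 0` (the blocks are disjoint,
`MO_disj`); WSM(i) (or `stmt_SKE`) with `r = 1/4`. -/
def Stmt_SEB : Prop := ∀ (L : ℝ) (R : ℕ) (X lam : ℕ → ℝ), IsChain L R X lam → 1 ≤ R → ∀ Y : ℕ,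
  ∑ y ∈ Icc 1 Y, ‖cN X lam (Ico 1 R) y‖ ^ 2 / (y : ℝ) ≤
    Real.exp (1 / 4 * VV (PU X R \ PB X 0))

/-- VLB: the sums over the primes.
PROOF. (1) `PU X R ⊆ PA (X R)` and `MO_PA_sum`. (2) `PB X 0` is the set of all primes in `(100, X_1]`,
`log log X_1 = ell T - 2 log (ell T)`; MERL: `∑_{p ≤ X_1} 1/p ≥ ell T - 2 log(ell T) - C`, minus
`∑_{p ≤ 100} 1/p ≤ 100`: `≥ ell T / 2` for large `T`. (3) `sig` for `j = 0`, `lam 0 = ell T`.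
(4) `PU X R \ PB X 0` consists of primes in `(X_1, X_R]`; MER2: `≤ log(log X_R/log X_1) + C =
log(ell T ^ 2 / W) + C ≤ 2 log (ell T) + C ≤ 3 log (ell T)` for large `T`. -/
def Stmt_VLB : Prop := (∃ C : ℝ, 0 < C ∧ ∀ (L : ℝ) (R : ℕ) (X lam : ℕ → ℝ), IsChain L R X lam →
    Real.exp (1 / 4 * VV (PU X R)) ≤ C * Real.log (X R) ^ (1 / 4 : ℝ)) ∧
  ∀ δ : ℝ, ∃ T0 : ℝ, 1 < T0 ∧ ∀ (T W : ℝ) (R : ℕ) (X lam : ℕ → ℝ), T0 ≤ T → IsLB δ T W R X lam →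
    ell T / 2 ≤ VV (PB X 0) ∧ VV (PB X 0) ≤ ell T ∧
      VV (PU X R \ PB X 0) ≤ 3 * Real.log (ell T)

/-- ERB: the size of the error term of TRN in our case.
PROOF. Take logarithms, `L = log T`, `l = ell T` large. `1 + 2(1+|x|)/η ≤ 2 + 10 l` (as `η ≥ 4`);
`K_0 ≤ 51 l`, `log ⌊X_1⌋ ≤ L/l²`: `5 K_0 log ⌊X_1⌋ ≤ 255 L/l`; `1 + ∑_{p ∈ PB X 0} p^{-1/2} ≤
1 + X_1/10 ≤ X_1` (each term `≤ 1/10`, at most `X_1` terms): `(10 K_0) log X_1 ≤ 510 L/l`;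
`log Y ≤ log 2 + ∑ K_i log X_{i+1} ≤ log 2 + 51 δ L/100` (`MO_K_le`, `Sh`), and `Y` enters three
times. Total `≤ 1.53 δ L + 765 L/l + 10 l + 10 ≤ 2 δ L` for large `T`, while
`log(H/L) ≥ (1/2 + 4δ) L - log L ≥ 3 δ L`. -/
def Stmt_ERB : Prop := ∀ δ : ℝ, 0 < δ → δ ≤ 1 / 20 → ∃ T0 : ℝ, 1 < T0 ∧
  ∀ (T H W x η : ℝ) (R Y : ℕ) (X lam : ℕ → ℝ), T0 ≤ T → Adm δ T H → IsLB δ T W R X lam →
    |x| ≤ 20 * ell T → 4 ≤ η →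
    Y = ⌈Real.exp (∑ i ∈ range R, (KK lam i : ℝ) * Real.log (X (i + 1)))⌉₊ →
    Real.exp (1 + 2 * (1 + |x|) / η) * (2 * ((Y * ⌊X 1⌋₊ ^ (5 * KK lam 0) : ℕ) : ℝ) *
      (1 + ∑ p ∈ PB X 0, (Real.sqrt p)⁻¹) ^ (2 * (5 * KK lam 0)) * (Y : ℝ) ^ 2) ≤ H / Real.log T

/-- NBN: the mass of `|N|²` on a narrow band of `Re PP_0`.
PROOF. `K = KK lam 0 ≥ 50 ell T`. If `|Re PP_0 - x| ≤ η` then `1 ≤ 2 kap K ((Re PP_0 - x)/η)²` (SNC).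
`NN_R = EP K (PP_0/2) · NN_S`, `S = Ico 1 R`. So the integrand is `≤ 2 FF0 K x η (PP_0) ‖NN_S‖²`.
`NN_S = ∑_{y ∈ Icc 1 Y} cN y mo y t` (`Stmt_CO`, `Y` as in ERB), restrict to
`E = {y ∈ Icc 1 Y : cN y ≠ 0}`: its elements are prime to the primes of block 0. TRN with
`P = PB X 0`, `M = 5K`, `Y' = Y ⌊X_1⌋^{5K}` (`a ∈ SE P m` is a product of `m ≤ 5K` primes `≤ X_1`),
`B` and `IsPol` from POL, the error by ERB (`‖cN y‖ ≤ 1`, `√y ≥ 1`): `≤ H/log T`. Main term: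
`H · E FF0 · ∑ ‖cN‖²/y ≤ H (12 e^{V/4} η/√V + e^{-l}) e^{V'/4}` by MOD (`l = ell T`,
`V = VV (PB X 0)`) and SEB (`V' = VV (PU \ PB 0)`, `V + V' = VV (PU X R)`); VLB: `e^{(V+V')/4} ≤
C (log X_R)^{1/4} = C (L/W)^{1/4}`, `√V ≥ √(l/2)`, `e^{-l} = 1/L ≤ η/√l`, `e^{V/4} ≥ 1`. -/
def Stmt_NBN : Prop := ∀ δ : ℝ, 0 < δ → δ ≤ 1 / 20 → ∃ C T0 : ℝ, 0 < C ∧ 1 < T0 ∧
  ∀ (T H W x η : ℝ) (R : ℕ) (X lam : ℕ → ℝ), T0 ≤ T → Adm δ T H → IsLB δ T W R X lam →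
    |x| ≤ 20 * ell T → 4 ≤ η →
    ∫ t in T..(T + H), (if |(PP X 0 t).re - x| ≤ η then 1 else 0) *
        ‖NN X lam (range R) t‖ ^ 2 ≤
      C * H * (Real.log T / W) ^ (1 / 4 : ℝ) * (η / Real.sqrt (ell T))

/-- TLB: the blocks `j ≥ 1` are small in the mean.
PROOF. QMV with `q p = if p ∈ PB X 0 then 0 else 1`: `∑_{p ∈ PU} q p mo p t = ∑_{j ∈ Ico 1 R}
PP_j(t)` (the blocks are disjoint), `∑ ‖q‖²/p = ∑ ‖q‖/p = V' = VV (PU \ PB 0) ≤ 3 log (ell T)` (VLB),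
and `V' + V'^2 ≤ 12 log(ell T)^2` for large `T`; `log X_R = L/W`. -/
def Stmt_TLB : Prop := ∀ δ : ℝ, 0 < δ → δ ≤ 1 / 20 → ∃ C T0 : ℝ, 0 < C ∧ 1 < T0 ∧
  ∀ (T H W : ℝ) (R : ℕ) (X lam : ℕ → ℝ), T0 ≤ T → Adm δ T H → IsLB δ T W R X lam →
    ∫ t in T..(T + H), ‖NN X lam (range R) t‖ ^ 2 * ‖∑ j ∈ Ico 1 R, PP X j t‖ ^ 2 ≤
      C * H * (Real.log T / W) ^ (1 / 4 : ℝ) * Real.log (ell T) ^ 2

/-- NBZ: the mass of `|Z|` on a narrow band of `log |Z|`.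
PROOF. `l = ell T`, `η = l^{1/5} ≥ 4`, `W = l^{2/15}` (`W0 ≤ W ≤ log L = l`, `W ≤ L/5` for large
`T`), an `IsLB δ T W` chain from PARb. On the set `|log|Z| - x| ≤ η`: either `t` is bad, or
`|log|Z| - P| > η`, or `|P - x| ≤ 2η`; in the last case `|Re PP_0 - x| ≤ 3η` or
`‖∑_{j ≥ 1} PP_j‖ > η`. So the mass is at most
(i) `∫ (1-gd)|Z| ≤ C H L^{1/4} W^{-3/4}` (OFF);
(ii) `(1/η) ∫ gd|Z||log|Z| - P| ≤ (log W/η) ∫|Z| + C H L^{1/4} W^{-1/4}/η` (DEV);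
(iii) `∫ s |Z|·4‖MM‖‖NN‖` with `s` the indicator of `|Re PP_0 - x| ≤ 3η` (GDM: `gd ≤ 4‖MM‖‖NN‖`):
CSI, TWN, NBN with `3η`: `≤ C (H L^{1/4} W^{3/4} · H L^{1/4} W^{-1/4} η l^{-1/2})^{1/2} =
C H L^{1/4} W^{1/4} η^{1/2} l^{-1/4}`; if `|x| > 20 l` there are no such good points for large `T`
(good: `‖PP_0‖ ≤ K_0/5 ≤ 51 l/5`, and `51 l/5 + 3η < 20 l`);
(iv) `(1/η) ∫ |Z|·4‖MM‖‖NN‖ ‖∑_{j≥1} PP_j‖ ≤ (C/η) (H L^{1/4} W^{3/4} · H L^{1/4} W^{-1/4}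
(log l)²)^{1/2} = C H L^{1/4} W^{1/4} (log l)/η` (TLB, `MAINx.cs` or CSI).
Exponents of `l`: (i) `-1/10`; (ii) `log l · l^{-1/5}`; (iii) `1/30 + 1/10 - 1/4 = -7/60`;
(iv) `1/30 - 1/5` and `log l`: all `≤ C l^{-1/10}`; `H L^{1/4} ≤ C ∫|Z|` (LBFs). -/
def Stmt_NBZ : Prop := ∀ δ : ℝ, 0 < δ → δ ≤ 1 / 20 → ∃ C T0 : ℝ, 0 < C ∧ 1 < T0 ∧
  ∀ T H x : ℝ, T0 ≤ T → Adm δ T H →
    ∫ t in {t | t ∈ Set.Icc T (T + H) ∧ |Real.log |Z t| - x| ≤ ell T ^ (1 / 5 : ℝ)}, |Z t| ≤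
      C * ell T ^ (-(1 / 10) : ℝ) * ∫ t in T..(T + H), |Z t|

/-- LEV: one threshold.
PROOF. `η = l^{1/5}`, `κ = 1/η ≥ (log T)^{-1/2}` for large `T`. `F(y) = 1` for `y ≤ log b`, `0` for
`y ≥ log b + η`, `F(y) = 1 - (y - log b)/η` between (`F y = max 0 (min 1 (1 - (y - log b)/η))`,
Lipschitz constant `1/η`). BLA: `|∫ Z F(log|Z|)| ≤ C η^{-1/2} ∫|Z| = C l^{-1/10} ∫|Z|`. The
difference of `F(log|Z|)` and the indicator of `|Z| ≤ b` is between `0` and `1` and (where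
`Z ≠ 0`) supported on `|log|Z| - (log b + η/2)| ≤ η`: NBZ with `x = log b + η/2`. Where `Z = 0` the
integrands vanish. -/
def Stmt_LEV : Prop := ∀ δ : ℝ, 0 < δ → δ ≤ 1 / 20 → ∃ C T0 : ℝ, 0 < C ∧ 1 < T0 ∧
  ∀ T H b : ℝ, T0 ≤ T → Adm δ T H → 0 < b →
    |∫ t in {t | t ∈ Set.Icc T (T + H) ∧ |Z t| ≤ b}, Z t| ≤
      C * ell T ^ (-(1 / 10) : ℝ) * ∫ t in T..(T + H), |Z t|

end

end HZS
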